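import Pool.Agent.Rnd.Defs

/-! # The example: properties of the graph `Gam` (block of helper72)

(problem MP_564ab4_lc, project RND; proofs: /team-store/RND_Full_Proof.md, section 1) -/

namespace Rnd

open MeasureTheory

theorem Gam_irrefl (f : ℕ → ℕ) : ¬ Gam f f := by
  rintro ⟨⟨-, h⟩, -, h1 | h1⟩
  · exact h1.1 rfl
  · have h2 : Ar f f := h1.2.elim id id
    have h3 := (h2 0).1
    have h4 := h 0
    simp only [Nat.zero_add] at h3 h4
    omega

theorem Gam_symm {f g : ℕ → ℕ} (h : Gam f g) : Gam g f := by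
  obtain ⟨hf, hg, h1⟩ := h
  refine ⟨hg, hf, ?_⟩
  rcases h1 with ⟨h1, h2⟩ | ⟨h1, h2⟩
  · exact Or.inl ⟨h1.symm, fun n => (h2 n).symm⟩
  · exact Or.inr ⟨h1.symm, h2.symm⟩

private theorem cls2 {u v : (ℕ → ℕ) × (ℕ → ℕ) → ℕ} (hu : Continuous u) (hv : Continuous v)
    (R : ℕ → ℕ → Prop) : IsClosed {p | R (u p) (v p)} :=
  (isClosed_discrete {q : ℕ × ℕ | R q.1 q.2}).preimage (hu.prodMk hv)

private theorem clsAll {P : ℕ → (ℕ → ℕ) × (ℕ → ℕ) → Prop} (h : ∀ n, IsClosed {p | P n p}) :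
    IsClosed {p | ∀ n, P n p} := by
  have h1 : {p | ∀ n, P n p} = ⋂ n, {p | P n p} := by
    ext p
    simp only [Set.mem_ofPred_eq, Set.mem_iInter]
  rw [h1]
  exact isClosed_iInter h

theorem Gam_closed : IsClosed {p : (ℕ → ℕ) × (ℕ → ℕ) | Gam p.1 p.2} := by
  have c1 : ∀ n, Continuous fun p : (ℕ → ℕ) × (ℕ → ℕ) => p.1 n := fun n =>
    (continuous_apply n).comp continuous_fst
  have c2 : ∀ n, Continuous fun p : (ℕ → ℕ) × (ℕ → ℕ) => p.2 n := fun n =>
    (continuous_apply n).comp continuous_snd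
  have g1 : IsClosed {p : (ℕ → ℕ) × (ℕ → ℕ) | Gd p.1} :=
    (cls2 (c1 0) (c1 0) fun x _ => x < 6).and
      (clsAll fun n => cls2 (c1 (n + 1)) (c1 (n + 2)) fun x y => x < y)
  have g2 : IsClosed {p : (ℕ → ℕ) × (ℕ → ℕ) | Gd p.2} :=
    (cls2 (c2 0) (c2 0) fun x _ => x < 6).and
      (clsAll fun n => cls2 (c2 (n + 1)) (c2 (n + 2)) fun x y => x < y)
  have a1 : IsClosed {p : (ℕ → ℕ) × (ℕ → ℕ) | Ar p.1 p.2} :=
    clsAll fun n => (cls2 (c1 (n + 2)) (c2 (n + 1)) fun x y => x ≤ y).and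
      (cls2 (c2 (n + 1)) (c1 (n + 3)) fun x y => x ≤ y)
  have a2 : IsClosed {p : (ℕ → ℕ) × (ℕ → ℕ) | Ar p.2 p.1} :=
    clsAll fun n => (cls2 (c2 (n + 2)) (c1 (n + 1)) fun x y => x ≤ y).and
      (cls2 (c1 (n + 1)) (c2 (n + 3)) fun x y => x ≤ y)
  have e1 : IsClosed {p : (ℕ → ℕ) × (ℕ → ℕ) | p.1 0 ≠ p.2 0 ∧ ∀ n, p.1 (n + 1) = p.2 (n + 1)} :=
    (cls2 (c1 0) (c2 0) fun x y => x ≠ y).and
      (clsAll fun n => cls2 (c1 (n + 1)) (c2 (n + 1)) fun x y => x = y)
  exact g1.and (g2.and (e1.union ((cls2 (c1 0) (c2 0) fun x y => x = y).and (a1.union a2))))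

theorem Gam_meas : MeasurableSet {p : (ℕ → ℕ) × (ℕ → ℕ) | Gam p.1 p.2} :=
  Gam_closed.measurableSet

/-! ### The counting function -/

/-- the number of the elements `f (n + 1) < N` -/
private def cn (N : ℕ) (f : ℕ → ℕ) : ℕ := ((Finset.range N).filter fun n => f (n + 1) < N).card

private theorem lt_cn {f : ℕ → ℕ} (hf : Gd f) (N n : ℕ) : n < cn N f ↔ f (n + 1) < N := by
  have hs : StrictMono fun n => f (n + 1) := strictMono_nat_of_lt_succ hf.2
  have hex : ∃ m, N ≤ f (m + 1) := ⟨N, hs.le_apply⟩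
  classical
  have h1 : ∀ m, f (m + 1) < N ↔ m < Nat.find hex := by
    intro m
    constructor
    · intro h
      by_contra hcon
      have h2 := Nat.find_spec hex
      have h3 : f (Nat.find hex + 1) ≤ f (m + 1) := hs.monotone (not_lt.1 hcon)
      omega
    · intro h
      exact not_le.1 (Nat.find_min hex h)
  have h2 : Nat.find hex ≤ N := Nat.find_min' hex hs.le_apply
  have h3 : (Finset.range N).filter (fun n => f (n + 1) < N) = Finset.range (Nat.find hex) := by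
    ext m
    rw [Finset.mem_filter, Finset.mem_range, Finset.mem_range, h1 m]
    constructor
    · exact fun h => h.2
    · exact fun h => ⟨by omega, h⟩
  have h4 : cn N f = Nat.find hex := by
    unfold cn
    rw [h3, Finset.card_range]
  rw [h4, h1 n]

private theorem cn_ar {f g : ℕ → ℕ} (hf : Gd f) (hg : Gd g) (h : Ar f g) (N : ℕ) :
    cn N g ≤ cn N f - 1 ∧ cn N f ≤ cn N g + 2 := by
  constructor
  · by_contra hcon
    have h1 : cn N g - 1 < cn N g := by omega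
    have h2 := (lt_cn hg N _).1 h1
    have h3 := (h (cn N g - 1)).1
    have h4 : f (cn N g - 1 + 1 + 1) < N := lt_of_le_of_lt h3 h2
    have h5 := (lt_cn hf N _).2 h4
    omega
  · by_contra hcon
    have h1 : cn N g + 2 < cn N f := by omega
    have h2 := (lt_cn hf N _).1 h1
    have h3 := (h (cn N g)).2
    have h4 : g (cn N g + 1) < N := lt_of_le_of_lt h3 h2
    have h5 := (lt_cn hg N _).2 h4
    omega

private theorem cn_tail {f g : ℕ → ℕ} (h : ∀ n, f (n + 1) = g (n + 1)) (N : ℕ) :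
    cn N f = cn N g := by
  unfold cn
  simp only [h]

private theorem ev_meas (n : ℕ) (s : Set ℕ) : MeasurableSet {f : ℕ → ℕ | f n ∈ s} :=
  (measurable_pi_apply n : Measurable fun f : ℕ → ℕ => f n) (MeasurableSet.of_discrete (s := s))

private theorem cn_meas (N : ℕ) : Measurable (cn N) := by
  have h1 : cn N = fun f => ∑ n ∈ Finset.range N, if f (n + 1) < N then 1 else 0 := by
    funext f
    unfold cn
    rw [Finset.card_filter]
  rw [h1]
  refine Finset.measurable_sum _ fun n _ => ?_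
  refine Measurable.ite ?_ measurable_const measurable_const
  exact ev_meas (n + 1) {x | x < N}

/-! ### Levels -/

/-- `f` has level at most `n` -/
private def Uu (N : ℕ → ℕ) (n : ℕ) (f : ℕ → ℕ) : Prop := ∀ m, n ≤ m → 4 * m + 3 ≤ cn (N m) f + 2 * n

private theorem Uu_meas (N : ℕ → ℕ) (n : ℕ) : MeasurableSet {f | Uu N n f} := by
  have h1 : {f | Uu N n f} = ⋂ m, {f | n ≤ m → 4 * m + 3 ≤ cn (N m) f + 2 * n} := by
    ext f
    simp only [Uu, Set.mem_ofPred_eq, Set.mem_iInter]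
  rw [h1]
  refine MeasurableSet.iInter fun m => ?_
  exact cn_meas (N m)
    (MeasurableSet.of_discrete (s := {x : ℕ | n ≤ m → 4 * m + 3 ≤ x + 2 * n}))

private theorem Uu_ar {N : ℕ → ℕ} {n : ℕ} {f g : ℕ → ℕ} (hf : Gd f) (hg : Gd g) (h : Ar f g) :
    (Uu N n f → Uu N (n + 1) g) ∧ (Uu N n g → Uu N n f) := by
  constructor
  · intro h1 m hm
    have h2 := h1 m (by omega)
    have h3 := (cn_ar hf hg h (N m)).2
    omega
  · intro h1 m hm
    have h2 := h1 m hm
    have h3 := (cn_ar hf hg h (N m)).1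
    omega

private theorem Uu_tail {N : ℕ → ℕ} {n : ℕ} {f g : ℕ → ℕ} (h : ∀ n, f (n + 1) = g (n + 1)) :
    Uu N n f ↔ Uu N n g := by
  unfold Uu
  simp only [cn_tail h]

/-- the invariant set -/
private def Xx (N : ℕ → ℕ) : Set (ℕ → ℕ) := {f | Gd f → ∃ n, Uu N n f}

private theorem Xx_inv (N : ℕ → ℕ) {f g : ℕ → ℕ} (h : Gam f g) : f ∈ Xx N ↔ g ∈ Xx N := by
  have key : ∀ f g : ℕ → ℕ, Gam f g → f ∈ Xx N → g ∈ Xx N := by
    rintro f g ⟨hf, hg, h1⟩ h2 -
    obtain ⟨n, hn⟩ := h2 hf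
    rcases h1 with ⟨-, h1⟩ | ⟨-, h1 | h1⟩
    · exact ⟨n, (Uu_tail h1).1 hn⟩
    · exact ⟨n + 1, (Uu_ar hf hg h1).1 hn⟩
    · exact ⟨n, (Uu_ar hg hf h1).2 hn⟩
  exact ⟨key f g h, key g f (Gam_symm h)⟩

private theorem Gd_meas : MeasurableSet {f : ℕ → ℕ | Gd f} := by
  have h1 : {f : ℕ → ℕ | Gd f} = {f | f 0 < 6} ∩ ⋂ n, {f | f (n + 1) < f (n + 2)} := by
    ext f
    simp only [Gd, Set.mem_ofPred_eq, Set.mem_inter_iff, Set.mem_iInter]
  rw [h1]
  refine MeasurableSet.inter ?_ (MeasurableSet.iInter fun n => ?_)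
  · exact ev_meas 0 {x | x < 6}
  · exact measurableSet_lt (measurable_pi_apply (n + 1)) (measurable_pi_apply (n + 2))

private theorem Xx_meas (N : ℕ → ℕ) : MeasurableSet (Xx N) := by
  have h1 : Xx N = {f | Gd f}ᶜ ∪ ⋃ n, {f | Uu N n f} := by
    ext f
    simp only [Xx, Set.mem_ofPred_eq, Set.mem_union, Set.mem_compl_iff, Set.mem_iUnion]
    exact imp_iff_not_or
  rw [h1]
  exact Gd_meas.compl.union (MeasurableSet.iUnion fun n => Uu_meas N n)

private theorem lv_ex (N : ℕ → ℕ) (f : ℕ → ℕ) : ∃ n, Uu N n f ∨ ¬ ∃ j, Uu N j f := by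
  by_cases h : ∃ j, Uu N j f
  · obtain ⟨j, hj⟩ := h
    exact ⟨j, Or.inl hj⟩
  · exact ⟨0, Or.inr h⟩

open scoped Classical in
/-- the level -/
private noncomputable def lv (N : ℕ → ℕ) (f : ℕ → ℕ) : ℕ := Nat.find (lv_ex N f)

private theorem lv_meas (N : ℕ → ℕ) : Measurable (lv N) := by
  classical
  refine measurable_find (lv_ex N) fun k => ?_
  have h1 : {f | Uu N k f ∨ ¬ ∃ j, Uu N j f} = {f | Uu N k f} ∪ (⋃ j, {f | Uu N j f})ᶜ := by
    ext f
    simp only [Set.mem_ofPred_eq, Set.mem_union, Set.mem_compl_iff, Set.mem_iUnion]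
  rw [h1]
  exact (Uu_meas N k).union (MeasurableSet.iUnion fun n => Uu_meas N n).compl

private theorem lv_spec {N : ℕ → ℕ} {f : ℕ → ℕ} (h : ∃ j, Uu N j f) : Uu N (lv N f) f := by
  classical
  exact (Nat.find_spec (lv_ex N f)).resolve_right fun h1 => h1 h

private theorem lv_le {N : ℕ → ℕ} {f : ℕ → ℕ} {n : ℕ} (h : Uu N n f) : lv N f ≤ n := by
  classical
  exact Nat.find_min' (lv_ex N f) (Or.inl h)

private theorem lv_tail {N : ℕ → ℕ} {f g : ℕ → ℕ} (h : ∀ n, f (n + 1) = g (n + 1)) :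
    lv N f = lv N g := by
  unfold lv
  congr 1
  funext n
  simp only [Uu_tail h]

private theorem lv_ar {N : ℕ → ℕ} {f g : ℕ → ℕ} (hf : Gd f) (hg : Gd g) (h : Ar f g)
    (hX : ∃ j, Uu N j f) : lv N f ≤ lv N g ∧ lv N g ≤ lv N f + 1 := by
  have h1 := lv_spec hX
  have h2 : Uu N (lv N f + 1) g := (Uu_ar hf hg h).1 h1
  have h3 := lv_spec ⟨_, h2⟩
  exact ⟨lv_le ((Uu_ar hf hg h).2 h3), lv_le h2⟩

/-- the colouring -/
private noncomputable def cc (N : ℕ → ℕ) (f : ℕ → ℕ) : Fin 6 :=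
  ⟨(3 * (lv N f % 2) + cn (N (lv N f)) f % 3 + f 0) % 6, Nat.mod_lt _ (by omega)⟩

private theorem cc_meas (N : ℕ → ℕ) : Measurable (cc N) := by
  refine measurable_to_countable' fun k => ?_
  have h1 : cc N ⁻¹' {k} = ⋃ n, ({f | lv N f = n} ∩
      {f | (3 * (n % 2) + cn (N n) f % 3 + f 0) % 6 = k}) := by
    ext f
    simp only [Set.mem_preimage, Set.mem_singleton_iff, Set.mem_iUnion, Set.mem_inter_iff,
      Set.mem_ofPred_eq]
    constructor
    · intro h
      exact ⟨lv N f, rfl, congrArg Fin.val h⟩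
    · rintro ⟨n, rfl, h⟩
      exact Fin.ext h
  rw [h1]
  refine MeasurableSet.iUnion fun n => MeasurableSet.inter ?_ ?_
  · exact lv_meas N (measurableSet_singleton n)
  · exact ((cn_meas (N n)).prodMk (measurable_pi_apply 0))
      (MeasurableSet.of_discrete (s := {q : ℕ × ℕ | (3 * (n % 2) + q.1 % 3 + q.2) % 6 = k}))

private theorem cc_ar {N : ℕ → ℕ} {f g : ℕ → ℕ} (hf : Gd f) (hg : Gd g) (h : Ar f g)
    (h0 : f 0 = g 0) (hX : ∃ j, Uu N j f) : cc N f ≠ cc N g := by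
  intro h1
  have h2 : (3 * (lv N f % 2) + cn (N (lv N f)) f % 3 + f 0) % 6 =
      (3 * (lv N g % 2) + cn (N (lv N g)) g % 3 + g 0) % 6 := congrArg Fin.val h1
  have h3 := lv_ar hf hg h hX
  rcases Nat.lt_or_ge (lv N f) (lv N g) with h4 | h4
  · omega
  · have h5 : lv N g = lv N f := by omega
    rw [h5] at h2
    have h6 := lv_spec hX (lv N f) le_rfl
    have h7 := cn_ar hf hg h (N (lv N f))
    omega

private theorem cc_proper {N : ℕ → ℕ} {f g : ℕ → ℕ} (h : Gam f g) (hf : f ∈ Xx N) :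
    cc N f ≠ cc N g := by
  have hgX := (Xx_inv N h).1 hf
  obtain ⟨h1, h2, h3⟩ := h
  have hX := hf h1
  have hX' := hgX h2
  rcases h3 with ⟨h3, h4⟩ | ⟨h3, h4 | h4⟩
  · intro h5
    have h6 : (3 * (lv N f % 2) + cn (N (lv N f)) f % 3 + f 0) % 6 =
        (3 * (lv N g % 2) + cn (N (lv N g)) g % 3 + g 0) % 6 := congrArg Fin.val h5
    rw [← lv_tail h4, ← cn_tail h4] at h6
    have h7 := h1.1
    have h8 := h2.1
    omega
  · exact cc_ar h1 h2 h4 h3 hX
  · exact (cc_ar h2 h1 h4 h3.symm hX').symm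

private theorem mem_Xx {y f : ℕ → ℕ} (h : ∀ n, f n ≤ y n) :
    f ∈ Xx fun m => y (4 * m + 3) + 1 := by
  intro hf
  refine ⟨0, fun m _ => ?_⟩
  have h1 : 4 * m + 2 < cn (y (4 * m + 3) + 1) f :=
    (lt_cn hf _ _).2 (Nat.lt_succ_of_le (h (4 * m + 3)))
  change 4 * m + 3 ≤ cn (y (4 * m + 3) + 1) f + 2 * 0
  omega

private theorem ex_bound (ν : Measure (ℕ → ℕ)) [IsProbabilityMeasure ν] :
    ∃ y : ℕ → ℕ, 0 < ν {f | ∀ n, f n ≤ y n} := by
  obtain ⟨ε, hε, hs⟩ := ENNReal.exists_pos_sum_of_countable' (ε := 1) one_ne_zero ℕ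
  have h1 : ∀ n, ∃ k : ℕ, ν {f | k < f n} < ε n := by
    intro n
    have h2 : Filter.Tendsto (fun k : ℕ => ν {f : ℕ → ℕ | k < f n}) Filter.atTop
        (nhds (ν (⋂ k : ℕ, {f : ℕ → ℕ | k < f n}))) := by
      refine tendsto_measure_iInter_atTop (fun k => ?_) ?_ ⟨0, measure_ne_top ν _⟩
      · refine MeasurableSet.nullMeasurableSet ?_
        exact ev_meas n {x | k < x}
      · intro a b hab f hf
        exact lt_of_le_of_lt hab hf
    have h3 : (⋂ k : ℕ, {f : ℕ → ℕ | k < f n}) = ∅ := by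
      rw [Set.eq_empty_iff_forall_notMem]
      intro f hf
      have h4 : f n < f n := Set.mem_iInter.1 hf (f n)
      exact lt_irrefl _ h4
    rw [h3, measure_empty] at h2
    exact (h2.eventually_lt_const (hε n)).exists
  choose y hy using h1
  refine ⟨y, pos_iff_ne_zero.2 fun h2 => ?_⟩
  have h3 : (Set.univ : Set (ℕ → ℕ)) ⊆ {f | ∀ n, f n ≤ y n} ∪ ⋃ n, {f | y n < f n} := by
    intro f _
    by_cases h : ∀ n, f n ≤ y n
    · exact Or.inl h
    · push Not at h
      exact Or.inr (Set.mem_iUnion.2 h)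
  have h4 : (1 : ENNReal) ≤ ∑' n, ε n := by
    calc (1 : ENNReal) = ν Set.univ := (measure_univ).symm
      _ ≤ ν ({f | ∀ n, f n ≤ y n} ∪ ⋃ n, {f | y n < f n}) := measure_mono h3
      _ ≤ ν {f | ∀ n, f n ≤ y n} + ν (⋃ n, {f | y n < f n}) := measure_union_le _ _
      _ = ν (⋃ n, {f | y n < f n}) := by rw [h2, zero_add]
      _ ≤ ∑' n, ν {f | y n < f n} := measure_iUnion_le _
      _ ≤ ∑' n, ε n := ENNReal.tsum_le_tsum fun n => (hy n).le
  exact absurd hs (not_lt.2 h4)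

/-- (1.2)-(1.4): the condition (H) -/
theorem Gam_measCol : MeasCol Gam 6 := by
  intro ν hν
  obtain ⟨y, hy⟩ := ex_bound ν
  refine ⟨Xx fun m => y (4 * m + 3) + 1, cc fun m => y (4 * m + 3) + 1, Xx_meas _,
    fun f g h => Xx_inv _ h, cc_meas _, fun f hf g _ h => cc_proper h hf, ?_⟩
  exact hy.trans_le (measure_mono fun f hf => mem_Xx hf)

/-- (1.4) -/
theorem Gam_six : Colourable Gam 6 := by
  refine ⟨fun f => cc (Classical.epsilon fun N => f ∈ Xx N) f, fun f g h => ?_⟩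
  have h1 : (fun N => f ∈ Xx N) = fun N => g ∈ Xx N := funext fun N => propext (Xx_inv N h)
  have h2 : f ∈ Xx (Classical.epsilon fun N => f ∈ Xx N) :=
    Classical.epsilon_spec (p := fun N => f ∈ Xx N) ⟨_, mem_Xx (y := f) fun n => le_rfl⟩
  change cc (Classical.epsilon fun N => f ∈ Xx N) f ≠ cc (Classical.epsilon fun N => g ∈ Xx N) g
  rw [← h1]
  exact cc_proper h h2

theorem Gam_not_five : ¬ Colourable Gam 5 := by
  rintro ⟨c, hc⟩
  let p : Fin 6 → ℕ → ℕ := fun i n => if n = 0 then (i : ℕ) else n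
  have hp0 : ∀ i, p i 0 = i := fun i => rfl
  have hp1 : ∀ i n, p i (n + 1) = n + 1 := fun i n => rfl
  have hG : ∀ i, Gd (p i) := by
    intro i
    refine ⟨?_, fun n => ?_⟩
    · rw [hp0]
      exact i.2
    · rw [hp1, hp1 i (n + 1)]
      omega
  have hinj : Function.Injective fun i => c (p i) := by
    intro i j hij
    by_contra hne
    refine hc (p i) (p j) ⟨hG i, hG j, Or.inl ⟨?_, fun n => rfl⟩⟩ hij
    rw [hp0, hp0]
    exact fun h => hne (Fin.ext h)
  have h1 := Fintype.card_le_of_injective _ hinj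
  simp only [Fintype.card_fin] at h1
  omega

private def fA (a : ℕ → Bool) : ℕ → ℕ
  | 0 => 0
  | n + 1 => 4 * n + (a n).toNat

private def gB (b : ℕ → Bool) : ℕ → ℕ
  | 0 => 0
  | n + 1 => 4 * n + 6 + (b n).toNat

private theorem bl (x : Bool) : x.toNat ≤ 1 := by cases x <;> decide

private theorem Gam_AB (a b : ℕ → Bool) : Gam (fA a) (gB b) := by
  refine ⟨⟨?_, fun n => ?_⟩, ⟨?_, fun n => ?_⟩, Or.inr ⟨rfl, Or.inl fun n => ⟨?_, ?_⟩⟩⟩
  · change 0 < 6
    omega
  · change 4 * n + (a n).toNat < 4 * (n + 1) + (a (n + 1)).toNat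
    have := bl (a n)
    omega
  · change 0 < 6
    omega
  · change 4 * n + 6 + (b n).toNat < 4 * (n + 1) + 6 + (b (n + 1)).toNat
    have := bl (b n)
    omega
  · change 4 * (n + 1) + (a (n + 1)).toNat ≤ 4 * n + 6 + (b n).toNat
    have := bl (a (n + 1))
    omega
  · change 4 * n + 6 + (b n).toNat ≤ 4 * (n + 2) + (a (n + 2)).toNat
    have := bl (b n)
    omega

private theorem toNat_inj' {x y : Bool} (h : x.toNat = y.toNat) : x = y := by
  revert h
  cases x <;> cases y <;> decide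

private theorem fA_inj : Function.Injective fA := by
  intro a a' h
  funext n
  have h1 : 4 * n + (a n).toNat = 4 * n + (a' n).toNat := congrFun h (n + 1)
  exact toNat_inj' (by omega)

private theorem gB_inj : Function.Injective gB := by
  intro a a' h
  funext n
  have h1 : 4 * n + 6 + (a n).toNat = 4 * n + 6 + (a' n).toNat := congrFun h (n + 1)
  exact toNat_inj' (by omega)

private theorem not_countable_bool : ¬ Countable (ℕ → Bool) := by
  intro h
  obtain ⟨s, hs⟩ := exists_surjective_nat (ℕ → Bool)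
  obtain ⟨n, hn⟩ := hs fun n => !(s n n)
  have h1 : s n n = !(s n n) := congrFun hn n
  revert h1
  cases s n n <;> decide

/-- (1.5) -/
theorem Gam_uncountable : ¬ CtblColNumber Gam := by
  rintro ⟨r, hr, hfin⟩
  let ak : ℕ → ℕ → Bool := fun k n => decide (n = k)
  have hak : Function.Injective ak := by
    intro k l h
    have h1 : decide (k = k) = decide (k = l) := congrFun h k
    simpa using h1
  let T : ℕ → Set (ℕ → ℕ) := fun k => {x | Gam x (fA (ak k)) ∧ r x (fA (ak k))}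
  have hT : (⋃ k, T k).Countable := Set.countable_iUnion fun k => (hfin _).countable
  have h1 : ∀ b, gB b ∈ ⋃ k, T k := by
    intro b
    by_contra hcon
    have h2 : ∀ k, r (fA (ak k)) (gB b) := by
      intro k
      have h3 : ¬ r (gB b) (fA (ak k)) := fun h => hcon (Set.mem_iUnion.2
        ⟨k, Gam_symm (Gam_AB _ _), h⟩)
      rcases trichotomous_of r (fA (ak k)) (gB b) with h4 | h4 | h4
      · exact h4
      · exfalso
        have h5 := Gam_AB (ak k) b
        rw [h4] at h5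
        exact Gam_irrefl _ h5
      · exact absurd h4 h3
    have h3 : (Set.range fun k => fA (ak k)) ⊆ {x | Gam x (gB b) ∧ r x (gB b)} := by
      rintro x ⟨k, rfl⟩
      exact ⟨Gam_AB _ _, h2 k⟩
    exact Set.infinite_range_of_injective (fA_inj.comp hak) ((hfin (gB b)).subset h3)
  have h2 : (Set.range gB).Countable := hT.mono (by
    rintro x ⟨b, rfl⟩
    exact h1 b)
  have h3 : Countable (Set.range gB) := h2.to_subtype
  refine not_countable_bool ?_
  exact Function.Injective.countable (f := fun b => (⟨gB b, b, rfl⟩ : Set.range gB)) fun b b' h =>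
    gB_inj (congrArg Subtype.val h)

end Rnd
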