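import Mathlib

set_option autoImplicit false

/-! # Fusion for infinite sets of natural numbers, stems -/

namespace Rnd

/-- strictly increasing sequences in `A` -/
def Inc (A : Set ℕ) (s : ℕ → ℕ) : Prop := StrictMono s ∧ ∀ n, s n ∈ A

/-- `A` is homogeneous for `X` -/
def Hom (X : Set (ℕ → ℕ)) (A : Set ℕ) : Prop := (∀ s, Inc A s → s ∈ X) ∨ ∀ s, Inc A s → s ∉ X

theorem Inc.mono {A B : Set ℕ} (h : B ⊆ A) {s : ℕ → ℕ} (hs : Inc B s) : Inc A s :=
  ⟨hs.1, fun n => h (hs.2 n)⟩

theorem Hom.mono {X : Set (ℕ → ℕ)} {A B : Set ℕ} (h : B ⊆ A) (hX : Hom X A) : Hom X B :=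
  hX.imp (fun h1 s hs => h1 s (hs.mono h)) fun h1 s hs => h1 s (hs.mono h)

theorem Inc.shift {A : Set ℕ} {s : ℕ → ℕ} (hs : Inc A s) (k : ℕ) :
    Inc A (fun n => s (n + k)) :=
  ⟨fun m n hmn => hs.1 (by omega), fun n => hs.2 _⟩

/-- an infinite set is the range of a strictly increasing sequence -/
theorem exists_enum {A : Set ℕ} (hA : A.Infinite) :
    ∃ h : ℕ → ℕ, StrictMono h ∧ Set.range h = A := by
  classical
  have : Infinite A := hA.to_subtype
  refine ⟨fun n => ((Nat.orderEmbeddingOfSet A n : ℕ)), (Nat.orderEmbeddingOfSet A).strictMono,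
    ?_⟩
  have h1 := Nat.orderEmbeddingOfSet_range A
  exact h1

private theorem dense_fin {P : Finset ℕ → Set ℕ → Prop}
    (hher : ∀ u A B, B ⊆ A → P u A → P u B)
    (hden : ∀ u A, A.Infinite → ∃ B ⊆ A, B.Infinite ∧ P u B) (U : Finset (Finset ℕ))
    {A : Set ℕ} (hA : A.Infinite) : ∃ B ⊆ A, B.Infinite ∧ ∀ u ∈ U, P u B := by
  classical
  induction U using Finset.induction_on with
  | empty => exact ⟨A, subset_rfl, hA, fun u hu => absurd hu (Finset.notMem_empty u)⟩
  | insert u U _ ih =>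
    obtain ⟨B, hBA, hB, h1⟩ := ih
    obtain ⟨B', hB', hBi, h2⟩ := hden u B hB
    refine ⟨B', hB'.trans hBA, hBi, fun v hv => ?_⟩
    rcases Finset.mem_insert.1 hv with rfl | hv
    · exact h2
    · exact hher v B B' hB' (h1 v hv)

/-- the states of the fusion -/
private def St (P : Finset ℕ → Set ℕ → Prop) : Type :=
  {p : Finset ℕ × Set ℕ // p.2.Infinite ∧ ∀ u ⊆ p.1, P u p.2}

theorem fusion {P : Finset ℕ → Set ℕ → Prop}
    (hher : ∀ u A B, B ⊆ A → P u A → P u B)
    (hden : ∀ u A, A.Infinite → ∃ B ⊆ A, B.Infinite ∧ P u B)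
    {A : Set ℕ} (hA : A.Infinite) :
    ∃ B ⊆ A, B.Infinite ∧ ∀ u : Finset ℕ, ↑u ⊆ B → P u {n | n ∈ B ∧ ∀ m ∈ u, m < n} := by
  classical
  obtain ⟨A₀, hA₀, hA₀i, hP₀⟩ := hden ∅ A hA
  let p₀ : St P := ⟨(∅, A₀), hA₀i, fun u hu => by rw [Finset.subset_empty.1 hu]; exact hP₀⟩
  have hstep : ∀ p : St P, ∃ (h : ℕ) (q : St P), h ∈ p.1.2 ∧ q.1.1 = insert h p.1.1 ∧
      q.1.2 ⊆ p.1.2 ∧ ∀ n ∈ q.1.2, h < n := by
    rintro ⟨⟨F, A'⟩, hi, hP⟩
    obtain ⟨h, hh⟩ := hi.nonempty
    have hi' : (A' ∩ Set.Ioi h).Infinite := by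
      have h1 : A' \ Set.Iic h ⊆ A' ∩ Set.Ioi h := fun x hx =>
        ⟨hx.1, Set.mem_Ioi.2 (lt_of_not_ge fun h6 => hx.2 h6)⟩
      exact (hi.sdiff (Set.finite_Iic h)).mono h1
    obtain ⟨B, hB, hBi, hPB⟩ := dense_fin hher hden (insert h F).powerset hi'
    refine ⟨h, ⟨(insert h F, B), hBi, fun u hu => hPB u (Finset.mem_powerset.2 hu)⟩, hh, rfl,
      fun x hx => (hB hx).1, fun n hn => (hB hn).2⟩
  choose elt nxt h1 h2 h3 h4 using hstep
  let sq : ℕ → St P := fun n => nxt^[n] p₀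
  have hsq : ∀ n, sq (n + 1) = nxt (sq n) := fun n => Function.iterate_succ_apply' nxt n p₀
  set h : ℕ → ℕ := fun n => elt (sq n) with hh
  have hanti : ∀ n j, (sq (n + j)).1.2 ⊆ (sq n).1.2 := by
    intro n j
    induction j with
    | zero => exact subset_rfl
    | succ j ih =>
      rw [← add_assoc, hsq]
      exact (h3 _).trans ih
  have hmem : ∀ n j, h (n + j) ∈ (sq n).1.2 := fun n j => hanti n j (h1 _)
  have hmono : StrictMono h := by
    refine strictMono_nat_of_lt_succ fun n => ?_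
    have h5 : h (n + 1) ∈ (nxt (sq n)).1.2 := by
      rw [← hsq]
      exact h1 _
    exact h4 _ _ h5
  have hF : ∀ n, (sq n).1.1 = (Finset.range n).image h := by
    intro n
    induction n with
    | zero => rfl
    | succ n ih => rw [hsq, h2, ih, Finset.range_add_one, Finset.image_insert]
  refine ⟨Set.range h, ?_, Set.infinite_range_of_injective hmono.injective, fun u hu => ?_⟩
  · rintro _ ⟨n, rfl⟩
    have h5 := hmem 0 n
    rw [zero_add] at h5
    exact hA₀ h5
  · obtain ⟨n, hn1, hn2⟩ : ∃ n, u ⊆ (Finset.range n).image h ∧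
        {b | b ∈ Set.range h ∧ ∀ m ∈ u, m < b} ⊆ (sq n).1.2 := by
      rcases u.eq_empty_or_nonempty with rfl | hne
      · refine ⟨0, Finset.empty_subset _, ?_⟩
        rintro _ ⟨⟨n, rfl⟩, -⟩
        have h5 := hmem 0 n
        rwa [zero_add] at h5
      · obtain ⟨k, hk⟩ := hu (Finset.max'_mem u hne)
        refine ⟨k + 1, fun m hm => ?_, ?_⟩
        · obtain ⟨j, rfl⟩ := hu hm
          have h5 : h j ≤ h k := by
            rw [hk]
            exact Finset.le_max' u _ hm
          have h6 : j ≤ k := hmono.le_iff_le.1 h5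
          exact Finset.mem_image_of_mem h (Finset.mem_range.2 (by omega))
        · rintro _ ⟨⟨j, rfl⟩, hj⟩
          have h5 : h k < h j := by
            rw [hk]
            exact hj _ (Finset.max'_mem u hne)
          have h6 : k < j := hmono.lt_iff_lt.1 h5
          obtain ⟨i, rfl⟩ := Nat.exists_eq_add_of_le (Nat.succ_le_of_lt h6)
          exact hmem (k + 1) i
    refine hher u _ _ hn2 ((sq n).2.2 u ?_)
    rw [hF]
    exact hn1

/-- the elements of `u`, followed by the sequence `s` -/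
def cat (u : Finset ℕ) (s : ℕ → ℕ) : ℕ → ℕ := fun n =>
  if h : n < u.card then u.orderEmbOfFin rfl ⟨n, h⟩ else s (n - u.card)

theorem measurable_cat (u : Finset ℕ) : Measurable (cat u) := by
  refine measurable_pi_lambda _ fun n => ?_
  by_cases h : n < u.card
  · simp only [cat, dif_pos h]
    exact measurable_const
  · simp only [cat, dif_neg h]
    exact measurable_pi_apply _

theorem strictMono_cat {u : Finset ℕ} {s : ℕ → ℕ} (hs : StrictMono s) (h : ∀ m ∈ u, m < s 0) :
    StrictMono (cat u s) := by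
  intro a b hab
  unfold cat
  by_cases hb : b < u.card
  · have ha : a < u.card := by omega
    rw [dif_pos hb, dif_pos ha]
    exact (u.orderEmbOfFin rfl).strictMono (by simpa using hab)
  · rw [dif_neg hb]
    by_cases ha : a < u.card
    · rw [dif_pos ha]
      exact (h _ (Finset.orderEmbOfFin_mem u rfl _)).trans_le (hs.monotone (Nat.zero_le _))
    · rw [dif_neg ha]
      exact hs (by omega)

theorem range_cat (u : Finset ℕ) (s : ℕ → ℕ) : Set.range (cat u s) = ↑u ∪ Set.range s := by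
  ext x
  constructor
  · rintro ⟨n, rfl⟩
    unfold cat
    by_cases h : n < u.card
    · rw [dif_pos h]
      exact Or.inl (Finset.orderEmbOfFin_mem u rfl _)
    · rw [dif_neg h]
      exact Or.inr ⟨_, rfl⟩
  · rintro (hx | ⟨n, rfl⟩)
    · have h1 := Finset.range_orderEmbOfFin u rfl
      rw [← h1] at hx
      obtain ⟨i, rfl⟩ := hx
      refine ⟨i, ?_⟩
      unfold cat
      rw [dif_pos i.2]
    · refine ⟨n + u.card, ?_⟩
      unfold cat
      rw [dif_neg (by omega), Nat.add_sub_cancel]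

theorem range_split (g : ℕ → ℕ) (k : ℕ) :
    Set.range g = ↑((Finset.range k).image g) ∪ Set.range fun n => g (n + k) := by
  ext x
  rw [Set.mem_union, Finset.mem_coe, Finset.mem_image]
  constructor
  · rintro ⟨n, rfl⟩
    by_cases h : n < k
    · exact Or.inl ⟨n, Finset.mem_range.2 h, rfl⟩
    · exact Or.inr ⟨n - k, by simp only; congr 1; omega⟩
  · rintro (⟨n, -, rfl⟩ | ⟨n, rfl⟩)
    · exact ⟨n, rfl⟩
    · exact ⟨n + k, rfl⟩

/-- A sequence is its first part followed by its second part. -/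
theorem eq_cat {g : ℕ → ℕ} (hg : StrictMono g) (k : ℕ) :
    cat ((Finset.range k).image g) (fun n => g (n + k)) = g := by
  refine (StrictMono.range_inj (strictMono_cat ?_ ?_) hg).1 ?_
  · exact fun m n hmn => hg (by omega)
  · intro m hm
    obtain ⟨j, hj, rfl⟩ := Finset.mem_image.1 hm
    have := Finset.mem_range.1 hj
    exact hg (by omega)
  · rw [range_cat, ← range_split]

/-- The first part of `cat u s`. -/
theorem image_cat {u : Finset ℕ} {s : ℕ → ℕ} : (Finset.range u.card).image (cat u s) = u := by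
  ext x
  rw [Finset.mem_image]
  constructor
  · rintro ⟨n, hn, rfl⟩
    rw [Finset.mem_range] at hn
    unfold cat
    rw [dif_pos hn]
    exact Finset.orderEmbOfFin_mem u rfl _
  · intro hx
    have h1 := Finset.range_orderEmbOfFin u rfl
    have hx' : x ∈ (u : Set ℕ) := hx
    rw [← h1] at hx'
    obtain ⟨i, rfl⟩ := hx'
    refine ⟨i, Finset.mem_range.2 i.2, ?_⟩
    unfold cat
    rw [dif_pos i.2]

theorem Inc.cat {B : Set ℕ} {u : Finset ℕ} {s : ℕ → ℕ} (hu : ↑u ⊆ B)
    (hs : Inc {n | n ∈ B ∧ ∀ m ∈ u, m < n} s) : Inc B (cat u s) := by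
  refine ⟨strictMono_cat hs.1 fun m hm => (hs.2 0).2 m hm, fun n => ?_⟩
  have h1 : Rnd.cat u s n ∈ Set.range (Rnd.cat u s) := ⟨n, rfl⟩
  rw [range_cat] at h1
  rcases h1 with h2 | ⟨k, hk⟩
  · exact hu h2
  · rw [← hk]
    exact (hs.2 k).1

end Rnd
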