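import Pool.Agent.Rnd.GP
import Pool.Agent.Rnd.RmkA

set_option autoImplicit false

/-! # Stems, the two types of a stem -/

namespace Rnd

theorem gp_rel {X : Set (ℕ → ℕ)} (hX : MeasurableSet X) {A : Set ℕ} (hA : A.Infinite) :
    ∃ B ⊆ A, B.Infinite ∧ Hom X B := by
  obtain ⟨h, hh, hr⟩ := exists_enum hA
  have hmeas : Measurable fun f : ℕ → ℕ => h ∘ f := by
    refine measurable_pi_lambda _ fun n => ?_
    exact (measurable_from_top (f := h)).comp (measurable_pi_apply n)
  obtain ⟨g, hg, hgX⟩ := galvin_prikry (hmeas hX)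
  have hhg : StrictMono (h ∘ g) := hh.comp hg
  refine ⟨Set.range (h ∘ g), ?_, Set.infinite_range_of_injective hhg.injective, ?_⟩
  · rw [← hr]
    exact Set.range_comp_subset_range g h
  have key : ∀ s, Inc (Set.range (h ∘ g)) s → ∃ t, StrictMono t ∧ s = h ∘ (g ∘ t) := by
    intro s hs
    choose t ht using hs.2
    refine ⟨t, fun m n hmn => hhg.lt_iff_lt.1 ?_, funext fun n => (ht n).symm⟩
    rw [ht, ht]
    exact hs.1 hmn
  rcases hgX with h1 | h1
  · left
    intro s hs
    obtain ⟨t, ht, rfl⟩ := key s hs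
    exact h1 t ht
  · right
    intro s hs
    obtain ⟨t, ht, rfl⟩ := key s hs
    exact h1 t ht

theorem gp_fin {X : ℕ → Set (ℕ → ℕ)} (hX : ∀ i, MeasurableSet (X i)) (n : ℕ) {A : Set ℕ}
    (hA : A.Infinite) : ∃ B ⊆ A, B.Infinite ∧ ∀ i < n, Hom (X i) B := by
  induction n with
  | zero => exact ⟨A, subset_rfl, hA, fun i hi => absurd hi (by omega)⟩
  | succ n ih =>
    obtain ⟨B, hBA, hB, h1⟩ := ih
    obtain ⟨B', hB', hBi, h2⟩ := gp_rel (hX n) hB
    refine ⟨B', hB'.trans hBA, hBi, fun i hi => ?_⟩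
    rcases Nat.lt_succ_iff_lt_or_eq.1 hi with h3 | rfl
    · exact (h1 i h3).mono hB'
    · exact h2

/-- the terms with even index -/
def ev (t : ℕ → ℕ) : ℕ → ℕ := fun n => t (2 * n)

/-- the terms with odd index -/
def od (t : ℕ → ℕ) : ℕ → ℕ := fun n => t (2 * n + 1)

theorem measurable_ev : Measurable ev := measurable_pi_lambda _ fun _ => measurable_pi_apply _

theorem measurable_od : Measurable od := measurable_pi_lambda _ fun _ => measurable_pi_apply _

/-- The sparse subset: a function invariant under interleaving moves is invariant under the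
shift. -/
theorem exists_sparse {Z : Type} {χ : (ℕ → ℕ) → Z} {B : Set ℕ} (hB : B.Infinite)
    (h : ∀ t, Inc B t → χ (ev t) = χ (od t)) :
    ∃ B' ⊆ B, B'.Infinite ∧ ∀ s, Inc B' s → ∀ k, χ (fun n => s (n + k)) = χ s := by
  obtain ⟨b, hb, hr⟩ := exists_enum hB
  have hb2 : StrictMono fun n => b (2 * n) := fun m n hmn => hb (by omega)
  refine ⟨Set.range fun n => b (2 * n), ?_, Set.infinite_range_of_injective hb2.injective, ?_⟩
  · rintro _ ⟨n, rfl⟩
    rw [← hr]
    exact ⟨_, rfl⟩
  have h1 : ∀ s, Inc (Set.range fun n => b (2 * n)) s → χ (fun n => s (n + 1)) = χ s := by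
    intro s hs
    choose i hi using hs.2
    simp only at hi
    have him : StrictMono i := fun m n hmn => hb2.lt_iff_lt.1 (by
      rw [hi, hi]
      exact hs.1 hmn)
    let t : ℕ → ℕ := fun n => b (2 * i (n / 2) + n % 2)
    have ht : Inc B t := by
      refine ⟨strictMono_nat_of_lt_succ fun n => hb ?_, fun n => by rw [← hr]; exact ⟨_, rfl⟩⟩
      rcases Nat.even_or_odd' n with ⟨k, rfl | rfl⟩
      · have e1 : 2 * k / 2 = k := by omega
        have e2 : (2 * k + 1) / 2 = k := by omega
        rw [e1, e2]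
        omega
      · have e1 : (2 * k + 1) / 2 = k := by omega
        have e2 : (2 * k + 1 + 1) / 2 = k + 1 := by omega
        have e3 := him (Nat.lt_succ_self k)
        rw [e1, e2]
        have e4 : i k.succ = i (k + 1) := rfl
        omega
    have e1 : ev t = s := by
      funext n
      show b (2 * i (2 * n / 2) + 2 * n % 2) = s n
      have e1 : 2 * n / 2 = n := by omega
      have e2 : 2 * n % 2 = 0 := by omega
      rw [e1, e2, add_zero, hi]
    have e2 := h t ht
    have e3 := h _ (ht.shift 1)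
    have e4 : ev (fun n => t (n + 1)) = od t := rfl
    have e5 : od (fun n => t (n + 1)) = fun n => s (n + 1) := by
      rw [← e1]
      funext n
      show t (2 * n + 1 + 1) = t (2 * (n + 1))
      congr 1
    rw [e4, e5] at e3
    rw [← e3, ← e2, e1]
  intro s hs k
  induction k with
  | zero => rfl
  | succ k ih =>
    rw [← ih]
    have h2 := h1 _ (hs.shift k)
    rw [← h2]
    congr 1
    funext n
    congr 1
    omega

/-- A measurable function which is invariant under the shift is constant on a subset. -/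
theorem exists_const {χ : (ℕ → ℕ) → ℕ → Bool} (hχ : Measurable χ) {B : Set ℕ}
    (hB : B.Infinite) (h : ∀ s, Inc B s → ∀ k, χ (fun n => s (n + k)) = χ s) :
    ∃ B' ⊆ B, B'.Infinite ∧ ∃ z, ∀ s, Inc B' s → χ s = z := by
  classical
  let X : ℕ → Set (ℕ → ℕ) := fun i => {s | χ s i = true}
  have hX : ∀ i, MeasurableSet (X i) := fun i =>
    ((measurable_pi_apply i).comp hχ) (measurableSet_singleton true)
  obtain ⟨B', hB', hBi, h1⟩ := fusion (P := fun u A => ∀ i < u.card, Hom (X i) A)
    (fun u A A' hA h2 i hi => (h2 i hi).mono hA) (fun u A hA => gp_fin hX u.card hA) hB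
  obtain ⟨b, hb, hr⟩ := exists_enum hBi
  have key : ∀ i, ∃ v : Bool, ∀ s, Inc B' s → χ s i = v := by
    intro i
    have hcard : ((Finset.range (i + 1)).image b).card = i + 1 := by
      rw [Finset.card_image_of_injective _ hb.injective, Finset.card_range]
    have h2 := h1 ((Finset.range (i + 1)).image b) (by
      intro x hx
      rw [Finset.mem_coe, Finset.mem_image] at hx
      obtain ⟨j, -, rfl⟩ := hx
      rw [← hr]
      exact ⟨j, rfl⟩) i (by omega)
    have h3 : ∀ s, Inc B' s → Inc {n | n ∈ B' ∧ ∀ m ∈ (Finset.range (i + 1)).image b, m < n}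
        (fun n => s (n + (b i + 1))) := by
      intro s hs
      refine ⟨(hs.shift (b i + 1)).1, fun n => ⟨hs.2 _, fun m hm => ?_⟩⟩
      obtain ⟨j, hj, rfl⟩ := Finset.mem_image.1 hm
      rw [Finset.mem_range] at hj
      have h4 : b j ≤ b i := hb.monotone (by omega)
      have h5 := hs.1.le_apply (x := n + (b i + 1))
      show b j < s (n + (b i + 1))
      omega
    rcases h2 with h2 | h2
    · refine ⟨true, fun s hs => ?_⟩
      rw [← h s (hs.mono hB') (b i + 1)]
      exact h2 _ (h3 s hs)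
    · refine ⟨false, fun s hs => ?_⟩
      rw [← h s (hs.mono hB') (b i + 1)]
      have h4 := h2 _ (h3 s hs)
      exact Bool.eq_false_iff.2 h4
  choose v hv using key
  exact ⟨B', hB', hBi, v, fun s hs => funext fun i => hv i s hs⟩

/-- The two types. -/
theorem two_types {Z : Type} [TopologicalSpace Z] [PolishSpace Z] [MeasurableSpace Z]
    [BorelSpace Z] {χ : (ℕ → ℕ) → Z} (hχ : Measurable χ) {A : Set ℕ} (hA : A.Infinite) :
    ∃ B ⊆ A, B.Infinite ∧ ((∃ z, ∀ s, Inc B s → χ s = z) ∨
      ∀ s, Inc B s → χ (ev s) ≠ χ (od s)) := by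
  have hX : MeasurableSet {s : ℕ → ℕ | χ (ev s) = χ (od s)} :=
    measurableSet_eq_fun (hχ.comp measurable_ev) (hχ.comp measurable_od)
  obtain ⟨B, hB, hBi, h1 | h1⟩ := gp_rel hX hA
  · obtain ⟨B₁, hB₁, hB₁i, h2⟩ := exists_sparse hBi h1
    obtain ⟨f, hf, hfi⟩ := MeasurableSpace.measurable_injection_nat_bool_of_countablySeparated Z
    obtain ⟨B₂, hB₂, hB₂i, z, hz⟩ := exists_const (χ := f ∘ χ) (hf.comp hχ) hB₁i
      fun s hs k => congrArg f (h2 s hs k)
    refine ⟨B₂, (hB₂.trans hB₁).trans hB, hB₂i, Or.inl ?_⟩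
    obtain ⟨b, hb, hr⟩ := exists_enum hB₂i
    refine ⟨χ b, fun s hs => hfi ?_⟩
    have h3 := hz s hs
    have h4 := hz b ⟨hb, fun n => by rw [← hr]; exact ⟨n, rfl⟩⟩
    exact h3.trans h4.symm
  · exact ⟨B, hB, hBi, Or.inr h1⟩

end Rnd
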