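import Pool.Agent.Rnd.Defs
import Pool.Agent.Rnd.RmkB

set_option autoImplicit false

/-! # The graph `Gam` has no Borel homomorphism to a locally countable graph with a finite
colouring -/

namespace Rnd

/-- the binary numbers with the digits `1, x 0, x 1, ...` -/
private def bn (x : ℕ → Bool) : ℕ → ℕ
  | 0 => 1
  | n + 1 => 2 * bn x n + (x n).toNat

private theorem bn_lt (x : ℕ → Bool) (n : ℕ) : 2 ^ n ≤ bn x n ∧ bn x n < 2 ^ (n + 1) := by
  induction n with
  | zero => simp [bn]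
  | succ n ih =>
    have h1 : bn x (n + 1) = 2 * bn x n + (x n).toNat := rfl
    have h2 := (x n).toNat_le
    have h3 : 2 ^ (n + 1) = 2 * 2 ^ n := by ring
    have h4 : 2 ^ (n + 1 + 1) = 2 * 2 ^ (n + 1) := by ring
    omega

private theorem bn_congr {x y : ℕ → Bool} {n : ℕ} (h : ∀ i < n, x i = y i) :
    ∀ k ≤ n, bn x k = bn y k := by
  intro k hk
  induction k with
  | zero => rfl
  | succ k ih =>
    have h1 : bn x (k + 1) = 2 * bn x k + (x k).toNat := rfl
    have h2 : bn y (k + 1) = 2 * bn y k + (y k).toNat := rfl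
    rw [h1, h2, ih (by omega), h k (by omega)]

private theorem bn_mono {x y : ℕ → Bool} {k : ℕ} (h : bn x k < bn y k) (n : ℕ) :
    bn x (k + n) < bn y (k + n) := by
  induction n with
  | zero => exact h
  | succ n ih =>
    have h1 : bn x (k + n + 1) = 2 * bn x (k + n) + (x (k + n)).toNat := rfl
    have h2 : bn y (k + n + 1) = 2 * bn y (k + n) + (y (k + n)).toNat := rfl
    have h3 := (x (k + n)).toNat_le
    rw [← add_assoc, h1, h2]
    omega

private theorem bn_strictMono (x : ℕ → Bool) : StrictMono (bn x) :=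
  strictMono_nat_of_lt_succ fun n => (bn_lt x n).2.trans_le (bn_lt x (n + 1)).1

private theorem not_countable_bool : ¬ Countable (ℕ → Bool) := by
  intro h
  obtain ⟨f, hf⟩ := h.exists_injective_nat
  classical
  refine Function.cantor_injective (fun S : Set ℕ => f fun n => decide (n ∈ S)) ?_
  intro S T hST
  have h1 := hf hST
  ext n
  have h2 := congrFun h1 n
  simpa using h2

private theorem split_ne {Z : Type} {ψ : (ℕ → ℕ) → Z} {B : Set ℕ} {b : ℕ → ℕ}
    (hb : StrictMono b) (hr : Set.range b = B)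
    (h : ∀ u : Finset ℕ, ↑u ⊆ B → ∀ s, Inc {n | n ∈ B ∧ ∀ m ∈ u, m < n} s →
      ψ (cat u (ev s)) ≠ ψ (cat u (od s))) {x y : ℕ → Bool} {n : ℕ}
    (hxy : ∀ i < n, x i = y i) (hx : x n = false) (hy : y n = true) :
    ψ (b ∘ bn x) ≠ ψ (b ∘ bn y) := by
  have hgx : StrictMono (b ∘ bn x) := hb.comp (bn_strictMono x)
  have hgy : StrictMono (b ∘ bn y) := hb.comp (bn_strictMono y)
  have hlt : bn x (n + 1) < bn y (n + 1) := by
    have h1 : bn x (n + 1) = 2 * bn x n + (x n).toNat := rfl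
    have h2 : bn y (n + 1) = 2 * bn y n + (y n).toNat := rfl
    rw [h1, h2, bn_congr hxy n le_rfl, hx, hy]
    simp
  let s : ℕ → ℕ := fun k => if k % 2 = 0 then b (bn x (n + 1 + k / 2))
    else b (bn y (n + 1 + k / 2))
  have hev : ∀ k, s (2 * k) = (b ∘ bn x) (k + (n + 1)) := by
    intro k
    have e1 : 2 * k % 2 = 0 := by omega
    have e2 : n + 1 + 2 * k / 2 = k + (n + 1) := by omega
    show (if 2 * k % 2 = 0 then _ else _) = _
    rw [if_pos e1, e2]
    rfl
  have hod : ∀ k, s (2 * k + 1) = (b ∘ bn y) (k + (n + 1)) := by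
    intro k
    have e1 : ¬ (2 * k + 1) % 2 = 0 := by omega
    have e2 : n + 1 + (2 * k + 1) / 2 = k + (n + 1) := by omega
    show (if (2 * k + 1) % 2 = 0 then _ else _) = _
    rw [if_neg e1, e2]
    rfl
  have hs : StrictMono s := by
    refine strictMono_nat_of_lt_succ fun k => ?_
    rcases Nat.even_or_odd' k with ⟨j, rfl | rfl⟩
    · rw [hev, hod]
      refine hb ?_
      have h1 := bn_mono hlt j
      rwa [add_comm (n + 1) j] at h1
    · have e1 : 2 * j + 1 + 1 = 2 * (j + 1) := by ring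
      rw [hod, e1, hev]
      refine hb ?_
      have h1 := (bn_lt y (j + (n + 1))).2
      have h2 := (bn_lt x (j + 1 + (n + 1))).1
      have e2 : j + 1 + (n + 1) = j + (n + 1) + 1 := by ring
      rw [e2] at h2 ⊢
      exact h1.trans_le h2
  have hmem : ∀ k, s k ∈ B := by
    intro k
    rw [← hr]
    show (if _ then _ else _) ∈ _
    split_ifs
    · exact ⟨_, rfl⟩
    · exact ⟨_, rfl⟩
  have himg : (Finset.range (n + 1)).image (b ∘ bn x) =
      (Finset.range (n + 1)).image (b ∘ bn y) := by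
    refine Finset.image_congr fun k hk => ?_
    have hk' : k < n + 1 := Finset.mem_range.1 hk
    show b (bn x k) = b (bn y k)
    rw [bn_congr hxy k (by omega)]
  have h0 := hev 0
  rw [mul_zero, zero_add] at h0
  have key := h ((Finset.range (n + 1)).image (b ∘ bn x)) (by
    intro m hm
    rw [Finset.mem_coe, Finset.mem_image] at hm
    obtain ⟨j, -, rfl⟩ := hm
    rw [← hr]
    exact ⟨_, rfl⟩) s ⟨hs, fun k => ⟨hmem k, fun m hm => by
      obtain ⟨j, hj, rfl⟩ := Finset.mem_image.1 hm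
      have h1 := hgx (Finset.mem_range.1 hj)
      exact (h1.trans_eq h0.symm).trans_le (hs.monotone (Nat.zero_le k))⟩⟩
  have e1 : ev s = fun k => (b ∘ bn x) (k + (n + 1)) := funext hev
  have e2 : od s = fun k => (b ∘ bn y) (k + (n + 1)) := funext hod
  rw [e1, eq_cat hgx, himg, e2, eq_cat hgy] at key
  exact key

private theorem no_ne {Z : Type} {D : Z → Z → Prop} (hD : ∀ z, {w | D z w}.Countable)
    {ψ : (ℕ → ℕ) → Z} (hψ : ∀ a b : ℕ → ℕ, StrictMono a → StrictMono b →
      (∀ n, a (n + 1) ≤ b n ∧ b n ≤ a (n + 2)) → D (ψ a) (ψ b)) {B : Set ℕ} (hB : B.Infinite)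
    (h : ∀ u : Finset ℕ, ↑u ⊆ B → ∀ s, Inc {n | n ∈ B ∧ ∀ m ∈ u, m < n} s →
      ψ (cat u (ev s)) ≠ ψ (cat u (od s))) : False := by
  obtain ⟨b, hb, hr⟩ := exists_enum hB
  let t : ℕ → ℕ := fun n => if n = 0 then b 0 else b (2 ^ (n - 1))
  have ht0 : t 0 = b 0 := rfl
  have ht1 : ∀ n, t (n + 1) = b (2 ^ n) := fun n => by
    show (if n + 1 = 0 then _ else _) = _
    rw [if_neg (by omega), Nat.add_sub_cancel]
  have ht : StrictMono t := by
    refine strictMono_nat_of_lt_succ fun n => ?_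
    rw [ht1]
    cases n with
    | zero =>
      rw [ht0]
      exact hb (by norm_num)
    | succ n =>
      rw [ht1]
      exact hb (Nat.pow_lt_pow_right (by norm_num) (by omega))
  have hinj : Function.Injective fun x : ℕ → Bool => ψ (b ∘ bn x) := by
    intro x y hxy
    by_contra hne
    have h1 : ∃ n, x n ≠ y n := by
      by_contra h2
      push Not at h2
      exact hne (funext h2)
    classical
    have h2 := Nat.find_spec h1
    have h3 : ∀ i < Nat.find h1, x i = y i := fun i hi => by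
      by_contra h4
      exact Nat.find_min h1 hi h4
    generalize Nat.find h1 = n at h2 h3
    rcases Bool.eq_false_or_eq_true (x n) with h4 | h4
    · have h5 : y n = false := by
        rw [h4] at h2
        exact Bool.eq_false_iff.2 fun h6 => h2 h6.symm
      exact split_ne hb hr h (fun i hi => (h3 i hi).symm) h5 h4 hxy.symm
    · have h5 : y n = true := by
        rw [h4] at h2
        by_contra h6
        exact h2 (Bool.eq_false_iff.2 h6).symm
      exact split_ne hb hr h h3 h4 h5 hxy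
  have hsub : Set.range (fun x : ℕ → Bool => ψ (b ∘ bn x)) ⊆ {w | D (ψ t) w} := by
    rintro _ ⟨x, rfl⟩
    refine hψ t (b ∘ bn x) ht (hb.comp (bn_strictMono x)) fun n => ?_
    rw [ht1, ht1]
    exact ⟨hb.monotone (bn_lt x n).1, hb.monotone (bn_lt x n).2.le⟩
  have h1 : (Set.range fun x : ℕ → Bool => ψ (b ∘ bn x)).Countable := (hD (ψ t)).mono hsub
  refine not_countable_bool ?_
  have h2 : Countable (Set.range fun x : ℕ → Bool => ψ (b ∘ bn x)) := h1.to_subtype
  exact (Equiv.ofInjective _ hinj).countable_iff.2 h2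

private theorem measurable_init (T : Set (Finset ℕ)) :
    MeasurableSet {g : ℕ → ℕ | ∃ k, (Finset.range k).image g ∈ T} := by
  have h1 : {g : ℕ → ℕ | ∃ k, (Finset.range k).image g ∈ T} =
      ⋃ k : ℕ, {g : ℕ → ℕ | (Finset.range k).image g ∈ T} := by
    ext g
    simp
  rw [h1]
  refine MeasurableSet.iUnion fun k => ?_
  have h2 : {g : ℕ → ℕ | (Finset.range k).image g ∈ T} =
      (fun (g : ℕ → ℕ) (i : Fin k) => g i) ⁻¹' {f | Finset.univ.image f ∈ T} := by
    ext g
    have h3 : (Finset.range k).image g = Finset.univ.image fun i : Fin k => g i := by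
      ext x
      simp only [Finset.mem_image, Finset.mem_range, Finset.mem_univ, true_and]
      constructor
      · rintro ⟨n, hn, rfl⟩
        exact ⟨⟨n, hn⟩, rfl⟩
      · rintro ⟨i, rfl⟩
        exact ⟨i, i.2, rfl⟩
    simp only [Set.mem_ofPred_eq, Set.mem_preimage, h3]
  rw [h2]
  refine (measurable_pi_lambda _ fun i => measurable_pi_apply _) ?_
  exact (Set.to_countable _).measurableSet

private theorem no_red_aux {Z : Type} [TopologicalSpace Z] [PolishSpace Z] [MeasurableSpace Z]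
    [BorelSpace Z] {D : Z → Z → Prop} (hD : ∀ z, {w | D z w}.Countable) {m : ℕ}
    {c : Z → Fin m} (hc : ∀ z w, D z w → c z ≠ c w) {ψ : (ℕ → ℕ) → Z} (hm : Measurable ψ)
    (hψ : ∀ a b : ℕ → ℕ, StrictMono a → StrictMono b →
      (∀ n, a (n + 1) ≤ b n ∧ b n ≤ a (n + 2)) → D (ψ a) (ψ b)) : False := by
  classical
  obtain ⟨B, -, hBi, hP⟩ := fusion (P := fun u A => (∃ z, ∀ s, Inc A s → ψ (cat u s) = z) ∨
      ∀ s, Inc A s → ψ (cat u (ev s)) ≠ ψ (cat u (od s)))
    (fun u A A' hA h => h.imp (fun ⟨z, hz⟩ => ⟨z, fun s hs => hz s (hs.mono hA)⟩)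
      fun h1 s hs => h1 s (hs.mono hA))
    (fun u A hA => two_types (χ := fun s => ψ (cat u s)) (hm.comp (measurable_cat u)) hA)
    Set.infinite_univ
  let T : Set (Finset ℕ) := {u | ↑u ⊆ B ∧
    ∃ z, ∀ s, Inc {n | n ∈ B ∧ ∀ m ∈ u, m < n} s → ψ (cat u s) = z}
  obtain ⟨B', hB', hBi', h1 | h1⟩ := gp_rel (measurable_init T) hBi
  · have hz : ∀ u : Finset ℕ, ∃ z : Z, u ∈ T →
        ∀ s, Inc {n | n ∈ B ∧ ∀ m ∈ u, m < n} s → ψ (cat u s) = z := by
      intro u
      by_cases hu : u ∈ T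
      · obtain ⟨z, hz⟩ := hu.2
        exact ⟨z, fun _ => hz⟩
      · exact ⟨ψ id, fun h => absurd h hu⟩
    choose zz hzz using hz
    have hR : ∀ g, Inc B' g → ψ g ∈ Set.range zz := by
      intro g hg
      obtain ⟨k, hk⟩ := h1 g hg
      refine ⟨_, (?_ : ψ g = zz ((Finset.range k).image g)).symm⟩
      have h2 : Inc {n | n ∈ B ∧ ∀ m ∈ (Finset.range k).image g, m < n}
          (fun n => g (n + k)) := ⟨(hg.shift k).1, fun n => ⟨hB' (hg.2 _), fun m hm => by
        obtain ⟨j, hj, rfl⟩ := Finset.mem_image.1 hm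
        have := Finset.mem_range.1 hj
        exact hg.1 (by omega)⟩⟩
      have h3 := hzz _ hk _ h2
      rwa [eq_cat hg.1] at h3
    have hX : ∀ i : ℕ, MeasurableSet (ψ ⁻¹' {z | z ∈ Set.range zz ∧ (c z).val = i}) := by
      intro i
      refine hm (Set.Countable.measurableSet ?_)
      exact (Set.countable_range zz).mono fun z hz => hz.1
    obtain ⟨B₂, hB₂, hBi₂, h2⟩ := gp_fin hX m hBi'
    obtain ⟨b, hb, hr⟩ := exists_enum hBi₂
    have hbI : Inc B₂ b := ⟨hb, fun n => by rw [← hr]; exact ⟨n, rfl⟩⟩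
    have hbI' : Inc B₂ (fun n => b (n + 1)) := hbI.shift 1
    have hDb : D (ψ b) (ψ fun n => b (n + 1)) :=
      hψ b _ hb hbI'.1 fun n => ⟨le_rfl, hb.monotone (by omega)⟩
    refine hc _ _ hDb ?_
    have hbX : b ∈ ψ ⁻¹' {z | z ∈ Set.range zz ∧ (c z).val = (c (ψ b)).val} :=
      ⟨hR b (hbI.mono hB₂), rfl⟩
    rcases h2 (c (ψ b)).val (c (ψ b)).isLt with h3 | h3
    · have h4 := h3 _ hbI'
      exact Fin.ext h4.2.symm
    · exact absurd hbX (h3 b hbI)
  · refine no_ne hD hψ hBi' fun u hu s hs => ?_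
    have huB : ↑u ⊆ B := hu.trans hB'
    have hsub : {n | n ∈ B' ∧ ∀ m ∈ u, m < n} ⊆ {n | n ∈ B ∧ ∀ m ∈ u, m < n} :=
      fun n hn => ⟨hB' hn.1, hn.2⟩
    have hsB : Inc {n | n ∈ B ∧ ∀ m ∈ u, m < n} s := hs.mono hsub
    rcases hP u huB with h2 | h2
    · exfalso
      refine h1 (cat u s) (hs.cat hu) ⟨u.card, ?_⟩
      rw [image_cat]
      exact ⟨huB, h2⟩
    · exact h2 s hsB

/-- the vertex given by a sequence -/
private def vx (a : ℕ → ℕ) : ℕ → ℕ := fun n => if n = 0 then 0 else a (n - 1)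

private theorem vx_zero (a : ℕ → ℕ) : vx a 0 = 0 := rfl

private theorem vx_succ (a : ℕ → ℕ) (n : ℕ) : vx a (n + 1) = a n := by
  show (if n + 1 = 0 then _ else _) = _
  rw [if_neg (by omega), Nat.add_sub_cancel]

private theorem gd_vx {a : ℕ → ℕ} (ha : StrictMono a) : Gd (vx a) := by
  refine ⟨by rw [vx_zero]; norm_num, fun n => ?_⟩
  rw [vx_succ, vx_succ]
  exact ha (Nat.lt_succ_self n)

theorem no_red {Z : Type} [TopologicalSpace Z] [PolishSpace Z] [MeasurableSpace Z]
    [BorelSpace Z] (D : Z → Z → Prop) (hD : ∀ z, {w | D z w}.Countable) (m : ℕ)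
    (c : Z → Fin m) (hc : ∀ z w, D z w → c z ≠ c w) (φ : (ℕ → ℕ) → Z) (hφ : Measurable φ) :
    ¬ ∀ f g, Gam f g → D (φ f) (φ g) := by
  intro h
  have hvx : Measurable vx := by
    refine measurable_pi_lambda _ fun n => ?_
    unfold vx
    by_cases hn : n = 0
    · simp only [if_pos hn]
      exact measurable_const
    · simp only [if_neg hn]
      exact measurable_pi_apply _
  refine no_red_aux hD hc (ψ := fun a => φ (vx a)) (hφ.comp hvx) fun a b ha hb hab => ?_
  refine h _ _ ⟨gd_vx ha, gd_vx hb, Or.inr ⟨rfl, Or.inl fun n => ?_⟩⟩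
  have e1 : vx a (n + 2) = a (n + 1) := vx_succ a (n + 1)
  have e2 : vx a (n + 3) = a (n + 2) := vx_succ a (n + 2)
  rw [e1, e2, vx_succ]
  exact hab n

end Rnd
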