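import Pool.Agent.STP.Fml

/-! # Countable transitive models of ZF + DC, colourings of Borel graphs (definitions)

(problem MP_564ab4_lc, project RND; no sorry in this file)

`Fml`, `cns`, `sat` (first order formulas of set theory and satisfaction) are from
`Pool/Agent/STP/Fml.lean`. All models are transitive sets of sets `M : Set ZFSet.{0}` with the true
membership relation. -/

universe v

namespace Rnd

open STP MeasureTheory

/-- the von Neumann numeral `n` -/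
noncomputable def nat : ℕ → ZFSet.{0}
  | 0 => ∅
  | n + 1 => insert (nat n) (nat n)

/-- the sequence `s` as a set of ordered pairs -/
noncomputable def qcode (s : ℕ → ZFSet.{0}) : ZFSet.{0} :=
  ZFSet.range fun n => ZFSet.pair (nat n) (s n)

/-- the function `f : ℕ → ℕ` as a set of ordered pairs -/
noncomputable def code (f : ℕ → ℕ) : ZFSet.{0} := qcode fun n => nat (f n)

/-- the point `x` of `2^ℕ` as a set of ordered pairs -/
noncomputable def bcode (x : ℕ → Bool) : ZFSet.{0} := code fun n => (x n).toNat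

/-- the subset `A` of `ℕ` as a subset of `ω` -/
noncomputable def scode (A : Set ℕ) : ZFSet.{0} := ZFSet.range fun n : A => nat n

/-- `(N, E)` is a model of the Zermelo-Fraenkel axioms (without choice). -/
structure ZF {N : Type v} (E : N → N → Prop) : Prop where
  ext : ∀ x y, (∀ z, E z x ↔ E z y) → x = y
  found : ∀ x, (∃ y, E y x) → ∃ y, E y x ∧ ∀ z, E z x → ¬ E z y
  pair : ∀ x y, ∃ z, ∀ w, E w z ↔ w = x ∨ w = y
  union : ∀ x, ∃ y, ∀ z, E z y ↔ ∃ w, E w x ∧ E z w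
  power : ∀ x, ∃ y, ∀ z, E z y ↔ ∀ w, E w z → E w x
  infinity : ∃ x, (∃ y, E y x ∧ ∀ z, ¬ E z y) ∧
    ∀ y, E y x → ∃ z, E z x ∧ ∀ w, E w z ↔ E w y ∨ w = y
  separation : ∀ (φ : Fml) (v : ℕ → N) (x : N), ∃ y, ∀ z, E z y ↔ E z x ∧ sat E φ (cns z v)
  replacement : ∀ (φ : Fml) (v : ℕ → N) (x : N),
    (∀ z, E z x → ∃! w, sat E φ (cns w (cns z v))) →
      ∃ y, ∀ w, E w y ↔ ∃ z, E z x ∧ sat E φ (cns w (cns z v))

/-- `M` with the membership relation is a model of ZF. -/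
def IsZF (M : Set ZFSet.{0}) : Prop := ZF fun x y : M => x.1 ∈ y.1

/-- The axiom of dependent choices in the transitive model `M`. -/
def DC (M : Set ZFSet.{0}) : Prop :=
  ∀ X ∈ M, ∀ R ∈ M, (∃ u, u ∈ X) → (∀ u ∈ X, ∃ w ∈ X, ZFSet.pair u w ∈ R) →
    ∃ s : ℕ → ZFSet.{0}, qcode s ∈ M ∧ ∀ n, s n ∈ X ∧ ZFSet.pair (s n) (s (n + 1)) ∈ R

/-- The transitive model `M` contains a nonprincipal ultrafilter on `ℕ`. -/
def HasUF (M : Set ZFSet.{0}) : Prop :=
  ∃ V ∈ M, (∀ z ∈ V, ∃ A, z = scode A) ∧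
    (∀ A, scode A ∈ M → (scode A ∈ V ↔ scode Aᶜ ∉ V)) ∧
    (∀ A A', scode A ∈ V → scode A' ∈ V → scode (A ∩ A') ∈ V) ∧
    (∀ A A', A ⊆ A' → scode A ∈ V → scode A' ∈ M → scode A' ∈ V) ∧
    ∀ A, A.Finite → scode A ∉ V

/-- The equivalence relation `E_0` on `2^ℕ`. -/
def E0 (x y : ℕ → Bool) : Prop := ∃ n, ∀ m, n ≤ m → x m = y m

/-- The transitive model `M` contains an `E_0`-transversal. -/
def HasE0T (M : Set ZFSet.{0}) : Prop :=
  ∃ T ∈ M, (∀ z ∈ T, ∃ x, z = bcode x) ∧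
    ∀ x, bcode x ∈ M → ∃! t, bcode t ∈ T ∧ E0 t x

/-- `M` is a countable transitive model of ZF + DC which contains neither a nonprincipal
ultrafilter on `ℕ` nor an `E_0`-transversal. -/
structure GoodModel (M : Set ZFSet.{0}) : Prop where
  trans : ∀ x ∈ M, ∀ y ∈ x, y ∈ M
  cnt : M.Countable
  zf : IsZF M
  dc : DC M
  nouf : ¬ HasUF M
  noe0 : ¬ HasE0T M

/-- The transitive model `M` contains a `k`-colouring (with domain all functions `ℕ → ℕ` of `M`) of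
the graph `Γ` on Baire space. -/
def HasCol (M : Set ZFSet.{0}) (Γ : (ℕ → ℕ) → (ℕ → ℕ) → Prop) (k : ℕ) : Prop :=
  ∃ F ∈ M, (∀ z ∈ F, ∃ f c, code f ∈ M ∧ c < k ∧ z = ZFSet.pair (code f) (nat c)) ∧
    (∀ f, code f ∈ M → ∃! c, c < k ∧ ZFSet.pair (code f) (nat c) ∈ F) ∧
    ∀ f g c, Γ f g → ZFSet.pair (code f) (nat c) ∈ F → ZFSet.pair (code g) (nat c) ∉ F

/-- `Γ` has a colouring with `k` colours. -/
def Colourable (Γ : (ℕ → ℕ) → (ℕ → ℕ) → Prop) (k : ℕ) : Prop :=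
  ∃ c : (ℕ → ℕ) → Fin k, ∀ f g, Γ f g → c f ≠ c g

/-- `Γ` has a Borel colouring with `k` colours. -/
def BorelColourable (Γ : (ℕ → ℕ) → (ℕ → ℕ) → Prop) (k : ℕ) : Prop :=
  ∃ c : (ℕ → ℕ) → Fin k, Measurable c ∧ ∀ f g, Γ f g → c f ≠ c g

/-- `Γ` has countable colouring number. -/
def CtblColNumber (Γ : (ℕ → ℕ) → (ℕ → ℕ) → Prop) : Prop :=
  ∃ r : (ℕ → ℕ) → (ℕ → ℕ) → Prop, IsWellOrder (ℕ → ℕ) r ∧ ∀ y, {x | Γ x y ∧ r x y}.Finite

/-- Every Borel probability measure on Baire space gives positive measure to some `Γ`-invariant Borel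
set on which `Γ` has a Borel `k`-colouring. -/
def MeasCol (Γ : (ℕ → ℕ) → (ℕ → ℕ) → Prop) (k : ℕ) : Prop :=
  ∀ ν : Measure (ℕ → ℕ), IsProbabilityMeasure ν →
    ∃ (X : Set (ℕ → ℕ)) (c : (ℕ → ℕ) → Fin k), MeasurableSet X ∧
      (∀ f g, Γ f g → (f ∈ X ↔ g ∈ X)) ∧ Measurable c ∧
      (∀ f ∈ X, ∀ g ∈ X, Γ f g → c f ≠ c g) ∧ 0 < ν X

/-- `Γ` has no Borel homomorphism to a locally countable graph `Δ` on a Polish space which has a
colouring with finitely many colours. (For `Z = Fin m`: no Borel colouring with `m` colours.) -/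
def NoRed (Γ : (ℕ → ℕ) → (ℕ → ℕ) → Prop) : Prop :=
  ∀ (Z : Type) [TopologicalSpace Z] [PolishSpace Z] [MeasurableSpace Z] [BorelSpace Z]
    (Δ : Z → Z → Prop) (m : ℕ) (c : Z → Fin m) (φ : (ℕ → ℕ) → Z),
    (∀ z, {w | Δ z w}.Countable) → (∀ z w, Δ z w → c z ≠ c w) → Measurable φ →
      ¬ ∀ f g, Γ f g → Δ (φ f) (φ g)

/-! ### The example -/

/-- the vertices `(f 0, (f 1 < f 2 < ...))` with `f 0 < 6` -/
def Gd (f : ℕ → ℕ) : Prop := f 0 < 6 ∧ ∀ n, f (n + 1) < f (n + 2)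

/-- the arrow between the increasing sequences `f 1 < f 2 < ...` and `g 1 < g 2 < ...` -/
def Ar (f g : ℕ → ℕ) : Prop := ∀ n, f (n + 2) ≤ g (n + 1) ∧ g (n + 1) ≤ f (n + 3)

/-- the graph: cartesian product of `K_6` and the graph of the arrows (points which are not of the
form `Gd` are isolated) -/
def Gam (f g : ℕ → ℕ) : Prop :=
  Gd f ∧ Gd g ∧ ((f 0 ≠ g 0 ∧ ∀ n, f (n + 1) = g (n + 1)) ∨ (f 0 = g 0 ∧ (Ar f g ∨ Ar g f)))

end Rnd
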