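import Pool.Agent.Rnd.EU

/-! # No `E_0`-transversal in the model (package EE)

(problem MP_564ab4_lc, project RND; black boxes: `Ix.lean`, `EU.lean` (`dl_fix`))

`h : Mdl R U N`; `T = val U N u`, `u ∈ N`, `i := iU u`, `x : ℕ → Bool := fun n => decide (gen (i, n) ∈ U.s)`.

* `act_gen_dl`: `act (dl i m) (gen (i, k)) = if k = m then (gen (i, k))ᶜ else gen (i, k)` (`FlipAlg.act_gen`).
* `val_gb`: `val U N (rlN (gb i)) = bcode x` (`val_rlN` with `f n = (x n).toNat`: `gb i n 0 ∈ U.s ↔ gen (i, n) ∉ U.s` (`Ult_compl`),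
  `gb i n 1 ∈ U.s ↔ gen (i, n) ∈ U.s`, `⊥ ∉ U.s`). It is in `Mod U N` (`eo1`).
* `agr_iff`: let `t ∈ N` with `val U N t = bcode y`. Then `agr t i m ∈ U.s ↔ y m = x m`: `truth_mem` for `opN (nn m) (nn b)` and `t`,
  `val_opN`, `val_nn`, `pair_mem_code`: `mem (opN (nn m) (nn 1)) t ∈ U.s ↔ (y m).toNat = 1`, the same for `0`; `Ult_sup`,
  `Ult_inf`, `Ult_compl`.
* `act_agr`: `act (dl i m) (agr t i k) = (mem (opN (nn k) (nn 1)) t' ⊓ g') ⊔ (mem (opN (nn k) (nn 0)) t' ⊓ g'ᶜ)` with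
  `t' = actN (dl i m) t`, `g' = act (dl i m) (gen (i, k))` (`act_sup`, `act_inf`, `act_compl`, `mem_actN` with `actN_opN`,
  `actN_nn`). So if `act (dl i m) (agr t i k) ∈ U.s` and `val U N t' = bcode y'`, `t' ∈ N`, then: for `k ≠ m`:
  `y' k = x k`; for `k = m`: `y' m = ! x m`.
* `no_e0`: let `T` be as in `HasE0T`. `bcode x ∈ Mod U N`, so there is a unique `y` with `bcode y ∈ T`, `E0 y x`. `bcode y ∈ T = val U N u`, so
  `bcode y = val U N t` for some `t ∈ N` (`mem_val`), and `mem t u ∈ U.s` (`truth_mem`). Let `n` be such that `y m = x m` for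
  `m ≥ n`. `agr t i (n + m) ∈ U.s` for all `m`, so `cE u t n ∈ U.s` (`eo3`, `Ult_inf`). `eo4`: some `m` with
  `act d (cE u t n) ∈ U.s`, `d := dl i (n + m)`. `act d (cE u t n) = act d (mem t u) ⊓ ⨅ k, act d (agr t i (n + k))` (`act_inf`,
  `act_iInf`). With `t' := actN d t ∈ N` (`eo2`): `act d (mem t u) = mem t' (actN d u)` and `mem t' u ∈ U.s` by
  `mem_congr_right` and `dl_fix`. So `val U N t' ∈ T`, hence `val U N t' = bcode y'` for some `y'` (first clause of
  `HasE0T`). By `act_agr`: `y' k = x k` for `k ≥ n`, `k ≠ n + m`, and `y' (n + m) = ! x (n + m)`. So `E0 y' x` (from `n + m + 1` on)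
  and `bcode y' ∈ T`: by uniqueness `y' = y`, but `y (n + m) = x (n + m)`. Contradiction. -/

namespace Rnd

open STP BSet

variable {B : Type} [CompleteBooleanAlgebra B] [FlipAlg B]

theorem act_gen_dl (i : ℕ → Bool) (m k : ℕ) :
    act (dl i m) (FlipAlg.gen (i, k) : B) =
      if k = m then (FlipAlg.gen (i, k))ᶜ else FlipAlg.gen (i, k) := by
  rw [FlipAlg.act_gen]
  by_cases h : k = m
  · rw [if_pos h, if_pos]
    unfold dl
    simp [h]
  · rw [if_neg h, if_neg]
    unfold dl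
    simp [h]

theorem act_agr (i : ℕ → Bool) (m k : ℕ) (t : BSet B) :
    act (dl i m) (agr t i k) =
      (mem (opN (nn k) (nn 1)) (actN (dl i m) t) ⊓ act (dl i m) (FlipAlg.gen (i, k))) ⊔
        (mem (opN (nn k) (nn 0)) (actN (dl i m) t) ⊓ (act (dl i m) (FlipAlg.gen (i, k)))ᶜ) := by
  unfold agr
  rw [act_sup, act_inf, act_inf, act_compl, ← mem_actN, ← mem_actN, actN_opN, actN_opN, actN_nn,
    actN_nn, actN_nn]

variable {R : BSet B → BSet B → Set (ℕ → B)} {U : Ult B} {N : Set (BSet B)}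

theorem val_gb (h : Mdl R U N) (i : ℕ → Bool) (x : ℕ → Bool)
    (hx : ∀ n, x n = true ↔ FlipAlg.gen (i, n) ∈ U.s) : val U N (rlN (gb i)) = bcode x := by
  refine val_rlN h (gb i) (fun n => (x n).toNat) fun n m => ?_
  have h1 := hx n
  unfold gb
  by_cases h0 : m = 0
  · rw [if_pos h0, Ult_compl, ← h1, h0]
    cases x n <;> simp
  · rw [if_neg h0]
    by_cases h2 : m = 1
    · rw [if_pos h2, ← h1, h2]
      cases x n <;> simp
    · rw [if_neg h2]
      constructor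
      · intro h3
        exact absurd h3 U.bot
      · intro h3
        exfalso
        cases hxn : x n
        · rw [hxn] at h3
          exact h0 h3.symm
        · rw [hxn] at h3
          exact h2 h3.symm

/-- the bits of the value of a name of a point of `2^ω` -/
private theorem ee_bit (h : Mdl R U N) {t : BSet B} (ht : t ∈ N) {y : ℕ → Bool}
    (hy : val U N t = bcode y) (k b : ℕ) :
    mem (opN (nn k) (nn b)) t ∈ U.s ↔ (y k).toNat = b := by
  rw [← truth_mem h (opN_mem h (nn_mem h k) (nn_mem h b)) ht,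
    val_opN h (nn_mem h k) (nn_mem h b), val_nn h, val_nn h, hy]
  exact pair_mem_code

private theorem ee_pair (h : Mdl R U N) {t : BSet B} (ht : t ∈ N) {y : ℕ → Bool}
    (hy : val U N t = bcode y) (k : ℕ) (c : B) (s : Bool) (hs : s = true ↔ c ∈ U.s) :
    (mem (opN (nn k) (nn 1)) t ⊓ c) ⊔ (mem (opN (nn k) (nn 0)) t ⊓ cᶜ) ∈ U.s ↔ y k = s := by
  rw [Ult_sup, Ult_inf, Ult_inf, Ult_compl, ee_bit h ht hy, ee_bit h ht hy, ← hs]
  cases y k <;> cases s <;> simp

theorem no_e0 (h : Mdl R U N) : ¬ HasE0T (Mod U N) := by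
  classical
  rintro ⟨T, ⟨u, hu, rfl⟩, hT1, hT2⟩
  obtain ⟨x, hx⟩ : ∃ x : ℕ → Bool, ∀ n, x n = true ↔ (FlipAlg.gen (iU u, n) : B) ∈ U.s :=
    ⟨fun n => decide ((FlipAlg.gen (iU u, n) : B) ∈ U.s), fun n => by simp⟩
  have hxM : bcode x ∈ Mod U N := ⟨rlN (gb (iU u)), h.eo1 u hu, val_gb h _ x hx⟩
  obtain ⟨y, ⟨hyT, n, hn⟩, huniq⟩ := hT2 x hxM
  obtain ⟨a, -, ht, hya⟩ := mem_val.1 hyT
  generalize u.fn a = t at ht hya
  have hmem : mem t u ∈ U.s := by
    rw [hya] at hyT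
    exact (truth_mem h ht hu).1 hyT
  have hc : cE u t n ∈ U.s := by
    refine U.inf hmem (h.eo3 u hu t ht n fun m => ?_)
    exact (ee_pair h ht hya.symm (n + m) _ _ (hx (n + m))).2 (hn (n + m) (by omega))
  obtain ⟨m, hm⟩ := h.eo4 u hu t ht n hc
  unfold cE at hm
  rw [act_inf, act_iInf, Ult_inf, ← mem_actN] at hm
  obtain ⟨hm1, hm2⟩ := hm
  have ht' := h.eo2 u hu t ht (n + m)
  have hmem' : mem (actN (dl (iU u) (n + m)) t) u ∈ U.s := by
    refine U.up hm1 ?_
    have h2 := mem_congr_right (actN (dl (iU u) (n + m)) u) u (actN (dl (iU u) (n + m)) t)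
    rwa [dl_fix (h.hs u hu), top_inf_eq] at h2
  have hT' := (truth_mem h ht' hu).2 hmem'
  obtain ⟨y', hy'⟩ := hT1 _ hT'
  rw [hy'] at hT'
  have hbit : ∀ k, y' (n + k) = if k = m then !x (n + k) else x (n + k) := by
    intro k
    have h1 : act (dl (iU u) (n + m)) (agr t (iU u) (n + k)) ∈ U.s := U.up hm2 (iInf_le _ k)
    rw [act_agr] at h1
    refine (ee_pair h ht' hy' (n + k) _ _ ?_).1 h1
    rw [act_gen_dl]
    by_cases hk : k = m
    · rw [if_pos hk, if_pos (by omega), Ult_compl, ← hx]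
      cases x (n + k) <;> simp
    · rw [if_neg hk, if_neg (by omega)]
      exact hx _
  have hE : E0 y' x := by
    refine ⟨n + m + 1, fun k hk => ?_⟩
    have h1 := hbit (k - n)
    have h2 : n + (k - n) = k := by omega
    rwa [if_neg (by omega), h2] at h1
  have h1 := huniq y' ⟨hT', hE⟩
  have h2 := hbit m
  rw [h1, if_pos rfl, hn (n + m) (by omega)] at h2
  cases hxm : x (n + m) <;> rw [hxm] at h2 <;> exact absurd h2 (by decide)

end Rnd
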