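import Pool.Agent.Rnd.Ix

/-! # No nonprincipal ultrafilter in the model (package EU)

(problem MP_564ab4_lc, project RND; black box: `Ix.lean`)

`h : Mdl R U N` throughout; `u ∈ N`, `i := iU u`.

* `exists_free`: for a symmetric `u` there is `i` with `Free u i`: let `S` be a countable support. The set of the first
  coordinates of `S` is countable and `ℕ → Bool` is uncountable (`Set.Countable.image`, `Cardinal.mk_set_le_aleph0`,
  `not_countable`: an uncountable type has an element outside of a countable set, e.g.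
  `(hc.compl).nonempty` / `Set.Countable.ne_univ`-style argument), so some `i` is not a first coordinate of a point
  of `S`; if `e j = false` for all `j` with `j.1 ≠ i` then `Fx S e`.
* `free_iU`: `Free u (iU u)` for `HS u` (`dif_pos`, `choose_spec`, `HS_iff`).
* `eE_fix`: `BSet.eq (actN (eE (iU u) E) u) u = ⊤` for `HS u`; `dl_fix`: the same for `dl (iU u) m`.
* `act_gen_eE`: `act (eE i E) (gen (i, n)) = if n ∈ E then gen (i, n) else (gen (i, n))ᶜ` (`FlipAlg.act_gen`), hence
  `act_xg`: `act (eE i E) (xg i s n) = if n ∈ E then xg i s n else (xg i s n)ᶜ` (`act_compl`, cases on `s`).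
* `no_uf_aux`: let `V = val U N u`, `u ∈ N`, `s : Bool`, `A := {n | xg (iU u) s n ∈ U.s}`. `val U N (sbN (xg (iU u) s)) = scode A`
  (`val_sbN`). If `scode A ∈ V`: `truth_mem` (names `sbN (xg ..) ∈ N` by `uf1`, `u ∈ N`): `c := mem (sbN (xg ..)) u ∈ U.s`. `uf3`
  gives a finite `E` with `act (eE i E) c ∈ U.s`. `act (eE i E) c = mem (actN e (sbN (xg ..))) (actN e u)` (`mem_actN`), and with
  `mem_congr_right` and `eE_fix`: `mem (actN e (sbN (xg ..))) u ∈ U.s`. The name `actN e (sbN (xg ..))` is in `N` (`uf2`), equal to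
  `sbN (fun n => act e (xg i s n))` (`actN_sbN`), its value is `scode A'` with `A' = {n | act e (xg i s n) ∈ U.s}`, so
  `scode A' ∈ V` (`truth_mem`). For `n ∉ E`: `n ∈ A' ↔ n ∉ A` (`act_xg`, `Ult_compl`). So `A ∩ A' ⊆ E` is finite.
* `no_uf`: let `V ∈ Mod U N` be as in `HasUF`, `V = val U N u`. `A := {n | xg (iU u) true n ∈ U.s}`; its complement is
  `{n | xg (iU u) false n ∈ U.s}` (`Ult_compl`). `scode A ∈ Mod U N` (it is the value of `sbN (xg i true) ∈ N`). So `scode A ∈ V`
  or `scode Aᶜ ∈ V`. In both cases `no_uf_aux` gives a second set whose intersection with the first is finite and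
  has its code in `V`: contradiction. -/

namespace Rnd

open STP BSet

variable {B : Type} [CompleteBooleanAlgebra B] [FlipAlg B]

private theorem unc : Uncountable (ℕ → Bool) := by
  rw [← Cardinal.aleph0_lt_mk_iff]
  have h1 : Cardinal.mk (ℕ → Bool) = 2 ^ Cardinal.aleph0 := by simp
  rw [h1]
  exact Cardinal.cantor _

theorem exists_free {u : BSet B} (h : Sym u) : ∃ i, Free u i := by
  obtain ⟨S, hS, hSu⟩ := h
  have h1 : (Prod.fst '' S).Countable := hS.image _
  have h2 : ∃ i, i ∉ Prod.fst '' S := by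
    by_contra hcon
    push Not at hcon
    have h3 : (Prod.fst '' S) = Set.univ := Set.eq_univ_of_forall hcon
    rw [h3, Set.countable_univ_iff] at h1
    have := unc
    exact not_countable h1
  obtain ⟨i, hi⟩ := h2
  refine ⟨i, fun e he => hSu e fun j hj => he j ?_⟩
  rintro rfl
  exact hi ⟨j, hj, rfl⟩

theorem free_iU {u : BSet B} (h : HS u) : Free u (iU u) := by
  have h1 : ∃ i, Free u i := exists_free ((HS_iff u).1 h).1
  unfold iU
  rw [dif_pos h1]
  exact h1.choose_spec

theorem eE_fix {u : BSet B} (h : HS u) (E : Finset ℕ) :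
    BSet.eq (actN (eE (iU u) E) u) u = ⊤ := by
  refine free_iU h _ fun j hj => ?_
  unfold eE
  rw [decide_eq_false_iff_not]
  exact fun h' => hj h'.1

theorem dl_fix {u : BSet B} (h : HS u) (m : ℕ) : BSet.eq (actN (dl (iU u) m) u) u = ⊤ := by
  refine free_iU h _ fun j hj => ?_
  unfold dl
  rw [decide_eq_false_iff_not]
  rintro rfl
  exact hj rfl

theorem act_xg (i : ℕ → Bool) (s : Bool) (E : Finset ℕ) (n : ℕ) :
    act (eE i E) (xg i s n : B) = if n ∈ E then xg i s n else (xg i s n)ᶜ := by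
  have h1 : act (eE i E) (FlipAlg.gen (i, n) : B) =
      if n ∈ E then FlipAlg.gen (i, n) else (FlipAlg.gen (i, n))ᶜ := by
    rw [FlipAlg.act_gen]
    by_cases hn : n ∈ E
    · rw [if_pos hn, if_neg]
      unfold eE
      simp [hn]
    · rw [if_neg hn, if_pos]
      unfold eE
      simp [hn]
  unfold xg
  cases s with
  | true => simpa using h1
  | false =>
    simp only [Bool.false_eq_true, if_false]
    rw [act_compl, h1]
    by_cases hn : n ∈ E
    · rw [if_pos hn, if_pos hn]
    · rw [if_neg hn, if_neg hn]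

variable {R : BSet B → BSet B → Set (ℕ → B)} {U : Ult B} {N : Set (BSet B)}

theorem no_uf_aux (h : Mdl R U N) {u : BSet B} (hu : u ∈ N) (s : Bool)
    (hA : scode {n | xg (iU u) s n ∈ U.s} ∈ val U N u) :
    ∃ A' : Set ℕ, scode A' ∈ val U N u ∧ ({n | xg (iU u) s n ∈ U.s} ∩ A').Finite := by
  rw [← val_sbN h, truth_mem h (h.uf1 u hu s) hu] at hA
  obtain ⟨E, hE⟩ := h.uf3 u hu s hA
  rw [← mem_actN] at hE
  have h1 : mem (actN (eE (iU u) E) (sbN (xg (iU u) s))) u ∈ U.s := by
    refine U.up hE ?_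
    have h2 := mem_congr_right (actN (eE (iU u) E) u) u (actN (eE (iU u) E) (sbN (xg (iU u) s)))
    rwa [eE_fix (h.hs u hu), top_inf_eq] at h2
  rw [← truth_mem h (h.uf2 u hu s E) hu, actN_sbN, val_sbN h] at h1
  refine ⟨_, h1, E.finite_toSet.subset ?_⟩
  rintro n ⟨hn, hn'⟩
  by_contra hnE
  have hnE' : n ∉ E := hnE
  change act (eE (iU u) E) (xg (iU u) s n) ∈ U.s at hn'
  rw [act_xg, if_neg hnE', Ult_compl] at hn'
  exact hn' hn

theorem no_uf (h : Mdl R U N) : ¬ HasUF (Mod U N) := by
  rintro ⟨V, ⟨u, hu, rfl⟩, -, hult, hint, -, hfin⟩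
  have hc : {n | xg (iU u) false n ∈ U.s} = {n | xg (iU u) true n ∈ U.s}ᶜ := by
    ext n
    change xg (iU u) false n ∈ U.s ↔ ¬ xg (iU u) true n ∈ U.s
    rw [← Ult_compl]
    rfl
  have hM : scode {n | xg (iU u) true n ∈ U.s} ∈ Mod U N :=
    ⟨sbN (xg (iU u) true), h.uf1 u hu true, val_sbN h _⟩
  by_cases hA : scode {n | xg (iU u) true n ∈ U.s} ∈ val U N u
  · obtain ⟨A', hA', hf⟩ := no_uf_aux h hu true hA
    exact hfin _ hf (hint _ _ hA hA')
  · have hA1 : scode {n | xg (iU u) false n ∈ U.s} ∈ val U N u := by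
      rw [hc]
      by_contra hcon
      exact hA ((hult _ hM).2 hcon)
    obtain ⟨A', hA', hf⟩ := no_uf_aux h hu false hA1
    exact hfin _ hf (hint _ _ hA1 hA')

end Rnd
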