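import Pool.Agent.STP.BVal

/-! # Flip algebras

(problem MP_564ab4_lc, project RND; no sorry in this file)

The abstract properties of the measure algebra of `J → Bool` (`J = (ℕ → Bool) × ℕ`) which are used in
the construction of the symmetric model. A flip `e : J → Bool` acts on the algebra. -/

namespace Rnd

open STP

/-- the index set of the random bits -/
abbrev J : Type := (ℕ → Bool) × ℕ

/-- the group of the flips -/
abbrev Fl : Type := J → Bool

/-- the product of two flips -/
def xr (e e' : Fl) : Fl := fun j => xor (e j) (e' j)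

/-- the trivial flip -/
def fl0 : Fl := fun _ => false

/-- the flip `e` does not move the coordinates in `S` -/
def Fx (S : Set J) (e : Fl) : Prop := ∀ j ∈ S, e j = false

/-- complete Boolean algebras with an action of the flips (model: the measure algebra) -/
class FlipAlg (B : Type) [CompleteBooleanAlgebra B] where
  /-- the action -/
  act : Fl → B → B
  act_mono : ∀ e a b, a ≤ b → act e a ≤ act e b
  act_fl0 : ∀ b, act fl0 b = b
  act_act : ∀ e e' b, act e (act e' b) = act (xr e e') b
  ccc : ∀ {ι : Type} (f : ι → B), ∃ s : ℕ → Option ι, (⨆ n, (s n).elim ⊥ f) = ⨆ i, f i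
  supp : ∀ b, ∃ S : Set J, S.Countable ∧ ∀ e, Fx S e → act e b = b
  dens : ∀ c, c ≠ ⊥ → ∃ E : Set J, E.Finite ∧ ∀ e, Fx E e → c ⊓ act e c ≠ ⊥
  /-- the generators -/
  gen : J → B
  act_gen : ∀ e j, act e (gen j) = if e j then (gen j)ᶜ else gen j
  nontriv : (⊤ : B) ≠ ⊥

export FlipAlg (act)

theorem xr_self (e : Fl) : xr e e = fl0 := by
  funext j
  unfold xr fl0
  cases e j <;> rfl

theorem xr_comm (e e' : Fl) : xr e e' = xr e' e := by
  funext j
  unfold xr
  cases e j <;> cases e' j <;> rfl

theorem xr_assoc (e e' e'' : Fl) : xr (xr e e') e'' = xr e (xr e' e'') := by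
  funext j
  unfold xr
  cases e j <;> cases e' j <;> cases e'' j <;> rfl

theorem Fx.mono {S T : Set J} {e : Fl} (h : Fx T e) (hST : S ⊆ T) : Fx S e :=
  fun j hj => h j (hST hj)

theorem Fx.fl0 (S : Set J) : Fx S fl0 := fun _ _ => rfl

theorem Fx.xr {S : Set J} {e e' : Fl} (h : Fx S e) (h' : Fx S e') : Fx S (xr e e') := by
  intro j hj
  unfold Rnd.xr
  rw [h j hj, h' j hj]
  rfl

section

variable {B : Type} [CompleteBooleanAlgebra B] [FlipAlg B]

theorem act_invol (e : Fl) (b : B) : act e (act e b) = b := by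
  rw [FlipAlg.act_act, xr_self, FlipAlg.act_fl0]

theorem act_comm (e e' : Fl) (b : B) : act e (act e' b) = act e' (act e b) := by
  rw [FlipAlg.act_act, FlipAlg.act_act, xr_comm]

/-- the action of a flip as an isomorphism -/
def actI (e : Fl) : B ≃o B where
  toFun := act e
  invFun := act e
  left_inv := act_invol e
  right_inv := act_invol e
  map_rel_iff' := by
    intro a b
    constructor
    · intro h
      have h1 := FlipAlg.act_mono e _ _ h
      change act e (act e a) ≤ act e (act e b) at h1
      rwa [act_invol, act_invol] at h1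
    · exact FlipAlg.act_mono e a b

theorem act_le_iff (e : Fl) {a b : B} : act e a ≤ act e b ↔ a ≤ b := (actI e).le_iff_le

theorem act_le_iff' (e : Fl) {a b : B} : act e a ≤ b ↔ a ≤ act e b := by
  rw [← act_le_iff e, act_invol]

theorem act_bot (e : Fl) : act e (⊥ : B) = ⊥ := (actI e).map_bot

theorem act_top (e : Fl) : act e (⊤ : B) = ⊤ := (actI e).map_top

theorem act_inf (e : Fl) (a b : B) : act e (a ⊓ b) = act e a ⊓ act e b := (actI e).map_inf a b

theorem act_sup (e : Fl) (a b : B) : act e (a ⊔ b) = act e a ⊔ act e b := (actI e).map_sup a b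

theorem act_iSup {ι : Sort*} (e : Fl) (f : ι → B) : act e (⨆ i, f i) = ⨆ i, act e (f i) :=
  (actI e).map_iSup f

theorem act_iInf {ι : Sort*} (e : Fl) (f : ι → B) : act e (⨅ i, f i) = ⨅ i, act e (f i) :=
  (actI e).map_iInf f

theorem act_compl (e : Fl) (a : B) : act e aᶜ = (act e a)ᶜ := by
  refine (compl_unique ?_ ?_).symm
  · rw [← act_inf, inf_compl_eq_bot, act_bot]
  · rw [← act_sup, sup_compl_eq_top, act_top]

theorem act_himp (e : Fl) (a b : B) : act e (a ⇨ b) = act e a ⇨ act e b := by
  rw [himp_eq, himp_eq, act_sup, act_compl]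

theorem act_eq_top {e : Fl} {a : B} : act e a = ⊤ ↔ a = ⊤ := by
  constructor
  · intro h
    rw [← act_invol e a, h, act_top]
  · rintro rfl
    exact act_top e

end

/-! ### Ultrafilters -/

section

variable {B : Type} [CompleteBooleanAlgebra B] (U : Ult B)

theorem Ult_inf {a b : B} : a ⊓ b ∈ U.s ↔ a ∈ U.s ∧ b ∈ U.s :=
  ⟨fun h => ⟨U.up h inf_le_left, U.up h inf_le_right⟩, fun h => U.inf h.1 h.2⟩

theorem Ult_compl {a : B} : aᶜ ∈ U.s ↔ a ∉ U.s := by
  constructor
  · intro h h'
    have h1 := U.inf h' h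
    rw [inf_compl_eq_bot] at h1
    exact U.bot h1
  · intro h
    rcases U.dec a with h' | h'
    · exact absurd h' h
    · exact h'

theorem Ult_sup {a b : B} : a ⊔ b ∈ U.s ↔ a ∈ U.s ∨ b ∈ U.s := by
  constructor
  · intro h
    by_contra hcon
    push Not at hcon
    have h1 := U.inf ((Ult_compl U).2 hcon.1) ((Ult_compl U).2 hcon.2)
    rw [← compl_sup] at h1
    exact (Ult_compl U).1 h1 h
  · rintro (h | h)
    · exact U.up h le_sup_left
    · exact U.up h le_sup_right

theorem Ult_himp {a b : B} : (a ⇨ b) ∈ U.s ↔ (a ∈ U.s → b ∈ U.s) := by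
  rw [himp_eq, Ult_sup, Ult_compl]
  tauto

end

end Rnd
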