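import Pool.Agent.Rnd.FDefs

/-! # Measurable representatives of reals (package FA1)

(problem MP_564ab4_lc, project RND)

* `exists_rep`: choose measurable `A n m` with `cl (A n m) = p.1 n m` (`exists_cl`). Put
  `r ω n :=` the least `m` with `ω ∈ A n m`, and `0` if there is none (`Nat.find` / `sInf {m | ω ∈ A n m}`;
  `sInf ∅ = 0` in `ℕ`, so `r ω n := sInf {m | ω ∈ A n m}` works). `{ω | r ω n = m}` for `m ≠ 0` is
  `A n m \ ⋃ (m' < m), A n m'`, and for `m = 0` it is `A n 0 ∪ (⋃ m, A n m)ᶜ`: measurable; hence `r` is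
  measurable (`measurable_pi_iff`, `measurable_to_countable'` or `measurable_to_nat`). The classes: for
  `m ≠ 0`: `p n m ⊓ (⨆ m' < m, p n m')ᶜ = p n m` by disjointness; for `m = 0`: `p n 0 ⊔ (⨆ m, p n m)ᶜ = p n 0`
  because `⨆ m, p n m = ⊤`. (`cl_iUnion`, `cl_inter`, `cl_compl`, `cl_union`, `cl_le`. It may be easier to
  show `cl {ω | r ω n = m} ≤ p n m` for all `m` — for `m = 0` use that `cl ((⋃ m, A n m)ᶜ) = ⊥` — and to
  conclude equality because both families are partitions of unity: `p n m ≤ ⨆ m', cl {r n = m'}`, and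
  `p n m ⊓ cl {r n = m'} ≤ p n m ⊓ p n m' = ⊥` for `m' ≠ m`.)
* `rep_meas`, `cl_rep`: `dif_pos (exists_rep p)`, `choose_spec`.
* `rep_uniq`: if `r` is measurable with `cl {ω | r ω n = m} = p.1 n m` for all `n m`, then `r =ᵐ[mu] rep p`: for each
  `n, m` the sets `{r n = m}` and `{rep p n = m}` are a.e. equal (`cl_eq`); countable intersection
  (`ae_all_iff`): a.e. for all `n, m`: `r ω n = m ↔ rep p ω n = m`, take `m = r ω n`.
* `rep_actP`: apply `rep_uniq` for `p := actP e p` to `r ω := rep p (xr e ω)`: measurable (`(mp_xr e).measurable`), and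
  `cl {ω | rep p (xr e ω) n = m} = act e (cl {ω | rep p ω n = m}) = act e (p.1 n m)` (`act_cl`). -/

namespace Rnd

open STP BSet MeasureTheory

private theorem fib_meas {r : (J → Bool) → ℕ → ℕ} (hr : Measurable r) (n m : ℕ) :
    MeasurableSet {ω | r ω n = m} :=
  ((measurable_pi_apply n).comp hr) (measurableSet_singleton m)

private theorem sInf_iff (S : Set ℕ) (m : ℕ) :
    sInf S = m ↔ (m ∈ S ∧ ∀ m' < m, m' ∉ S) ∨ (m = 0 ∧ ∀ m', m' ∉ S) := by
  constructor
  · rintro rfl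
    by_cases h : S.Nonempty
    · exact Or.inl ⟨Nat.sInf_mem h, fun m' hm' => Nat.notMem_of_lt_sInf hm'⟩
    · rw [Set.not_nonempty_iff_eq_empty] at h
      subst h
      exact Or.inr ⟨Nat.sInf_empty, fun m' hm' => hm'⟩
  · rintro (⟨h1, h2⟩ | ⟨rfl, h⟩)
    · refine le_antisymm (Nat.sInf_le h1) ?_
      by_contra h3
      exact h2 _ (not_le.1 h3) (Nat.sInf_mem ⟨m, h1⟩)
    · have h1 : S = ∅ := Set.eq_empty_iff_forall_notMem.2 h
      rw [h1, Nat.sInf_empty]

theorem exists_rep (p : RP) :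
    ∃ r : (J → Bool) → ℕ → ℕ, Measurable r ∧ ∀ n m, cl {ω | r ω n = m} = p.1 n m := by
  have hch : ∀ n m, ∃ A, MeasurableSet A ∧ cl A = p.1 n m := fun n m => exists_cl _
  choose A hA hcl using hch
  have hm : Measurable fun (ω : J → Bool) (n : ℕ) => sInf {m | ω ∈ A n m} := by
    refine measurable_pi_iff.2 fun n => measurable_to_countable' fun m => ?_
    have h1 : (fun ω : J → Bool => sInf {m | ω ∈ A n m}) ⁻¹' {m} =
        (A n m ∩ ⋂ m' : ℕ, ⋂ _ : m' < m, (A n m')ᶜ) ∪ {ω | m = 0 ∧ ∀ m', ω ∉ A n m'} := by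
      ext ω
      rw [Set.mem_preimage, Set.mem_singleton_iff, sInf_iff]
      simp only [Set.mem_union, Set.mem_inter_iff, Set.mem_iInter, Set.mem_compl_iff]
      rfl
    rw [h1]
    refine ((hA n m).inter (MeasurableSet.iInter fun m' =>
      MeasurableSet.iInter fun _ => (hA n m').compl)).union ?_
    have h2 : {ω : J → Bool | m = 0 ∧ ∀ m', ω ∉ A n m'} =
        {_ω : J → Bool | m = 0} ∩ ⋂ m', (A n m')ᶜ := by
      ext ω
      simp only [Set.mem_inter_iff, Set.mem_iInter, Set.mem_compl_iff]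
      rfl
    rw [h2]
    exact (MeasurableSet.const _).inter (MeasurableSet.iInter fun m' => (hA n m').compl)
  refine ⟨_, hm, fun n m => ?_⟩
  have hle : ∀ k, cl {ω | sInf {m | ω ∈ A n m} = k} ≤ p.1 n k := by
    intro k
    have h1 : cl (⋂ m', (A n m')ᶜ) = ⊥ := by
      rw [cl_iInter fun m' => (hA n m').compl]
      have h2 : ∀ m', cl (A n m')ᶜ = (p.1 n m')ᶜ := fun m' => by rw [cl_compl (hA n m'), hcl]
      simp only [h2]
      rw [← compl_iSup, (p.2 n).2, compl_top]
    have h3 : cl {ω | sInf {m | ω ∈ A n m} = k} ≤ cl (A n k ∪ ⋂ m', (A n m')ᶜ) := by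
      rw [cl_le (fib_meas hm n k)
        ((hA n k).union (MeasurableSet.iInter fun m' => (hA n m').compl))]
      refine HasSubset.Subset.eventuallyLE fun ω hω => ?_
      rcases (sInf_iff _ k).1 hω with ⟨h4, _⟩ | ⟨_, h4⟩
      · exact Or.inl h4
      · exact Or.inr (Set.mem_iInter.2 fun m' => h4 m')
    rw [cl_union (hA n k) (MeasurableSet.iInter fun m' => (hA n m').compl), h1, sup_bot_eq,
      hcl] at h3
    exact h3
  refine le_antisymm (hle m) ?_
  have htop : ⨆ k, cl {ω : J → Bool | sInf {m | ω ∈ A n m} = k} = ⊤ := by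
    rw [← cl_iUnion fun k => fib_meas hm n k, ← cl_univ]
    congr 1
    ext ω
    simp
  calc p.1 n m = p.1 n m ⊓ ⨆ k, cl {ω : J → Bool | sInf {m | ω ∈ A n m} = k} := by
        rw [htop, inf_top_eq]
    _ = ⨆ k, p.1 n m ⊓ cl {ω : J → Bool | sInf {m | ω ∈ A n m} = k} := inf_iSup_eq _ _
    _ ≤ cl {ω : J → Bool | sInf {m | ω ∈ A n m} = m} := by
        refine iSup_le fun k => ?_
        by_cases hk : k = m
        · rw [hk]
          exact inf_le_right
        · refine (inf_le_inf_left _ (hle k)).trans ?_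
          rw [(p.2 n).1 m k (Ne.symm hk)]
          exact bot_le

theorem rep_meas (p : RP) : Measurable (rep p) := by
  unfold rep
  rw [dif_pos (exists_rep p)]
  exact (exists_rep p).choose_spec.1

theorem cl_rep (p : RP) (n m : ℕ) : cl {ω | rep p ω n = m} = p.1 n m := by
  unfold rep
  rw [dif_pos (exists_rep p)]
  exact (exists_rep p).choose_spec.2 n m

theorem rep_uniq (p : RP) (r : (J → Bool) → ℕ → ℕ) (hr : Measurable r)
    (h : ∀ n m, cl {ω | r ω n = m} = p.1 n m) : r =ᵐ[mu] rep p := by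
  have h1 : ∀ n m, ∀ᵐ ω ∂mu, (ω ∈ {ω | r ω n = m} ↔ ω ∈ {ω | rep p ω n = m}) := by
    intro n m
    refine Filter.eventuallyEq_set.1 ((cl_eq (fib_meas hr n m) (fib_meas (rep_meas p) n m)).1 ?_)
    rw [h, cl_rep]
  have h2 : ∀ᵐ ω ∂mu, ∀ n m, (ω ∈ {ω | r ω n = m} ↔ ω ∈ {ω | rep p ω n = m}) :=
    ae_all_iff.2 fun n => ae_all_iff.2 fun m => h1 n m
  filter_upwards [h2] with ω hω
  funext n
  exact ((hω n (r ω n)).1 rfl).symm

theorem rep_actP (e : Fl) (p : RP) :
    (fun ω => rep p (xr e ω)) =ᵐ[mu] rep (actP e p) := by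
  refine rep_uniq (actP e p) _ ((rep_meas p).comp (mp_xr e).measurable) fun n m => ?_
  change cl ((fun ω => xr e ω) ⁻¹' {ω | rep p ω n = m}) = act e (p.1 n m)
  rw [← act_cl e (fib_meas (rep_meas p) n m), cl_rep]

theorem cl_rep_actP (e : Fl) (p : RP) {X : Set (ℕ → ℕ)} (hX : MeasurableSet X) :
    cl (rep (actP e p) ⁻¹' X) = act e (cl (rep p ⁻¹' X)) := by
  have h1 : MeasurableSet (rep p ⁻¹' X) := rep_meas p hX
  rw [act_cl e h1, cl_eq (rep_meas (actP e p) hX) ((mp_xr e).measurable h1),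
    Filter.eventuallyEq_set]
  filter_upwards [rep_actP e p] with ω hω
  rw [Set.mem_preimage, Set.mem_preimage, Set.mem_preimage, ← hω]

end Rnd
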