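import Pool.Agent.Rnd.FA1

/-! # Every real has a colour (package FA2)

(problem MP_564ab4_lc, project RND; black box: `FA1.lean`)

* `lst_disj`: for `Y ≠ Z` one of `WellOrderingRel Y Z`, `WellOrderingRel Z Y` holds
  (`trichotomous_of`); say
  `WellOrderingRel Z Y`: `lst p Y ≤ (inY p Z)ᶜ` and `lst p Z ≤ inY p Z`.
* `iSup_lst`: `≤` is clear. `≥`: for each `Y`, `inY p Y ≤ ⨆ Z, lst p Z` by well-founded induction
  on `Y`:
  `inY p Y = lst p Y ⊔ (inY p Y ⊓ ⨆ (Z < Y), inY p Z) ≤ ...`. (The same argument is in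
  `Pool/Agent/STP/BMix.lean`, theorem `full`.)
* `vv_iSup`: `⨆ c, vv Γ k p c = ⨆ Y, lst p Y`: exchange the suprema; `⨆ c : Fin k, cl (rep p ⁻¹'
  {f | Y.1.2 f = c}) = ⊤`
  (finite union of measurable sets which is everything; e.g. `cl (⋃ ..)`: for a finite family use
that each
  `b` with `cl (..) ≤ b` for all `c`: write `b = cl C`, `cl_le`, and `ae_all_iff`).
* `vv_top`: suppose `b := (⨆ c, vv Γ k p c)ᶜ ≠ ⊥`. Then `b = cl A`, `A` measurable, `mu A ≠ 0`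
  (`exists_cl`, `cl_eq_bot`). Let
  `ν := (ProbabilityTheory.cond mu A).map (rep p)` (or `(mu A)⁻¹ • (mu.restrict A).map (rep p)`):
a Borel
  probability measure on `ℕ → ℕ`. The hypothesis `MeasCol Γ k` gives `X, c` with `0 < ν X`, i.e.
  `0 < mu (A ∩ rep p ⁻¹' X)`. With `Y := ⟨(X, c), ..⟩ : Yv Γ k`: `cl A ⊓ inY p Y = cl (A ∩ rep p
⁻¹' X) ≠ ⊥`. But
  `inY p Y ≤ ⨆ Z, inY p Z = ⨆ Z, lst p Z = ⨆ c, vv Γ k p c = bᶜ`: contradiction. -/

namespace Rnd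

open STP BSet MeasureTheory

variable {Γ : (ℕ → ℕ) → (ℕ → ℕ) → Prop} {k : ℕ}

private theorem lst_disj0 (p : RP) (Y Z : Yv Γ k) (h : WellOrderingRel Y Z) :
    lst p Y ⊓ lst p Z = ⊥ := by
  refine le_bot_iff.1 ?_
  have h1 : lst p Z ≤ (inY p Y)ᶜ := by
    unfold lst
    refine inf_le_right.trans (compl_le_compl ?_)
    exact le_iSup (fun W : {W : Yv Γ k // WellOrderingRel W Z} => inY p W.1) ⟨Y, h⟩
  have h2 : lst p Y ≤ inY p Y := inf_le_left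
  exact (inf_le_inf h2 h1).trans (inf_compl_self (a := inY p Y)).le

theorem lst_disj (p : RP) (Y Z : Yv Γ k) (h : Y ≠ Z) : lst p Y ⊓ lst p Z = ⊥ := by
  rcases trichotomous_of WellOrderingRel Y Z with h1 | h1 | h1
  · exact lst_disj0 p Y Z h1
  · exact absurd h1 h
  · rw [inf_comm]
    exact lst_disj0 p Z Y h1

theorem iSup_lst (p : RP) : (⨆ Y : Yv Γ k, lst p Y) = ⨆ Y : Yv Γ k, inY p Y := by
  refine le_antisymm (iSup_mono fun Y => inf_le_left) (iSup_le fun Y => ?_)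
  induction Y using (IsWellFounded.wf (r := WellOrderingRel (α := Yv Γ k))).induction with
  | _ Y ih =>
    have h3 : (⨆ Z : {Z : Yv Γ k // WellOrderingRel Z Y}, inY p Z.1) ≤ ⨆ Y : Yv Γ k, lst p Y :=
      iSup_le fun Z => ih Z.1 Z.2
    have h4 : lst p Y ≤ ⨆ Y : Yv Γ k, lst p Y := le_iSup (fun Y : Yv Γ k => lst p Y) Y
    calc inY p Y = (inY p Y ⊓ (⨆ Z : {Z : Yv Γ k // WellOrderingRel Z Y}, inY p Z.1)) ⊔
          (inY p Y ⊓ (⨆ Z : {Z : Yv Γ k // WellOrderingRel Z Y}, inY p Z.1)ᶜ) :=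
          (sup_inf_inf_compl).symm
      _ ≤ _ := sup_le (inf_le_right.trans h3) h4

private theorem meas_col (p : RP) (Y : Yv Γ k) (c : Fin k) :
    MeasurableSet (rep p ⁻¹' {f | Y.1.2 f = c}) := by
  refine rep_meas p ?_
  have h : {f | Y.1.2 f = c} = Y.1.2 ⁻¹' {c} := rfl
  rw [h]
  exact Y.2.2.2.1 (measurableSet_singleton c)

private theorem iSup_col (p : RP) (Y : Yv Γ k) :
    (⨆ c, cl (rep p ⁻¹' {f | Y.1.2 f = c})) = ⊤ := by
  refine top_unique ?_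
  obtain ⟨C, hC, h⟩ := exists_cl (⨆ c, cl (rep p ⁻¹' {f | Y.1.2 f = c}))
  rw [← h, ← cl_univ, cl_le MeasurableSet.univ hC]
  have h1 : ∀ c, rep p ⁻¹' {f | Y.1.2 f = c} ≤ᵐ[mu] C := fun c => by
    rw [← cl_le (meas_col p Y c) hC, h]
    exact le_iSup (fun c => cl (rep p ⁻¹' {f | Y.1.2 f = c})) c
  have h2 : ∀ᵐ ω ∂mu, ∀ c, (rep p ⁻¹' {f | Y.1.2 f = c}) ω ≤ C ω := ae_all_iff.2 h1
  filter_upwards [h2] with ω hω _
  exact hω (Y.1.2 (rep p ω)) rfl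

theorem vv_iSup (p : RP) : (⨆ c, vv Γ k p c) = ⨆ Y : Yv Γ k, lst p Y := by
  unfold vv
  rw [iSup_comm]
  refine iSup_congr fun Y => ?_
  rw [← inf_iSup_eq, iSup_col, inf_top_eq]

theorem vv_top (hΓ : MeasCol Γ k) (p : RP) : (⨆ c, vv Γ k p c) = ⊤ := by
  by_contra hne
  have hb : (⨆ c, vv Γ k p c)ᶜ ≠ ⊥ := fun h => hne (compl_eq_bot.1 h)
  obtain ⟨A, hA, h⟩ := exists_cl (⨆ c, vv Γ k p c)ᶜ
  have hA0 : mu A ≠ 0 := by
    rw [← h] at hb
    exact fun h0 => hb ((cl_eq_bot hA).2 h0)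
  have hp := ProbabilityTheory.cond_isProbabilityMeasure hA0
  have hν : IsProbabilityMeasure ((ProbabilityTheory.cond mu A).map (rep p)) :=
    Measure.isProbabilityMeasure_map (rep_meas p).aemeasurable
  obtain ⟨X, c, hX, hinv, hc, hcol, hpos⟩ := hΓ _ hν
  rw [Measure.map_apply (rep_meas p) hX, ProbabilityTheory.cond_apply hA] at hpos
  have hpos' : mu (A ∩ rep p ⁻¹' X) ≠ 0 := fun h0 => by
    rw [h0, mul_zero] at hpos
    exact lt_irrefl _ hpos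
  have hmX : MeasurableSet (rep p ⁻¹' X) := rep_meas p hX
  apply hpos'
  rw [← cl_eq_bot (hA.inter hmX), cl_inter hA hmX, h]
  have h1 : cl (rep p ⁻¹' X) ≤ ⨆ c, vv Γ k p c := by
    rw [vv_iSup, iSup_lst]
    exact le_iSup (fun Y : Yv Γ k => inY p Y) ⟨(X, c), hX, hinv, hc, hcol⟩
  refine le_bot_iff.1 ((inf_le_inf_left _ h1).trans ?_)
  exact (compl_inf_self (a := ⨆ c, vv Γ k p c)).le

end Rnd
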