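import Pool.Agent.Rnd.FA1
import Pool.Agent.Rnd.FA2

/-! # The colouring is well defined and proper (package FA3)

(problem MP_564ab4_lc, project RND; black boxes: `FA1.lean` (`rep_meas`), `FA2.lean` (`lst_disj`))

Measurability: `rep_meas p`, `MeasurableSet (gD Γ)`, `(rep_meas p).prodMk (rep_meas q)`; all sets below are
measurable, `{f | Y.1.2 f = c}` because `Y.1.2` is measurable (`Y.2.2.2.1`).

Let `D` be a measurable set of pairs such that every `Y : Yv Γ k` is invariant along `D`: `(f, g) ∈ D → (f ∈ Y.1.1 ↔ g ∈ Y.1.1)`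
(hypothesis `hD`), and put `a := vD D p q`.

* `vD_inY`: `a ⊓ inY p Y = a ⊓ inY q Y` (equality of the sets `{ω | (rep p ω, rep q ω) ∈ D} ∩ rep p ⁻¹' Y.1.1` and
  `.. ∩ rep q ⁻¹' Y.1.1`; `cl_inter`).
* `vD_lst`: `a ⊓ lst p Y = a ⊓ lst q Y`: `a ⊓ (⨆ Z, inY p Z)ᶜ = a ⊓ (a ⊓ ⨆ Z, inY p Z)ᶜ` and
  `a ⊓ ⨆ Z, inY p Z = ⨆ Z, a ⊓ inY p Z`.
* `vv_D`: if moreover `(f, g) ∈ D`, `f, g ∈ Y.1.1` imply not (`Y.1.2 f = c` and `Y.1.2 g = d`), then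
  `vv Γ k p c ⊓ vv Γ k q d ⊓ vD D p q = ⊥`: distribute: `⨆ Y, ⨆ Z, a ⊓ lst p Y ⊓ cl (rep p ⁻¹' {c_Y = c}) ⊓ lst q Z ⊓ cl (rep q ⁻¹' {c_Z = d})`.
  For `Y ≠ Z`: `a ⊓ lst p Y ⊓ lst q Z = a ⊓ lst q Y ⊓ lst q Z = ⊥` (`lst_disj`). For `Y = Z`: it is below the
  class of `{ω | (rep p ω, rep q ω) ∈ D, rep p ω ∈ Y.1.1, rep q ω ∈ Y.1.1, c_Y (rep p ω) = c, c_Y (rep q ω) = d} = ∅`.
* `vv_adj` (properness): `D := gD Γ`, `d := c`, from `Y.2`. `vv_ne` (well defined): `D :=` the diagonal, `c ≠ d`. -/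

namespace Rnd

open STP BSet MeasureTheory

variable {Γ : (ℕ → ℕ) → (ℕ → ℕ) → Prop} {k : ℕ}

private theorem meas_pair {D : Set ((ℕ → ℕ) × (ℕ → ℕ))} (hDm : MeasurableSet D) (p q : RP) :
    MeasurableSet {ω | (rep p ω, rep q ω) ∈ D} :=
  ((rep_meas p).prodMk (rep_meas q)) hDm

private theorem meas_in (p : RP) (Y : Yv Γ k) : MeasurableSet (rep p ⁻¹' Y.1.1) :=
  rep_meas p Y.2.1

private theorem meas_col (p : RP) (Y : Yv Γ k) (c : Fin k) :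
    MeasurableSet (rep p ⁻¹' {f | Y.1.2 f = c}) :=
  rep_meas p (Y.2.2.2.1 (measurableSet_singleton c))

private theorem inf_compl_congr {B : Type*} [BooleanAlgebra B] {a x y : B} (h : a ⊓ x = a ⊓ y) :
    a ⊓ xᶜ = a ⊓ yᶜ := by
  rw [← sdiff_eq, ← sdiff_eq, ← sdiff_inf_self_left a x, ← sdiff_inf_self_left a y, h]

theorem vD_inY {D : Set ((ℕ → ℕ) × (ℕ → ℕ))} (hDm : MeasurableSet D) (p q : RP) (Y : Yv Γ k)
    (hD : ∀ f g, (f, g) ∈ D → (f ∈ Y.1.1 ↔ g ∈ Y.1.1)) :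
    vD D p q ⊓ inY p Y = vD D p q ⊓ inY q Y := by
  unfold vD inY
  rw [← cl_inter (meas_pair hDm p q) (meas_in p Y), ← cl_inter (meas_pair hDm p q) (meas_in q Y)]
  congr 1
  ext ω
  constructor
  · rintro ⟨h1, h2⟩
    exact ⟨h1, (hD _ _ h1).1 h2⟩
  · rintro ⟨h1, h2⟩
    exact ⟨h1, (hD _ _ h1).2 h2⟩

theorem vD_lst {D : Set ((ℕ → ℕ) × (ℕ → ℕ))} (hDm : MeasurableSet D) (p q : RP)
    (hD : ∀ Y : Yv Γ k, ∀ f g, (f, g) ∈ D → (f ∈ Y.1.1 ↔ g ∈ Y.1.1)) (Y : Yv Γ k) :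
    vD D p q ⊓ lst p Y = vD D p q ⊓ lst q Y := by
  have h1 := fun Z => vD_inY hDm p q Z (hD Z)
  have h2 : vD D p q ⊓ (⨆ Z : {Z : Yv Γ k // WellOrderingRel Z Y}, inY p Z.1)ᶜ =
      vD D p q ⊓ (⨆ Z : {Z : Yv Γ k // WellOrderingRel Z Y}, inY q Z.1)ᶜ := by
    apply inf_compl_congr
    rw [inf_iSup_eq, inf_iSup_eq]
    exact iSup_congr fun Z => h1 Z.1
  unfold lst
  rw [inf_inf_distrib_left, h1 Y, h2, ← inf_inf_distrib_left]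

theorem vv_D {D : Set ((ℕ → ℕ) × (ℕ → ℕ))} (hDm : MeasurableSet D) (p q : RP) (c d : Fin k)
    (hD : ∀ Y : Yv Γ k, ∀ f g, (f, g) ∈ D → (f ∈ Y.1.1 ↔ g ∈ Y.1.1))
    (hc : ∀ Y : Yv Γ k, ∀ f g, (f, g) ∈ D → f ∈ Y.1.1 → g ∈ Y.1.1 → Y.1.2 f = c → Y.1.2 g ≠ d) :
    vv Γ k p c ⊓ vv Γ k q d ⊓ vD D p q = ⊥ := by
  rw [eq_bot_iff, inf_assoc]
  unfold vv
  rw [iSup_inf_eq]
  refine iSup_le fun Y => ?_
  rw [inf_left_comm, iSup_inf_eq]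
  refine iSup_le fun Z => ?_
  rcases eq_or_ne Y Z with h | h
  · subst h
    have h1 : lst q Y ⊓ cl (rep q ⁻¹' {f | Y.1.2 f = d}) ⊓
        (lst p Y ⊓ cl (rep p ⁻¹' {f | Y.1.2 f = c}) ⊓ vD D p q) ≤
        inY q Y ⊓ cl (rep q ⁻¹' {f | Y.1.2 f = d}) ⊓
          (inY p Y ⊓ cl (rep p ⁻¹' {f | Y.1.2 f = c}) ⊓ vD D p q) :=
      inf_le_inf (inf_le_inf_right _ inf_le_left)
        (inf_le_inf_right _ (inf_le_inf_right _ inf_le_left))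
    refine h1.trans ?_
    unfold inY vD
    rw [← cl_inter (meas_in q Y) (meas_col q Y d), ← cl_inter (meas_in p Y) (meas_col p Y c),
      ← cl_inter ((meas_in p Y).inter (meas_col p Y c)) (meas_pair hDm p q),
      ← cl_inter ((meas_in q Y).inter (meas_col q Y d))
        (((meas_in p Y).inter (meas_col p Y c)).inter (meas_pair hDm p q))]
    have h2 : ((rep q ⁻¹' Y.1.1) ∩ (rep q ⁻¹' {f | Y.1.2 f = d})) ∩
        (((rep p ⁻¹' Y.1.1) ∩ (rep p ⁻¹' {f | Y.1.2 f = c})) ∩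
          {ω | (rep p ω, rep q ω) ∈ D}) = ∅ := by
      rw [Set.eq_empty_iff_forall_notMem]
      rintro ω ⟨⟨h3, h4⟩, ⟨h5, h6⟩, h7⟩
      exact hc Y _ _ h7 h5 h3 h6 h4
    rw [h2, cl_empty]
  · have h1 : lst p Y ⊓ cl (rep p ⁻¹' {f | Y.1.2 f = c}) ⊓ vD D p q ≤ lst q Y := by
      calc lst p Y ⊓ cl (rep p ⁻¹' {f | Y.1.2 f = c}) ⊓ vD D p q
          ≤ vD D p q ⊓ lst p Y := le_inf inf_le_right (inf_le_left.trans inf_le_left)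
        _ = vD D p q ⊓ lst q Y := vD_lst hDm p q hD Y
        _ ≤ lst q Y := inf_le_right
    calc lst q Z ⊓ cl (rep q ⁻¹' {f | Z.1.2 f = d}) ⊓
          (lst p Y ⊓ cl (rep p ⁻¹' {f | Y.1.2 f = c}) ⊓ vD D p q)
        ≤ lst q Z ⊓ lst q Y := inf_le_inf inf_le_left h1
      _ = ⊥ := lst_disj q Z Y h.symm
      _ ≤ ⊥ := le_rfl

theorem vv_adj (hΓ : MeasurableSet (gD Γ)) (p q : RP) (c : Fin k) :
    vv Γ k p c ⊓ vv Γ k q c ⊓ vD (gD Γ) p q = ⊥ := by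
  refine vv_D hΓ p q c c (fun Y f g h => Y.2.2.1 f g h) fun Y f g h hf hg h1 h2 => ?_
  exact Y.2.2.2.2 f hf g hg h (h1.trans h2.symm)

theorem vv_ne (p q : RP) (c d : Fin k) (h : c ≠ d) :
    vv Γ k p c ⊓ vv Γ k q d ⊓ vD {r | r.1 = r.2} p q = ⊥ := by
  refine vv_D (measurableSet_eq_fun measurable_fst measurable_snd) p q c d
    (fun Y f g hfg => ?_) fun Y f g hfg hf hg h1 h2 => ?_
  · have hfg' : f = g := hfg
    rw [hfg']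
  · have hfg' : f = g := hfg
    rw [hfg'] at h1
    exact h (h1.symm.trans h2)

end Rnd
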