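import Pool.Agent.Rnd.Ix
import Pool.Agent.Rnd.FA1

/-! # The name of the colouring is hereditarily symmetric (package FA4)

(problem MP_564ab4_lc, project RND; black boxes: `Ix.lean`, `FA1.lean` (`cl_rep_actP`))

* `act_vv`: `act e (vv Γ k p c) = vv Γ k (actP e p) c`: `act_iSup`, `act_inf`, `act_compl`, `act_iSup` and
  `act e (inY p Y) = inY (actP e p) Y`, `act e (cl (rep p ⁻¹' {f | Y.1.2 f = c})) = cl (rep (actP e p) ⁻¹' ..)`
  (`cl_rep_actP`; `Y.1.1` is measurable by `Y.2.1`, `{f | Y.1.2 f = c}` because `Y.1.2` is measurable).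
* `FN_sym`: `actN e (FN Γ k) = mk (RP × Fin k) (fun r => actN e (opN (rlN r.1.1) (nn r.2))) (fun r => act e (vv ..))`;
  `actN_opN`, `actN_rlN`, `actN_nn`: the name at `r = (p, c)` is `opN (rlN (actP e p).1) (nn c)` and its value is
  `vv Γ k (actP e p) c`. So `eq_mk_equiv` with the permutation `(p, c) ↦ (actP e p, c)` (an involution,
  `actP_invol`) gives `BSet.eq (actN e (FN Γ k)) (FN Γ k) = ⊤` for all `e`.
* `HS_FN`: `HS_iff`: `Sym` with `S = ∅`; the children `opN (rlN p.1) (nn c)` are HS (`HS_opN`, `HS_rlN`, `HS_nn`). -/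

namespace Rnd

open STP BSet MeasureTheory

variable {Γ : (ℕ → ℕ) → (ℕ → ℕ) → Prop} {k : ℕ}

private theorem fa4_inY (e : Fl) (p : RP) (Y : Yv Γ k) :
    act e (inY p Y) = inY (actP e p) Y := (cl_rep_actP e p Y.2.1).symm

private theorem fa4_lst (e : Fl) (p : RP) (Y : Yv Γ k) :
    act e (lst p Y) = lst (actP e p) Y := by
  unfold lst
  rw [act_inf, act_compl, act_iSup, fa4_inY]
  simp only [fa4_inY]

theorem act_vv (e : Fl) (p : RP) (c : Fin k) :
    act e (vv Γ k p c) = vv Γ k (actP e p) c := by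
  unfold vv
  rw [act_iSup]
  refine iSup_congr fun Y => ?_
  have h1 : MeasurableSet {f | Y.1.2 f = c} := Y.2.2.2.1 (measurableSet_singleton c)
  rw [act_inf, fa4_lst, ← cl_rep_actP e p h1]

theorem FN_sym (e : Fl) : BSet.eq (actN e (FN Γ k)) (FN Γ k) = ⊤ := by
  have hinv : Function.Involutive (actP e) := actP_invol e
  have h := eq_mk_equiv (hinv.toPerm.prodCongr (Equiv.refl (Fin k)))
    (fun r : RP × Fin k => actN e (opN (rlN r.1.1) (nn r.2)))
    (fun r : RP × Fin k => opN (rlN r.1.1) (nn r.2))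
    (fun r : RP × Fin k => act e (vv Γ k r.1 r.2)) (fun r => vv Γ k r.1 r.2)
    (fun r => by
      rw [actN_opN, actN_rlN, actN_nn]
      rfl)
    (fun r => act_vv e r.1 r.2)
  exact h

theorem HS_FN : HS (FN Γ k) :=
  (HS_iff _).2 ⟨⟨∅, Set.countable_empty, fun e _ => FN_sym e⟩,
    fun r => HS_opN (HS_rlN r.1.1) (HS_nn r.2)⟩

end Rnd
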