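import Pool.Agent.Rnd.FA1

/-! # Borel sets are decided by countably many suprema (package FA5)

(problem MP_564ab4_lc, project RND; black box: `FA1.lean` (`rep_meas`, `cl_rep`))

* `borel_gen`: induction on the measurability of `D`. Let `S0 p q` be the countable set of the sequences
  `fun m => p.1 n m` and `fun m => q.1 n m`, `n : ℕ`. If `U` preserves these suprema (all equal to `⊤ ∈ U.s`), then
  for every `n` there is exactly one `m` with `p.1 n m ∈ U.s` (disjointness: `p.1 n m ⊓ p.1 n m' = ⊥ ∉ U.s`), so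
  `p.1 n m ∈ U.s ↔ evU U p n = m` (lemma `evU_iff`), the same for `q`.
  Let `Cc` be the class of the sets `D` for which the statement holds (with `MeasurableSet D`).
  - The sigma-algebra of `(ℕ → ℕ) × (ℕ → ℕ)` is generated by the sets `{d | d.1 n = m}` and `{d | d.2 n = m}`
    (`Prod` and `pi` sigma-algebras are suprema of comaps; `ℕ` is countable with the discrete sigma-algebra:
    `{d | d.1 n ∈ t}` is a countable union of such sets). For `D = {d | d.1 n = m}`: `vD D p q = cl {ω | rep p ω n = m} =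
    p.1 n m`, so `S0 p q` works.
  - complements: the same `S`; `vD Dᶜ p q = (vD D p q)ᶜ` (`cl_compl`), `Ult_compl`.
  - countable unions `D = ⋃ i, D i`: `S = ⋃ i, S i ∪ {fun i => vD (D i) p q}`; `vD D p q = ⨆ i, vD (D i) p q` (`cl_iUnion`).
    `vD D p q ∈ U.s` iff some `vD (D i) p q ∈ U.s` (`→`: preserved supremum; `←`: `U.up`).
  (Suggestion: `MeasurableSpace.induction_on_inter` is not needed; show that `{D | statement}` contains the
  sigma-algebra by `MeasurableSpace.generateFrom_induction` or by defining a `MeasurableSpace` structure whose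
  measurable sets are the measurable `D` with the property, and `sup_le`/`comap_le` for
  `Prod.instMeasurableSpace = (MeasurableSpace.pi.comap Prod.fst) ⊔ (.. Prod.snd)`.)
* `SB_spec`, `SB_cnt`: `dif_pos (borel_gen ..)`, `choose_spec`; if `D` is not measurable the first alternative may
  fail and `SB` is empty, `SB_cnt` holds in both cases.
* `rlN_inj`: `rlN p = rlN q` implies `p = q` (`BSet.mk.injEq`, `eq_of_heq`, evaluate at `(n, m)`).
* `RR_cnt`: `RR Γ x y` is countable: if `x = rlN p.1` and `y = rlN q.1` for some `p, q : RP` then they are unique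
  (`rlN_inj`, `Subtype.ext`) and `RR Γ x y = SB (gD Γ) p q`; otherwise it is empty. -/

namespace Rnd

open STP BSet MeasureTheory

theorem evU_iff (U : Ult MA) (p : RP) (n : ℕ) (h : ∃ m, p.1 n m ∈ U.s) (m : ℕ) :
    p.1 n m ∈ U.s ↔ evU U p n = m := by
  have h1 : evU U p n = h.choose := by
    unfold evU
    exact dif_pos h
  have huniq : ∀ a b, p.1 n a ∈ U.s → p.1 n b ∈ U.s → a = b := by
    intro a b ha hb
    by_contra hab
    have h2 := U.inf ha hb
    rw [(p.2 n).1 a b hab] at h2
    exact U.bot h2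
  constructor
  · intro hm
    rw [h1]
    exact huniq _ _ h.choose_spec hm
  · intro he
    rw [← he, h1]
    exact h.choose_spec

/-- the statement of `borel_gen` for the set `D` -/
private def St (p q : RP) (D : Set ((ℕ → ℕ) × (ℕ → ℕ))) : Prop :=
  ∃ S : Set (ℕ → MA), S.Countable ∧ ∀ U : Ult MA, PrS U S →
    (vD D p q ∈ U.s ↔ (evU U p, evU U q) ∈ D)

private theorem top_ex {U : Ult MA} {p : RP} {n : ℕ} (h : PrS U {p.1 n}) :
    ∃ m, p.1 n m ∈ U.s := by
  refine h (p.1 n) rfl ?_
  rw [(p.2 n).2]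
  exact U.top

private theorem St_fst (p q : RP) (n m : ℕ) : St p q {d | d.1 n = m} := by
  refine ⟨{p.1 n}, Set.countable_singleton _, fun U hU => ?_⟩
  have h1 : vD {d | d.1 n = m} p q = p.1 n m := cl_rep p n m
  rw [h1, evU_iff U p n (top_ex hU)]
  rfl

private theorem St_snd (p q : RP) (n m : ℕ) : St p q {d | d.2 n = m} := by
  refine ⟨{q.1 n}, Set.countable_singleton _, fun U hU => ?_⟩
  have h1 : vD {d | d.2 n = m} p q = q.1 n m := cl_rep q n m
  rw [h1, evU_iff U q n (top_ex hU)]
  rfl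

private theorem meas_pre (p q : RP) {D : Set ((ℕ → ℕ) × (ℕ → ℕ))} (hD : MeasurableSet D) :
    MeasurableSet {ω | (rep p ω, rep q ω) ∈ D} :=
  ((rep_meas p).prodMk (rep_meas q)) hD

/-- the sigma-algebra of the sets for which the statement holds -/
@[instance_reducible]
private def mS (p q : RP) : MeasurableSpace ((ℕ → ℕ) × (ℕ → ℕ)) where
  MeasurableSet' D := MeasurableSet D ∧ St p q D
  measurableSet_empty := by
    refine ⟨MeasurableSet.empty, ∅, Set.countable_empty, fun U _ => ?_⟩
    have h1 : vD ∅ p q = ⊥ := cl_empty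
    rw [h1]
    exact ⟨fun h => absurd h U.bot, fun h => absurd h (Set.notMem_empty _)⟩
  measurableSet_compl D := by
    rintro ⟨hD, S, hS, h⟩
    refine ⟨hD.compl, S, hS, fun U hU => ?_⟩
    have h1 : vD Dᶜ p q = (vD D p q)ᶜ := cl_compl (meas_pre p q hD)
    rw [h1, Ult_compl, h U hU]
    rfl
  measurableSet_iUnion f h := by
    choose hf S hS hU using h
    refine ⟨MeasurableSet.iUnion hf, (⋃ i, S i) ∪ {fun i => vD (f i) p q},
      (Set.countable_iUnion hS).union (Set.countable_singleton _), fun U hP => ?_⟩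
    have h1 : vD (⋃ i, f i) p q = ⨆ i, vD (f i) p q := by
      have h2 : {ω | (rep p ω, rep q ω) ∈ ⋃ i, f i} = ⋃ i, {ω | (rep p ω, rep q ω) ∈ f i} := by
        ext ω
        simp only [Set.mem_ofPred_eq, Set.mem_iUnion]
      unfold vD
      rw [h2, cl_iUnion fun i => meas_pre p q (hf i)]
    have h3 : ∀ i, vD (f i) p q ∈ U.s ↔ (evU U p, evU U q) ∈ f i := fun i =>
      hU i U fun s hs => hP s (Or.inl (Set.mem_iUnion.2 ⟨i, hs⟩))
    rw [h1, Set.mem_iUnion]
    constructor
    · intro h4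
      obtain ⟨i, hi⟩ := hP _ (Or.inr rfl) h4
      exact ⟨i, (h3 i).1 hi⟩
    · rintro ⟨i, hi⟩
      exact U.up ((h3 i).2 hi) (le_iSup (fun i => vD (f i) p q) i)

theorem borel_gen {D : Set ((ℕ → ℕ) × (ℕ → ℕ))} (hD : MeasurableSet D) (p q : RP) :
    ∃ S : Set (ℕ → MA), S.Countable ∧ ∀ U : Ult MA, PrS U S →
      (vD D p q ∈ U.s ↔ (evU U p, evU U q) ∈ D) := by
  have hm : ∀ n, Measurable fun d : (ℕ → ℕ) × (ℕ → ℕ) => d.1 n := fun n =>
    (measurable_pi_apply n).comp measurable_fst
  have hm' : ∀ n, Measurable fun d : (ℕ → ℕ) × (ℕ → ℕ) => d.2 n := fun n =>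
    (measurable_pi_apply n).comp measurable_snd
  have h1 : @Measurable _ _ (mS p q) MeasurableSpace.pi
      (Prod.fst : (ℕ → ℕ) × (ℕ → ℕ) → ℕ → ℕ) := by
    refine @measurable_pi_lambda _ _ _ (mS p q) _ _ fun n => ?_
    refine @measurable_to_countable' _ _ _ _ (mS p q) _ fun m => ?_
    exact ⟨hm n (measurableSet_singleton m), St_fst p q n m⟩
  have h2 : @Measurable _ _ (mS p q) MeasurableSpace.pi
      (Prod.snd : (ℕ → ℕ) × (ℕ → ℕ) → ℕ → ℕ) := by
    refine @measurable_pi_lambda _ _ _ (mS p q) _ _ fun n => ?_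
    refine @measurable_to_countable' _ _ _ _ (mS p q) _ fun m => ?_
    exact ⟨hm' n (measurableSet_singleton m), St_snd p q n m⟩
  have hle : (Prod.instMeasurableSpace : MeasurableSpace ((ℕ → ℕ) × (ℕ → ℕ))) ≤ mS p q :=
    sup_le (measurable_iff_comap_le.1 h1) (measurable_iff_comap_le.1 h2)
  exact (hle D hD).2

theorem SB_cnt (D : Set ((ℕ → ℕ) × (ℕ → ℕ))) (p q : RP) : (SB D p q).Countable := by
  unfold SB
  split_ifs with h
  · exact h.choose_spec.1
  · exact Set.countable_empty

theorem SB_spec {D : Set ((ℕ → ℕ) × (ℕ → ℕ))} (hD : MeasurableSet D) (p q : RP) (U : Ult MA)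
    (h : PrS U (SB D p q)) : vD D p q ∈ U.s ↔ (evU U p, evU U q) ∈ D := by
  have h1 := borel_gen hD p q
  have h2 : SB D p q = h1.choose := by
    unfold SB
    exact dif_pos h1
  rw [h2] at h
  exact h1.choose_spec.2 U h

theorem rlN_inj {B : Type} [CompleteBooleanAlgebra B] {p q : ℕ → ℕ → B} (h : rlN p = rlN q) :
    p = q := by
  unfold rlN at h
  simp only [BSet.mk.injEq, heq_eq_eq, true_and] at h
  funext n m
  exact congrFun h (n, m)

theorem RR_cnt (Γ : (ℕ → ℕ) → (ℕ → ℕ) → Prop) (x y : BSet MA) : (RR Γ x y).Countable := by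
  by_cases h : ∃ p q : RP, x = rlN p.1 ∧ y = rlN q.1
  · obtain ⟨p, q, rfl, rfl⟩ := h
    refine (SB_cnt (gD Γ) p q).mono ?_
    rintro s ⟨p', q', h1, h2, h3⟩
    have h4 : p = p' := Subtype.ext (rlN_inj h1)
    have h5 : q = q' := Subtype.ext (rlN_inj h2)
    rw [h4, h5]
    exact h3
  · refine Set.countable_empty.mono ?_
    rintro s ⟨p', q', h1, h2, -⟩
    exact absurd ⟨p', q', h1, h2⟩ h

end Rnd
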