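import Pool.Agent.Rnd.Ix
import Pool.Agent.Rnd.FA2
import Pool.Agent.Rnd.FA3
import Pool.Agent.Rnd.FA5

/-! # The reals of the model (package FA6)

(problem MP_564ab4_lc, project RND; black boxes: `Ix.lean`, `FA1.lean`, `FA5.lean`)

`h : Mdl R U N` throughout.

* `eq_rlN_le`: `BSet.eq (rlN p.1) (rlN q.1) ≤ vD {r | r.1 = r.2} p q`: for all `n m`: `BSet.eq (rlN
p.1) (rlN q.1) ⊓ p.1 n m ≤ q.1 n m` (`mem_congr_right`, `mem_rlN`), and by symmetry the converse.
The class `cl {ω | rep p ω = rep q ω}` equals `⨅ n, cl {ω | rep p ω n = rep q ω n}` (`cl_iInter`),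
and `{ω | rep p ω n = rep q ω n} = ⋃ m, {rep p n = m} ∩ {rep q n = m}` has the class `⨆ m, p.1 n m
⊓ q.1 n m` (`cl_iUnion`, `cl_inter`, `cl_rep`). With `b := BSet.eq ..`: `b = b ⊓ ⨆ m, p.1 n m = ⨆
m, b ⊓ p.1 n m ≤ ⨆ m, p.1 n m ⊓ q.1 n m`. (`{r | r.1 = r.2}` is measurable: `measurableSet_eq_fun`
or `isClosed_diagonal.measurableSet`; the identity of the sets `{ω | (rep p ω, rep q ω) ∈ {r | r.1
= r.2}} = ⋂ n, {ω | rep p ω n = rep q ω n}` is `funext_iff`.) * `ev_of_mem`: if `p : RP` and `rlN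
p.1 ∈ N` then for all `n m`: `p.1 n m ∈ U.s ↔ evU U p n = m`: the field `gre` of `Mdl` for `x = rlN
p.1` with `mem_rlN` gives some `m` with `p.1 n m ∈ U.s` (the supremum is `⊤`), then `evU_iff`. *
`val_rlN_ev`: hence `val U N (rlN p.1) = code (evU U p)` (`val_rlN`). * `pX_part`: `IsPart (pX x)`
for every name `x` (disjoint: for `m < m'` in the successor case `pX x n m' ≤ (mem (n, m) x)ᶜ` and
`pX x n m ≤ mem (n, m) x` for `m > 0`; for `m = 0`: `pX x n 0 ⊓ pX x n (m' + 1)`: `pX x n (m'+1) ≤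
mem (n, m'+1) x ≤ ⨆`, and `≤ (mem (n, 0) x)ᶜ`. Supremum: `mem (n, m) x ≤ ⨆ m' ≤ m, pX x n m'` by
strong induction, and `(⨆ m, mem (n, m) x)ᶜ ≤ pX x n 0`). * `real_rep`: let `x ∈ N` with `val U N x
= code f`. Then `rlN (pX x) ∈ N` (field `rl`) and for `p := ⟨pX x, pX_part x⟩ : RP` `evU U p = f`:
by `truth_mem` (`opN (nn n) (nn m) ∈ N`, `val_opN`, `val_nn`, `pair_mem_code`): `mem (opN (nn n)
(nn m)) x ∈ U.s ↔ f n = m`. So `pX x n (f n) ∈ U.s`: it is `mem (n, f n) x` minus a finite supremum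
of elements which are not in `U.s` (`Ult_inf`, `Ult_compl`, finite suprema: induction or
`Ult_sup`); for `f n = 0` it is above `mem (n, 0) x`. Then `ev_of_mem`. -/

namespace Rnd

open STP BSet MeasureTheory

private theorem eq_inf_le (p q : RP) (n m : ℕ) :
    BSet.eq (rlN p.1) (rlN q.1) ⊓ p.1 n m ≤ q.1 n m := by
  have h := mem_congr_right (rlN p.1) (rlN q.1) (opN (nn n) (nn m))
  rwa [mem_rlN, mem_rlN] at h

theorem eq_rlN_le (p q : RP) : BSet.eq (rlN p.1) (rlN q.1) ≤ vD {r | r.1 = r.2} p q := by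
  have hmp : ∀ n m, MeasurableSet {ω | rep p ω n = m} := fun n m =>
    (measurable_pi_iff.1 (rep_meas p) n) (measurableSet_singleton m)
  have hmq : ∀ n m, MeasurableSet {ω | rep q ω n = m} := fun n m =>
    (measurable_pi_iff.1 (rep_meas q) n) (measurableSet_singleton m)
  have h1 : {ω | (rep p ω, rep q ω) ∈ {r : (ℕ → ℕ) × (ℕ → ℕ) | r.1 = r.2}} =
      ⋂ n, ⋃ m, ({ω | rep p ω n = m} ∩ {ω | rep q ω n = m}) := by
    ext ω
    simp only [Set.mem_ofPred_eq, Set.mem_iInter, Set.mem_iUnion, Set.mem_inter_iff]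
    constructor
    · intro h n
      exact ⟨_, rfl, by rw [h]⟩
    · intro h
      funext n
      obtain ⟨m, h1, h2⟩ := h n
      rw [h1, h2]
  unfold vD
  rw [h1, cl_iInter fun n => MeasurableSet.iUnion fun m => (hmp n m).inter (hmq n m)]
  refine le_iInf fun n => ?_
  rw [cl_iUnion fun m => (hmp n m).inter (hmq n m)]
  calc BSet.eq (rlN p.1) (rlN q.1) = BSet.eq (rlN p.1) (rlN q.1) ⊓ ⨆ m, p.1 n m := by
        rw [(p.2 n).2, inf_top_eq]
    _ = ⨆ m, BSet.eq (rlN p.1) (rlN q.1) ⊓ p.1 n m := inf_iSup_eq _ _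
    _ ≤ _ := iSup_mono fun m => by
        rw [cl_inter (hmp n m) (hmq n m), cl_rep, cl_rep]
        exact le_inf inf_le_right (eq_inf_le p q n m)

private theorem pX_zero {B : Type} [CompleteBooleanAlgebra B] (x : BSet B) (n : ℕ) :
    pX x n 0 = mem (opN (nn n) (nn 0)) x ⊔ (⨆ m, mem (opN (nn n) (nn m)) x)ᶜ := rfl

private theorem pX_succ {B : Type} [CompleteBooleanAlgebra B] (x : BSet B) (n m : ℕ) :
    pX x n (m + 1) = mem (opN (nn n) (nn (m + 1))) x ⊓
      (⨆ k : Fin (m + 1), mem (opN (nn n) (nn k)) x)ᶜ := rfl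

private theorem part_aux {B : Type} [CompleteBooleanAlgebra B] (a p : ℕ → B)
    (h0 : p 0 = a 0 ⊔ (⨆ m, a m)ᶜ)
    (hs : ∀ m, p (m + 1) = a (m + 1) ⊓ (⨆ k : Fin (m + 1), a k)ᶜ) :
    (∀ m m', m ≠ m' → p m ⊓ p m' = ⊥) ∧ ⨆ m, p m = ⊤ := by
  have hlt : ∀ m m', m < m' → p m ⊓ p m' = ⊥ := by
    intro m m' h
    obtain ⟨k, rfl⟩ : ∃ k, m' = k + 1 := ⟨m' - 1, by omega⟩
    have h1 : a m ≤ ⨆ j : Fin (k + 1), a j :=
      le_iSup (fun j : Fin (k + 1) => a j) ⟨m, h⟩
    rw [hs k, ← disjoint_iff]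
    cases m with
    | zero =>
      rw [h0]
      refine Disjoint.sup_left ?_ ?_
      · exact (disjoint_compl_right_iff.2 h1).mono_right inf_le_right
      · exact (disjoint_compl_left_iff.2 (le_iSup a (k + 1))).mono_right inf_le_left
    | succ m =>
      rw [hs m]
      exact ((disjoint_compl_right_iff.2 h1).mono_right inf_le_right).mono_left inf_le_left
  refine ⟨fun m m' h => ?_, ?_⟩
  · rcases lt_or_gt_of_ne h with h | h
    · exact hlt m m' h
    · rw [inf_comm]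
      exact hlt m' m h
  · have h1 : ∀ m, a m ≤ ⨆ k, p k := by
      intro m
      induction m using Nat.strong_induction_on with
      | _ m ih =>
        cases m with
        | zero => exact (h0 ▸ le_sup_left : a 0 ≤ p 0).trans (le_iSup p 0)
        | succ m =>
          have h2 : (⨆ k : Fin (m + 1), a k) ≤ ⨆ k, p k :=
            iSup_le fun k => ih k k.2
          calc a (m + 1) = (a (m + 1) ⊓ ⨆ k : Fin (m + 1), a k) ⊔
                (a (m + 1) ⊓ (⨆ k : Fin (m + 1), a k)ᶜ) := by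
                rw [← inf_sup_left, sup_compl_eq_top, inf_top_eq]
            _ ≤ _ := sup_le (inf_le_right.trans h2) (by
                rw [← hs m]
                exact le_iSup p (m + 1))
    rw [eq_top_iff, ← sup_compl_eq_top (x := ⨆ m, a m)]
    refine sup_le (iSup_le h1) ?_
    exact (h0 ▸ le_sup_right : (⨆ m, a m)ᶜ ≤ p 0).trans (le_iSup p 0)

theorem pX_part {B : Type} [CompleteBooleanAlgebra B] (x : BSet B) : IsPart (pX x) := fun n =>
  part_aux (fun m => mem (opN (nn n) (nn m)) x) (pX x n) (pX_zero x n) (pX_succ x n)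

variable {R : BSet MA → BSet MA → Set (ℕ → MA)} {U : Ult MA} {N : Set (BSet MA)}

theorem ev_of_mem (h : Mdl R U N) (p : RP) (hp : rlN p.1 ∈ N) (n m : ℕ) :
    p.1 n m ∈ U.s ↔ evU U p n = m := by
  have h1 : (⨆ m, mem (opN (nn n) (nn m)) (rlN p.1)) = ⊤ := by
    rw [← (p.2 n).2]
    exact iSup_congr fun m => mem_rlN _ _ _
  obtain ⟨k, hk⟩ := h.gre (rlN p.1) hp n (by
    rw [h1]
    exact U.top)
  rw [mem_rlN] at hk
  exact evU_iff U p n ⟨k, hk⟩ m

theorem val_rlN_ev (h : Mdl R U N) (p : RP) (hp : rlN p.1 ∈ N) :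
    val U N (rlN p.1) = code (evU U p) :=
  val_rlN h p.1 (evU U p) fun n m => ev_of_mem h p hp n m

private theorem not_mem_iSup_fin (U : Ult MA) (a : ℕ → MA) (k : ℕ) (h : ∀ j, j < k → a j ∉ U.s) :
    (⨆ j : Fin k, a j) ∉ U.s := by
  induction k with
  | zero =>
    have h1 : (⨆ j : Fin 0, a j) = ⊥ := iSup_of_empty _
    rw [h1]
    exact U.bot
  | succ k ih =>
    intro h2
    have h3 : (⨆ j : Fin (k + 1), a j) ≤ (⨆ j : Fin k, a j) ⊔ a k := by
      refine iSup_le fun j => ?_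
      rcases Nat.lt_succ_iff_lt_or_eq.1 j.2 with hj | hj
      · exact (le_iSup (fun i : Fin k => a i) ⟨j, hj⟩).trans le_sup_left
      · rw [hj]
        exact le_sup_right
    rcases (Ult_sup U).1 (U.up h2 h3) with h4 | h4
    · exact ih (fun j hj => h j (hj.trans (Nat.lt_succ_self k))) h4
    · exact h k (Nat.lt_succ_self k) h4

theorem real_rep (h : Mdl R U N) {x : BSet MA} (hx : x ∈ N) {f : ℕ → ℕ}
    (hf : val U N x = code f) : ∃ p : RP, rlN p.1 ∈ N ∧ evU U p = f := by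
  have hm : ∀ n m, mem (opN (nn n) (nn m)) x ∈ U.s ↔ f n = m := by
    intro n m
    rw [← truth_mem h (opN_mem h (nn_mem h n) (nn_mem h m)) hx,
      val_opN h (nn_mem h n) (nn_mem h m), val_nn h, val_nn h, hf, pair_mem_code]
  have hp : rlN (pX x) ∈ N := h.rl x hx
  refine ⟨⟨pX x, pX_part x⟩, hp, ?_⟩
  funext n
  refine (ev_of_mem h ⟨pX x, pX_part x⟩ hp n (f n)).1 ?_
  change pX x n (f n) ∈ U.s
  have h1 : mem (opN (nn n) (nn (f n))) x ∈ U.s := (hm n (f n)).2 rfl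
  rcases Nat.eq_zero_or_pos (f n) with h0 | h0
  · rw [h0] at h1 ⊢
    rw [pX_zero]
    exact U.up h1 le_sup_left
  · obtain ⟨k, hk⟩ : ∃ k, f n = k + 1 := ⟨f n - 1, by omega⟩
    rw [hk] at h1 ⊢
    rw [pX_succ]
    refine U.inf h1 ((Ult_compl U).2 ?_)
    refine not_mem_iSup_fin U (fun j => mem (opN (nn n) (nn j)) x) (k + 1) fun j hj h2 => ?_
    have h3 := (hm n j).1 h2
    omega

end Rnd
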