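import Pool.Agent.Rnd.FA4
import Pool.Agent.Rnd.FA6

/-! # The colouring belongs to the model (package FA7)

(problem MP_564ab4_lc, project RND; black boxes: `Ix.lean`, `FA2`-`FA6`)

Let `F := val U N (FN Γ k) ∈ Mod U N`.

* `mem_F`: `z ∈ F ↔ ∃ (p : RP) (c : Fin k), rlN p.1 ∈ N ∧ vv Γ k p c ∈ U.s ∧ z = ZFSet.pair (code (evU U p)) (nat c)`.
  `mem_val`: `z = val U N (opN (rlN p.1) (nn c))` with `vv Γ k p c ∈ U.s` and `opN (rlN p.1) (nn c) ∈ N`; `of_opN_mem` gives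
  `rlN p.1 ∈ N`; `val_opN`, `val_nn`, `val_rlN_ev`. Conversely `opN_mem`, `nn_mem`.
* `pair_mem_F`: `ZFSet.pair (code f) (nat c) ∈ F ↔ ∃ (p : RP) (hc : c < k), rlN p.1 ∈ N ∧ vv Γ k p ⟨c, hc⟩ ∈ U.s ∧ evU U p = f`
  (`ZFSet.pair_injective` or `ZFSet.pair_inj`, `code_inj`, `nat_inj`).
* `hasCol`: the three clauses of `HasCol`:
  (1) elements of `F`: `mem_F`; `code (evU U p) = val U N (rlN p.1) ∈ Mod U N`.
  (2) existence: `code f = val U N x`, `x ∈ N`; `real_rep` gives `p`; `⨆ c, vv Γ k p c = ⊤ ∈ U.s` (`vv_top`) is a finite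
  supremum, so some `vv Γ k p c ∈ U.s` (induction over `Fin k`; or: otherwise all `(vv Γ k p c)ᶜ ∈ U.s`, and
  their finite infimum `= (⨆ c, vv Γ k p c)ᶜ = ⊥` is in `U.s`). Uniqueness: if `(p, c)`, `(q, d)` both give `f` and
  `c ≠ d`: `val U N (rlN p.1) = code f = val U N (rlN q.1)` so `BSet.eq (rlN p.1) (rlN q.1) ∈ U.s` (`truth_eq`), so
  `vD {r | r.1 = r.2} p q ∈ U.s` (`eq_rlN_le`), and `vv_ne` gives `⊥ ∈ U.s`.
  (3) proper: if `Γ f g` and `(p, c)`, `(q, c)` give `f`, `g`: `SB_spec` for `D = gD Γ` (measurable), with `PrS U (SB (gD Γ) p q)`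
  from the field `bor` of `Mdl (RR Γ) U N` for the names `rlN p.1, rlN q.1 ∈ N`: `vD (gD Γ) p q ∈ U.s` because
  `(evU U p, evU U q) = (f, g) ∈ gD Γ`; `vv_adj` gives `⊥ ∈ U.s`. -/

namespace Rnd

open STP BSet MeasureTheory

variable {Γ : (ℕ → ℕ) → (ℕ → ℕ) → Prop} {k : ℕ} {U : Ult MA} {N : Set (BSet MA)}

private theorem fin_sup (U : Ult MA) {k : ℕ} (a : Fin k → MA) (h : (⨆ j, a j) ∈ U.s) :
    ∃ j, a j ∈ U.s := by
  have h1 : ∀ s : Finset (Fin k), s.sup a ∈ U.s → ∃ j, a j ∈ U.s := by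
    intro s
    induction s using Finset.induction_on with
    | empty =>
      intro h2
      rw [Finset.sup_empty] at h2
      exact absurd h2 U.bot
    | insert i s hi ih =>
      intro h2
      rw [Finset.sup_insert] at h2
      rcases (Ult_sup U).1 h2 with h3 | h3
      · exact ⟨i, h3⟩
      · exact ih h3
  refine h1 Finset.univ ?_
  rw [Finset.sup_univ_eq_iSup]
  exact h

theorem mem_F (h : Mdl (RR Γ) U N) (z : ZFSet.{0}) : z ∈ val U N (FN Γ k) ↔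
    ∃ (p : RP) (c : Fin k), rlN p.1 ∈ N ∧ vv Γ k p c ∈ U.s ∧
      z = ZFSet.pair (code (evU U p)) (nat c) := by
  rw [mem_val]
  constructor
  · rintro ⟨a, ha, hN, rfl⟩
    obtain ⟨p, c⟩ : RP × Fin k := a
    have h1 : rlN p.1 ∈ N := (of_opN_mem h hN).1
    refine ⟨p, c, h1, ha, ?_⟩
    change val U N (opN (rlN p.1) (nn c)) = _
    rw [val_opN h h1 (nn_mem h _), val_nn h, val_rlN_ev h p h1]
  · rintro ⟨p, c, h1, h2, rfl⟩
    refine ⟨(p, c), h2, opN_mem h h1 (nn_mem h _), ?_⟩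
    change _ = val U N (opN (rlN p.1) (nn c))
    rw [val_opN h h1 (nn_mem h _), val_nn h, val_rlN_ev h p h1]

theorem pair_mem_F (h : Mdl (RR Γ) U N) (f : ℕ → ℕ) (c : ℕ) :
    ZFSet.pair (code f) (nat c) ∈ val U N (FN Γ k) ↔
      ∃ (p : RP) (hc : c < k), rlN p.1 ∈ N ∧ vv Γ k p ⟨c, hc⟩ ∈ U.s ∧ evU U p = f := by
  rw [mem_F h]
  constructor
  · rintro ⟨p, d, h1, h2, h3⟩
    obtain ⟨h4, h5⟩ := ZFSet.pair_inj.1 h3
    have h6 : c = d := nat_inj.1 h5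
    subst h6
    exact ⟨p, d.2, h1, h2, (code_inj.1 h4).symm⟩
  · rintro ⟨p, hc, h1, h2, rfl⟩
    exact ⟨p, ⟨c, hc⟩, h1, h2, rfl⟩

theorem hasCol (h : Mdl (RR Γ) U N) (hF : FN Γ k ∈ N) (hΓ : MeasurableSet (gD Γ))
    (hH : MeasCol Γ k) : HasCol (Mod U N) Γ k := by
  refine ⟨val U N (FN Γ k), ⟨_, hF, rfl⟩, ?_, ?_, ?_⟩
  · intro z hz
    obtain ⟨p, c, h1, h2, rfl⟩ := (mem_F h z).1 hz
    exact ⟨evU U p, c, ⟨_, h1, val_rlN_ev h p h1⟩, c.2, rfl⟩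
  · rintro f ⟨x, hx, hxf⟩
    obtain ⟨p, hp, hpf⟩ := real_rep h hx hxf
    obtain ⟨c, hc⟩ : ∃ c : Fin k, vv Γ k p c ∈ U.s := by
      refine fin_sup U _ ?_
      rw [vv_top hH p]
      exact U.top
    refine ⟨c, ⟨c.2, (pair_mem_F h f c).2 ⟨p, c.2, hp, hc, hpf⟩⟩, ?_⟩
    rintro d ⟨hd, hd'⟩
    obtain ⟨q, hdk, hq, hqd, hqf⟩ := (pair_mem_F h f d).1 hd'
    by_contra hcd
    have h1 : (⟨d, hdk⟩ : Fin k) ≠ c := fun h2 => hcd (congrArg Fin.val h2)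
    have h2 : BSet.eq (rlN q.1) (rlN p.1) ∈ U.s := (truth_eq h hq hp).1 (by
      rw [val_rlN_ev h q hq, val_rlN_ev h p hp, hqf, hpf])
    have h3 := U.up h2 (eq_rlN_le q p)
    have h4 := U.inf (U.inf hqd hc) h3
    rw [vv_ne q p _ _ h1] at h4
    exact U.bot h4
  · intro f g c hfg h1 h2
    obtain ⟨p, hc, hp, hpc, hpf⟩ := (pair_mem_F h f c).1 h1
    obtain ⟨q, hc', hq, hqc, hqg⟩ := (pair_mem_F h g c).1 h2
    have h3 : PrS U (SB (gD Γ) p q) := fun s hs => h.bor _ hp _ hq s ⟨p, q, rfl, rfl, hs⟩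
    have h4 : vD (gD Γ) p q ∈ U.s := (SB_spec hΓ p q U h3).2 (by
      rw [hpf, hqg]
      exact hfg)
    have h5 := U.inf (U.inf hpc hqc) h4
    rw [vv_adj hΓ p q ⟨c, hc⟩] at h5
    exact U.bot h5

end Rnd
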