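import Pool.Agent.Rnd.RC

/-! # Measurable sets depend on countably many coordinates; approximation by cylinders (package RE)

(problem MP_564ab4_lc, project RND)

* `meas_supp`: the sets which depend on countably many coordinates only form a sigma-algebra for
  which all projections are measurable.
* `meas_approx`: for measurable `A` and `ε > 0` there is a set `C` which depends on finitely many
  coordinates and is measurable, with `mu (symmDiff A C) < ε`: the measurable cylinders form an
  algebra of sets which generates the product sigma-algebra. -/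

namespace Rnd

open MeasureTheory

/-- the sigma-algebra of the sets which depend on countably many coordinates only -/
@[reducible] private def cms : MeasurableSpace (J → Bool) where
  MeasurableSet' A := ∃ S : Set J, S.Countable ∧
    ∀ ω ω' : J → Bool, (∀ j ∈ S, ω j = ω' j) → (ω ∈ A ↔ ω' ∈ A)
  measurableSet_empty := ⟨∅, Set.countable_empty, fun _ _ _ => Iff.rfl⟩
  measurableSet_compl := by
    rintro A ⟨S, hS, h⟩
    exact ⟨S, hS, fun ω ω' hω => not_congr (h ω ω' hω)⟩
  measurableSet_iUnion := by
    intro f hf
    choose S hS h using hf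
    refine ⟨⋃ n, S n, Set.countable_iUnion hS, fun ω ω' hω => ?_⟩
    rw [Set.mem_iUnion, Set.mem_iUnion]
    exact exists_congr fun n => h n ω ω' fun j hj => hω j (Set.mem_iUnion.2 ⟨n, hj⟩)

theorem meas_supp {A : Set (J → Bool)} (h : MeasurableSet A) :
    ∃ S : Set J, S.Countable ∧ ∀ ω ω' : J → Bool, (∀ j ∈ S, ω j = ω' j) → (ω ∈ A ↔ ω' ∈ A) := by
  have h1 : (MeasurableSpace.pi : MeasurableSpace (J → Bool)) ≤ cms := by
    refine iSup_le fun j => ?_
    rintro B ⟨t, -, rfl⟩
    refine ⟨{j}, Set.countable_singleton j, fun ω ω' hω => ?_⟩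
    rw [Set.mem_preimage, Set.mem_preimage, hω j (Set.mem_singleton j)]
  exact h1 A h

theorem meas_approx {A : Set (J → Bool)} (h : MeasurableSet A) (ε : ENNReal) (hε : 0 < ε) :
    ∃ (C : Set (J → Bool)) (E : Set J), MeasurableSet C ∧ E.Finite ∧
      (∀ ω ω' : J → Bool, (∀ j ∈ E, ω j = ω' j) → (ω ∈ C ↔ ω' ∈ C)) ∧
      mu (symmDiff A C) < ε := by
  have hd : Measure.MeasureDense mu (measurableCylinders fun _ : J => Bool) :=
    Measure.MeasureDense.of_generateFrom_isSetAlgebra_finite mu isSetAlgebra_measurableCylinders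
      generateFrom_measurableCylinders.symm
  have h1 : min ε 1 ≠ ⊤ := ne_top_of_le_ne_top ENNReal.one_ne_top (min_le_right _ _)
  have h2 : 0 < (min ε 1).toReal := ENNReal.toReal_pos (lt_min hε one_pos).ne' h1
  obtain ⟨C, hC, hm⟩ := hd.approx A h (measure_ne_top _ _) _ h2
  rw [ENNReal.ofReal_toReal h1] at hm
  have hCm := hd.measurable C hC
  rw [mem_measurableCylinders] at hC
  obtain ⟨s, S, -, rfl⟩ := hC
  refine ⟨_, (s : Set J), hCm, s.finite_toSet, fun ω ω' hω => ?_, hm.trans_le (min_le_left _ _)⟩
  have he : s.restrict ω = s.restrict ω' := by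
    funext j
    exact hω j.1 j.2
  rw [mem_cylinder, mem_cylinder]
  rw [he]

end Rnd
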