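import Pool.Agent.Rnd.RD
import Pool.Agent.Rnd.RE

/-! # The measure algebra is a flip algebra (package RF)

(problem MP_564ab4_lc, project RND; assembly)

Black boxes: `RD.lean` (`mp_xr`, `actM_cl`, ..), `RE.lean` (`meas_supp`, `meas_approx`).

* `MA_supp`: `b = cl A` (`exists_cl`), `S` from `meas_supp`. For `e` trivial on `S` the points `ω`
and `xr e ω` agree on `S` (`xor false (ω j) = ω j`), so `xr e ⁻¹' A = A` and `actM e (cl A) = cl A`
(`actM_cl`). * `MA_dens`: `c = cl A`, `mu A ≠ 0` (`cl_eq_bot`). Let `δ := mu A / 4 > 0` (`mu A ≤ 1`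
is finite), `C, E` from `meas_approx` with `mu (symmDiff A C) < δ`. Let `e` be trivial on `E`.
`xr e ⁻¹' C = C`. `mu (A ∩ xr e ⁻¹' A) ≥ mu C - mu (C \ A) - mu (C \ xr e ⁻¹' A)`, `mu (C \ A) ≤ δ`,
`mu (C \ xr e ⁻¹' A) = mu (xr e ⁻¹' (C \ A)) = mu (C \ A) ≤ δ` (`mp_xr`), `mu C ≥ mu A - δ`, so the
measure is at least `mu A - 3 δ > 0`. (It is convenient to argue by contradiction: if
`mu (A ∩ xr e ⁻¹' A) = 0` then `A ⊆ (A \ C) ∪ C`,
`C ⊆ (C \ A) ∪ (C \ xr e ⁻¹' A) ∪ (A ∩ xr e ⁻¹' A)`, hence `mu A ≤ 3 δ < mu A`.) Then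
`cl A ⊓ actM e (cl A) = cl (A ∩ xr e ⁻¹' A) ≠ ⊥`. * `MA_nontriv`: `cl univ = ⊤`, `cl ∅ = ⊥`,
`mu univ = 1`. -/

namespace Rnd

open MeasureTheory

private theorem pre_eq {A : Set (J → Bool)} {S : Set J}
    (h : ∀ ω ω' : J → Bool, (∀ j ∈ S, ω j = ω' j) → (ω ∈ A ↔ ω' ∈ A)) {e : Fl} (he : Fx S e) :
    (fun ω : J → Bool => xr e ω) ⁻¹' A = A := by
  ext ω
  refine h _ _ fun j hj => ?_
  show xor (e j) (ω j) = ω j
  rw [he j hj, Bool.false_xor]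

theorem MA_supp (b : MA) : ∃ S : Set J, S.Countable ∧ ∀ e, Fx S e → actM e b = b := by
  obtain ⟨A, hA, rfl⟩ := exists_cl b
  obtain ⟨S, hS, h⟩ := meas_supp hA
  refine ⟨S, hS, fun e he => ?_⟩
  rw [actM_cl e hA, pre_eq h he]

theorem MA_dens (c : MA) (hc : c ≠ ⊥) :
    ∃ E : Set J, E.Finite ∧ ∀ e, Fx E e → c ⊓ actM e c ≠ ⊥ := by
  obtain ⟨A, hA, rfl⟩ := exists_cl c
  have hA0 : mu A ≠ 0 := fun h => hc ((cl_eq_bot hA).2 h)
  obtain ⟨δ, hδ0, hδ4⟩ : ∃ δ : ENNReal, 0 < δ ∧ δ + δ + (δ + δ) = mu A := by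
    refine ⟨mu A / 2 / 2, ?_, ?_⟩
    · exact ENNReal.half_pos (ENNReal.half_pos hA0).ne'
    · rw [ENNReal.add_halves, ENNReal.add_halves]
  have hδf : δ ≠ ⊤ := by
    rintro rfl
    have h1 : mu A ≠ ⊤ := measure_ne_top _ _
    rw [← hδ4] at h1
    exact h1 (by simp)
  obtain ⟨C, E, hC, hE, hCE, hδ⟩ := meas_approx hA δ hδ0
  refine ⟨E, hE, fun e he h => ?_⟩
  have hmE : MeasurableSet ((fun ω : J → Bool => xr e ω) ⁻¹' A) :=
    (mp_xr e).measurable hA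
  rw [actM_cl e hA, ← cl_inter hA hmE, cl_eq_bot (hA.inter hmE)] at h
  have hpC := pre_eq hCE he
  have h1 : mu (A \ C) ≤ δ :=
    (measure_mono (fun ω hω => Or.inl hω : A \ C ⊆ symmDiff A C)).trans hδ.le
  have h2 : mu (C \ A) ≤ δ :=
    (measure_mono (fun ω hω => Or.inr hω : C \ A ⊆ symmDiff A C)).trans hδ.le
  have h3 : mu (C \ ((fun ω : J → Bool => xr e ω) ⁻¹' A)) ≤ δ := by
    have e1 : C \ ((fun ω : J → Bool => xr e ω) ⁻¹' A) =
        (fun ω : J → Bool => xr e ω) ⁻¹' (C \ A) := by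
      rw [Set.preimage_sdiff, hpC]
    rw [e1, (mp_xr e).measure_preimage (hC.diff hA).nullMeasurableSet]
    exact h2
  have hsub : A ⊆ (A \ C) ∪ ((C \ ((fun ω : J → Bool => xr e ω) ⁻¹' A)) ∪
      (A ∩ ((fun ω : J → Bool => xr e ω) ⁻¹' A))) := by
    intro ω hω
    by_cases hωC : ω ∈ C
    · right
      by_cases hωE : ω ∈ (fun ω : J → Bool => xr e ω) ⁻¹' A
      · exact Or.inr ⟨hω, hωE⟩
      · exact Or.inl ⟨hωC, hωE⟩
    · exact Or.inl ⟨hω, hωC⟩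
  have h4 : mu A ≤ δ + δ := by
    calc mu A ≤ _ := measure_mono hsub
      _ ≤ mu (A \ C) + mu ((C \ ((fun ω : J → Bool => xr e ω) ⁻¹' A)) ∪
          (A ∩ ((fun ω : J → Bool => xr e ω) ⁻¹' A))) := measure_union_le _ _
      _ ≤ mu (A \ C) + (mu (C \ ((fun ω : J → Bool => xr e ω) ⁻¹' A)) +
          mu (A ∩ ((fun ω : J → Bool => xr e ω) ⁻¹' A))) :=
          add_le_add le_rfl (measure_union_le _ _)
      _ ≤ δ + (δ + 0) := add_le_add h1 (add_le_add h3 h.le)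
      _ = δ + δ := by rw [add_zero]
  rw [← hδ4] at h4
  have h5 : δ + δ < δ + δ + (δ + δ) :=
    ENNReal.lt_add_right (ENNReal.add_ne_top.2 ⟨hδf, hδf⟩) (by simpa using hδ0.ne')
  exact absurd h4 (not_le.2 h5)

theorem MA_nontriv : (⊤ : MA) ≠ ⊥ := by
  intro h
  have h1 := (cl_eq_bot MeasurableSet.univ).1 (cl_univ.trans h)
  rw [measure_univ] at h1
  exact one_ne_zero h1

noncomputable instance : FlipAlg MA where
  act := actM
  act_mono := actM_mono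
  act_fl0 := actM_fl0
  act_act := actM_actM
  ccc := MA_ccc
  supp := MA_supp
  dens := MA_dens
  gen := fun j => cl {ω | ω j = true}
  act_gen := actM_gen
  nontriv := MA_nontriv

theorem act_cl (e : Fl) {A : Set (J → Bool)} (h : MeasurableSet A) :
    act e (cl A) = cl ((fun ω => xr e ω) ⁻¹' A) := actM_cl e h

end Rnd
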