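import Pool.Agent.Rnd.Nms
import Pool.Agent.Rnd.RF

/-! # The name of the colouring (definitions)

(problem MP_564ab4_lc, project RND; no sorry in this file) -/

namespace Rnd

open STP BSet MeasureTheory

/-- sequences of partitions of unity of the measure algebra -/
def RP : Type := {p : ℕ → ℕ → MA // IsPart p}

/-- a measurable function `(J → Bool) → (ℕ → ℕ)` representing `p` -/
noncomputable def rep (p : RP) : (J → Bool) → ℕ → ℕ :=
  open scoped Classical in
  if h : ∃ r : (J → Bool) → ℕ → ℕ, Measurable r ∧ ∀ n m, cl {ω | r ω n = m} = p.1 n m then h.choose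
  else fun _ _ => 0

/-- the flips act on `RP` -/
noncomputable def actP (e : Fl) (p : RP) : RP :=
  ⟨fun n m => act e (p.1 n m), fun n => ⟨fun m m' h => by
    rw [← act_inf, (p.2 n).1 m m' h, act_bot], by
    rw [← act_iSup, (p.2 n).2, act_top]⟩⟩

theorem actP_invol (e : Fl) (p : RP) : actP e (actP e p) = p := by
  refine Subtype.ext ?_
  funext n m
  exact act_invol e (p.1 n m)

variable (Γ : (ℕ → ℕ) → (ℕ → ℕ) → Prop) (k : ℕ)

/-- invariant Borel sets with a Borel colouring -/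
def Yv : Type := {Y : Set (ℕ → ℕ) × ((ℕ → ℕ) → Fin k) // MeasurableSet Y.1 ∧
  (∀ f g, Γ f g → (f ∈ Y.1 ↔ g ∈ Y.1)) ∧ Measurable Y.2 ∧
  ∀ f ∈ Y.1, ∀ g ∈ Y.1, Γ f g → Y.2 f ≠ Y.2 g}

variable {Γ k}

/-- the real `p` belongs to the set `Y` -/
noncomputable def inY (p : RP) (Y : Yv Γ k) : MA := cl (rep p ⁻¹' Y.1.1)

/-- `Y` is the first set (in a well-order of `Yv`) to which the real `p` belongs -/
noncomputable def lst (p : RP) (Y : Yv Γ k) : MA :=
  inY p Y ⊓ (⨆ Z : {Z : Yv Γ k // WellOrderingRel Z Y}, inY p Z.1)ᶜ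

variable (Γ k)

/-- the real `p` has the colour `c` -/
noncomputable def vv (p : RP) (c : Fin k) : MA :=
  ⨆ Y : Yv Γ k, lst p Y ⊓ cl (rep p ⁻¹' {f | Y.1.2 f = c})

/-- the name of the colouring -/
noncomputable def FN : BSet MA :=
  ⟨RP × Fin k, fun r => opN (rlN r.1.1) (nn r.2), fun r => vv Γ k r.1 r.2⟩

/-- the value of `(p, q) ∈ D` -/
noncomputable def vD (D : Set ((ℕ → ℕ) × (ℕ → ℕ))) (p q : RP) : MA :=
  cl {ω | (rep p ω, rep q ω) ∈ D}

/-- the real given by `p` and the ultrafilter -/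
noncomputable def evU (U : Ult MA) (p : RP) : ℕ → ℕ := fun n =>
  open scoped Classical in if h : ∃ m, p.1 n m ∈ U.s then h.choose else 0

/-- the ultrafilter preserves the suprema of the sequences in `S` -/
def PrS (U : Ult MA) (S : Set (ℕ → MA)) : Prop := ∀ s ∈ S, (⨆ n, s n) ∈ U.s → ∃ n, s n ∈ U.s

/-- suprema which decide `D` at `(p, q)` -/
noncomputable def SB (D : Set ((ℕ → ℕ) × (ℕ → ℕ))) (p q : RP) : Set (ℕ → MA) :=
  open scoped Classical in
  if h : ∃ S : Set (ℕ → MA), S.Countable ∧ ∀ U : Ult MA, PrS U S →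
    (vD D p q ∈ U.s ↔ (evU U p, evU U q) ∈ D) then h.choose else ∅

/-- the graph as a set of pairs -/
def gD (Γ : (ℕ → ℕ) → (ℕ → ℕ) → Prop) : Set ((ℕ → ℕ) × (ℕ → ℕ)) := {d | Γ d.1 d.2}

/-- the suprema attached to a pair of names -/
noncomputable def RR (x y : BSet MA) : Set (ℕ → MA) :=
  {s | ∃ p q : RP, x = rlN p.1 ∧ y = rlN q.1 ∧ s ∈ SB (gD Γ) p q}

end Rnd
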