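import Mathlib

/-! # The Galvin-Prikry theorem

(problem MP_564ab4_lc, project RND, architect helper80)

`Nb s A`: the infinite sets with the initial segment `s` and all other elements in `A`. A family `X`
of sets is completely Ramsey (`CR`) if for all `s` and all infinite `A` there is an infinite
`B ⊆ A` such that `Nb s B` is contained in `X` or disjoint from `X`. Open families are completely
Ramsey (`CR_of_opn`), the completely Ramsey families are a `σ`-algebra (`CR_compl`, `CR_iUnion`).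
All three proofs use the same fusion lemma (`fusion`). -/

set_option autoImplicit false

namespace Rnd

open Set

namespace GalvinPrikry

/-- the infinite sets with the initial segment `s` and all other elements in `A` -/
def Nb (s : Finset ℕ) (A : Set ℕ) : Set (Set ℕ) :=
  {Z | Z.Infinite ∧ ↑s ⊆ Z ∧ ∀ z ∈ Z, z ∉ s → z ∈ A ∧ ∀ y ∈ s, y < z}

/-- the elements of `A` above `s` -/
def abv (s : Finset ℕ) (A : Set ℕ) : Set ℕ := {x | x ∈ A ∧ ∀ y ∈ s, y < x}

theorem abv_sub (s : Finset ℕ) (A : Set ℕ) : abv s A ⊆ A := fun _ h => h.1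

theorem abv_mono (s : Finset ℕ) {A B : Set ℕ} (h : B ⊆ A) : abv s B ⊆ abv s A :=
  fun _ hx => ⟨h hx.1, hx.2⟩

theorem abv_inf (s : Finset ℕ) {A : Set ℕ} (hA : A.Infinite) : (abv s A).Infinite := by
  refine (hA.sdiff (Set.finite_Iic (s.sup id))).mono fun x hx => ⟨hx.1, fun y hy => ?_⟩
  have h1 : y ≤ s.sup id := Finset.le_sup (f := id) hy
  have h2 : ¬ x ≤ s.sup id := hx.2
  omega

theorem Nb_mono {s : Finset ℕ} {A B : Set ℕ} (h : B ⊆ A) : Nb s B ⊆ Nb s A :=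
  fun _ hZ => ⟨hZ.1, hZ.2.1, fun z hz hzs => ⟨h (hZ.2.2 z hz hzs).1, (hZ.2.2 z hz hzs).2⟩⟩

theorem Nb_abv {s t : Finset ℕ} (hts : t ⊆ s) (A : Set ℕ) : Nb s A ⊆ Nb s (abv t A) :=
  fun _ hZ => ⟨hZ.1, hZ.2.1, fun z hz hzs =>
    ⟨⟨(hZ.2.2 z hz hzs).1, fun y hy => (hZ.2.2 z hz hzs).2 y (hts hy)⟩, (hZ.2.2 z hz hzs).2⟩⟩

/-! ### Fusion -/

section

variable {P : Finset ℕ → Set ℕ → Prop} {A₀ : Set ℕ}

private theorem fin_step (h1 : ∀ s A B, B ⊆ A → P s A → P s B)
    (h2 : ∀ s A, A.Infinite → A ⊆ A₀ → ∃ B ⊆ A, B.Infinite ∧ P s B)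
    (F : Finset (Finset ℕ)) {A : Set ℕ} (hA : A.Infinite) (hA₀ : A ⊆ A₀) :
    ∃ B ⊆ A, B.Infinite ∧ ∀ s ∈ F, P s B := by
  classical
  induction F using Finset.induction_on with
  | empty => exact ⟨A, Subset.rfl, hA, fun s hs => absurd hs (Finset.notMem_empty s)⟩
  | insert t F _ ih =>
    obtain ⟨B, hBA, hB, hP⟩ := ih
    obtain ⟨C, hCB, hC, hPC⟩ := h2 t B hB (hBA.trans hA₀)
    refine ⟨C, hCB.trans hBA, hC, fun s hs => ?_⟩
    rcases Finset.mem_insert.1 hs with rfl | hs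
    · exact hPC
    · exact h1 s B C hCB (hP s hs)

/-- the states of the fusion -/
private def St (P : Finset ℕ → Set ℕ → Prop) (A₀ : Set ℕ) : Type :=
  {p : Finset ℕ × Set ℕ // p.2.Infinite ∧ p.2 ⊆ A₀ ∧ (∀ x ∈ p.1, ∀ y ∈ p.2, x < y) ∧
    ∀ s ⊆ p.1, P s p.2}

private theorem st_step (h1 : ∀ s A B, B ⊆ A → P s A → P s B)
    (h2 : ∀ s A, A.Infinite → A ⊆ A₀ → ∃ B ⊆ A, B.Infinite ∧ P s B) (p : St P A₀) :
    ∃ (q : St P A₀) (b : ℕ), b ∈ p.1.2 ∧ q.1.1 = insert b p.1.1 ∧ q.1.2 ⊆ p.1.2 := by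
  classical
  obtain ⟨⟨F, A⟩, hA, hA₀, hlt, hP⟩ := p
  obtain ⟨b, hb⟩ := hA.nonempty
  obtain ⟨B, hBA, hB, hPB⟩ := fin_step h1 h2 (insert b F).powerset
    (abv_inf {b} hA) ((abv_sub {b} A).trans hA₀)
  refine ⟨⟨(insert b F, B), hB, hBA.trans ((abv_sub {b} A).trans hA₀), ?_, fun s hs =>
    hPB s (Finset.mem_powerset.2 hs)⟩, b, hb, rfl, hBA.trans (abv_sub {b} A)⟩
  intro x hx y hy
  have hy' := hBA hy
  rcases Finset.mem_insert.1 hx with rfl | hx
  · exact hy'.2 x (Finset.mem_singleton_self x)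
  · exact hlt x hx y hy'.1

theorem fusion (hA : A₀.Infinite) (h1 : ∀ s A B, B ⊆ A → P s A → P s B)
    (h2 : ∀ s A, A.Infinite → A ⊆ A₀ → ∃ B ⊆ A, B.Infinite ∧ P s B)
    (h3 : ∀ s A, P s (abv s A) → P s A) :
    ∃ B ⊆ A₀, B.Infinite ∧ ∀ s : Finset ℕ, ↑s ⊆ B → P s B := by
  classical
  obtain ⟨A₁, hA₁, hA₁i, hPe⟩ := h2 ∅ A₀ hA Subset.rfl
  choose nx b hb1 hb2 hb3 using st_step (P := P) (A₀ := A₀) h1 h2
  let st : ℕ → St P A₀ := fun n => nx^[n] ⟨(∅, A₁), hA₁i, hA₁, fun x hx =>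
    absurd hx (Finset.notMem_empty x), fun s hs => by
      rw [Finset.subset_empty.1 hs]
      exact hPe⟩
  have hst : ∀ n, st (n + 1) = nx (st n) := fun n => Function.iterate_succ_apply' _ _ _
  have hF : ∀ n, (st (n + 1)).1.1 = insert (b (st n)) (st n).1.1 := fun n => by
    rw [hst]
    exact hb2 _
  have hAs : ∀ n, (st (n + 1)).1.2 ⊆ (st n).1.2 := fun n => by
    rw [hst]
    exact hb3 _
  have hAa : ∀ n m, n ≤ m → (st m).1.2 ⊆ (st n).1.2 := fun n m h =>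
    antitone_nat_of_succ_le (f := fun n => (st n).1.2) hAs h
  have hFm : ∀ n m, n ≤ m → (st n).1.1 ⊆ (st m).1.1 := fun n m h =>
    monotone_nat_of_le_succ (f := fun n => (st n).1.1)
      (fun n => by
        rw [hF]
        exact Finset.subset_insert _ _) h
  have hnew : ∀ n m, n ≤ m → ∀ x ∈ (st m).1.1, x ∉ (st n).1.1 → x ∈ (st n).1.2 := by
    intro n m h
    induction m, h using Nat.le_induction with
    | base => exact fun x hx hx' => absurd hx hx'
    | succ m hm ih =>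
      intro x hx hx'
      rw [hF] at hx
      rcases Finset.mem_insert.1 hx with rfl | hx
      · exact hAa n m hm (hb1 _)
      · exact ih x hx hx'
  have hmem : ∀ n, b (st n) ∈ (st (n + 1)).1.1 := fun n => by
    rw [hF]
    exact Finset.mem_insert_self _ _
  have hbs : StrictMono fun n => b (st n) := by
    refine strictMono_nat_of_lt_succ fun n => ?_
    exact (st (n + 1)).2.2.2.1 _ (hmem n) _ (hb1 _)
  refine ⟨⋃ n, ↑(st n).1.1, ?_, ?_, ?_⟩
  · refine iUnion_subset fun n x hx => ?_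
    have h4 := hnew 0 n (Nat.zero_le n) x hx (Finset.notMem_empty x)
    exact hA₁ h4
  · exact Set.infinite_of_injective_forall_mem hbs.injective fun n =>
      mem_iUnion.2 ⟨n + 1, hmem n⟩
  · intro s hs
    have hex : ∃ n, s ⊆ (st n).1.1 := by
      have h4 : ∀ x ∈ s, ∃ n, x ∈ (st n).1.1 := fun x hx => mem_iUnion.1 (hs hx)
      choose! f hf using h4
      exact ⟨s.sup f, fun x hx => hFm _ _ (Finset.le_sup hx) (hf x hx)⟩
    refine h3 s _ ?_
    have hmin := Nat.find_spec hex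
    refine h1 s (st (Nat.find hex)).1.2 _ ?_ ((st (Nat.find hex)).2.2.2.2 s hmin)
    rintro x ⟨hx, hxs⟩
    obtain ⟨m, hm⟩ := mem_iUnion.1 hx
    have hm' : x ∈ (st (max m (Nat.find hex))).1.1 := hFm _ _ (le_max_left _ _) hm
    refine hnew _ _ (le_max_right m (Nat.find hex)) x hm' fun hxF => ?_
    rcases hk : Nat.find hex with _ | k
    · rw [hk] at hxF
      exact Finset.notMem_empty x hxF
    · have hk' : ¬ s ⊆ (st k).1.1 := Nat.find_min hex (by omega)
      rw [hk] at hmin hxF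
      rw [hF] at hmin hxF
      have hbk : b (st k) ∈ s := by
        by_contra hbk
        refine hk' fun y hy => ?_
        rcases Finset.mem_insert.1 (hmin hy) with rfl | h5
        · exact absurd hy hbk
        · exact h5
      have h5 := hxs _ hbk
      rcases Finset.mem_insert.1 hxF with rfl | h6
      · exact lt_irrefl _ h5
      · exact absurd ((st k).2.2.2.1 x h6 _ (hb1 (st k))) (by omega)

end

/-! ### Completely Ramsey families -/

/-- completely Ramsey families -/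
def CR (X : Set (Set ℕ)) : Prop :=
  ∀ (s : Finset ℕ) (A : Set ℕ), A.Infinite →
    ∃ B ⊆ A, B.Infinite ∧ (Nb s B ⊆ X ∨ Nb s B ⊆ Xᶜ)

/-- families which are open at their infinite elements -/
def Opn (X : Set (Set ℕ)) : Prop :=
  ∀ Z ∈ X, Z.Infinite → ∃ n, ∀ W : Set ℕ, W.Infinite → (∀ x < n, x ∈ W ↔ x ∈ Z) → W ∈ X

open Classical in
/-- the elements of `Z` up to `N` which are not in `s` -/
noncomputable def seg (s : Finset ℕ) (Z : Set ℕ) (N : ℕ) : Finset ℕ :=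
  (Finset.range (N + 1)).filter fun x => x ∈ Z ∧ x ∉ s

theorem mem_seg {s : Finset ℕ} {Z : Set ℕ} {N x : ℕ} :
    x ∈ seg s Z N ↔ x ≤ N ∧ x ∈ Z ∧ x ∉ s := by
  classical
  unfold seg
  rw [Finset.mem_filter, Finset.mem_range, Nat.lt_succ_iff]

theorem seg_Nb {s : Finset ℕ} {A Z : Set ℕ} (h : Z ∈ Nb s A) (N : ℕ) :
    Z ∈ Nb (s ∪ seg s Z N) A := by
  refine ⟨h.1, ?_, fun z hz hzs => ?_⟩
  · intro x hx
    rcases Finset.mem_union.1 (Finset.mem_coe.1 hx) with h1 | h1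
    · exact h.2.1 h1
    · exact (mem_seg.1 h1).2.1
  · rw [Finset.mem_union, not_or] at hzs
    have h1 := h.2.2 z hz hzs.1
    refine ⟨h1.1, fun y hy => ?_⟩
    rcases Finset.mem_union.1 hy with h2 | h2
    · exact h1.2 y h2
    · have h3 : ¬ z ≤ N := fun h4 => hzs.2 (mem_seg.2 ⟨h4, hz, hzs.1⟩)
      have h4 := (mem_seg.1 h2).1
      omega

theorem seg_sub {s : Finset ℕ} {A Z : Set ℕ} (h : Z ∈ Nb s A) (N : ℕ) :
    ↑(seg s Z N) ⊆ A := fun x hx =>
  (h.2.2 x (mem_seg.1 hx).2.1 (mem_seg.1 hx).2.2).1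

theorem seg_lt {s : Finset ℕ} {A Z : Set ℕ} (h : Z ∈ Nb s A) (N : ℕ) :
    ∀ x ∈ seg s Z N, ∀ y ∈ s, y < x := fun x hx =>
  (h.2.2 x (mem_seg.1 hx).2.1 (mem_seg.1 hx).2.2).2

theorem CR_compl {X : Set (Set ℕ)} (h : CR X) : CR Xᶜ := by
  intro s A hA
  obtain ⟨B, hBA, hB, h1⟩ := h s A hA
  refine ⟨B, hBA, hB, ?_⟩
  rw [compl_compl]
  exact h1.symm

theorem CR_of_opn {X : Set (Set ℕ)} (hX : Opn X) : CR X := by
  classical
  intro s₀ A hA
  obtain ⟨B, hBA, hB, hdec⟩ := fusion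
    (P := fun s B => Nb (s₀ ∪ s) B ⊆ X ∨ ∀ C ⊆ B, C.Infinite → ¬ Nb (s₀ ∪ s) C ⊆ X) hA
    (by
      rintro s A B hBA (h | h)
      · exact Or.inl ((Nb_mono hBA).trans h)
      · exact Or.inr fun C hC => h C (hC.trans hBA))
    (by
      intro s A hA _
      by_cases h : ∃ C ⊆ A, C.Infinite ∧ Nb (s₀ ∪ s) C ⊆ X
      · obtain ⟨C, hCA, hC, h⟩ := h
        exact ⟨C, hCA, hC, Or.inl h⟩
      · exact ⟨A, Subset.rfl, hA, Or.inr fun C hCA hC h' => h ⟨C, hCA, hC, h'⟩⟩)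
    (by
      rintro s A (h | h)
      · exact Or.inl ((Nb_abv Finset.subset_union_right A).trans h)
      · exact Or.inr fun C hCA hC h' => h (abv s C) (abv_mono s hCA) (abv_inf s hC)
          ((Nb_mono (abv_sub s C)).trans h'))
  by_cases hacc : Nb s₀ B ⊆ X
  · exact ⟨B, hBA, hB, Or.inl hacc⟩
  have hRj0 : ∀ C ⊆ B, C.Infinite → ¬ Nb (s₀ ∪ ∅) C ⊆ X := by
    rcases hdec ∅ (by simp) with h | h
    · rw [Finset.union_empty] at h
      exact absurd h hacc
    · exact h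
  obtain ⟨C, hCB, hC, hrej⟩ := fusion
    (P := fun s C => ↑s ⊆ B → (∀ D ⊆ B, D.Infinite → ¬ Nb (s₀ ∪ s) D ⊆ X) →
      ∀ b ∈ C, (∀ y ∈ s₀ ∪ s, y < b) → ∀ D ⊆ B, D.Infinite → ¬ Nb (s₀ ∪ insert b s) D ⊆ X) hB
    (fun s A C hCA h hs hr b hb => h hs hr b (hCA hb))
    (by
      intro s A hA hAB
      by_cases hs : ↑s ⊆ B ∧ ∀ D ⊆ B, D.Infinite → ¬ Nb (s₀ ∪ s) D ⊆ X
      · have hfin : {b | b ∈ B ∧ (∀ y ∈ s₀ ∪ s, y < b) ∧
            Nb (s₀ ∪ insert b s) B ⊆ X}.Finite := by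
          by_contra hinf
          refine hs.2 _ (fun b hb => hb.1) hinf fun Z hZ => ?_
          have hne : (Z \ ↑(s₀ ∪ s)).Infinite := hZ.1.sdiff (Finset.finite_toSet _)
          have hmem := Nat.sInf_mem hne.nonempty
          set b := sInf (Z \ ↑(s₀ ∪ s)) with hbdef
          have hbZ : b ∈ Z := hmem.1
          have hbs : b ∉ s₀ ∪ s := hmem.2
          have h1 := hZ.2.2 b hbZ hbs
          refine h1.1.2.2 ⟨hZ.1, ?_, fun z hz hzs => ?_⟩
          · intro x hx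
            rw [Finset.mem_coe, Finset.mem_union, Finset.mem_insert] at hx
            rcases hx with h2 | rfl | h2
            · exact hZ.2.1 (Finset.mem_coe.2 (Finset.mem_union_left _ h2))
            · exact hbZ
            · exact hZ.2.1 (Finset.mem_coe.2 (Finset.mem_union_right _ h2))
          · rw [Finset.mem_union, Finset.mem_insert, not_or, not_or] at hzs
            have hzs' : z ∉ s₀ ∪ s := by
              rw [Finset.mem_union, not_or]
              exact ⟨hzs.1, hzs.2.2⟩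
            have h2 := hZ.2.2 z hz hzs'
            refine ⟨h2.1.1, fun y hy => ?_⟩
            rw [Finset.mem_union, Finset.mem_insert] at hy
            rcases hy with h3 | rfl | h3
            · exact h2.2 y (Finset.mem_union_left _ h3)
            · have h4 : b ≤ z := Nat.sInf_le ⟨hz, hzs'⟩
              exact lt_of_le_of_ne h4 (Ne.symm hzs.2.1)
            · exact h2.2 y (Finset.mem_union_right _ h3)
        refine ⟨A \ {b | b ∈ B ∧ (∀ y ∈ s₀ ∪ s, y < b) ∧ Nb (s₀ ∪ insert b s) B ⊆ X},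
          sdiff_subset, hA.sdiff hfin, ?_⟩
        intro _ _ b hb hlt
        have hbB : b ∈ B := hAB hb.1
        rcases hdec (insert b s) (by
          rw [Finset.coe_insert]
          exact insert_subset hbB hs.1) with h | h
        · exact absurd ⟨hbB, hlt, h⟩ hb.2
        · exact h
      · exact ⟨A, Subset.rfl, hA, fun h1 h2 => absurd ⟨h1, h2⟩ hs⟩)
    (by
      intro s A h hs hr b hb hlt
      exact h hs hr b ⟨hb, fun y hy => hlt y (Finset.mem_union_right _ hy)⟩ hlt)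
  have hall : ∀ s : Finset ℕ, ↑s ⊆ C → (∀ x ∈ s, ∀ y ∈ s₀, y < x) →
      ∀ D ⊆ B, D.Infinite → ¬ Nb (s₀ ∪ s) D ⊆ X := by
    intro s
    induction s using Finset.induction_on_max with
    | empty => exact fun _ _ => hRj0
    | insert a s hlt ih =>
      intro hs hs0
      rw [Finset.coe_insert, insert_subset_iff] at hs
      refine hrej s hs.2 (hs.2.trans hCB)
        (ih hs.2 fun x hx => hs0 x (Finset.mem_insert_of_mem hx)) a hs.1 fun y hy => ?_
      rcases Finset.mem_union.1 hy with h | h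
      · exact hs0 a (Finset.mem_insert_self _ _) y h
      · exact hlt y h
  refine ⟨C, hCB.trans hBA, hC, Or.inr fun Z hZ hZX => ?_⟩
  obtain ⟨n, hn⟩ := hX Z hZX hZ.1
  obtain ⟨N, hNZ, hnN⟩ := hZ.1.exists_gt n
  refine hall (seg s₀ Z N) (seg_sub hZ N) (seg_lt hZ N) C hCB hC fun W hW => ?_
  have hNs : N ∈ s₀ ∪ seg s₀ Z N := by
    by_cases h : N ∈ s₀
    · exact Finset.mem_union_left _ h
    · exact Finset.mem_union_right _ (mem_seg.2 ⟨le_rfl, hNZ, h⟩)
  refine hn W hW.1 fun x hx => ⟨fun hxW => ?_, fun hxZ => ?_⟩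
  · by_cases h : x ∈ s₀ ∪ seg s₀ Z N
    · exact (seg_Nb hZ N).2.1 h
    · have := (hW.2.2 x hxW h).2 N hNs
      omega
  · refine hW.2.1 (Finset.mem_coe.2 ?_)
    by_cases h : x ∈ s₀
    · exact Finset.mem_union_left _ h
    · exact Finset.mem_union_right _ (mem_seg.2 ⟨by omega, hxZ, h⟩)

private theorem dec_many {X : ℕ → Set (Set ℕ)} (h : ∀ n, CR (X n)) (s : Finset ℕ) {A : Set ℕ}
    (hA : A.Infinite) (m : ℕ) :
    ∃ B ⊆ A, B.Infinite ∧ ∀ n < m, Nb s B ⊆ X n ∨ Nb s B ⊆ (X n)ᶜ := by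
  induction m with
  | zero => exact ⟨A, Subset.rfl, hA, fun n hn => absurd hn (Nat.not_lt_zero n)⟩
  | succ m ih =>
    obtain ⟨B, hBA, hB, hP⟩ := ih
    obtain ⟨C, hCB, hC, hPC⟩ := h m s B hB
    refine ⟨C, hCB.trans hBA, hC, fun n hn => ?_⟩
    rcases Nat.lt_succ_iff_lt_or_eq.1 hn with h1 | rfl
    · rcases hP n h1 with h2 | h2
      · exact Or.inl ((Nb_mono hCB).trans h2)
      · exact Or.inr ((Nb_mono hCB).trans h2)
    · exact hPC

theorem CR_iUnion {X : ℕ → Set (Set ℕ)} (h : ∀ n, CR (X n)) : CR (⋃ n, X n) := by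
  classical
  intro s₀ A hA
  obtain ⟨B, hBA, hB, hdec⟩ := fusion
    (P := fun s B => ∀ n < s.card + 1, Nb (s₀ ∪ s) B ⊆ X n ∨ Nb (s₀ ∪ s) B ⊆ (X n)ᶜ) hA
    (by
      intro s A B hBA h n hn
      rcases h n hn with h2 | h2
      · exact Or.inl ((Nb_mono hBA).trans h2)
      · exact Or.inr ((Nb_mono hBA).trans h2))
    (fun s A hA _ => dec_many h (s₀ ∪ s) hA (s.card + 1))
    (by
      intro s A h n hn
      rcases h n hn with h2 | h2
      · exact Or.inl ((Nb_abv Finset.subset_union_right A).trans h2)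
      · exact Or.inr ((Nb_abv Finset.subset_union_right A).trans h2))
  -- the open family
  obtain ⟨O, hO⟩ : ∃ O : Set (Set ℕ), O = {Z | ∃ (n : ℕ) (s : Finset ℕ),
      Nb (s₀ ∪ s) B ⊆ X n ∧ ↑(s₀ ∪ s) ⊆ Z ∧ ∀ z ∈ Z, z ∉ s₀ ∪ s → ∀ y ∈ s₀ ∪ s, y < z} := ⟨_, rfl⟩
  have hOp : Opn O := by
    intro Z hZ _
    rw [hO] at hZ
    obtain ⟨n, s, h1, h2, h3⟩ := hZ
    refine ⟨(s₀ ∪ s).sup id + 1, fun W _ hWZ => ?_⟩
    have hle : ∀ y ∈ s₀ ∪ s, y ≤ (s₀ ∪ s).sup id := fun y hy => Finset.le_sup (f := id) hy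
    rw [hO]
    refine ⟨n, s, h1, fun x hx => ?_, fun z hz hzs y hy => ?_⟩
    · exact (hWZ x (Nat.lt_succ_of_le (hle x hx))).2 (h2 hx)
    · rcases Nat.lt_or_ge z ((s₀ ∪ s).sup id + 1) with h4 | h4
      · exact h3 z ((hWZ z h4).1 hz) hzs y hy
      · have := hle y hy
        omega
  have key : ∀ Z ∈ Nb s₀ B, Z ∈ O ↔ Z ∈ ⋃ n, X n := by
    intro Z hZ
    constructor
    · intro hZO
      rw [hO] at hZO
      obtain ⟨n, s, h1, h2, h3⟩ := hZO
      refine mem_iUnion.2 ⟨n, h1 ⟨hZ.1, h2, fun z hz hzs => ⟨?_, h3 z hz hzs⟩⟩⟩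
      exact (hZ.2.2 z hz fun h4 => hzs (Finset.mem_union_left _ h4)).1
    · intro hZX
      obtain ⟨n, hn⟩ := mem_iUnion.1 hZX
      obtain ⟨t, ht, htc⟩ := (hZ.1.sdiff s₀.finite_toSet).exists_subset_card_eq n
      have hts : t ⊆ seg s₀ Z (t.sup id) := fun x hx =>
        mem_seg.2 ⟨Finset.le_sup (f := id) hx, (ht hx).1, (ht hx).2⟩
      have hZ' := seg_Nb hZ (t.sup id)
      have h1 := hdec (seg s₀ Z (t.sup id)) (seg_sub hZ _) n
        (by
          have := Finset.card_le_card hts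
          omega)
      rw [hO]
      refine ⟨n, seg s₀ Z (t.sup id), ?_, hZ'.2.1, fun z hz hzs => (hZ'.2.2 z hz hzs).2⟩
      rcases h1 with h1 | h1
      · exact h1
      · exact absurd hn (h1 hZ')
  obtain ⟨C, hCB, hC, hCO⟩ := CR_of_opn hOp s₀ B hB
  refine ⟨C, hCB.trans hBA, hC, ?_⟩
  rcases hCO with h1 | h1
  · exact Or.inl fun Z hZ => (key Z (Nb_mono hCB hZ)).1 (h1 hZ)
  · exact Or.inr fun Z hZ hZX => h1 hZ ((key Z (Nb_mono hCB hZ)).2 hZX)

/-! ### Borel families of increasing functions -/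

/-- the sets whose increasing enumeration belongs to `X` -/
def enm (X : Set (ℕ → ℕ)) : Set (Set ℕ) := {Z | Nat.nth (· ∈ Z) ∈ X}

private theorem nth_agree {Z W : Set ℕ} (hZ : Z.Infinite) {i n : ℕ}
    (hn : Nat.nth (· ∈ Z) i < n) (h : ∀ x < n, x ∈ W ↔ x ∈ Z) :
    Nat.nth (· ∈ W) i = Nat.nth (· ∈ Z) i := by
  classical
  set a := Nat.nth (· ∈ Z) i with ha
  have hZi : (Set.ofPred (· ∈ Z)).Infinite := hZ
  have haZ : a ∈ Z := Nat.nth_mem_of_infinite hZi i
  have haW : a ∈ W := (h a hn).2 haZ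
  have h1 : Nat.count (· ∈ Z) a = i := Nat.count_nth_of_infinite hZi i
  have h2 : Nat.count (· ∈ W) a = Nat.count (· ∈ Z) a := by
    rw [Nat.count_eq_card_filter_range, Nat.count_eq_card_filter_range]
    congr 1
    refine Finset.filter_congr fun x hx => h x ?_
    have := Finset.mem_range.1 hx
    omega
  have h3 := Nat.nth_count (p := (· ∈ W)) haW
  rw [h2, h1] at h3
  exact h3

/-- the `σ`-algebra of the families of functions which are completely Ramsey -/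
@[instance_reducible] private def crM : MeasurableSpace (ℕ → ℕ) where
  MeasurableSet' X := CR (enm X)
  measurableSet_empty := fun s A hA => ⟨A, Subset.rfl, hA, Or.inr fun _ _ h => h⟩
  measurableSet_compl X h := CR_compl h
  measurableSet_iUnion X h := by
    have e : enm (⋃ n, X n) = ⋃ n, enm (X n) := by
      ext Z
      simp [enm]
    rw [e]
    exact CR_iUnion h

theorem CR_enm {X : Set (ℕ → ℕ)} (hX : MeasurableSet X) : CR (enm X) := by
  have hle : (MeasurableSpace.pi : MeasurableSpace (ℕ → ℕ)) ≤ crM := by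
    refine iSup_le fun i => ?_
    rintro _ ⟨S, -, rfl⟩
    refine CR_of_opn fun Z hZ hZi => ?_
    refine ⟨Nat.nth (· ∈ Z) i + 1, fun W _ hW => ?_⟩
    change Nat.nth (· ∈ W) i ∈ S
    rw [nth_agree hZi (Nat.lt_succ_self _) hW]
    exact hZ
  exact hle X hX

private theorem nth_range {h : ℕ → ℕ} (hh : StrictMono h) : Nat.nth (· ∈ range h) = h := by
  have hi : (Set.ofPred (· ∈ range h)).Infinite := Set.infinite_range_of_injective hh.injective
  have h1 := Nat.range_nth_of_infinite hi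
  exact (StrictMono.range_inj (Nat.nth_strictMono hi) hh).1 h1

end GalvinPrikry

open GalvinPrikry in
/-- the Galvin-Prikry theorem -/
theorem galvin_prikry {X : Set (ℕ → ℕ)} (hX : MeasurableSet X) :
    ∃ g : ℕ → ℕ, StrictMono g ∧
      ((∀ s : ℕ → ℕ, StrictMono s → g ∘ s ∈ X) ∨ ∀ s : ℕ → ℕ, StrictMono s → g ∘ s ∉ X) := by
  obtain ⟨B, -, hB, h⟩ := CR_enm hX ∅ univ infinite_univ
  have hBi : (Set.ofPred (· ∈ B)).Infinite := hB
  have hg := Nat.nth_strictMono hBi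
  have hmem : ∀ s : ℕ → ℕ, StrictMono s → range (Nat.nth (· ∈ B) ∘ s) ∈ Nb ∅ B := by
    intro s hs
    refine ⟨infinite_range_of_injective (hg.comp hs).injective, by simp, ?_⟩
    rintro _ ⟨n, rfl⟩ _
    exact ⟨Nat.nth_mem_of_infinite hBi _, fun y hy => absurd hy (Finset.notMem_empty y)⟩
  have henm : ∀ s : ℕ → ℕ, StrictMono s →
      (range (Nat.nth (· ∈ B) ∘ s) ∈ enm X ↔ Nat.nth (· ∈ B) ∘ s ∈ X) := by
    intro s hs
    unfold enm
    rw [mem_ofPred_eq, nth_range (hg.comp hs)]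
  refine ⟨Nat.nth (· ∈ B), hg, ?_⟩
  rcases h with h | h
  · exact Or.inl fun s hs => (henm s hs).1 (h (hmem s hs))
  · exact Or.inr fun s hs hX' => h (hmem s hs) ((henm s hs).2 hX')

end Rnd
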