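import Pool.Agent.Rnd.Nms

/-! # The action of the flips on the names (package H1)

(problem MP_564ab4_lc, project RND, architect helper69)

`actN e` acts on a name by acting on all truth values, hereditarily. Everything is by induction on the names
(`induction x with | mk α A φ ih => ..`, see `Pool/Agent/STP/BEq.lean` for the style).

* `actN_mk`: by definition (`rfl` or `rw [actN]`). `actN_eta`: `cases x`.
* `actN_fl0`: induction on `x`, `FlipAlg.act_fl0`, `funext`. `actN_actN`: induction on `x`, `FlipAlg.act_act`.
  `actN_invol`: `xr_self` and the previous two. `actN_comm`: `xr_comm`.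
* `eq_actN`: induction on `x` for all `y` (`eq_mk`; `act_inf`, `act_iInf`, `act_himp`, `act_iSup`).
  `mem_actN`: `cases y`, `mem_mk`, `act_iSup`, `act_inf`, `eq_actN`.
* `actN_emN`: `cases` on the elements of `Empty` (`funext`; both sides are `⟨Empty, _, _⟩`).
  `actN_nn`: induction on `n`: the name `nn (n + 1)` is `⟨Option (nn n).ty, _, ⊤⟩`; use
  `actN_mk`, `act_top` and the induction hypothesis. The children `(nn n).fn a` are again fixed: prove by
  induction the statement `actN e (nn n) = nn n ∧ ∀ a, actN e ((nn n).fn a) = (nn n).fn a` (the second part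
  is a consequence for `n + 1`: the children are `nn n` and the `(nn n).fn a`).
  `actN_omN`: `actN_nn`, `act_top`.
* `actN_upN`, `actN_opN`, `actN_sqN`, `actN_sbN`, `actN_rlN`, `actN_unN`: unfold; `funext`,
  `split_ifs`, `act_top`. For `unN` (the index type is `Σ a : x.ty, (x.fn a).ty`) do `cases x` first; if
  dependent types make trouble, only prove the statement as given (`BSet.eq .. = ⊤`) with `le_eq_iff` and the
  value of membership: `mem z (unN x) = ⨆ w, (mem w x ⊓ mem z w)` (`mem_unN`), `z = actN e (actN e z)`,
  `mem_actN`, and every `w` is of the form `actN e w'`.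
* `actN_sepN`: `cases x`; unfold `sepN`; `act_inf`. `actN_rsN`: `cases x`; `act_inf`, `mem_actN`.
* `eq_top_iff'`: `→`: `mem_congr_right` and `vl_le_mem`. `←`: `x = mk α A φ`, `y = mk β C ψ`, `eq_mk`; each
  of the implications is `⊤` (`le_himp_iff`; for the second one use `eq_symm` in the membership value). -/

namespace Rnd

open STP BSet

variable {B : Type} [CompleteBooleanAlgebra B]

theorem eq_top_iff' {x y : BSet B} : BSet.eq x y = ⊤ ↔
    (∀ a, x.vl a ≤ mem (x.fn a) y) ∧ ∀ b, y.vl b ≤ mem (y.fn b) x := by
  constructor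
  · intro h
    refine ⟨fun a => ?_, fun b => ?_⟩
    · have h1 := mem_congr_right x y (x.fn a)
      rw [h, top_inf_eq] at h1
      exact (vl_le_mem x a).trans h1
    · have h1 := mem_congr_right y x (y.fn b)
      rw [BSet.eq_symm y x, h, top_inf_eq] at h1
      exact (vl_le_mem y b).trans h1
  · rintro ⟨h1, h2⟩
    cases x with
    | mk α A φ =>
      cases y with
      | mk β C ψ =>
        rw [eq_mk, eq_top_iff]
        refine le_inf (le_iInf fun a => ?_) (le_iInf fun b => ?_)
        · rw [le_himp_iff, top_inf_eq]
          exact h1 a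
        · rw [le_himp_iff, top_inf_eq]
          refine (h2 b).trans (iSup_mono fun a => ?_)
          change φ a ⊓ BSet.eq (C b) (A a) ≤ _
          rw [BSet.eq_symm (C b) (A a)]

variable [FlipAlg B]

theorem actN_mk (e : Fl) (α : Type) (A : α → BSet B) (φ : α → B) :
    actN e (mk α A φ) = mk α (fun a => actN e (A a)) (fun a => act e (φ a)) := by
  rw [actN]

theorem actN_eta (e : Fl) (x : BSet B) :
    actN e x = mk x.ty (fun a => actN e (x.fn a)) (fun a => act e (x.vl a)) := by
  cases x
  exact actN_mk _ _ _ _

theorem actN_fl0 (x : BSet B) : actN fl0 x = x := by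
  induction x with
  | mk α A φ ih =>
    rw [actN_mk]
    simp only [ih, FlipAlg.act_fl0]

theorem actN_actN (e e' : Fl) (x : BSet B) : actN e (actN e' x) = actN (xr e e') x := by
  induction x with
  | mk α A φ ih =>
    rw [actN_mk, actN_mk, actN_mk]
    simp only [ih, FlipAlg.act_act]

theorem actN_invol (e : Fl) (x : BSet B) : actN e (actN e x) = x := by
  rw [actN_actN, xr_self, actN_fl0]

theorem actN_comm (e e' : Fl) (x : BSet B) : actN e (actN e' x) = actN e' (actN e x) := by
  rw [actN_actN, actN_actN, xr_comm]

theorem eq_actN (e : Fl) (x y : BSet B) :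
    BSet.eq (actN e x) (actN e y) = act e (BSet.eq x y) := by
  induction x generalizing y with
  | mk α A φ ih =>
    cases y with
    | mk β C ψ =>
      rw [actN_mk, actN_mk, eq_mk, eq_mk, act_inf, act_iInf, act_iInf]
      simp only [act_himp, act_iSup, act_inf, ih]

theorem mem_actN (e : Fl) (x y : BSet B) : mem (actN e x) (actN e y) = act e (mem x y) := by
  cases y with
  | mk β C ψ =>
    rw [actN_mk, mem_mk, mem_mk, act_iSup]
    simp only [act_inf, eq_actN]

theorem actN_emN (e : Fl) : actN e (emN : BSet B) = emN := by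
  unfold emN
  rw [actN_mk]
  have h1 : (fun a : Empty => actN e (Empty.elim a : BSet B)) = Empty.elim :=
    funext fun a => a.elim
  have h2 : (fun a : Empty => act e (Empty.elim a : B)) = Empty.elim :=
    funext fun a => a.elim
  rw [h1, h2]

private theorem actN_nn_aux (e : Fl) (n : ℕ) : actN e (nn n : BSet B) = nn n ∧
    ∀ a, actN e ((nn n : BSet B).fn a) = (nn n : BSet B).fn a := by
  induction n with
  | zero => exact ⟨actN_emN e, fun a => a.elim⟩
  | succ n ih =>
    have h1 : ∀ o : Option (nn n : BSet B).ty,
        actN e (o.elim (nn n) (nn n : BSet B).fn) = o.elim (nn n) (nn n : BSet B).fn := by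
      intro o
      cases o with
      | none => exact ih.1
      | some a => exact ih.2 a
    refine ⟨?_, h1⟩
    change actN e (mk (Option (nn n : BSet B).ty)
      (fun o => o.elim (nn n) (nn n : BSet B).fn) (fun _ => ⊤)) =
      mk (Option (nn n : BSet B).ty) (fun o => o.elim (nn n) (nn n : BSet B).fn) (fun _ => ⊤)
    rw [actN_mk]
    simp only [h1, act_top]

theorem actN_nn (e : Fl) (n : ℕ) : actN e (nn n : BSet B) = nn n := (actN_nn_aux e n).1

theorem actN_omN (e : Fl) : actN e (omN : BSet B) = omN := by
  unfold omN
  rw [actN_mk]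
  simp only [actN_nn, act_top]

theorem actN_upN (e : Fl) (x y : BSet B) : actN e (upN x y) = upN (actN e x) (actN e y) := by
  unfold upN
  rw [actN_mk]
  simp only [apply_ite (actN e), act_top]

theorem actN_opN (e : Fl) (x y : BSet B) : actN e (opN x y) = opN (actN e x) (actN e y) := by
  unfold opN
  rw [actN_upN, actN_upN, actN_upN]

theorem actN_sqN (e : Fl) (s : ℕ → BSet B) : actN e (sqN s) = sqN fun n => actN e (s n) := by
  unfold sqN
  rw [actN_mk]
  simp only [actN_opN, actN_nn, act_top]

theorem actN_sbN (e : Fl) (p : ℕ → B) : actN e (sbN p) = sbN fun n => act e (p n) := by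
  unfold sbN
  rw [actN_mk]
  simp only [actN_nn]

theorem actN_rlN (e : Fl) (p : ℕ → ℕ → B) :
    actN e (rlN p) = rlN fun n m => act e (p n m) := by
  unfold rlN
  rw [actN_mk]
  simp only [actN_opN, actN_nn]

private theorem mem_act_left (e : Fl) (z x : BSet B) :
    mem z (actN e x) = act e (mem (actN e z) x) := by
  rw [← mem_actN, actN_invol]

theorem actN_unN (e : Fl) (x : BSet B) : BSet.eq (actN e (unN x)) (unN (actN e x)) = ⊤ := by
  have h : ∀ z, mem z (actN e (unN x)) = mem z (unN (actN e x)) := by
    intro z
    rw [mem_act_left, mem_unN, mem_unN, act_iSup]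
    refine le_antisymm (iSup_le fun w => ?_) (iSup_le fun w => ?_)
    · refine le_iSup_of_le (actN e w) ?_
      rw [act_inf, mem_actN, ← mem_actN e _ w, actN_invol]
    · refine le_iSup_of_le (actN e w) ?_
      rw [act_inf, ← mem_actN, ← mem_actN e _ (actN e w), actN_invol, actN_invol]
  rw [eq_top_iff, BSet.le_eq_iff]
  intro z
  rw [h z, top_inf_eq]
  exact ⟨le_rfl, le_rfl⟩

theorem actN_sepN (e : Fl) (x : BSet B) (Φ : BSet B → B) :
    actN e (sepN x Φ) = sepN (actN e x) fun z => act e (Φ (actN e z)) := by
  cases x with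
  | mk α A φ =>
    change actN e (mk α A fun a => φ a ⊓ Φ (A a)) = _
    rw [actN_mk, actN_mk]
    change _ = mk α (fun a => actN e (A a))
      (fun a => act e (φ a) ⊓ act e (Φ (actN e (actN e (A a)))))
    simp only [act_inf, actN_invol]

theorem actN_rsN (e : Fl) (x y : BSet B) : actN e (rsN x y) = rsN (actN e x) (actN e y) := by
  cases x with
  | mk α A φ =>
    change actN e (mk α A fun a => mem (A a) y ⊓ φ a) = _
    rw [actN_mk, actN_mk]
    change _ = mk α (fun a => actN e (A a))
      (fun a => mem (actN e (A a)) (actN e y) ⊓ act e (φ a))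
    simp only [act_inf, mem_actN]

end Rnd
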