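import Pool.Agent.Rnd.HSb

/-! # Countable mixtures and fullness (package H4)

(problem MP_564ab4_lc, project RND, architect helper69)

Black boxes: `HAct.lean`, `HSb.lean`.

* `mixH`: `a n` (`n : ℕ`) pairwise disjoint, `x n` in `HS`. Put `y := mk (Σ n, (x n).ty) (fun p => (x p.1).fn p.2) (fun p => a p.1 ⊓ (x p.1).vl p.2)`.
  `a n ≤ BSet.eq y (x n)`: copy the proof of `mix` in `Pool/Agent/STP/BMix.lean`. `HS y`: children by `HS.fn`.
  Symmetry: `mem z y = ⨆ n, a n ⊓ mem z (x n)` for all `z` (`mem_mk`, `iSup_sigma`, `inf_iSup_eq`, `inf_assoc`). Let `S` be the union of a countable set fixing all `a n` (`supp_fam`) and a countable set `S'` with `BSet.eq (actN e (x n)) (x n) = ⊤` for all `n` (`sym_fam`). Let `Fx S e`.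
  `mem z (actN e y) = act e (mem (actN e z) y)` (`mem_actN`, `actN_invol`) `= ⨆ n, act e (a n) ⊓ act e (mem (actN e z) (x n)) = ⨆ n, a n ⊓ mem z (actN e (x n)) = ⨆ n, a n ⊓ mem z (x n) = mem z y` (`mem_congr_right` with `BSet.eq .. = ⊤` in both directions). So `BSet.eq (actN e y) y = ⊤` by `le_eq_iff` (with `b = ⊤`).
* `exists_mx`: `Φ` extensional. The set of values `{Φ y | HS y}` is the range of `f : ι → B`, `ι := {b : B // ∃ y, HS y ∧ Φ y = b}`; by `FlipAlg.ccc` there is `s : ℕ → Option ι` with `⨆ n, (s n).elim ⊥ f = ⨆ i, f i`. Put `b n := (s n).elim ⊥ f`, `x n :=` a name in `HS` with `Φ (x n) = b n` if `s n = some i`, and `emN` (`HS_emN`) otherwise; in both cases `b n ≤ Φ (x n)`. Disjointify: `a n := b n ⊓ (⨆ m : Fin n, b m)ᶜ`: pairwise disjoint, `a n ≤ b n`, `⨆ n, a n = ⨆ n, b n` (strong induction: `b n ≤ ⨆ a`). With `y` from `mixH`: `a n ≤ BSet.eq (x n) y ⊓ Φ (x n) ≤ Φ y`, so `⨆ n, b n ≤ Φ y`, and every `Φ z`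 (`HS z`) is `≤ ⨆ i, f i`.
* `HS_mx`: `dif_pos`: `h.choose_spec.1`; `dif_neg`: `HS_emN`. `le_mx`: `dif_pos (exists_mx ..)`, `choose_spec`. `mx_eq`: `le_antisymm`. -/

namespace Rnd

open STP BSet

variable {B : Type} [CompleteBooleanAlgebra B] [FlipAlg B]

omit [FlipAlg B] in
private theorem mem_of_top {x y : BSet B} (h : BSet.eq x y = ⊤) (z : BSet B) :
    mem z x = mem z y := by
  refine le_antisymm ?_ ?_
  · have h1 := mem_congr_right x y z
    rwa [h, top_inf_eq] at h1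
  · have h1 := mem_congr_right y x z
    rwa [eq_symm, h, top_inf_eq] at h1

theorem mixH (a : ℕ → B) (hd : ∀ i j, i ≠ j → a i ⊓ a j = ⊥) (x : ℕ → BSet B)
    (hx : ∀ n, HS (x n)) : ∃ y : BSet B, HS y ∧ ∀ n, a n ≤ BSet.eq y (x n) := by
  obtain ⟨y, hy⟩ : ∃ y : BSet B, y = mk (Σ i, (x i).ty) (fun p => (x p.1).fn p.2)
    (fun p => a p.1 ⊓ (x p.1).vl p.2) := ⟨_, rfl⟩
  have h1 : ∀ z, mem z y = ⨆ n, a n ⊓ mem z (x n) := fun z => by
    rw [hy, mem_mk, iSup_sigma]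
    refine iSup_congr fun n => ?_
    have h2 : mem z (x n) = ⨆ b : (x n).ty, (x n).vl b ⊓ BSet.eq z ((x n).fn b) := rfl
    rw [h2, inf_iSup_eq]
    exact iSup_congr fun b => inf_assoc _ _ _
  have hsym : Sym y := by
    obtain ⟨S, hS, hSf⟩ := supp_fam a
    obtain ⟨S', hS', hSf'⟩ := sym_fam (fun n => (hx n).sym)
    refine ⟨S ∪ S', hS.union hS', fun e he => ?_⟩
    have ha := hSf e (he.mono Set.subset_union_left)
    have hx' := hSf' e (he.mono Set.subset_union_right)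
    have h3 : ∀ z, mem z (actN e y) = mem z y := by
      intro z
      calc mem z (actN e y) = mem (actN e (actN e z)) (actN e y) := by rw [actN_invol]
        _ = act e (mem (actN e z) y) := mem_actN _ _ _
        _ = ⨆ n, a n ⊓ mem z (x n) := by
            rw [h1, act_iSup]
            refine iSup_congr fun n => ?_
            rw [act_inf, ha n, ← mem_actN, actN_invol, mem_of_top (hx' n)]
        _ = mem z y := (h1 z).symm
    refine top_le_iff.1 (le_eq_iff.2 fun z => ?_)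
    rw [h3 z, top_inf_eq]
    exact ⟨le_rfl, le_rfl⟩
  refine ⟨y, ?_, fun i => le_eq_iff.2 fun z => ⟨?_, ?_⟩⟩
  · rw [hy, HS_mk]
    rw [hy] at hsym
    exact ⟨hsym, fun p => (hx p.1).fn p.2⟩
  · rw [h1, inf_iSup_eq]
    refine iSup_le fun j => ?_
    by_cases hj : i = j
    · subst hj
      exact inf_le_right.trans inf_le_right
    · refine le_trans ?_ bot_le
      rw [← hd i j hj]
      exact inf_le_inf_left _ inf_le_left
  · rw [h1]
    exact le_iSup (fun n => a n ⊓ mem z (x n)) i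

theorem exists_mx {Φ : BSet B → B} (hΦ : Ext Φ) : ∃ x, HS x ∧ ∀ y, HS y → Φ y ≤ Φ x := by
  obtain ⟨s, hs⟩ := FlipAlg.ccc (fun i : {b : B // ∃ y, HS y ∧ Φ y = b} => i.1)
  obtain ⟨b, hb⟩ : ∃ b : ℕ → B, ∀ n, b n =
      (s n).elim ⊥ (fun i : {b : B // ∃ y, HS y ∧ Φ y = b} => i.1) := ⟨_, fun _ => rfl⟩
  have hex : ∀ n, ∃ x : BSet B, HS x ∧ b n ≤ Φ x := by
    intro n
    rw [hb]
    cases s n with
    | none => exact ⟨emN, HS_emN, bot_le⟩
    | some i =>
      obtain ⟨y, hy, hyb⟩ := i.2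
      exact ⟨y, hy, hyb.ge⟩
  choose x hxs hxb using hex
  obtain ⟨a, ha⟩ : ∃ a : ℕ → B, ∀ n, a n = b n ⊓ (⨆ m : Fin n, b m)ᶜ := ⟨_, fun _ => rfl⟩
  have hab : ∀ n, a n ≤ b n := fun n => by
    rw [ha]
    exact inf_le_left
  have hd0 : ∀ i j, i < j → a i ⊓ a j = ⊥ := by
    intro i j hij
    refine le_bot_iff.1 ?_
    have h1 : a j ≤ (b i)ᶜ := by
      rw [ha]
      exact inf_le_right.trans (compl_le_compl (le_iSup (fun m : Fin j => b m) ⟨i, hij⟩))
    exact (inf_le_inf (hab i) h1).trans (inf_compl_self (a := b i)).le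
  have hd : ∀ i j, i ≠ j → a i ⊓ a j = ⊥ := by
    intro i j hij
    rcases lt_or_gt_of_ne hij with h | h
    · exact hd0 i j h
    · rw [inf_comm]
      exact hd0 j i h
  obtain ⟨y, hyH, hy⟩ := mixH a hd x hxs
  have h1 : ∀ n, a n ≤ Φ y := by
    intro n
    refine le_trans (le_inf ?_ ?_) (hΦ (x n) y)
    · rw [eq_symm]
      exact hy n
    · exact (hab n).trans (hxb n)
  have h2 : ∀ n, b n ≤ Φ y := by
    intro n
    induction n using Nat.strong_induction_on with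
    | _ n ih =>
      have h3 : (⨆ m : Fin n, b m) ≤ Φ y := iSup_le fun m => ih m m.2
      have h4 := h1 n
      rw [ha] at h4
      calc b n = (b n ⊓ (⨆ m : Fin n, b m)) ⊔ (b n ⊓ (⨆ m : Fin n, b m)ᶜ) :=
            (sup_inf_inf_compl).symm
        _ ≤ Φ y := sup_le (inf_le_right.trans h3) h4
  refine ⟨y, hyH, fun z hz => ?_⟩
  have h5 : Φ z ≤ ⨆ i : {b : B // ∃ y, HS y ∧ Φ y = b}, i.1 :=
    le_iSup (fun i : {b : B // ∃ y, HS y ∧ Φ y = b} => i.1) ⟨Φ z, z, hz, rfl⟩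
  rw [← hs] at h5
  refine h5.trans (iSup_le fun n => ?_)
  rw [← hb]
  exact h2 n

theorem HS_mx (Φ : BSet B → B) : HS (mx Φ) := by
  unfold mx
  split_ifs with h
  · exact h.choose_spec.1
  · exact HS_emN

theorem le_mx {Φ : BSet B → B} (hΦ : Ext Φ) {y : BSet B} (hy : HS y) : Φ y ≤ Φ (mx Φ) := by
  have h := exists_mx hΦ
  have h1 : mx Φ = h.choose := by
    unfold mx
    exact dif_pos h
  rw [h1]
  exact h.choose_spec.2 y hy

theorem mx_eq {Φ : BSet B → B} (hΦ : Ext Φ) : Φ (mx Φ) = ⨆ x : {x : BSet B // HS x}, Φ x.1 :=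
  le_antisymm (le_iSup (fun x : {x : BSet B // HS x} => Φ x.1) ⟨mx Φ, HS_mx Φ⟩)
    (iSup_le fun x => le_mx hΦ x.2)

end Rnd
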