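import Pool.Agent.Rnd.HSb

/-! # Values of the canonical names (package H5)

(problem MP_564ab4_lc, project RND, architect helper69)

Black boxes: `HAct.lean`, `HSb.lean`.

* `nn_ty_countable`: induction (`Option` of a countable type, `Empty`). `nn_vl`: the truth values of `nn n` are `⊤` (cases on `n`; `Empty` has no elements).
* `mem_nn_succ`: `mem z (nn (n + 1)) = BSet.eq z (nn n) ⊔ mem z (nn n)`: `mem_mk`, the supremum over `Option (nn n).ty` (`iSup_option`), the truth values are `⊤` (`nn_vl`).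
* `mem_nn`: `mem z (nn n) = ⨆ m : Fin n, BSet.eq z (nn m)`: induction on `n` with `mem_nn_succ` (or prove the two inequalities separately).
* `eq_nn`: WLOG `m < n` (`eq_symm`). `BSet.eq (nn n) (nn m) ⊓ mem (nn m) (nn n) ≤ mem (nn m) (nn m)` (`mem_congr_right`), `mem (nn m) (nn n) = ⊤` (`mem_nn`, `eq_refl`), and `mem (nn m) (nn m) = ⊥` (`mem_self`).
* `mem_self`: `mem x x = ⊥` for every name: `found_le` in `Pool/Agent/STP/ZRep.lean` applied to the name `{x}`; or directly by induction on `x`: `b := mem x x = ⨆ a, x.vl a ⊓ eq x (x.fn a)`, and `x.vl a ⊓ eq x (x.fn a) ≤ mem (x.fn a) x ⊓ eq x (x.fn a) ≤ mem (x.fn a) (x.fn a) = ⊥` (`vl_le_mem`, `mem_congr_right`, induction hypothesis).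
* `mem_omN`: `mem z omN = ⨆ n, BSet.eq z (nn n)` (`mem_mk`, `top_inf_eq`).
* `opN_congr`: this is `eq_opN` of `HSb.lean`. `HS_act`: `HS.act`.
* `eq_opN_iff`: `BSet.eq (opN x y) (opN x' y') = BSet.eq x x' ⊓ BSet.eq y y'`: `≥` is `eq_opN`. `≤` (injectivity of the ordered pair): by `Ult.mem_of_all` (file `Pool/Agent/STP/BVal.lean`): let `G` be an ultrafilter containing `eq (opN x y) (opN x' y')`; in the quotient `NG G` (a model of `ZFC`, `NG_zfc` in `Pool/Agent/STP/ZCho.lean`) the class of `opN x y` is an ordered pair of the classes of `x` and `y` (`IsOP`: `mem_upN`, `Ult_sup`, `NG.mk_eq`), so `IsOP.inj` (file `Pool/Agent/STP/Cls.lean`, search `IsOP.inj`) gives `mk x = mk x'`, `mk y = mk y'`. (Or a direct computation with `mem_upN`.)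
* `mem_rlN`: `⨆ q : ℕ × ℕ, p q.1 q.2 ⊓ BSet.eq (opN (nn n) (nn m)) (opN (nn q.1) (nn q.2))`: by `eq_opN_iff` and `eq_nn` all terms with `q ≠ (n, m)` are `⊥`, `eq_refl`. `mem_sbN`: the same.
* `eq_mk_equiv`: `eq_top_iff'`: the index `a` corresponds to `σ a` (`le_iSup`, `eq_refl`), the index `b` to `σ.symm b`. -/

namespace Rnd

open STP BSet

variable {B : Type} [CompleteBooleanAlgebra B]

theorem nn_ty_countable (n : ℕ) : Countable (nn n : BSet B).ty := by
  induction n with
  | zero => exact inferInstanceAs (Countable Empty)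
  | succ n ih => exact inferInstanceAs (Countable (Option (nn n : BSet B).ty))

theorem nn_vl (n : ℕ) (a : (nn n : BSet B).ty) : (nn n : BSet B).vl a = ⊤ := by
  cases n with
  | zero => exact Empty.elim a
  | succ n => rfl

theorem mem_nn_succ (z : BSet B) (n : ℕ) :
    mem z (nn (n + 1)) = BSet.eq z (nn n) ⊔ mem z (nn n) := by
  have h1 : mem z (nn (n + 1)) = ⨆ o : Option (nn n : BSet B).ty,
      ⊤ ⊓ BSet.eq z (o.elim (nn n) (nn n : BSet B).fn) := rfl
  have h2 : mem z (nn n) = ⨆ a : (nn n : BSet B).ty,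
      (nn n : BSet B).vl a ⊓ BSet.eq z ((nn n : BSet B).fn a) := rfl
  rw [h1, h2, iSup_option]
  simp only [nn_vl, top_inf_eq]
  rfl

theorem mem_nn (z : BSet B) (n : ℕ) : mem z (nn n) = ⨆ m : Fin n, BSet.eq z (nn m) := by
  induction n with
  | zero =>
    rw [iSup_of_empty]
    have h1 : mem z (nn 0) = ⨆ a : Empty, (Empty.elim a : B) ⊓ BSet.eq z (Empty.elim a) := rfl
    rw [h1, iSup_of_empty]
  | succ n ih =>
    rw [mem_nn_succ, ih]
    refine le_antisymm (sup_le ?_ (iSup_le fun m => ?_)) (iSup_le fun m => ?_)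
    · exact le_iSup (fun m : Fin (n + 1) => BSet.eq z (nn m)) (Fin.last n)
    · exact le_iSup (fun m : Fin (n + 1) => BSet.eq z (nn m)) m.castSucc
    · refine Fin.lastCases ?_ (fun m => ?_) m
      · exact le_sup_left
      · exact (le_iSup (fun m : Fin n => BSet.eq z (nn m)) m).trans le_sup_right

theorem mem_self (x : BSet B) : mem x x = ⊥ := by
  induction x with
  | mk α A φ ih =>
    rw [eq_bot_iff]
    refine iSup_le fun a => ?_
    rw [← ih a]
    refine le_trans (le_inf inf_le_right (inf_le_left.trans (vl_le_mem (BSet.mk α A φ) a))) ?_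
    exact mem_congr_right _ _ _

theorem mem_omN (z : BSet B) : mem z omN = ⨆ n, BSet.eq z (nn n) := by
  have h1 : mem z omN = ⨆ n : ℕ, (⊤ : B) ⊓ BSet.eq z (nn n) := rfl
  rw [h1]
  simp only [top_inf_eq]

private theorem mem_nn_lt {n m : ℕ} (h : m < n) : mem (nn m : BSet B) (nn n) = ⊤ := by
  rw [mem_nn, eq_top_iff, ← eq_refl (nn m : BSet B)]
  exact le_iSup (fun k : Fin n => BSet.eq (nn m : BSet B) (nn k)) ⟨m, h⟩

private theorem eq_nn_lt {n m : ℕ} (h : m < n) : BSet.eq (nn n : BSet B) (nn m) = ⊥ := by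
  have h1 := mem_congr_right (nn n : BSet B) (nn m) (nn m)
  rw [mem_nn_lt h, inf_top_eq, mem_self] at h1
  exact le_bot_iff.1 h1

theorem eq_nn (n m : ℕ) (h : n ≠ m) : BSet.eq (nn n : BSet B) (nn m) = ⊥ := by
  rcases lt_or_gt_of_ne h with h | h
  · rw [eq_symm]
    exact eq_nn_lt h
  · exact eq_nn_lt h

theorem opN_congr (x x' y y' : BSet B) :
    BSet.eq x x' ⊓ BSet.eq y y' ≤ BSet.eq (opN x y) (opN x' y') := eq_opN x x' y y'

private theorem ult_sup (G : Ult B) {a b : B} (h : a ⊔ b ∈ G.s) : a ∈ G.s ∨ b ∈ G.s := by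
  rcases G.dec a with h1 | h1
  · exact Or.inl h1
  · rcases G.dec b with h2 | h2
    · exact Or.inr h2
    · exfalso
      have h3 := G.inf (G.inf h1 h2) h
      rw [← compl_sup, compl_inf_self] at h3
      exact G.bot h3

private theorem mk_mem {G : Ult B} {u v z : BSet B} :
    mem z (upN u v) ∈ G.s ↔ (NG.mk G z = NG.mk G u ∨ NG.mk G z = NG.mk G v) := by
  rw [mem_upN, NG.mk_eq, NG.mk_eq]
  constructor
  · exact ult_sup G
  · rintro (h | h)
    · exact G.up h le_sup_left
    · exact G.up h le_sup_right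

private theorem mk_up {G : Ult B} {u v u' v' : BSet B}
    (h : NG.mk G (upN u v) = NG.mk G (upN u' v')) (z : BSet B)
    (hz : NG.mk G z = NG.mk G u ∨ NG.mk G z = NG.mk G v) :
    NG.mk G z = NG.mk G u' ∨ NG.mk G z = NG.mk G v' :=
  mk_mem.1 (G.up (G.inf (NG.mk_eq.1 h) (mk_mem.2 hz)) (mem_congr_right _ _ _))

private theorem mk_op {G : Ult B} {x y x' y' : BSet B}
    (h : BSet.eq (opN x y) (opN x' y') ∈ G.s) :
    NG.mk G x = NG.mk G x' ∧ NG.mk G y = NG.mk G y' := by
  have h0 := mk_up (NG.mk_eq.2 h)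
  have h0' := mk_up (NG.mk_eq.2 h).symm
  have hx : NG.mk G x = NG.mk G x' := by
    rcases h0 (upN x x) (Or.inl rfl) with h1 | h1
    · rcases mk_up h1.symm x' (Or.inl rfl) with h2 | h2
      · exact h2.symm
      · exact h2.symm
    · rcases mk_up h1.symm x' (Or.inl rfl) with h2 | h2
      · exact h2.symm
      · exact h2.symm
  refine ⟨hx, ?_⟩
  rcases h0 (upN x y) (Or.inr rfl) with h1 | h1
  · have h2 : NG.mk G y = NG.mk G x' := by
      rcases mk_up h1 y (Or.inr rfl) with h2 | h2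
      · exact h2
      · exact h2
    rcases h0' (upN x' y') (Or.inr rfl) with h3 | h3
    · rcases mk_up h3 y' (Or.inr rfl) with h4 | h4
      · rw [h2, h4, hx]
      · rw [h2, h4, hx]
    · rcases mk_up h3 y' (Or.inr rfl) with h4 | h4
      · rw [h2, h4, hx]
      · exact h4.symm
  · rcases mk_up h1 y (Or.inr rfl) with h2 | h2
    · rcases mk_up h1.symm y' (Or.inr rfl) with h4 | h4
      · rw [h2, h4, hx]
      · exact h4.symm
    · exact h2

theorem eq_opN_iff (x x' y y' : BSet B) :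
    BSet.eq (opN x y) (opN x' y') = BSet.eq x x' ⊓ BSet.eq y y' := by
  refine le_antisymm (Ult.mem_of_all fun G hG => ?_) (eq_opN x x' y y')
  obtain ⟨h1, h2⟩ := mk_op hG
  exact G.inf (NG.mk_eq.1 h1) (NG.mk_eq.1 h2)

theorem mem_rlN (p : ℕ → ℕ → B) (n m : ℕ) : mem (opN (nn n) (nn m)) (rlN p) = p n m := by
  have h1 : mem (opN (nn n) (nn m)) (rlN p) = ⨆ q : ℕ × ℕ,
      p q.1 q.2 ⊓ BSet.eq (opN (nn n) (nn m)) (opN (nn q.1) (nn q.2)) := rfl
  rw [h1]
  refine le_antisymm (iSup_le ?_) (le_iSup_of_le (n, m) ?_)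
  · rintro ⟨a, b⟩
    by_cases ha : n = a
    · by_cases hb : m = b
      · subst ha
        subst hb
        exact inf_le_left
      · rw [eq_opN_iff, eq_nn m b hb, inf_bot_eq, inf_bot_eq]
        exact bot_le
    · rw [eq_opN_iff, eq_nn n a ha, bot_inf_eq, inf_bot_eq]
      exact bot_le
  · rw [eq_refl, inf_top_eq]

theorem mem_sbN (p : ℕ → B) (n : ℕ) : mem (nn n) (sbN p) = p n := by
  have h1 : mem (nn n) (sbN p) = ⨆ q : ℕ, p q ⊓ BSet.eq (nn n) (nn q) := rfl
  rw [h1]
  refine le_antisymm (iSup_le fun a => ?_) (le_iSup_of_le n ?_)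
  · by_cases ha : n = a
    · subst ha
      exact inf_le_left
    · rw [eq_nn n a ha, inf_bot_eq]
      exact bot_le
  · rw [eq_refl, inf_top_eq]

/-- names with the same elements up to a permutation of the indices -/
theorem eq_mk_equiv {α β : Type} (σ : α ≃ β) (A : α → BSet B) (C : β → BSet B) (φ : α → B)
    (ψ : β → B) (hA : ∀ a, A a = C (σ a)) (hφ : ∀ a, φ a = ψ (σ a)) :
    BSet.eq (BSet.mk α A φ) (BSet.mk β C ψ) = ⊤ := by
  have h1 : ∀ a : α, φ a ≤ mem (A a) (BSet.mk β C ψ) := by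
    intro a
    rw [hA, hφ]
    exact vl_le_mem (BSet.mk β C ψ) (σ a)
  have h2 : ∀ b : β, ψ b ≤ mem (C b) (BSet.mk α A φ) := by
    intro b
    have h3 : φ (σ.symm b) ≤ mem (A (σ.symm b)) (BSet.mk α A φ) :=
      vl_le_mem (BSet.mk α A φ) (σ.symm b)
    rw [hA, hφ, Equiv.apply_symm_apply] at h3
    exact h3
  exact eq_top_iff'.2 ⟨h1, h2⟩

variable [FlipAlg B]

theorem HS_act (e : Fl) {x : BSet B} (h : HS x) : HS (actN e x) := h.act e

end Rnd
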