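import Pool.Agent.Rnd.HVal
import Pool.Agent.Rnd.HMix

/-! # Separation, power set and collection for symmetric names (package H6)

(problem MP_564ab4_lc, project RND, architect helper69)

Black boxes: `HAct.lean`, `HSb.lean`, `HVal.lean`, `HMix.lean`.

* `HS_asg`: all values of `asg l` are in `HS` (`List.getD`; the default is `emN`, `HS_emN`).
* `HS_sepH`: `Φ z := hval φ (cns z (asg l))` is extensional (`hval_ext`). Children: `HS.fn`. Let `S` be the union of a support of `x` and of a countable set fixing all `asg l i` (`sym_fam` for `ι = ℕ`). For `Fx S e`: `act e (Φ (actN e z)) = hval φ (fun i => actN e (cns (actN e z) (asg l) i)) = hval φ (cns z (fun i => actN e (asg l i))) = Φ z` (`hval_act`, `actN_invol`; the last equality by `hval_congr` in both directions, all `BSet.eq (actN e (asg l i)) (asg l i) = ⊤`). So `actN e (sepN x Φ) = sepN (actN e x) Φ` (`actN_sepN`, `funext`) and `BSet.eq (sepN (actN e x) Φ) (sepN x Φ) = ⊤` by `le_eq_iff`, `mem_sepN`, `mem_congr_right` (`BSet.eq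 (actN e x) x = ⊤`).
* `mem_pwH`: let `HS x`, `HS y`, `s := ⨅ z, (mem z y ⇨ mem z x)`. `s ≤ mem y (pwH x)`: take the index `c := fun a => mem (x.fn a) y`; it is an index because `⟨x.ty, x.fn, fun a => c a ⊓ x.vl a⟩ = rsN x y` is in `HS` (`HS_rsN`), and `s ≤ BSet.eq y (rsN x y)` (`le_eq_iff`, `mem_rsN`).
* `HS_pwH`: children: by definition of the index type. `S` = a support of `x` (`HS.sym`), `Fx S e`, so `BSet.eq (actN e x) x = ⊤`. Show (1) `mem (actN e ((pwH x).fn c)) (pwH x) = ⊤` for every index `c`: `y := actN e ((pwH x).fn c)` is in `HS` (`HS.act`) and `mem z y = act e (mem (actN e z) ((pwH x).fn c)) ≤ act e (mem (actN e z) x) = mem z (actN e x) ≤ mem z x` (the name `(pwH x).fn c` has smaller truth values than `x`); `mem_pwH`. (2) `mem ((pwH x).fn c) (actN e (pwH x)) = act e (mem (actN e ((pwH x).fn c)) (pwH x)) = ⊤` by (1) for the same `e` (`mem_actN`, `actN_invol`). Conclude with `eq_top_iff'` and `actN_mk`.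
* `HS_coH`: children: `HS.act`. Symmetry with `S = ∅`: for every `e` the name `actN e (coH x W)` has the children `actN e (actN r.2 (W r.1)) = actN (xr e r.2) (W r.1)` (`actN_actN`) with value `⊤` (`act_top`): `eq_top_iff'`: the index `r` corresponds to the index `(r.1, xr e r.2)` of `coH x W`, and conversely the child `actN r.2 (W r.1)` is `actN e (actN (xr e r.2) (W r.1))` (`xr_self`, `xr_assoc`, `actN_actN`, `actN_fl0`).
* `hsup_mem`: `HS x`, `Φ` extensional: the values over `HS` names and over the indices agree: `≤`: `BSet.iSup_mem`; `≥`: the names `x.fn a` are in `HS`, `vl_le_mem`. -/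

namespace Rnd

open STP BSet

variable {B : Type} [CompleteBooleanAlgebra B] [FlipAlg B]

theorem HS_asg {l : List (BSet B)} (hl : ∀ z ∈ l, HS z) (i : ℕ) : HS (asg l i) := by
  unfold asg
  by_cases h : i < l.length
  · rw [List.getD_eq_getElem _ _ h]
    exact hl _ (List.getElem_mem h)
  · rw [List.getD_eq_default _ _ (not_lt.1 h)]
    exact HS_emN

omit [FlipAlg B] in
private theorem hpw_top {x y : BSet B} (h : BSet.eq x y = ⊤) (z : BSet B) :
    mem z x = mem z y := by
  refine le_antisymm ?_ ?_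
  · have h1 := mem_congr_right x y z
    rwa [h, top_inf_eq] at h1
  · have h1 := mem_congr_right y x z
    rwa [eq_symm, h, top_inf_eq] at h1

theorem HS_sepH (φ : Fml) {l : List (BSet B)} (hl : ∀ z ∈ l, HS z) {x : BSet B} (hx : HS x) :
    HS (sepN x fun z => hval φ (cns z (asg l))) := by
  obtain ⟨S, hS, h⟩ := hx.sym
  obtain ⟨S', hS', h'⟩ := sym_fam fun i => (HS_asg hl i).sym
  refine (HS_iff _).2 ⟨⟨S ∪ S', hS.union hS', fun e he => ?_⟩, fun a => hx.fn a⟩
  have e1 := h e (he.mono Set.subset_union_left)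
  have e2 := h' e (he.mono Set.subset_union_right)
  have key : (fun z => act e (hval φ (cns (actN e z) (asg l)))) =
      fun z => hval φ (cns z (asg l)) := by
    funext z
    rw [← hval_act]
    refine le_antisymm ?_ ?_
    · refine le_trans (le_inf ?_ le_rfl) (hval_congr φ _ _)
      refine le_top.trans (le_iInf fun i => ?_)
      cases i with
      | zero =>
        change ⊤ ≤ BSet.eq (actN e (actN e z)) z
        rw [actN_invol, eq_refl]
      | succ i => exact (e2 i).ge
    · refine le_trans (le_inf ?_ le_rfl) (hval_congr φ _ _)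
      refine le_top.trans (le_iInf fun i => ?_)
      cases i with
      | zero =>
        change ⊤ ≤ BSet.eq z (actN e (actN e z))
        rw [actN_invol, eq_refl]
      | succ i => exact ((eq_symm _ _).trans (e2 i)).ge
  rw [actN_sepN, key]
  refine top_le_iff.1 (le_eq_iff.2 fun z => ?_)
  rw [top_inf_eq, top_inf_eq, mem_sepN (hval_ext φ _), mem_sepN (hval_ext φ _), hpw_top e1]
  exact ⟨le_rfl, le_rfl⟩

theorem mem_pwH {x y : BSet B} (hx : HS x) (hy : HS y) :
    ⨅ z, (mem z y ⇨ mem z x) ≤ mem y (pwH x) := by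
  have h0 : mem y (pwH x) =
      ⨆ c : {c : x.ty → B // HS (mk x.ty x.fn fun a => c a ⊓ x.vl a)},
        ⊤ ⊓ BSet.eq y (mk x.ty x.fn fun a => c.1 a ⊓ x.vl a) := rfl
  rw [h0]
  refine le_iSup_of_le ⟨fun a => mem (x.fn a) y, HS_rsN hx hy⟩ ?_
  rw [top_inf_eq]
  change _ ≤ BSet.eq y (rsN x y)
  refine le_eq_iff.2 fun w => ⟨?_, ?_⟩
  · rw [mem_rsN]
    exact le_inf (le_himp_iff.1 (iInf_le _ w)) inf_le_right
  · rw [mem_rsN]
    exact inf_le_right.trans inf_le_right

theorem HS_pwH {x : BSet B} (hx : HS x) : HS (pwH x) := by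
  obtain ⟨S, hS, h⟩ := hx.sym
  refine (HS_iff _).2 ⟨⟨S, hS, fun e he => ?_⟩, fun c => c.2⟩
  have e1 := h e he
  have h1 : ∀ c : (pwH x).ty, mem (actN e ((pwH x).fn c)) (pwH x) = ⊤ := by
    intro c
    refine top_le_iff.1 (le_trans (le_iInf fun z => ?_) (mem_pwH hx (HS.act c.2 e)))
    rw [le_himp_iff, top_inf_eq]
    have h2 : mem (actN e z) ((pwH x).fn c) ≤ mem (actN e z) x := by
      change (⨆ a : x.ty, (c.1 a ⊓ x.vl a) ⊓ BSet.eq (actN e z) (x.fn a)) ≤
        ⨆ a : x.ty, x.vl a ⊓ BSet.eq (actN e z) (x.fn a)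
      exact iSup_mono fun a => inf_le_inf_right _ inf_le_right
    have h3 : mem z (actN e ((pwH x).fn c)) ≤ mem z (actN e x) := by
      have h5 := FlipAlg.act_mono e _ _ h2
      rw [← mem_actN, ← mem_actN, actN_invol] at h5
      exact h5
    rw [hpw_top e1] at h3
    exact h3
  have h4 := actN_eta e (pwH x)
  rw [h4]
  refine eq_top_iff'.2 ⟨fun c => ?_, fun c => ?_⟩
  · exact le_top.trans (h1 c).ge
  · rw [← h4]
    have h5 : mem ((pwH x).fn c) (actN e (pwH x)) = ⊤ := by
      rw [← actN_invol e ((pwH x).fn c), mem_actN, h1 c, act_top]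
    exact le_top.trans h5.ge

theorem HS_coH (x : BSet B) {W : x.ty → BSet B} (hW : ∀ a, HS (W a)) : HS (coH x W) := by
  refine (HS_iff _).2 ⟨⟨∅, Set.countable_empty, fun e _ => ?_⟩, fun r => HS.act (hW r.1) r.2⟩
  have h4 : actN e (coH x W) =
      mk (x.ty × Fl) (fun r => actN (xr e r.2) (W r.1)) (fun _ => ⊤) := by
    unfold coH
    rw [actN_mk]
    simp only [actN_actN, act_top]
  rw [h4]
  refine eq_top_iff'.2 ⟨fun r => ?_, fun r => ?_⟩
  · exact vl_le_mem (coH x W) (r.1, xr e r.2)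
  · have h5 := vl_le_mem
      (mk (x.ty × Fl) (fun r => actN (xr e r.2) (W r.1)) (fun _ => (⊤ : B))) (r.1, xr e r.2)
    have h6 : xr e (xr e r.2) = r.2 := by
      rw [← xr_assoc, xr_self]
      funext j
      unfold xr fl0
      exact Bool.false_xor _
    change ⊤ ≤ mem (actN (xr e (xr e r.2)) (W r.1)) _ at h5
    rw [h6] at h5
    exact h5

theorem hsup_mem {Φ : BSet B → B} (hΦ : Ext Φ) {x : BSet B} (hx : HS x) :
    ⨆ z : {z : BSet B // HS z}, (mem z.1 x ⊓ Φ z.1) = ⨆ a : x.ty, (x.vl a ⊓ Φ (x.fn a)) := by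
  refine le_antisymm (iSup_le fun z => ?_) (iSup_le fun a => ?_)
  · rw [← iSup_mem hΦ x]
    exact le_iSup (fun z => mem z x ⊓ Φ z) z.1
  · refine le_trans (inf_le_inf_right _ (vl_le_mem x a)) ?_
    exact le_iSup (fun z : {z : BSet B // HS z} => mem z.1 x ⊓ Φ z.1) ⟨x.fn a, hx.fn a⟩

end Rnd
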