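import Pool.Agent.Rnd.HAct

/-! # Hereditarily symmetric names: basic facts (package H2)

(problem MP_564ab4_lc, project RND, architect helper69)

Black box: `HAct.lean`.

* `HS.sym`, `HS.fn`: `HS_iff`. `HS_mk`: definition.
* `supp_seq`: choose `S n` for `b n` (`FlipAlg.supp`), take `⋃ n, S n` (`Set.countable_iUnion`, `Fx.mono`).
  `supp_fam`: the same for a countable index type (empty type: `S = ∅`). `sym_fam`: the same for `Sym`.
* `Sym.act`: the same `S` works: `BSet.eq (actN e' (actN e x)) (actN e x) = BSet.eq (actN e (actN e' x)) (actN e x) = act e (BSet.eq (actN e' x) x)`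
  (`actN_comm`, `eq_actN`, `act_top`). `HS.act`: induction on `x` (`actN_mk`). `HS_actN_iff`: `HS.act`, `actN_invol`.
* `HS_of_fix`: a name with `actN e x = x` for all `e` and children in `HS` is in `HS` (`S = ∅`, `eq_refl`).
* `HS_emN`, `HS_nn` (all children of `nn n` are in `HS`: prove `HS (nn n) ∧ ∀ a, HS ((nn n).fn a)` by induction), `HS_omN`: `HS_of_fix` and `actN_emN`, `actN_nn`, `actN_omN`.
* `HS_upN`: `S` = union of the two supports; `actN_upN` and the congruence of `upN`: if `BSet.eq x x' = ⊤` and `BSet.eq y y' = ⊤` then `BSet.eq (upN x y) (upN x' y') = ⊤` (`eq_upN` below; from `le_eq_iff` and `mem_upN`, `eq_trans`). `HS_opN`: twice `HS_upN`.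
* `eq_upN`, `eq_opN`: `BSet.eq x x' ⊓ BSet.eq y y' ≤ BSet.eq (upN x y) (upN x' y')`: `le_eq_iff`, `mem_upN`: `(eq x x' ⊓ eq y y') ⊓ (eq z x ⊔ eq z y) ≤ eq z x' ⊔ eq z y'`. `eq_opN`: apply `eq_upN` twice.
* `HS_sqN`: children by `HS_opN`, `HS_nn`; `S` from `sym_fam` for the names `s n`; `actN_sqN`; `BSet.eq (sqN s) (sqN s') = ⊤` if `BSet.eq (s n) (s' n) = ⊤` for all `n`: `eq_top_iff'`: for the index `n`: `⊤ ≤ mem (opN (nn n) (s n)) (sqN s')`, take the index `n` and `eq_opN`.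
* `HS_sbN`, `HS_rlN`: `supp_fam` for the values (`ℕ`, `ℕ × ℕ`), then `actN e (sbN p) = sbN p` (`actN_sbN`, `funext`), `eq_refl`.
* `HS_unN`: children: `HS.fn` twice. `S` = support of `x`: `BSet.eq (actN e (unN x)) (unN x) ≥ BSet.eq (actN e (unN x)) (unN (actN e x)) ⊓ BSet.eq (unN (actN e x)) (unN x)` (`eq_trans`), and `BSet.eq (unN x') (unN x) = ⊤` if `BSet.eq x' x = ⊤` (`le_eq_iff`, `mem_unN`, `mem_congr_right`).
* `mem_rsN`: `mem z (rsN x y) = mem z x ⊓ mem z y`: it is `sepN x (fun z => mem z y)` up to the order of `⊓`; use `mem_sepN` (the function `fun z => mem z y` is extensional by `mem_congr_left`), `inf_comm`. `HS_rsN`: `S` = union of the two supports, `actN_rsN`, `le_eq_iff`, `mem_rsN`, `mem_congr_right`. -/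

namespace Rnd

open STP BSet

variable {B : Type} [CompleteBooleanAlgebra B]

private theorem hsb_up (x x' y y' z : BSet B) :
    (BSet.eq x x' ⊓ BSet.eq y y') ⊓ mem z (upN x y) ≤ mem z (upN x' y') := by
  rw [mem_upN, mem_upN, inf_sup_left]
  refine sup_le ?_ ?_
  · refine le_trans ?_ (le_sup_left)
    refine le_trans ?_ (eq_trans z x x')
    exact le_inf inf_le_right (inf_le_left.trans inf_le_left)
  · refine le_trans ?_ (le_sup_right)
    refine le_trans ?_ (eq_trans z y y')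
    exact le_inf inf_le_right (inf_le_left.trans inf_le_right)

theorem eq_upN (x x' y y' : BSet B) :
    BSet.eq x x' ⊓ BSet.eq y y' ≤ BSet.eq (upN x y) (upN x' y') := by
  refine le_eq_iff.2 fun z => ⟨hsb_up x x' y y' z, ?_⟩
  rw [eq_symm x x', eq_symm y y']
  exact hsb_up x' x y' y z

theorem eq_opN (x x' y y' : BSet B) :
    BSet.eq x x' ⊓ BSet.eq y y' ≤ BSet.eq (opN x y) (opN x' y') := by
  refine le_trans ?_ (eq_upN _ _ _ _)
  refine le_inf ?_ (eq_upN x x' y y')
  refine le_trans ?_ (eq_upN x x' x x')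
  exact le_inf inf_le_left inf_le_left

theorem mem_rsN (x y z : BSet B) : mem z (rsN x y) = mem z x ⊓ mem z y := by
  have h : rsN x y = sepN x fun z => mem z y := by
    unfold rsN sepN
    congr 1
    funext a
    exact inf_comm _ _
  have hΦ : Ext fun z => mem z y := fun u v => mem_congr_left u v y
  rw [h, mem_sepN hΦ]

variable [FlipAlg B]

theorem HS_mk {α : Type} {A : α → BSet B} {φ : α → B} :
    HS (mk α A φ) ↔ Sym (mk α A φ) ∧ ∀ a, HS (A a) := by
  exact Iff.rfl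

theorem HS.sym {x : BSet B} (h : HS x) : Sym x := by
  exact ((HS_iff x).1 h).1

theorem HS.fn {x : BSet B} (h : HS x) (a : x.ty) : HS (x.fn a) := by
  exact ((HS_iff x).1 h).2 a

theorem supp_fam {ι : Type} [Countable ι] (b : ι → B) :
    ∃ S : Set J, S.Countable ∧ ∀ e, Fx S e → ∀ i, act e (b i) = b i := by
  choose S hS hS' using fun i => FlipAlg.supp (b i)
  exact ⟨⋃ i, S i, Set.countable_iUnion hS, fun e he i =>
    hS' i e (he.mono (Set.subset_iUnion S i))⟩

theorem sym_fam {ι : Type} [Countable ι] {x : ι → BSet B} (h : ∀ i, Sym (x i)) :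
    ∃ S : Set J, S.Countable ∧ ∀ e, Fx S e → ∀ i, BSet.eq (actN e (x i)) (x i) = ⊤ := by
  choose S hS hS' using h
  exact ⟨⋃ i, S i, Set.countable_iUnion hS, fun e he i =>
    hS' i e (he.mono (Set.subset_iUnion S i))⟩

theorem Sym.act {x : BSet B} (h : Sym x) (e : Fl) : Sym (actN e x) := by
  obtain ⟨S, hS, h⟩ := h
  refine ⟨S, hS, fun e' he' => ?_⟩
  rw [actN_comm, eq_actN, h e' he', act_top]

theorem HS.act {x : BSet B} (h : HS x) (e : Fl) : HS (actN e x) := by
  induction x with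
  | mk α A φ ih =>
    have h1 := HS_mk.1 h
    rw [actN_mk]
    refine HS_mk.2 ⟨?_, fun a => ih a (h1.2 a)⟩
    rw [← actN_mk]
    exact h1.1.act e

theorem HS_actN_iff {x : BSet B} {e : Fl} : HS (actN e x) ↔ HS x := by
  refine ⟨fun h => ?_, fun h => h.act e⟩
  have h1 := h.act e
  rwa [actN_invol] at h1

theorem HS_of_fix {x : BSet B} (h : ∀ e, actN e x = x) (h' : ∀ a, HS (x.fn a)) : HS x := by
  exact (HS_iff x).2 ⟨⟨∅, Set.countable_empty, fun e _ => by rw [h e, eq_refl]⟩, h'⟩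

theorem HS_emN : HS (emN : BSet B) := by
  exact HS_of_fix (fun e => actN_emN e) fun a => Empty.elim a

theorem HS_nn (n : ℕ) : HS (nn n : BSet B) := by
  induction n with
  | zero => exact HS_emN
  | succ n ih =>
    refine HS_of_fix (fun e => actN_nn e (n + 1)) fun a => ?_
    rcases a with _ | a
    · exact ih
    · exact ih.fn a

theorem HS_omN : HS (omN : BSet B) := by
  exact HS_of_fix (fun e => actN_omN e) fun n => HS_nn n

theorem HS_upN {x y : BSet B} (hx : HS x) (hy : HS y) : HS (upN x y) := by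
  obtain ⟨S, hS, h⟩ := hx.sym
  obtain ⟨S', hS', h'⟩ := hy.sym
  refine (HS_iff _).2 ⟨⟨S ∪ S', hS.union hS', fun e he => ?_⟩, ?_⟩
  · rw [actN_upN]
    refine top_le_iff.1 (le_trans ?_ (eq_upN _ _ _ _))
    rw [h e (he.mono Set.subset_union_left), h' e (he.mono Set.subset_union_right), inf_top_eq]
  · rintro ⟨b⟩
    cases b
    · exact hy
    · exact hx

theorem HS_opN {x y : BSet B} (hx : HS x) (hy : HS y) : HS (opN x y) := by
  exact HS_upN (HS_upN hx hx) (HS_upN hx hy)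

omit [FlipAlg B] in
private theorem hsb_sq {s s' : ℕ → BSet B} (h : ∀ n, BSet.eq (s n) (s' n) = ⊤) (n : ℕ) :
    ⊤ ≤ mem (opN (nn n) (s n)) (sqN s') := by
  have h1 : mem (opN (nn n) (s n)) (sqN s') =
      ⨆ m : ℕ, ⊤ ⊓ BSet.eq (opN (nn n) (s n)) (opN (nn m) (s' m)) := rfl
  rw [h1]
  refine le_trans ?_ (le_iSup _ n)
  refine le_inf le_rfl (le_trans ?_ (eq_opN _ _ _ _))
  rw [eq_refl, h n, inf_top_eq]

theorem HS_sqN {s : ℕ → BSet B} (h : ∀ n, HS (s n)) : HS (sqN s) := by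
  obtain ⟨S, hS, h'⟩ := sym_fam fun n => (h n).sym
  refine (HS_iff _).2 ⟨⟨S, hS, fun e he => ?_⟩, fun n => HS_opN (HS_nn n) (h n)⟩
  rw [actN_sqN]
  refine eq_top_iff'.2 ⟨fun n => hsb_sq (fun n => h' e he n) n, fun n => ?_⟩
  exact hsb_sq (fun n => (eq_symm _ _).trans (h' e he n)) n

theorem HS_sbN (p : ℕ → B) : HS (sbN p) := by
  obtain ⟨S, hS, h⟩ := supp_fam p
  refine (HS_iff _).2 ⟨⟨S, hS, fun e he => ?_⟩, fun n => HS_nn n⟩
  rw [actN_sbN, show (fun n => act e (p n)) = p from funext (h e he), eq_refl]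

theorem HS_rlN (p : ℕ → ℕ → B) : HS (rlN p) := by
  obtain ⟨S, hS, h⟩ := supp_fam fun q : ℕ × ℕ => p q.1 q.2
  refine (HS_iff _).2 ⟨⟨S, hS, fun e he => ?_⟩, fun q => HS_opN (HS_nn q.1) (HS_nn q.2)⟩
  rw [actN_rlN, show (fun n m => act e (p n m)) = p from
    funext fun n => funext fun m => h e he (n, m), eq_refl]

omit [FlipAlg B] in
private theorem hsb_un {x x' : BSet B} (h : BSet.eq x x' = ⊤) (z : BSet B) :
    mem z (unN x) ≤ mem z (unN x') := by
  rw [mem_unN, mem_unN]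
  refine iSup_mono fun w => inf_le_inf_right _ ?_
  have h1 := mem_congr_right x x' w
  rwa [h, top_inf_eq] at h1

theorem HS_unN {x : BSet B} (hx : HS x) : HS (unN x) := by
  obtain ⟨S, hS, h⟩ := hx.sym
  refine (HS_iff _).2 ⟨⟨S, hS, fun e he => ?_⟩, fun p => (hx.fn p.1).fn p.2⟩
  refine top_le_iff.1 (le_trans ?_ (eq_trans _ (unN (actN e x)) _))
  refine le_inf (actN_unN e x).ge (le_eq_iff.2 fun z => ⟨?_, ?_⟩)
  · rw [top_inf_eq]
    exact hsb_un (h e he) z
  · rw [top_inf_eq]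
    exact hsb_un ((eq_symm _ _).trans (h e he)) z

omit [FlipAlg B] in
private theorem hsb_rs {x x' y y' : BSet B} (h : BSet.eq x x' = ⊤) (h' : BSet.eq y y' = ⊤)
    (z : BSet B) : mem z (rsN x y) ≤ mem z (rsN x' y') := by
  rw [mem_rsN, mem_rsN]
  have h1 := mem_congr_right x x' z
  have h2 := mem_congr_right y y' z
  rw [h, top_inf_eq] at h1
  rw [h', top_inf_eq] at h2
  exact inf_le_inf h1 h2

theorem HS_rsN {x y : BSet B} (hx : HS x) (hy : HS y) : HS (rsN x y) := by
  obtain ⟨S, hS, h⟩ := hx.sym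
  obtain ⟨S', hS', h'⟩ := hy.sym
  refine (HS_iff _).2 ⟨⟨S ∪ S', hS.union hS', fun e he => ?_⟩, fun a => hx.fn a⟩
  rw [actN_rsN]
  have e1 := h e (he.mono Set.subset_union_left)
  have e2 := h' e (he.mono Set.subset_union_right)
  refine top_le_iff.1 (le_eq_iff.2 fun z => ⟨?_, ?_⟩)
  · rw [top_inf_eq]
    exact hsb_rs e1 e2 z
  · rw [top_inf_eq]
    exact hsb_rs ((eq_symm _ _).trans e1) ((eq_symm _ _).trans e2) z

end Rnd
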