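import Pool.Agent.Rnd.HSb

/-! # Values of formulas in the symmetric model (package H3)

(problem MP_564ab4_lc, project RND, architect helper69)

Black boxes: `HAct.lean`, `HSb.lean` (`HS.act`, `HS_actN_iff`). Compare `bval_congr`, `bval_ext`, `bval_no`, `bval_an`, `bval_ex` in `Pool/Agent/STP/BVal.lean`: the first five proofs are literally the same with `⨅ x : {x : BSet B // HS x}`.

* `hval_congr`: induction on `φ` (copy `bval_congr`). `hval_ext`: copy `bval_ext`.
* `hval_no`, `hval_an`, `hval_ex`: copy.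
* `hval_act`: induction on `φ` for all `v`. `mem`, `eq`: `mem_actN`, `eq_actN`; `bot`: `act_bot`; `imp`: `act_himp`; `all`:
  `⨅ x (HS x), hval φ (cns x (fun i => actN e (v i))) = ⨅ x (HS x), hval φ (cns (actN e x) (fun i => actN e (v i)))` (reindexing by the bijection `x ↦ actN e x` of the type `{x // HS x}`: `le_antisymm`, `le_iInf`, `iInf_le`, `actN_invol`),
  `cns (actN e x) (fun i => actN e (v i)) = fun i => actN e (cns x v i)` (`funext`, `cases`), the induction hypothesis and `act_iInf`.
* `bd φ` bounds the free variables: `bd (mem i j) = bd (eq i j) = max i j + 1`, `bd (all φ) = bd φ - 1`. `hval_bd`: if `v i = w i` for all `i < bd φ` then `hval φ v = hval φ w`: induction on `φ` for all `v w`; for `all`: `cns x v i = cns x w i` for `i < bd φ` (cases on `i`; `i + 1 < bd φ → i < bd φ - 1`). `sat_bd`: the same for `sat`. -/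

namespace Rnd

open STP BSet

/-- a bound for the free variables -/
def bd : Fml → ℕ
  | .mem i j => max i j + 1
  | .eq i j => max i j + 1
  | .bot => 0
  | .imp φ ψ => max (bd φ) (bd ψ)
  | .all φ => bd φ - 1

theorem sat_bd {X : Type*} (E : X → X → Prop) (φ : Fml) (v w : ℕ → X)
    (h : ∀ i, i < bd φ → v i = w i) : sat E φ v ↔ sat E φ w := by
  induction φ generalizing v w with
  | mem i j =>
    change E (v i) (v j) ↔ E (w i) (w j)
    rw [h i (by simp only [bd]; omega), h j (by simp only [bd]; omega)]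
  | eq i j =>
    change v i = v j ↔ w i = w j
    rw [h i (by simp only [bd]; omega), h j (by simp only [bd]; omega)]
  | bot => exact Iff.rfl
  | imp φ ψ h1 h2 =>
    change (sat E φ v → sat E ψ v) ↔ (sat E φ w → sat E ψ w)
    rw [h1 v w fun i hi => h i (by simp only [bd]; omega),
      h2 v w fun i hi => h i (by simp only [bd]; omega)]
  | all φ h1 =>
    change (∀ x, sat E φ (cns x v)) ↔ ∀ x, sat E φ (cns x w)
    refine forall_congr' fun x => h1 _ _ fun i hi => ?_
    cases i with
    | zero => rfl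
    | succ i => exact h i (by simp only [bd]; omega)

variable {B : Type} [CompleteBooleanAlgebra B] [FlipAlg B]

theorem hval_bd (φ : Fml) (v w : ℕ → BSet B) (h : ∀ i, i < bd φ → v i = w i) :
    hval φ v = hval φ w := by
  induction φ generalizing v w with
  | mem i j =>
    change mem (v i) (v j) = mem (w i) (w j)
    rw [h i (by simp only [bd]; omega), h j (by simp only [bd]; omega)]
  | eq i j =>
    change BSet.eq (v i) (v j) = BSet.eq (w i) (w j)
    rw [h i (by simp only [bd]; omega), h j (by simp only [bd]; omega)]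
  | bot => rfl
  | imp φ ψ h1 h2 =>
    change (hval φ v ⇨ hval ψ v) = (hval φ w ⇨ hval ψ w)
    rw [h1 v w fun i hi => h i (by simp only [bd]; omega),
      h2 v w fun i hi => h i (by simp only [bd]; omega)]
  | all φ h1 =>
    change (⨅ x : {x : BSet B // HS x}, hval φ (cns x.1 v)) =
      ⨅ x : {x : BSet B // HS x}, hval φ (cns x.1 w)
    refine iInf_congr fun x => h1 _ _ fun i hi => ?_
    cases i with
    | zero => rfl
    | succ i => exact h i (by simp only [bd]; omega)

theorem hval_congr (φ : Fml) (v w : ℕ → BSet B) :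
    (⨅ i, BSet.eq (v i) (w i)) ⊓ hval φ v ≤ hval φ w := by
  induction φ generalizing v w with
  | mem i j =>
    have h1 : (⨅ i, BSet.eq (v i) (w i)) ⊓ mem (v i) (v j) ≤ mem (w i) (v j) :=
      (inf_le_inf_right _ (iInf_le _ i)).trans (mem_congr_left _ _ _)
    have h2 : (⨅ i, BSet.eq (v i) (w i)) ⊓ mem (w i) (v j) ≤ mem (w i) (w j) :=
      (inf_le_inf_right _ (iInf_le _ j)).trans (mem_congr_right _ _ _)
    exact (le_inf inf_le_left h1).trans h2
  | eq i j =>
    have h1 : (⨅ i, BSet.eq (v i) (w i)) ⊓ BSet.eq (v i) (v j) ≤ BSet.eq (w i) (v j) := by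
      refine (inf_le_inf_right _ (iInf_le _ i)).trans ?_
      rw [eq_symm (v i) (w i)]
      exact eq_trans _ _ _
    have h2 : (⨅ i, BSet.eq (v i) (w i)) ⊓ BSet.eq (w i) (v j) ≤ BSet.eq (w i) (w j) := by
      refine (inf_le_inf_right _ (iInf_le _ j)).trans ?_
      rw [inf_comm]
      exact eq_trans _ _ _
    exact (le_inf inf_le_left h1).trans h2
  | bot => exact inf_le_right
  | imp φ ψ h1 h2 =>
    change (⨅ i, BSet.eq (v i) (w i)) ⊓ (hval φ v ⇨ hval ψ v) ≤ hval φ w ⇨ hval ψ w
    rw [le_himp_iff]
    have h3 : (⨅ i, BSet.eq (v i) (w i)) ⊓ hval φ w ≤ hval φ v := by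
      refine le_trans (inf_le_inf_right _ ?_) (h1 w v)
      exact le_iInf fun i => (iInf_le _ i).trans (eq_symm _ _).le
    refine le_trans (le_inf (inf_le_left.trans inf_le_left) ?_) (h2 v w)
    refine le_trans (le_inf (inf_le_left.trans inf_le_right) ?_) himp_inf_le
    exact le_trans (le_inf (inf_le_left.trans inf_le_left) inf_le_right) h3
  | all φ h1 =>
    change (⨅ i, BSet.eq (v i) (w i)) ⊓ (⨅ x : {x : BSet B // HS x}, hval φ (cns x.1 v)) ≤
      ⨅ x : {x : BSet B // HS x}, hval φ (cns x.1 w)
    refine le_iInf fun x => ?_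
    refine le_trans (inf_le_inf ?_ (iInf_le _ x)) (h1 (cns x.1 v) (cns x.1 w))
    refine le_iInf fun i => ?_
    cases i with
    | zero => exact le_top.trans (eq_refl x.1).ge
    | succ i => exact iInf_le _ i

theorem hval_ext (φ : Fml) (v : ℕ → BSet B) : Ext fun x => hval φ (cns x v) := by
  intro x y
  refine le_trans (inf_le_inf_right _ ?_) (hval_congr φ (cns x v) (cns y v))
  refine le_iInf fun i => ?_
  cases i with
  | zero => exact le_rfl
  | succ i => exact le_top.trans (eq_refl (v i)).ge

theorem hval_no (φ : Fml) (v : ℕ → BSet B) : hval φ.no v = (hval φ v)ᶜ := by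
  exact himp_bot _

theorem hval_an (φ ψ : Fml) (v : ℕ → BSet B) : hval (φ.an ψ) v = hval φ v ⊓ hval ψ v := by
  change ((hval φ v ⇨ (hval ψ v ⇨ ⊥)) ⇨ ⊥) = _
  rw [himp_bot, himp_bot, himp_eq, compl_sup, compl_compl, compl_compl, inf_comm]

theorem hval_ex (φ : Fml) (v : ℕ → BSet B) :
    hval φ.ex v = ⨆ x : {x : BSet B // HS x}, hval φ (cns x.1 v) := by
  change ((⨅ x : {x : BSet B // HS x}, (hval φ (cns x.1 v) ⇨ ⊥)) ⇨ ⊥) = _
  rw [himp_bot, compl_iInf]
  refine iSup_congr fun x => ?_
  rw [himp_bot, compl_compl]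

theorem hval_act (e : Fl) (φ : Fml) (v : ℕ → BSet B) :
    hval φ (fun i => actN e (v i)) = act e (hval φ v) := by
  induction φ generalizing v with
  | mem i j => exact mem_actN e _ _
  | eq i j => exact eq_actN e _ _
  | bot => exact (act_bot e).symm
  | imp φ ψ h1 h2 =>
    change (hval φ (fun i => actN e (v i)) ⇨ hval ψ (fun i => actN e (v i))) =
      act e (hval φ v ⇨ hval ψ v)
    rw [h1, h2, act_himp]
  | all φ h1 =>
    change (⨅ x : {x : BSet B // HS x}, hval φ (cns x.1 fun i => actN e (v i))) =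
      act e (⨅ x : {x : BSet B // HS x}, hval φ (cns x.1 v))
    have hc : ∀ x : BSet B, hval φ (cns (actN e x) fun i => actN e (v i)) =
        act e (hval φ (cns x v)) := by
      intro x
      rw [← h1 (cns x v)]
      congr 1
      funext i
      cases i <;> rfl
    rw [act_iInf]
    refine le_antisymm (le_iInf fun x => ?_) (le_iInf fun x => ?_)
    · rw [← hc x.1]
      exact iInf_le (fun y : {x : BSet B // HS x} => hval φ (cns y.1 fun i => actN e (v i)))
        ⟨actN e x.1, HS.act x.2 e⟩
    · have h2 : actN e (actN e x.1) = x.1 := actN_invol e x.1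
      rw [← h2, hc (actN e x.1)]
      exact iInf_le (fun y : {x : BSet B // HS x} => act e (hval φ (cns y.1 v)))
        ⟨actN e x.1, HS.act x.2 e⟩

end Rnd
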