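import Pool.Agent.Rnd.Defs

/-! # Codes of natural numbers, functions and sets (package M1)

(problem MP_564ab4_lc, project RND, architect helper69; ZFSet only)

* `nat_mem_nat`: `nat m ∈ nat n ↔ m < n`: induction on `n`: `nat (n + 1) = insert (nat n) (nat n)` (`ZFSet.mem_insert_iff`); `nat m = nat n` with `m ≠ n` is impossible, so first prove `nat_inj` or do both at once:
  by strong induction. `→` of `nat_inj`: let `n < m`: then `nat n ∈ nat m` (easy induction on `m`), and `nat m = nat n` would give `nat n ∈ nat n` (`ZFSet.mem_irrefl`). Then `nat_mem_nat`: `→` by induction on `n` with `nat_inj`.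
* `mem_qcode`: `ZFSet.mem_range`. `pair_mem_qcode`: `ZFSet.pair_inj` and `nat_inj`. `pair_mem_code`: `code f = qcode fun n => nat (f n)`. `code_inj`: `→`: `pair (nat n) (nat (f n)) ∈ code f = code g`. `bcode_inj`: `code_inj` and `Bool.toNat` injective. `nat_mem_scode`: `ZFSet.mem_range` (index type `A : Type`), `nat_inj`. `scode_inj`: `nat_mem_scode`. `mem_scode`: `ZFSet.mem_range`. -/

namespace Rnd

private theorem nat_succ (n : ℕ) : nat (n + 1) = insert (nat n) (nat n) := rfl

theorem mem_nat {z : ZFSet.{0}} {n : ℕ} : z ∈ nat n ↔ ∃ m < n, z = nat m := by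
  induction n with
  | zero =>
    constructor
    · intro h
      exact absurd h (ZFSet.notMem_empty z)
    · rintro ⟨m, hm, _⟩
      exact absurd hm (Nat.not_lt_zero m)
  | succ n ih =>
    rw [nat_succ, ZFSet.mem_insert_iff, ih]
    constructor
    · rintro (h | ⟨m, hm, h⟩)
      · exact ⟨n, Nat.lt_succ_self n, h⟩
      · exact ⟨m, Nat.lt_succ_of_lt hm, h⟩
    · rintro ⟨m, hm, h⟩
      rcases Nat.lt_succ_iff_lt_or_eq.1 hm with h1 | h1
      · exact Or.inr ⟨m, h1, h⟩
      · exact Or.inl (h1 ▸ h)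

private theorem nat_ne {n m : ℕ} (h : n < m) : nat n ≠ nat m := by
  intro h1
  have h2 : nat n ∈ nat m := mem_nat.2 ⟨n, h, rfl⟩
  rw [← h1] at h2
  exact ZFSet.mem_irrefl _ h2

theorem nat_inj {n m : ℕ} : nat n = nat m ↔ n = m := by
  constructor
  · intro h
    rcases lt_trichotomy n m with h1 | h1 | h1
    · exact absurd h (nat_ne h1)
    · exact h1
    · exact absurd h.symm (nat_ne h1)
  · intro h
    rw [h]

theorem nat_mem_nat {n m : ℕ} : nat m ∈ nat n ↔ m < n := by
  rw [mem_nat]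
  constructor
  · rintro ⟨k, hk, h⟩
    rw [nat_inj] at h
    rw [h]
    exact hk
  · intro h
    exact ⟨m, h, rfl⟩

theorem mem_qcode {s : ℕ → ZFSet.{0}} {z : ZFSet.{0}} :
    z ∈ qcode s ↔ ∃ n, z = ZFSet.pair (nat n) (s n) := by
  unfold qcode
  rw [ZFSet.mem_range]
  exact exists_congr fun n => eq_comm

theorem pair_mem_qcode {s : ℕ → ZFSet.{0}} {n : ℕ} {y : ZFSet.{0}} :
    ZFSet.pair (nat n) y ∈ qcode s ↔ s n = y := by
  rw [mem_qcode]
  constructor
  · rintro ⟨m, hm⟩
    rw [ZFSet.pair_inj, nat_inj] at hm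
    rw [hm.2, hm.1]
  · intro h
    exact ⟨n, by rw [h]⟩

theorem pair_mem_code {f : ℕ → ℕ} {n m : ℕ} : ZFSet.pair (nat n) (nat m) ∈ code f ↔ f n = m := by
  unfold code
  rw [pair_mem_qcode, nat_inj]

theorem code_inj {f g : ℕ → ℕ} : code f = code g ↔ f = g := by
  constructor
  · intro h
    funext n
    have h1 : ZFSet.pair (nat n) (nat (f n)) ∈ code f := pair_mem_code.2 rfl
    rw [h, pair_mem_code] at h1
    exact h1.symm
  · intro h
    rw [h]

theorem bcode_inj {x y : ℕ → Bool} : bcode x = bcode y ↔ x = y := by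
  unfold bcode
  rw [code_inj]
  constructor
  · intro h
    funext n
    have h1 : (x n).toNat = (y n).toNat := congrFun h n
    cases hx : x n <;> cases hy : y n <;> rw [hx, hy] at h1 <;> first | rfl | simp at h1
  · intro h
    rw [h]

theorem mem_scode {A : Set ℕ} {z : ZFSet.{0}} : z ∈ scode A ↔ ∃ n ∈ A, z = nat n := by
  unfold scode
  rw [ZFSet.mem_range]
  constructor
  · rintro ⟨n, hn⟩
    exact ⟨n.1, n.2, hn.symm⟩
  · rintro ⟨n, hn, h⟩
    exact ⟨⟨n, hn⟩, h.symm⟩

theorem nat_mem_scode {A : Set ℕ} {n : ℕ} : nat n ∈ scode A ↔ n ∈ A := by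
  rw [mem_scode]
  constructor
  · rintro ⟨m, hm, h⟩
    rw [nat_inj] at h
    rw [h]
    exact hm
  · intro h
    exact ⟨n, h, rfl⟩

theorem scode_inj {A A' : Set ℕ} : scode A = scode A' ↔ A = A' := by
  constructor
  · intro h
    ext n
    rw [← nat_mem_scode, h, nat_mem_scode]
  · intro h
    rw [h]

end Rnd
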