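import Pool.Agent.Rnd.Nms

/-! # Truth lemma, atomic formulas (package M6)

(problem MP_564ab4_lc, project RND, architect helper69)

* `mem_val`: `cases x`, `ZFSet.mem_range` (the index type is a subtype of a type in `Type 0`), definition of `val`.
* `truth_eq` by induction on `x` for all `y` (`induction x with | mk α A φ ih`): let `x, y ∈ N`, and assume: for all `a` with `x.fn a ∈ N` and all `y' ∈ N`: `val (x.fn a) = val y' ↔ eq (x.fn a) y' ∈ U.s`.
  (`←`) let `eq x y ∈ U`. (i) Let `z ∈ val x`, `z = val (x.fn a)`, `x.vl a ∈ U`, `x.fn a ∈ N`. `x.vl a ≤ mem (x.fn a) x` (`vl_le_mem`), `eq x y ⊓ mem (x.fn a) x ≤ mem (x.fn a) y` (`mem_congr_right`), so `mem (x.fn a) y ∈ U`; `gmem` gives `b` with `y.fn b ∈ N`, `y.vl b ⊓ eq (x.fn a) (y.fn b) ∈ U`; by the assumption `val (x.fn a) = val (y.fn b) ∈ val y`. (ii) Let `z ∈ val y`, `z = val (y.fn b)`: in the same way `mem (y.fn b) x ∈ U`, `gmem` gives `a` with `x.fn a ∈ N`, `x.vl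 a ⊓ eq (y.fn b) (x.fn a) ∈ U`, and the assumption for `a` and `y' = y.fn b` (`eq_symm`). Hence `val x = val y` (`ZFSet.ext`).
  (`→`) let `eq x y ∉ U`, so `(eq x y)ᶜ ∈ U`. The complement of `eq x y` is `(⨆ a, x.vl a ⊓ (mem (x.fn a) y)ᶜ) ⊔ ⨆ b, y.vl b ⊓ (mem (y.fn b) x)ᶜ` (only `≤` is needed: `le_eq_iff`-like: `⊤ ⊓ ((⨆ a, ..) ⊔ (⨆ b, ..))ᶜ ≤ eq x y`; write `c` for the complement; `c ⊓ x.vl a ≤ mem (x.fn a) y` and `c ⊓ y.vl b ≤ mem (y.fn b) x`; with `eq_mk`, or the private form `eq_def'` in `Pool/Agent/STP/BEq.lean`). So one of the two suprema is in `U`. `gneq` gives in the first case `a` with `x.fn a ∈ N`, `x.vl a ∈ U`, `mem (x.fn a) y ∉ U`: then `val (x.fn a) ∈ val x`; if it were in `val y`, `val (x.fn a) = val (y.fn b)` with `y.vl b ∈ U`, `y.fn b ∈ N`, so `eq (x.fn a) (y.fn b) ∈ U` by the assumption and `y.vl b ⊓ eq (x.fn a) (y.fn b) ≤ mem (x.fn a) y`: contradiction. Second case: `b` with `y.fn b ∈ N`, `y.vl b ∈ U`,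 `mem (y.fn b) x ∉ U`; if `val (y.fn b) ∈ val x`, `= val (x.fn a)`, the assumption for `a` and `y' = y.fn b` gives `eq (x.fn a) (y.fn b) ∈ U` and `mem (y.fn b) x ∈ U`: contradiction. (`Ult_inf`, `Ult_sup`, `Ult_compl`.)
* `truth_mem`: `→`: `val x = val (y.fn b)`, `truth_eq`, `y.vl b ⊓ eq x (y.fn b) ≤ mem x y`. `←`: `gmem`, `truth_eq`, `mem_val`.
* `mem_Mod`: definition. `Mod_trans`: `mem_val`. `Mod_cnt`: `Set.Countable.image`. -/

namespace Rnd

open STP BSet

variable {B : Type} [CompleteBooleanAlgebra B]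

theorem mem_val {U : Ult B} {N : Set (BSet B)} {z : ZFSet.{0}} {x : BSet B} : z ∈ val U N x ↔
    ∃ a : x.ty, x.vl a ∈ U.s ∧ x.fn a ∈ N ∧ z = val U N (x.fn a) := by
  cases x with
  | mk α A φ =>
    change z ∈ ZFSet.range (fun a : {a : α // φ a ∈ U.s ∧ A a ∈ N} => val U N (A a.1)) ↔ _
    rw [ZFSet.mem_range]
    constructor
    · rintro ⟨a, rfl⟩
      exact ⟨a.1, a.2.1, a.2.2, rfl⟩
    · rintro ⟨a, h1, h2, rfl⟩
      exact ⟨⟨a, h1, h2⟩, rfl⟩

private theorem le_eq_of (x y : BSet B) (c : B) (h1 : ∀ a, c ⊓ x.vl a ≤ mem (x.fn a) y)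
    (h2 : ∀ b, c ⊓ y.vl b ≤ mem (y.fn b) x) : c ≤ BSet.eq x y := by
  cases x with
  | mk α A φ =>
    cases y with
    | mk β C ψ =>
      rw [eq_mk]
      refine le_inf (le_iInf fun a => ?_) (le_iInf fun b => ?_)
      · rw [le_himp_iff]
        exact h1 a
      · rw [le_himp_iff]
        refine (h2 b).trans (iSup_mono fun a => ?_)
        exact inf_le_inf_left _ (eq_symm (C b) (A a)).le

variable [FlipAlg B] {R : BSet B → BSet B → Set (ℕ → B)} {U : Ult B} {N : Set (BSet B)}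

theorem truth_eq (h : Mdl R U N) {x y : BSet B} (hx : x ∈ N) (hy : y ∈ N) :
    val U N x = val U N y ↔ BSet.eq x y ∈ U.s := by
  induction x generalizing y with
  | mk α A φ ih =>
    set x : BSet B := BSet.mk α A φ with hxd
    have ih' : ∀ (a : x.ty) (y' : BSet B), x.fn a ∈ N → y' ∈ N →
        (val U N (x.fn a) = val U N y' ↔ BSet.eq (x.fn a) y' ∈ U.s) :=
      fun a y' h1 h2 => ih a h1 h2
    constructor
    · intro hval
      by_contra hne
      have h1 : (⨆ a : x.ty, x.vl a ⊓ (mem (x.fn a) y)ᶜ) ⊔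
          (⨆ b : y.ty, y.vl b ⊓ (mem (y.fn b) x)ᶜ) ∈ U.s := by
        by_contra hcon
        have h2 := (Ult_compl U).2 hcon
        refine hne (U.up h2 (le_eq_of x y _ (fun a => ?_) fun b => ?_))
        · rw [compl_sup, compl_iSup]
          have h3 : (⨅ a : x.ty, (x.vl a ⊓ (mem (x.fn a) y)ᶜ)ᶜ) ⊓ x.vl a ≤ mem (x.fn a) y := by
            refine (inf_le_inf_right _ (iInf_le _ a)).trans ?_
            rw [compl_inf, compl_compl, inf_sup_right, compl_inf_eq_bot, bot_sup_eq]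
            exact inf_le_left
          exact (inf_le_inf_right _ inf_le_left).trans h3
        · rw [compl_sup, compl_iSup, compl_iSup]
          have h3 : (⨅ b : y.ty, (y.vl b ⊓ (mem (y.fn b) x)ᶜ)ᶜ) ⊓ y.vl b ≤ mem (y.fn b) x := by
            refine (inf_le_inf_right _ (iInf_le _ b)).trans ?_
            rw [compl_inf, compl_compl, inf_sup_right, compl_inf_eq_bot, bot_sup_eq]
            exact inf_le_left
          exact (inf_le_inf_right _ inf_le_right).trans h3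
      rcases (Ult_sup U).1 h1 with h2 | h2
      · obtain ⟨a, ha, hau⟩ := h.gneq y hy x hx h2
        rw [Ult_inf, Ult_compl] at hau
        have h3 : val U N (x.fn a) ∈ val U N x := mem_val.2 ⟨a, hau.1, ha, rfl⟩
        rw [hval, mem_val] at h3
        obtain ⟨b, hb1, hb2, hb3⟩ := h3
        have h4 := (ih' a _ ha hb2).1 hb3
        exact hau.2 (U.up (U.inf hb1 h4) (le_iSup (fun b => y.vl b ⊓ BSet.eq (x.fn a) (y.fn b)) b))
      · obtain ⟨b, hb, hbu⟩ := h.gneq x hx y hy h2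
        rw [Ult_inf, Ult_compl] at hbu
        have h3 : val U N (y.fn b) ∈ val U N y := mem_val.2 ⟨b, hbu.1, hb, rfl⟩
        rw [← hval, mem_val] at h3
        obtain ⟨a, ha1, ha2, ha3⟩ := h3
        have h4 := (ih' a _ ha2 hb).1 ha3.symm
        rw [eq_symm] at h4
        exact hbu.2 (U.up (U.inf ha1 h4) (le_iSup (fun a => x.vl a ⊓ BSet.eq (y.fn b) (x.fn a)) a))
    · intro heq
      refine ZFSet.ext fun z => ⟨fun hz => ?_, fun hz => ?_⟩
      · obtain ⟨a, ha1, ha2, rfl⟩ := mem_val.1 hz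
        have h1 : mem (x.fn a) y ∈ U.s :=
          U.up (U.inf heq (U.up ha1 (vl_le_mem x a))) (mem_congr_right x y (x.fn a))
        obtain ⟨b, hb, hbu⟩ := h.gmem _ ha2 y hy h1
        rw [Ult_inf] at hbu
        rw [(ih' a _ ha2 hb).2 hbu.2]
        exact mem_val.2 ⟨b, hbu.1, hb, rfl⟩
      · obtain ⟨b, hb1, hb2, rfl⟩ := mem_val.1 hz
        rw [eq_symm] at heq
        have h1 : mem (y.fn b) x ∈ U.s :=
          U.up (U.inf heq (U.up hb1 (vl_le_mem y b))) (mem_congr_right y x (y.fn b))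
        obtain ⟨a, ha, hau⟩ := h.gmem _ hb2 x hx h1
        rw [Ult_inf, eq_symm (y.fn b)] at hau
        rw [← (ih' a _ ha hb2).2 hau.2]
        exact mem_val.2 ⟨a, hau.1, ha, rfl⟩

theorem truth_mem (h : Mdl R U N) {x y : BSet B} (hx : x ∈ N) (hy : y ∈ N) :
    val U N x ∈ val U N y ↔ mem x y ∈ U.s := by
  constructor
  · intro hv
    obtain ⟨b, hb1, hb2, hb3⟩ := mem_val.1 hv
    exact U.up (U.inf hb1 ((truth_eq h hx hb2).1 hb3))
      (le_iSup (fun b => y.vl b ⊓ BSet.eq x (y.fn b)) b)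
  · intro hm
    obtain ⟨b, hb, hbu⟩ := h.gmem x hx y hy hm
    rw [Ult_inf] at hbu
    exact mem_val.2 ⟨b, hbu.1, hb, (truth_eq h hx hb).2 hbu.2⟩

omit [FlipAlg B] in
/-- the elements of the model -/
theorem mem_Mod {z : ZFSet.{0}} : z ∈ Mod U N ↔ ∃ x ∈ N, val U N x = z := Iff.rfl

omit [FlipAlg B] in
theorem Mod_trans (x : ZFSet.{0}) (hx : x ∈ Mod U N) (y : ZFSet.{0}) (hy : y ∈ x) :
    y ∈ Mod U N := by
  obtain ⟨x', -, rfl⟩ := hx
  obtain ⟨a, -, ha, rfl⟩ := mem_val.1 hy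
  exact ⟨_, ha, rfl⟩

theorem Mod_cnt (h : Mdl R U N) : (Mod U N).Countable := h.cnt.image _

end Rnd
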