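import Pool.Agent.Rnd.MTr
import Pool.Agent.Rnd.MCode
import Pool.Agent.Rnd.HNn

/-! # Values of the canonical names in the model (package M7)

(problem MP_564ab4_lc, project RND, architect helper69)

Black boxes: `MTr.lean` (`mem_val`, ..), `MCode.lean`, `HNn.lean` (`nn_ty_countable`, `nn_vl`).

* `nn_mem`: `omN ∈ N` (`Mdl.om`), its index type is `ℕ` and `omN.fn n = nn n` (`Mdl.ch`). `emN_mem`: `nn 0 = emN`.
* `of_upN_mem`: the index type `ULift Bool` of `upN x y` is countable, the children are `x` and `y` (`Mdl.ch` for the indices `⟨true⟩`, `⟨false⟩`). `opN_mem`, `of_opN_mem`: twice.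
* `val_upN`: `mem_val`; the indices `⟨true⟩`, `⟨false⟩` with value `⊤` (`U.top`); `ZFSet.mem_pair`. `val_opN`: `opN x y = upN (upN x x) (upN x y)`, `ZFSet.pair x y = {{x}, {x, y}}` (definition of `ZFSet.pair`); note `val (upN x x) = {val x, val x} = {val x}`.
* `val_emN`: no elements. `val_nn`: induction on `n`: the elements of `val (nn (n + 1))` are `val (nn n)` (index `none`) and the elements of `val (nn n)` (index `some a`; all values are `⊤`: `nn_vl`; the children of `nn n` are in `N` by `Mdl.ch`, `nn_ty_countable`).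
* `mem_val_omN`: `mem_val`, `val_nn`.
* `sqN_children`: `ch` for the index type `ℕ` and `of_opN_mem`. `val_sqN`: `qcode` is a `range`, `mem_qcode`, `val_opN`, `val_nn`.
* `val_sbN`: `mem_scode`. `mem_val_rlN`: `mem_val`, `val_opN`, `opN_mem`, `nn_mem`. `val_rlN`: `mem_val_rlN`, `mem_qcode` (`code f = qcode ..`).
* `mem_val_rsN`: `mem_val`: `val (x.fn a)` with `mem (x.fn a) y ⊓ x.vl a ∈ U`, `truth_mem`; conversely `z ∈ val x`, `z = val (x.fn a) ∈ val y`. -/

namespace Rnd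

open STP BSet

variable {B : Type} [CompleteBooleanAlgebra B] [FlipAlg B]
  {R : BSet B → BSet B → Set (ℕ → B)} {U : Ult B} {N : Set (BSet B)}

theorem nn_mem (h : Mdl R U N) (n : ℕ) : nn n ∈ N :=
  h.ch omN h.om (inferInstanceAs (Countable ℕ)) n

theorem emN_mem (h : Mdl R U N) : emN ∈ N := nn_mem h 0

theorem opN_mem (h : Mdl R U N) {x y : BSet B} (hx : x ∈ N) (hy : y ∈ N) : opN x y ∈ N :=
  h.up _ (h.up _ hx _ hx) _ (h.up _ hx _ hy)

theorem of_upN_mem (h : Mdl R U N) {x y : BSet B} (hxy : upN x y ∈ N) : x ∈ N ∧ y ∈ N := by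
  have hc : Countable (upN x y).ty := inferInstanceAs (Countable (ULift Bool))
  exact ⟨h.ch _ hxy hc ⟨true⟩, h.ch _ hxy hc ⟨false⟩⟩

/-- `upN x y` has a countable index type, so its children `x`, `y` are in `N` -/
theorem of_opN_mem (h : Mdl R U N) {x y : BSet B} (hxy : opN x y ∈ N) : x ∈ N ∧ y ∈ N :=
  of_upN_mem h (of_upN_mem h hxy).2

theorem mem_val_upN (h : Mdl R U N) {x y : BSet B} (hx : x ∈ N) (hy : y ∈ N) (z : ZFSet.{0}) :
    z ∈ val U N (upN x y) ↔ z = val U N x ∨ z = val U N y := by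
  rw [mem_val]
  constructor
  · rintro ⟨⟨b⟩, -, -, rfl⟩
    cases b with
    | true => exact Or.inl rfl
    | false => exact Or.inr rfl
  · rintro (rfl | rfl)
    · exact ⟨⟨true⟩, U.top, hx, rfl⟩
    · exact ⟨⟨false⟩, U.top, hy, rfl⟩

theorem val_opN (h : Mdl R U N) {x y : BSet B} (hx : x ∈ N) (hy : y ∈ N) :
    val U N (opN x y) = ZFSet.pair (val U N x) (val U N y) := by
  have h1 : val U N (upN x x) = {val U N x} := by
    refine ZFSet.ext fun z => ?_
    rw [mem_val_upN h hx hx, ZFSet.mem_singleton, or_self_iff]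
  have h2 : val U N (upN x y) = {val U N x, val U N y} := by
    refine ZFSet.ext fun z => ?_
    rw [mem_val_upN h hx hy, ZFSet.mem_pair]
  have h3 : ZFSet.pair (val U N x) (val U N y) = {{val U N x}, {val U N x, val U N y}} := rfl
  rw [h3]
  refine ZFSet.ext fun z => ?_
  have h4 := mem_val_upN h (h.up _ hx _ hx) (h.up _ hx _ hy) z
  rw [h1, h2] at h4
  rw [ZFSet.mem_pair]
  exact h4

theorem val_nn (h : Mdl R U N) (n : ℕ) : val U N (nn n) = nat n := by
  induction n with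
  | zero =>
    refine ZFSet.ext fun z => ?_
    rw [mem_val]
    constructor
    · rintro ⟨a, -⟩
      exact Empty.elim a
    · intro hz
      exact absurd hz (ZFSet.notMem_empty z)
  | succ n ih =>
    refine ZFSet.ext fun z => ?_
    have h1 : z ∈ nat (n + 1) ↔ z = nat n ∨ z ∈ nat n := by
      change z ∈ insert (nat n) (nat n) ↔ _
      exact ZFSet.mem_insert_iff
    rw [h1, mem_val, ← ih]
    constructor
    · rintro ⟨o, -, -, rfl⟩
      cases o with
      | none => exact Or.inl rfl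
      | some a =>
        refine Or.inr (mem_val.2 ⟨a, ?_, h.ch _ (nn_mem h n) (nn_ty_countable n) a, rfl⟩)
        rw [nn_vl]
        exact U.top
    · rintro (rfl | hz)
      · exact ⟨none, U.top, nn_mem h n, rfl⟩
      · obtain ⟨a, -, ha, rfl⟩ := mem_val.1 hz
        exact ⟨some a, U.top, ha, rfl⟩

theorem mem_val_omN (h : Mdl R U N) (z : ZFSet.{0}) : z ∈ val U N omN ↔ ∃ n, z = nat n := by
  rw [mem_val]
  constructor
  · rintro ⟨n, -, -, rfl⟩
    exact ⟨n, val_nn h n⟩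
  · rintro ⟨n, rfl⟩
    exact ⟨n, U.top, nn_mem h n, (val_nn h n).symm⟩

theorem sqN_children (h : Mdl R U N) {s : ℕ → BSet B} (hs : sqN s ∈ N) (n : ℕ) : s n ∈ N :=
  (of_opN_mem h (h.ch (sqN s) hs (inferInstanceAs (Countable ℕ)) n)).2

theorem val_sqN (h : Mdl R U N) {s : ℕ → BSet B} (hs : ∀ n, s n ∈ N) :
    val U N (sqN s) = qcode fun n => val U N (s n) := by
  refine ZFSet.ext fun z => ?_
  rw [mem_val, mem_qcode]
  constructor
  · rintro ⟨n, -, -, rfl⟩
    refine ⟨n, ?_⟩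
    rw [← val_nn h n, ← val_opN h (nn_mem h n) (hs n)]
    rfl
  · rintro ⟨n, rfl⟩
    refine ⟨n, U.top, opN_mem h (nn_mem h n) (hs n), ?_⟩
    rw [← val_nn h n, ← val_opN h (nn_mem h n) (hs n)]
    rfl

theorem val_sbN (h : Mdl R U N) (p : ℕ → B) :
    val U N (sbN p) = scode {n | p n ∈ U.s} := by
  refine ZFSet.ext fun z => ?_
  rw [mem_val, mem_scode]
  constructor
  · rintro ⟨n, hn, -, rfl⟩
    exact ⟨n, hn, val_nn h n⟩
  · rintro ⟨n, hn, rfl⟩
    exact ⟨n, hn, nn_mem h n, (val_nn h n).symm⟩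

theorem mem_val_rlN (h : Mdl R U N) (p : ℕ → ℕ → B) (z : ZFSet.{0}) :
    z ∈ val U N (rlN p) ↔ ∃ n m, p n m ∈ U.s ∧ z = ZFSet.pair (nat n) (nat m) := by
  rw [mem_val]
  constructor
  · rintro ⟨⟨n, m⟩, hn, -, rfl⟩
    refine ⟨n, m, hn, ?_⟩
    rw [← val_nn h n, ← val_nn h m, ← val_opN h (nn_mem h n) (nn_mem h m)]
    rfl
  · rintro ⟨n, m, hn, rfl⟩
    refine ⟨(n, m), hn, opN_mem h (nn_mem h n) (nn_mem h m), ?_⟩
    rw [← val_nn h n, ← val_nn h m, ← val_opN h (nn_mem h n) (nn_mem h m)]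
    rfl

/-- if `f` is the function given by `p` -/
theorem val_rlN (h : Mdl R U N) (p : ℕ → ℕ → B) (f : ℕ → ℕ)
    (hf : ∀ n m, p n m ∈ U.s ↔ f n = m) : val U N (rlN p) = code f := by
  refine ZFSet.ext fun z => ?_
  rw [mem_val_rlN h]
  unfold code
  rw [mem_qcode]
  constructor
  · rintro ⟨n, m, hn, rfl⟩
    refine ⟨n, ?_⟩
    rw [(hf n m).1 hn]
  · rintro ⟨n, rfl⟩
    exact ⟨n, f n, (hf n (f n)).2 rfl, rfl⟩

theorem mem_val_rsN (h : Mdl R U N) {x y : BSet B} (hx : x ∈ N) (hy : y ∈ N) (z : ZFSet.{0}) :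
    z ∈ val U N (rsN x y) ↔ z ∈ val U N x ∧ z ∈ val U N y := by
  constructor
  · intro hz
    obtain ⟨a, ha1, ha2, rfl⟩ := mem_val.1 hz
    change x.ty at a
    change mem (x.fn a) y ⊓ x.vl a ∈ U.s at ha1
    change x.fn a ∈ N at ha2
    rw [Ult_inf] at ha1
    change val U N (x.fn a) ∈ val U N x ∧ val U N (x.fn a) ∈ val U N y
    exact ⟨mem_val.2 ⟨a, ha1.2, ha2, rfl⟩, (truth_mem h ha2 hy).2 ha1.1⟩
  · rintro ⟨h1, h2⟩
    obtain ⟨a, ha1, ha2, rfl⟩ := mem_val.1 h1
    exact mem_val.2 ⟨a, U.inf ((truth_mem h ha2 hy).1 h2) ha1, ha2, rfl⟩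

end Rnd
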