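import Pool.Agent.Rnd.HAct
import Pool.Agent.Rnd.HSb
import Pool.Agent.Rnd.HNn
import Pool.Agent.Rnd.MCode
import Pool.Agent.Rnd.MTr
import Pool.Agent.Rnd.MVal

/-! # Interface between the abstract block (helper69) and the other blocks

(problem MP_564ab4_lc, project RND)

The statements which the blocks E (ultrafilter, transversal) and F (colouring) use are proved in the
imported files: `HAct` (action on names), `HSb` (hereditarily symmetric names), `HNn` (canonical names),
`MCode` (codes in `ZFSet`), `MTr` (truth lemma), `MVal` (values of the canonical names). -/
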