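import Pool.Agent.Rnd.MSep

/-! # Axiom of replacement (package M11)

(problem MP_564ab4_lc, project RND, architect helper69)

Black boxes: `MSep.lean` (`M_sep`), `MTrF.lean` (`exists_names`, `truth_par2`), `MTr.lean`, `HMix.lean` (`le_mx`), `HVal.lean` (`hval_ext`).

* `ren f φ` renames the variables; `sat_ren`: induction on `φ` for all `f, v`; for `all`: `cns x v ∘ lft f = cns x (v ∘ f)` (`funext`, `cases`).
* `M_coll` (collection): `φ, v, x`; `x = val x'`, `l` from `exists_names v (bd φ)`. `K := val (coH x' (fun a => wN φ (x'.fn a :: l)))` (`Mdl.co`). Let `z ∈ x`, `w0 ∈ M` with `sat φ (cns w0 (cns z v))`. `z = val (x'.fn a)`, `x'.fn a ∈ N` (`mem_val`), `w0 = val w'`, `w' ∈ N`. By `truth_par2`: `hval φ (cns w' (cns (x'.fn a) (asg l))) ∈ U`, and `cns (x'.fn a) (asg l) = asg (x'.fn a :: l)` (`asg_cons`). Let `w1 := wN φ (x'.fn a :: l) ∈ N` (`Mdl.wit`). By `le_mx` (`hval_ext`, `HS w'` by `Mdl.hs`): `hval φ (cns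 w1 (asg (x'.fn a :: l))) ∈ U` (`U.up`), so `sat φ (cns (val w1) (cns z v))` by `truth_par2`. Finally `val w1 ∈ K` (`mem_val`): the index `(a, fl0)`, its child is `actN fl0 w1 = w1` (`actN_fl0` in `HAct.lean`), value `⊤`.
* `M_repl`: take `K` from `M_coll` and `y` from `M_sep` for `K` and the formula `ψ := Fml.ex (Fml.an (Fml.mem 0 2) (ren g φ))` with the parameters `cns x v`, where `g 0 = 1`, `g 1 = 0`, `g (i + 2) = i + 3`: for `w`: `sat ψ (cns w (cns x v)) ↔ ∃ z, z ∈ x ∧ sat φ (cns w (cns z v))` (`sat_ex`, `sat_an`, `sat_mem`, `sat_ren`; `(cns z (cns w (cns x v))) ∘ g = cns w (cns z v)`). If `w` satisfies `∃ z ∈ x, φ(w, z)` then `w` is in `K`: `M_coll` gives some `w1 ∈ K` with `φ(w1, z)`, and `w1 = w` by uniqueness. -/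

namespace Rnd

open STP BSet

/-- `f` under a quantifier -/
def lft (f : ℕ → ℕ) : ℕ → ℕ
  | 0 => 0
  | n + 1 => f n + 1

/-- renaming of the free variables -/
def ren : (ℕ → ℕ) → Fml → Fml
  | f, .mem i j => .mem (f i) (f j)
  | f, .eq i j => .eq (f i) (f j)
  | _, .bot => .bot
  | f, .imp φ ψ => .imp (ren f φ) (ren f ψ)
  | f, .all φ => .all (ren (lft f) φ)

theorem sat_ren {X : Type*} (E : X → X → Prop) (f : ℕ → ℕ) (φ : Fml) (v : ℕ → X) :
    sat E (ren f φ) v ↔ sat E φ (fun i => v (f i)) := by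
  induction φ generalizing f v with
  | mem i j => exact Iff.rfl
  | eq i j => exact Iff.rfl
  | bot => exact Iff.rfl
  | imp φ ψ h1 h2 =>
    change (sat E (ren f φ) v → sat E (ren f ψ) v) ↔ _
    rw [h1, h2]
    exact Iff.rfl
  | all φ h1 =>
    change (∀ x, sat E (ren (lft f) φ) (cns x v)) ↔ ∀ x, sat E φ (cns x fun i => v (f i))
    refine forall_congr' fun x => ?_
    rw [h1]
    have h2 : (fun i => cns x v (lft f i)) = cns x fun i => v (f i) := by
      funext i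
      cases i <;> rfl
    rw [h2]

variable {B : Type} [CompleteBooleanAlgebra B] [FlipAlg B]
  {R : BSet B → BSet B → Set (ℕ → B)} {U : Ult B} {N : Set (BSet B)}

theorem M_coll (h : Mdl R U N) (φ : Fml) (v : ℕ → Mod U N) (x : Mod U N) :
    ∃ K : Mod U N, ∀ z, Em (Mod U N) z x → (∃ w, sat (Em (Mod U N)) φ (cns w (cns z v))) →
      ∃ w, Em (Mod U N) w K ∧ sat (Em (Mod U N)) φ (cns w (cns z v)) := by
  obtain ⟨x0, x', hx', rfl⟩ := x
  obtain ⟨l, hl, hlv⟩ := exists_names (N := N) v (bd φ)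
  have hN := emN_mem h
  refine ⟨⟨val U N (coH x' fun a => wN φ (x'.fn a :: l)), _, h.co φ l hl x' hx', rfl⟩,
    fun z hz hw => ?_⟩
  obtain ⟨z0, z', hz', rfl⟩ := z
  obtain ⟨a, ha1, ha2, ha3⟩ := (mem_val (U := U) (N := N)).1 hz
  have h3 : (⟨val U N z', z', hz', rfl⟩ : Mod U N) = ⟨val U N (x'.fn a), _, ha2, rfl⟩ :=
    Subtype.ext ha3
  rw [h3] at hw ⊢
  obtain ⟨w, hw⟩ := hw
  obtain ⟨w0, w', hw', rfl⟩ := w
  have h4 := (truth_par2 h hN φ v hl hlv ha2 hw').1 hw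
  have hl' : ∀ z ∈ x'.fn a :: l, z ∈ N := by
    intro z hz
    rcases List.mem_cons.1 hz with h5 | h5
    · rw [h5]
      exact ha2
    · exact hl z h5
  have h1N : wN φ (x'.fn a :: l) ∈ N := h.wit φ _ hl'
  have h5 : hval φ (cns w' (asg (x'.fn a :: l))) ≤
      hval φ (cns (wN φ (x'.fn a :: l)) (asg (x'.fn a :: l))) :=
    le_mx (Φ := fun w => hval φ (cns w (asg (x'.fn a :: l)))) (hval_ext φ _) (h.hs w' hw')
  rw [asg_cons] at h5
  have h6 := U.up h4 h5
  have h7 := (truth_par2 h hN φ v hl hlv ha2 h1N).2 h6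
  refine ⟨⟨val U N (wN φ (x'.fn a :: l)), _, h1N, rfl⟩, ?_, h7⟩
  refine (mem_val (U := U) (N := N)).2 ⟨((a, fl0) : x'.ty × Fl), U.top, ?_, ?_⟩
  · change actN fl0 (wN φ (x'.fn a :: l)) ∈ N
    rw [actN_fl0]
    exact h1N
  · change val U N (wN φ (x'.fn a :: l)) = val U N (actN fl0 (wN φ (x'.fn a :: l)))
    rw [actN_fl0]

theorem M_repl (h : Mdl R U N) (φ : Fml) (v : ℕ → Mod U N) (x : Mod U N)
    (hx : ∀ z, Em (Mod U N) z x → ∃! w, sat (Em (Mod U N)) φ (cns w (cns z v))) :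
    ∃ y, ∀ w, Em (Mod U N) w y ↔
      ∃ z, Em (Mod U N) z x ∧ sat (Em (Mod U N)) φ (cns w (cns z v)) := by
  obtain ⟨K, hK⟩ := M_coll h φ v x
  let g : ℕ → ℕ := fun i => match i with
    | 0 => 1
    | 1 => 0
    | n + 2 => n + 3
  have hψ : ∀ w, sat (Em (Mod U N)) (Fml.ex (Fml.an (Fml.mem 0 2) (ren g φ))) (cns w (cns x v)) ↔
      ∃ z, Em (Mod U N) z x ∧ sat (Em (Mod U N)) φ (cns w (cns z v)) := by
    intro w
    rw [sat_ex]
    refine exists_congr fun z => ?_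
    rw [sat_an, sat_mem, sat_ren]
    have h2 : (fun i => cns z (cns w (cns x v)) (g i)) = cns w (cns z v) := by
      funext i
      match i with
      | 0 => rfl
      | 1 => rfl
      | n + 2 => rfl
    rw [h2]
    exact Iff.rfl
  obtain ⟨y, hy⟩ := M_sep h (Fml.ex (Fml.an (Fml.mem 0 2) (ren g φ))) (cns x v) K
  refine ⟨y, fun w => ?_⟩
  rw [hy, hψ]
  constructor
  · exact fun h1 => h1.2
  · rintro ⟨z, hz, hw⟩
    refine ⟨?_, z, hz, hw⟩
    obtain ⟨w1, h1, h2⟩ := hK z hz ⟨w, hw⟩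
    have h3 := (hx z hz).unique hw h2
    rw [h3]
    exact h1

end Rnd
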