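import Pool.Agent.Rnd.MAx
import Pool.Agent.Rnd.MRep

/-! # The model satisfies ZF and dependent choice (package M12)

(problem MP_564ab4_lc, project RND, architect helper69; assembly)

* `Mod_zf`: `IsZF M` is `ZF (fun x y : M => x.1 ∈ y.1)`, i.e. `ZF (Em M)` (definitional). Fields: `M_ext`, `M_found`, `M_pair`, `M_union`, `M_power`, `M_inf`, `M_sep`, `M_repl`.
* `Mod_dc`: let `X, R0 ∈ M`, `X = val x`, `R0 = val r`, `x, r ∈ N`, `u ∈ X`, so `u = val u'`, `u' ∈ N` (`Mod_trans` or `mem_val`). Put `s n := dcS u' x r n`. By induction: `s n ∈ N` (`Mdl.dcw`; `dcS u' x r (n + 1) = dcW (dcS u' x r n) x r` by definition). By induction `val (s n) ∈ X`, and then `pair (val (s n)) (val (s (n + 1))) ∈ R0`: let `val (s n) ∈ X`. There is `w ∈ X` with `pair (val (s n)) w ∈ R0`, `w = val w'`, `w' ∈ N`. So `mem w' x ∈ U` and `mem (opN (s n) w') r ∈ U` (`truth_mem`, `val_opN`, `opN_mem`). The function `Φ w := mem w x ⊓ mem (opN (s n) w) r` is extensional (`mem_congr_left`, `opN_congr`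 in `HNn.lean`), so `Φ w' ≤ Φ (mx Φ) = Φ (s (n + 1))` (`le_mx`, `Mdl.hs`), hence `mem (s (n + 1)) x ∈ U`, `mem (opN (s n) (s (n + 1))) r ∈ U`; translate back with `truth_mem`, `val_opN`. The sequence is `fun n => val (s n)`, and `qcode (fun n => val (s n)) = val (sqN s) ∈ M` (`val_sqN`, `Mdl.dcq`). -/

namespace Rnd

open STP BSet

variable {B : Type} [CompleteBooleanAlgebra B] [FlipAlg B]
  {R : BSet B → BSet B → Set (ℕ → B)} {U : Ult B} {N : Set (BSet B)}

theorem Mod_zf (h : Mdl R U N) : IsZF (Mod U N) where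
  ext := M_ext
  found := M_found
  pair := M_pair h
  union := M_union h
  power := M_power h
  infinity := M_inf h
  separation := M_sep h
  replacement := M_repl h

theorem Mod_dc (h : Mdl R U N) : DC (Mod U N) := by
  rintro X ⟨x, hx, rfl⟩ R0 ⟨r, hr, rfl⟩ ⟨u, hu⟩ hsucc
  obtain ⟨a, -, ha2, ha3⟩ := (mem_val (U := U) (N := N)).1 hu
  obtain ⟨u', hu'⟩ : ∃ u', u' = x.fn a := ⟨_, rfl⟩
  rw [← hu'] at ha2 ha3
  have hsN : ∀ n, dcS u' x r n ∈ N := by
    intro n
    induction n with
    | zero => exact ha2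
    | succ n ih => exact h.dcw _ ih x hx r hr
  have hstep : ∀ n, val U N (dcS u' x r n) ∈ val U N x →
      val U N (dcS u' x r (n + 1)) ∈ val U N x ∧
      ZFSet.pair (val U N (dcS u' x r n)) (val U N (dcS u' x r (n + 1))) ∈ val U N r := by
    intro n hn
    obtain ⟨w, hw1, hw2⟩ := hsucc _ hn
    obtain ⟨b, -, hb2, hb3⟩ := (mem_val (U := U) (N := N)).1 hw1
    rw [hb3] at hw1 hw2
    have hΦ : Ext fun w => mem w x ⊓ mem (opN (dcS u' x r n) w) r := by
      intro s t
      refine le_inf ?_ ?_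
      · exact (inf_le_inf_left _ inf_le_left).trans (mem_congr_left s t x)
      · refine le_trans ?_ (mem_congr_left (opN (dcS u' x r n) s) (opN (dcS u' x r n) t) r)
        refine le_inf ?_ (inf_le_right.trans inf_le_right)
        refine le_trans ?_ (opN_congr _ _ s t)
        rw [BSet.eq_refl]
        exact le_inf le_top inf_le_left
    have h1 : mem (x.fn b) x ⊓ mem (opN (dcS u' x r n) (x.fn b)) r ∈ U.s := by
      refine U.inf ((truth_mem h hb2 hx).1 hw1) ?_
      rw [← val_opN h (hsN n) hb2] at hw2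
      exact (truth_mem h (opN_mem h (hsN n) hb2) hr).1 hw2
    have h2 : mem (dcS u' x r (n + 1)) x ⊓
        mem (opN (dcS u' x r n) (dcS u' x r (n + 1))) r ∈ U.s :=
      U.up h1 (le_mx hΦ (h.hs _ hb2))
    have h3 := (Ult_inf U).1 h2
    refine ⟨(truth_mem h (hsN (n + 1)) hx).2 h3.1, ?_⟩
    rw [← val_opN h (hsN n) (hsN (n + 1))]
    exact (truth_mem h (opN_mem h (hsN n) (hsN (n + 1))) hr).2 h3.2
  have hX : ∀ n, val U N (dcS u' x r n) ∈ val U N x := by
    intro n
    induction n with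
    | zero =>
      change val U N u' ∈ val U N x
      rw [← ha3]
      exact hu
    | succ n ih => exact (hstep n ih).1
  refine ⟨fun n => val U N (dcS u' x r n), ?_, fun n => ⟨hX n, (hstep n (hX n)).2⟩⟩
  exact ⟨sqN (dcS u' x r), h.dcq u' ha2 x hx r hr, val_sqN h hsN⟩

end Rnd
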