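import Pool.Agent.Rnd.MEx
import Pool.Agent.Rnd.MZf

/-! # Interface: existence of the model, ZF and DC

(problem MP_564ab4_lc, project RND, architect helper69; assembly) -/

namespace Rnd

open STP BSet

variable {B : Type} [CompleteBooleanAlgebra B] [FlipAlg B]

theorem exists_Mdl (R : BSet B → BSet B → Set (ℕ → B)) (hR : ∀ x y, (R x y).Countable)
    (N0 : Set (BSet B)) (h0 : N0.Countable) (hs : ∀ x ∈ N0, HS x) :
    ∃ (U : Ult B) (N : Set (BSet B)), N0 ⊆ N ∧ Mdl R U N :=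
  exists_Mdl0 N0 h0 hs R hR

variable {R : BSet B → BSet B → Set (ℕ → B)} {U : Ult B} {N : Set (BSet B)}

omit [FlipAlg B] in
theorem trans_Mod (x : ZFSet.{0}) (hx : x ∈ Mod U N) (y : ZFSet.{0}) (hy : y ∈ x) :
    y ∈ Mod U N := Mod_trans x hx y hy

theorem cnt_Mod (h : Mdl R U N) : (Mod U N).Countable := Mod_cnt h

theorem isZF_Mod (h : Mdl R U N) : IsZF (Mod U N) := Mod_zf h

theorem dc_Mod (h : Mdl R U N) : DC (Mod U N) := Mod_dc h

end Rnd
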