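import Pool.Agent.Rnd.MTrF
import Pool.Agent.Rnd.MVal
import Pool.Agent.Rnd.HPw

/-! # Axioms: extensionality, foundation, pairing, union, infinity (package M9)

(problem MP_564ab4_lc, project RND, architect helper69)

Black boxes: `MTr.lean` (`mem_val`, `truth_mem`, `truth_eq`, `Mod_trans`), `MTrF.lean` (`truth_par2` etc.), `MVal.lean` (`mem_val_upN`, `mem_val_omN`).

* `M_ext`: the elements of `x.1` are in `M` (`Mod_trans`), so `ZFSet.ext`. `M_found`: `ZFSet.regularity` (or well-foundedness of `∈`, `ZFSet.mem_wf`) for `x.1`; its elements are in `M`.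
* `M_pair`: `x = val x'`, `y = val y'`, `x', y' ∈ N`; take `val (upN x' y')` (`Mdl.up`, `mem_val_upN`).
* `M_union`: `x = val x'`, take `y := val (unN x')`. For `z = val w`, `w ∈ N`: `z ∈ y ↔ mem w (unN x') ∈ U` (`truth_mem`), `mem w (unN x') = ⨆ a : x'.ty, x'.vl a ⊓ mem w (x'.fn a)` (`mem_unN`, `iSup_mem`; the function `fun w' => mem w w'` is extensional: `mem_congr_right`) `= ⨆ w' : {w' // HS w'}, mem w' x' ⊓ mem w w'` (`hsup_mem` in `HPw.lean`, or directly: the names `x'.fn a` are in `HS`) `= hval φ (cns w (asg [x']))` for `φ := Fml.ex (Fml.an (Fml.mem 0 2) (Fml.mem 1 0))` (`hval_ex`, `hval_an`; the variables are: `0` = the bound variable `w'`, `1` = `w`, `2` = `x'`). By `truth_par` (with `v := fun _ => x`, `l = [x']`; `bd φ = 2`, the condition concerns only `i < 2`: `asg [x'] 0 = x'`, but `asg [x'] 1 = emN`; to be safe use `l = [x', x']`) this is `∃ w' ∈ M, w' ∈ x ∧ z ∈ w'` (`sat_ex`, `sat_an`, `sat_mem`).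
* `M_inf`: `val omN` (`Mdl.om`), `mem_val_omN`: the elements are the `nat n`; `nat 0 = ∅` has no elements, `nat (n + 1) = insert (nat n) (nat n)` (`ZFSet.mem_insert_iff`; the elements of `nat (n + 1)` are in `M` by `Mod_trans`). -/

namespace Rnd

open STP BSet

variable {B : Type} [CompleteBooleanAlgebra B] [FlipAlg B]
  {R : BSet B → BSet B → Set (ℕ → B)} {U : Ult B} {N : Set (BSet B)}

omit [FlipAlg B] in
theorem M_ext (x y : Mod U N) (h : ∀ z, Em (Mod U N) z x ↔ Em (Mod U N) z y) : x = y := by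
  refine Subtype.ext (ZFSet.ext fun z => ⟨fun hz => ?_, fun hz => ?_⟩)
  · exact (h ⟨z, Mod_trans x.1 x.2 z hz⟩).1 hz
  · exact (h ⟨z, Mod_trans y.1 y.2 z hz⟩).2 hz

omit [FlipAlg B] in
theorem M_found (x : Mod U N) (h : ∃ y, Em (Mod U N) y x) :
    ∃ y, Em (Mod U N) y x ∧ ∀ z, Em (Mod U N) z x → ¬ Em (Mod U N) z y := by
  obtain ⟨y0, hy0⟩ := h
  have hne : x.1 ≠ ∅ := by
    intro h0
    have h1 : y0.1 ∈ x.1 := hy0
    rw [h0] at h1
    exact ZFSet.notMem_empty _ h1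
  obtain ⟨y, hy, hyx⟩ := ZFSet.regularity x.1 hne
  refine ⟨⟨y, Mod_trans x.1 x.2 y hy⟩, hy, fun z hz hzy => ?_⟩
  have h2 : z.1 ∈ x.1 ∩ y := ZFSet.mem_inter.2 ⟨hz, hzy⟩
  rw [hyx] at h2
  exact ZFSet.notMem_empty _ h2

theorem M_pair (h : Mdl R U N) (x y : Mod U N) :
    ∃ z, ∀ w, Em (Mod U N) w z ↔ w = x ∨ w = y := by
  obtain ⟨_, x', hx, rfl⟩ := x
  obtain ⟨_, y', hy, rfl⟩ := y
  refine ⟨⟨val U N (upN x' y'), _, h.up x' hx y' hy, rfl⟩, fun w => ?_⟩
  have h1 := mem_val_upN h hx hy w.1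
  rw [Subtype.ext_iff, Subtype.ext_iff]
  exact h1

private theorem un_hval (x w : BSet B) (hx : HS x) :
    mem w (unN x) = hval (Fml.ex (Fml.an (Fml.mem 0 2) (Fml.mem 1 0))) (cns w (asg [x, x])) := by
  have hΦ : Ext fun z => mem w z := fun z z' => mem_congr_right z z' w
  rw [mem_unN, iSup_mem hΦ x, ← hsup_mem hΦ hx, hval_ex]
  refine iSup_congr fun z => ?_
  rw [hval_an]
  rfl

theorem M_union (h : Mdl R U N) (x : Mod U N) :
    ∃ y, ∀ z, Em (Mod U N) z y ↔ ∃ w, Em (Mod U N) w x ∧ Em (Mod U N) z w := by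
  obtain ⟨_, x', hx, rfl⟩ := x
  have hun := h.un x' hx
  refine ⟨⟨val U N (unN x'), _, hun, rfl⟩, fun z => ?_⟩
  obtain ⟨_, z', hz, rfl⟩ := z
  have h1 : val U N z' ∈ val U N (unN x') ↔ mem z' (unN x') ∈ U.s := truth_mem h hz hun
  have h2 := truth_par h (emN_mem h) (Fml.ex (Fml.an (Fml.mem 0 2) (Fml.mem 1 0)))
    (fun _ => (⟨val U N x', x', hx, rfl⟩ : Mod U N)) (l := [x', x'])
    (fun z hz => by
      rcases List.mem_cons.1 hz with rfl | hz
      · exact hx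
      · rcases List.mem_cons.1 hz with rfl | hz
        · exact hx
        · exact absurd hz List.not_mem_nil)
    (fun i hi => by
      have hi' : i < 2 := lt_of_lt_of_le hi (by simp [Fml.ex, Fml.an, Fml.no, bd])
      rcases i with - | - | i
      · rfl
      · rfl
      · omega) hz
  rw [← un_hval x' z' (h.hs x' hx)] at h2
  change val U N z' ∈ val U N (unN x') ↔ _
  rw [h1, ← h2, sat_ex]
  refine exists_congr fun w => ?_
  rw [sat_an]
  exact Iff.rfl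

theorem M_inf (h : Mdl R U N) : ∃ x, (∃ y, Em (Mod U N) y x ∧ ∀ z, ¬ Em (Mod U N) z y) ∧
    ∀ y, Em (Mod U N) y x → ∃ z, Em (Mod U N) z x ∧ ∀ w, Em (Mod U N) w z ↔
      Em (Mod U N) w y ∨ w = y := by
  have hM : ∀ n, nat n ∈ Mod U N := fun n =>
    Mod_trans (val U N omN) ⟨_, h.om, rfl⟩ _ ((mem_val_omN h _).2 ⟨n, rfl⟩)
  refine ⟨⟨val U N omN, _, h.om, rfl⟩, ⟨⟨nat 0, hM 0⟩, (mem_val_omN h _).2 ⟨0, rfl⟩, fun z hz => ?_⟩,
    fun y hy => ?_⟩
  · exact ZFSet.notMem_empty _ hz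
  · obtain ⟨n, hn⟩ := (mem_val_omN h _).1 hy
    refine ⟨⟨nat (n + 1), hM (n + 1)⟩, (mem_val_omN h _).2 ⟨n + 1, rfl⟩, fun w => ?_⟩
    have h1 : w.1 ∈ nat (n + 1) ↔ w.1 = nat n ∨ w.1 ∈ nat n := by
      change w.1 ∈ insert (nat n) (nat n) ↔ _
      rw [ZFSet.mem_insert_iff]
    rw [Subtype.ext_iff]
    change w.1 ∈ nat (n + 1) ↔ w.1 ∈ y.1 ∨ w.1 = y.1
    rw [h1, hn]
    exact or_comm

end Rnd
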