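import Pool.Agent.Rnd.HNn

/-! # Suprema used in the proof of `Mdl` (package M3)

(problem MP_564ab4_lc, project RND, architect helper69)

* `sup_eE`: `≤` is trivial. `≥`: let `b := ⨆ E, c ⊓ act (eE i E) c`, `c' := c ⊓ bᶜ`; if `c' ≠ ⊥` let `F : Set J` be the finite set from `FlipAlg.dens c'`, `E := {n | (i, n) ∈ F}` (a `Finset ℕ`, `Set.Finite.toFinset`, preimage of a finite set under an injective map). `Fx F (eE i E)`: for `j ∈ F`, `eE i E j = decide (j.1 = i ∧ j.2 ∉ E) = false` (if `j.1 = i` then `j.2 ∈ E`). So `⊥ ≠ c' ⊓ act (eE i E) c' ≤ c ⊓ act (eE i E) c ≤ b` and `≤ c' ≤ bᶜ`: contradiction. So `c' = ⊥`, `c ≤ b`.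
* `sup_dl`: the same with `dl i (n + m)`: choose `m` with `(i, n + m) ∉ F` (finite set). `dl i m j = decide (j = (i, m))`.
* `exists_freeM`: `HS u` gives a countable set `S` of coordinates (`HS.sym`). `{i | ∃ n, (i, n) ∈ S}` is countable (image under `Prod.fst`), `ℕ → Bool` is uncountable (Cantor: `Function.cantor_surjective` or `Cardinal`; `Set.Countable.exists_notMem`-like lemma or `not_countable`), so there is `i` outside. A flip which is trivial on all `j` with `j.1 ≠ i` is trivial on `S`. `iU_freeM`: `dif_pos`, `choose_spec`.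
* `enu f`: a sequence of indices with the same supremum (`FlipAlg.ccc`); `enu_iSup`: `choose_spec`. `enu_mem`: a term in `U` is `f b` for an index `b` of the enumeration (`⊥ ∉ U`). -/

namespace Rnd

open STP BSet

variable {B : Type} [CompleteBooleanAlgebra B] [FlipAlg B]

private theorem sup_flip {ι : Type} (c : B) (e : ι → Fl)
    (h : ∀ F : Set J, F.Finite → ∃ k, Fx F (e k)) : ⨆ k, c ⊓ act (e k) c = c := by
  refine le_antisymm (iSup_le fun k => inf_le_left) ?_
  by_contra hcb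
  have hne : c ⊓ (⨆ k, c ⊓ act (e k) c)ᶜ ≠ ⊥ := by
    intro h0
    exact hcb (disjoint_compl_right_iff.1 (disjoint_iff.2 h0))
  obtain ⟨F, hF, hd⟩ := FlipAlg.dens _ hne
  obtain ⟨k, hk⟩ := h F hF
  apply hd (e k) hk
  rw [eq_bot_iff]
  have h1 : (c ⊓ (⨆ k, c ⊓ act (e k) c)ᶜ) ⊓ act (e k) (c ⊓ (⨆ k, c ⊓ act (e k) c)ᶜ) ≤
      ⨆ k, c ⊓ act (e k) c := by
    refine le_trans ?_ (le_iSup (fun k => c ⊓ act (e k) c) k)
    exact inf_le_inf inf_le_left (FlipAlg.act_mono _ _ _ inf_le_left)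
  have h2 : (c ⊓ (⨆ k, c ⊓ act (e k) c)ᶜ) ⊓ act (e k) (c ⊓ (⨆ k, c ⊓ act (e k) c)ᶜ) ≤
      (⨆ k, c ⊓ act (e k) c)ᶜ := inf_le_left.trans inf_le_right
  exact (le_inf h1 h2).trans (inf_compl_eq_bot).le

private theorem exists_out {c : Set (ℕ → Bool)} (hc : c.Countable) : ∃ x, x ∉ c := by
  have h4 : Cardinal.mk (ℕ → Bool) = Cardinal.continuum := by simp
  by_contra h
  push Not at h
  have h1 : c = Set.univ := Set.eq_univ_of_forall h
  rw [h1] at hc
  have h2 : Countable (ℕ → Bool) := Set.countable_univ_iff.1 hc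
  have h3 : Cardinal.mk (ℕ → Bool) ≤ Cardinal.aleph0 := Cardinal.mk_le_aleph0_iff.2 h2
  rw [h4] at h3
  exact absurd h3 (not_le.2 Cardinal.aleph0_lt_continuum)

theorem sup_eE (c : B) (i : ℕ → Bool) : ⨆ E : Finset ℕ, c ⊓ act (eE i E) c = c := by
  refine sup_flip c (eE i) fun F hF => ?_
  have hinj : Set.InjOn (fun n : ℕ => ((i, n) : J)) ((fun n : ℕ => ((i, n) : J)) ⁻¹' F) := by
    intro n _ m _ h
    exact congrArg Prod.snd h
  refine ⟨(hF.preimage hinj).toFinset, fun j hj => ?_⟩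
  unfold eE
  rw [decide_eq_false_iff_not]
  rintro ⟨h1, h2⟩
  apply h2
  rw [Set.Finite.mem_toFinset]
  change (i, j.2) ∈ F
  rw [← h1]
  exact hj

theorem sup_dl (c : B) (i : ℕ → Bool) (n : ℕ) : ⨆ m : ℕ, c ⊓ act (dl i (n + m)) c = c := by
  refine sup_flip c (fun m => dl i (n + m)) fun F hF => ?_
  have hinj : Set.InjOn (fun m : ℕ => ((i, n + m) : J))
      ((fun m : ℕ => ((i, n + m) : J)) ⁻¹' F) := by
    intro m _ m' _ h
    exact Nat.add_left_cancel (congrArg Prod.snd h)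
  obtain ⟨m, hm⟩ := (hF.preimage hinj).infinite_compl.nonempty
  refine ⟨m, fun j hj => ?_⟩
  unfold dl
  rw [decide_eq_false_iff_not]
  rintro rfl
  exact hm hj

theorem exists_freeM {u : BSet B} (hu : HS u) : ∃ i, Free u i := by
  obtain ⟨S, hS, h⟩ := hu.sym
  obtain ⟨i, hi⟩ := exists_out (hS.image Prod.fst)
  refine ⟨i, fun e he => h e fun j hj => he j ?_⟩
  rintro rfl
  exact hi ⟨j, hj, rfl⟩

theorem iU_freeM {u : BSet B} (hu : HS u) : Free u (iU u) := by
  unfold iU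
  rw [dif_pos (exists_freeM hu)]
  exact (exists_freeM hu).choose_spec

/-- countably many indices with the same supremum -/
noncomputable def enu {ι : Type} (f : ι → B) : ℕ → Option ι := (FlipAlg.ccc f).choose

theorem enu_iSup {ι : Type} (f : ι → B) : (⨆ n, (enu f n).elim ⊥ f) = ⨆ i, f i := by
  exact (FlipAlg.ccc f).choose_spec

theorem enu_mem {ι : Type} (f : ι → B) (U : Ult B) {n : ℕ} (h : (enu f n).elim ⊥ f ∈ U.s) :
    ∃ i, enu f n = some i ∧ f i ∈ U.s := by
  cases hh : enu f n with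
  | none =>
    rw [hh] at h
    exact absurd h U.bot
  | some i =>
    rw [hh] at h
    exact ⟨i, rfl, h⟩

end Rnd
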