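import Pool.Agent.Rnd.FA

/-! # Closure under countably many operations, generic ultrafilters (package M2)

(problem MP_564ab4_lc, project RND, architect helper69; Mathlib and `Ult` of `Pool/Agent/STP/BVal.lean` only)

* `exists_closed`: `S 0 := N0`, `S (n + 1) := S n ∪ ⋃ i, ⋃ l : List (S n), op i (l.map (↑))`, `N := ⋃ n, S n`. Each `S n` is countable (`Set.countable_iUnion`; `List` of a countable type is countable) and consists of elements with `P`. A list `l` with all elements in `N`: the sets `S n` increase, so by induction on the list there is `n` with all elements of `l` in `S n`; then `l = (l.attach..).map (↑)` (or use `List.pmap`, or `lift l to List (S n) using ..`, i.e. `CanLift (List α) (List s)`), so `op i l ⊆ S (n + 1)`.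
* `exists_ult` (Rasiowa-Sikorski): let `s k` (`k : ℕ`) enumerate `D` (if `D` is empty any ultrafilter containing `b` works: `Ult.exists_mem`). Define `c k ≠ ⊥` decreasing, `c 0 = b`: if `c k ⊓ ⨆ n, s k n = ⊥` then `c (k + 1) = c k`, otherwise (`inf_iSup_eq`) there is `n` with `c k ⊓ s k n ≠ ⊥`, put `c (k + 1) = c k ⊓ s k n`. In both cases: `c (k + 1) ≤ (⨆ n, s k n)ᶜ` or `∃ n, c (k + 1) ≤ s k n`. There is an ultrafilter containing all `c k`: as in the proof of `Ult.exists_mem` (prime ideal theorem `DistribLattice.prime_ideal_of_disjoint_filter_ideal`) with the filter `{x | ∃ k, c k ≤ x}` (a proper filter since the `c k` decrease; `Order.PFilter`) and the ideal `⊥`; the private computations there can be copied.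
* `sqv`: a family over a countable type as a sequence; `sqv_iSup`: `le_antisymm`; `sqv_mem`: a term of the sequence in `U` is a value of the family (`⊥ ∉ U`). -/

namespace Rnd

open STP

private def stg {X ι : Type*} (N0 : Set X) (op : ι → List X → Set X) : ℕ → Set X
  | 0 => N0
  | n + 1 => stg N0 op n ∪ ⋃ i, ⋃ l ∈ {l : List X | ∀ x ∈ l, x ∈ stg N0 op n}, op i l

private theorem list_cnt {X : Type*} {S : Set X} (hS : S.Countable) :
    {l : List X | ∀ x ∈ l, x ∈ S}.Countable := by
  rw [← Set.range_list_map_coe]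
  have := hS.to_subtype
  exact Set.countable_range _

theorem exists_closed {X ι : Type*} [Countable ι] (P : X → Prop) (N0 : Set X)
    (h0 : N0.Countable) (hP0 : ∀ x ∈ N0, P x) (op : ι → List X → Set X)
    (hop : ∀ i l, (op i l).Countable)
    (hP : ∀ i l, (∀ x ∈ l, P x) → ∀ y ∈ op i l, P y) :
    ∃ N : Set X, N0 ⊆ N ∧ N.Countable ∧ (∀ x ∈ N, P x) ∧
      ∀ i l, (∀ x ∈ l, x ∈ N) → op i l ⊆ N := by
  have hmono : Monotone (stg N0 op) := monotone_nat_of_le_succ fun n => Set.subset_union_left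
  have hc : ∀ n, (stg N0 op n).Countable ∧ ∀ x ∈ stg N0 op n, P x := by
    intro n
    induction n with
    | zero => exact ⟨h0, hP0⟩
    | succ n ih =>
      constructor
      · refine ih.1.union (Set.countable_iUnion fun i => ?_)
        exact (list_cnt ih.1).biUnion fun l _ => hop i l
      · rintro x (hx | hx)
        · exact ih.2 x hx
        · simp only [Set.mem_iUnion] at hx
          obtain ⟨i, l, hl, hx⟩ := hx
          exact hP i l (fun y hy => ih.2 y (hl y hy)) x hx
  refine ⟨⋃ n, stg N0 op n, Set.subset_iUnion (stg N0 op) 0,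
    Set.countable_iUnion fun n => (hc n).1, fun x hx => ?_, fun i l hl => ?_⟩
  · obtain ⟨n, hn⟩ := Set.mem_iUnion.1 hx
    exact (hc n).2 x hn
  · have h1 : ∃ n, ∀ x ∈ l, x ∈ stg N0 op n := by
      induction l with
      | nil => exact ⟨0, fun x hx => absurd hx List.not_mem_nil⟩
      | cons z l ih =>
        obtain ⟨n, hn⟩ := ih fun x hx => hl x (List.mem_cons_of_mem _ hx)
        obtain ⟨m, hm⟩ := Set.mem_iUnion.1 (hl z List.mem_cons_self)
        refine ⟨max n m, fun x hx => ?_⟩
        rcases List.mem_cons.1 hx with rfl | hx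
        · exact hmono (le_max_right n m) hm
        · exact hmono (le_max_left n m) (hn x hx)
    obtain ⟨n, hn⟩ := h1
    refine Set.Subset.trans ?_ (Set.subset_iUnion (stg N0 op) (n + 1))
    refine Set.Subset.trans ?_ Set.subset_union_right
    exact Set.subset_iUnion_of_subset i (Set.subset_biUnion_of_mem (u := fun l => op i l) hn)

variable {B : Type} [CompleteBooleanAlgebra B]

private theorem exists_ult_seq (c : ℕ → B) (hc : ∀ n, c n ≠ ⊥) (hd : Antitone c) :
    ∃ U : Ult B, ∀ n, c n ∈ U.s := by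
  let F : Order.PFilter B := Order.IsPFilter.toPFilter (F := {x | ∃ k, c k ≤ x}) (by
    refine Order.IsPFilter.of_def ⟨c 0, 0, le_rfl⟩ ?_ ?_
    · rintro x ⟨k, hk⟩ y ⟨m, hm⟩
      refine ⟨c (max k m), ⟨_, le_rfl⟩, ?_, ?_⟩
      · exact (hd (le_max_left k m)).trans hk
      · exact (hd (le_max_right k m)).trans hm
    · rintro x y hxy ⟨k, hk⟩
      exact ⟨k, hk.trans hxy⟩)
  have hF : ∀ x, x ∈ F ↔ ∃ k, c k ≤ x := fun x => Iff.rfl
  have hdj : Disjoint (F : Set B) (Order.Ideal.principal (⊥ : B) : Set B) := by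
    rw [Set.disjoint_left]
    intro x hx hx'
    obtain ⟨k, hk⟩ := (hF x).1 hx
    have h2 : x ≤ ⊥ := Order.Ideal.mem_principal.1 hx'
    exact hc k (le_bot_iff.1 (hk.trans h2))
  obtain ⟨I, hI, -, hId⟩ := DistribLattice.prime_ideal_of_disjoint_filter_ideal hdj
  have htop : (⊤ : B) ∉ I := fun h => by
    have h1 := hI.toIsProper.ne_univ
    exact h1 (Set.eq_univ_of_forall fun x => I.lower le_top h)
  refine ⟨⟨(I : Set B)ᶜ, htop, fun h => h (Order.Ideal.bot_mem I), ?_, ?_, ?_⟩, ?_⟩
  · intro a c ha hc h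
    rcases hI.mem_or_mem h with h1 | h1
    · exact ha h1
    · exact hc h1
  · intro a c ha hac h
    exact ha (I.lower hac h)
  · intro a
    by_contra hcon
    push Not at hcon
    have h1 : a ∈ I := not_not.1 hcon.1
    have h2 : aᶜ ∈ I := not_not.1 hcon.2
    have h3 := Order.Ideal.sup_mem h1 h2
    rw [sup_compl_eq_top] at h3
    exact htop h3
  · intro n h
    exact (Set.disjoint_left.1 hId) ((hF _).2 ⟨n, le_rfl⟩) h

private theorem step_ex (c : B) (s : ℕ → B) (hc : c ≠ ⊥) :
    ∃ d, d ≤ c ∧ d ≠ ⊥ ∧ (d ≤ (⨆ n, s n)ᶜ ∨ ∃ n, d ≤ s n) := by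
  by_cases h : c ⊓ ⨆ n, s n = ⊥
  · exact ⟨c, le_rfl, hc, Or.inl (le_compl_iff_disjoint_right.2 (disjoint_iff.2 h))⟩
  · rw [inf_iSup_eq] at h
    obtain ⟨n, hn⟩ : ∃ n, c ⊓ s n ≠ ⊥ := by
      by_contra hcon
      push Not at hcon
      exact h (by simp [hcon])
    exact ⟨c ⊓ s n, inf_le_left, hn, Or.inr ⟨n, inf_le_right⟩⟩

theorem exists_ult {b : B} (hb : b ≠ ⊥) (D : Set (ℕ → B)) (hD : D.Countable) :
    ∃ U : Ult B, b ∈ U.s ∧ ∀ s ∈ D, (⨆ n, s n) ∈ U.s → ∃ n, s n ∈ U.s := by
  rcases D.eq_empty_or_nonempty with rfl | hne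
  · obtain ⟨U, hU⟩ := Ult.exists_mem hb
    exact ⟨U, hU, fun s hs => absurd hs (Set.notMem_empty s)⟩
  obtain ⟨s, rfl⟩ := hD.exists_eq_range hne
  choose! d hd1 hd2 hd3 using step_ex (B := B)
  let c : ℕ → {x : B // x ≠ ⊥} := fun k =>
    Nat.rec ⟨b, hb⟩ (fun k x => ⟨d x.1 (s k), hd2 x.1 (s k) x.2⟩) k
  have hcs : ∀ k, (c (k + 1)).1 = d (c k).1 (s k) := fun k => rfl
  have hanti : Antitone fun k => (c k).1 := antitone_nat_of_succ_le fun k => by
    rw [hcs]
    exact hd1 _ _ (c k).2
  obtain ⟨U, hU⟩ := exists_ult_seq (fun k => (c k).1) (fun k => (c k).2) hanti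
  refine ⟨U, hU 0, ?_⟩
  rintro _ ⟨k, rfl⟩ hk
  have h1 := hU (k + 1)
  rw [hcs] at h1
  rcases hd3 (c k).1 (s k) (c k).2 with h2 | ⟨n, h2⟩
  · exact absurd hk ((Ult_compl U).1 (U.up h1 h2))
  · exact ⟨n, U.up h1 h2⟩

/-- a family over a countable type as a sequence -/
noncomputable def sqv {κ : Type} [Countable κ] (f : κ → B) : ℕ → B :=
  open scoped Classical in
  fun n => if h : ∃ i : κ, (Countable.exists_injective_nat κ).choose i = n then f h.choose else ⊥

theorem sqv_iSup {κ : Type} [Countable κ] (f : κ → B) : ⨆ n, sqv f n = ⨆ i, f i := by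
  refine le_antisymm (iSup_le fun n => ?_) (iSup_le fun i => ?_)
  · unfold sqv
    split_ifs with h
    · exact le_iSup f _
    · exact bot_le
  · refine le_iSup_of_le ((Countable.exists_injective_nat κ).choose i) ?_
    have h : ∃ i' : κ, (Countable.exists_injective_nat κ).choose i' =
        (Countable.exists_injective_nat κ).choose i := ⟨i, rfl⟩
    unfold sqv
    rw [dif_pos h]
    have h2 := (Countable.exists_injective_nat κ).choose_spec h.choose_spec
    rw [h2]

theorem sqv_mem {κ : Type} [Countable κ] (f : κ → B) (U : Ult B) {n : ℕ} (h : sqv f n ∈ U.s) :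
    ∃ i, f i ∈ U.s := by
  unfold sqv at h
  split_ifs at h with h1
  · exact ⟨_, h⟩
  · exact absurd h U.bot

end Rnd
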