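import Pool.Agent.Rnd.MOps
import Pool.Agent.Rnd.MHull

/-! # Existence of the hull and of the ultrafilter (package M5)

(problem MP_564ab4_lc, project RND, architect helper69; assembly)

Black boxes: `MHull.lean`, `MDen.lean`, `MOps.lean`.

Proof. `N` from `exists_closed` with `X = BSet B`, `P = HS`, `ι = Fml`, `op = ops` (`ops_countable`, `ops_HS`, `countable_fml`). The ultrafilter from `exists_ult` with `b = ⊤` (`FlipAlg.nontriv`) and the countable set `D` = the union over all `x, y ∈ N` (`Set.Countable.biUnion`) of `R x y` and the sequences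
* `fun n => (enu (fun b : y.ty => y.vl b ⊓ BSet.eq x (y.fn b)) n).elim ⊥ (fun b => y.vl b ⊓ BSet.eq x (y.fn b))`, the same with `y.vl b ⊓ (mem (y.fn b) x)ᶜ`;
* `sqv (fun E : Finset ℕ => c ⊓ act (eE (iU x) E) c)`, `c := mem (sbN (xg (iU x) s)) x`, `s : Bool`;
* for `n : ℕ`: `fun m => (agr y (iU x) (n + m))ᶜ`, `fun m => cE x y n ⊓ act (dl (iU x) (n + m)) (cE x y n)`, `fun m => mem (opN (nn n) (nn m)) x`.
(It is convenient to define a private set `DD x y` of sequences with these members and to prove that it is countable.)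

The fields of `Mdl`: the closure fields are instances of `ops φ l ⊆ N` with `l = []`, `[x]`, `x :: l`, `[x, y]`, `[u, x, r]` (and `φ = Fml.bot` where no formula is needed). `gmem`: `mem x y = ⨆ b, y.vl b ⊓ eq x (y.fn b)` (definition) `= ⨆ n, ..` (`enu_iSup`), `enu_mem`; the name `y.fn b` is in `gma x y`. `gneq`: the same with `gna`. `uf3`: `sup_eE`, `sqv_iSup`, `sqv_mem`, then `U.up .. inf_le_right`. `eo3`: if the infimum is not in `U` then its complement `⨆ m, (agr ..)ᶜ` (`compl_iInf`) is in `U` (`Ult_compl`), so some `(agr ..)ᶜ ∈ U`. `eo4`: `sup_dl`. `gre`, `bor`: `D`. -/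

namespace Rnd

open STP BSet

variable {B : Type} [CompleteBooleanAlgebra B] [FlipAlg B]

/-- the sequences whose suprema have to be preserved -/
private noncomputable def DD (R : BSet B → BSet B → Set (ℕ → B)) (x y : BSet B) : Set (ℕ → B) :=
  R x y ∪ {fun n => (enu (fun b : y.ty => y.vl b ⊓ BSet.eq x (y.fn b)) n).elim ⊥
      (fun b => y.vl b ⊓ BSet.eq x (y.fn b)),
    fun n => (enu (fun b : y.ty => y.vl b ⊓ (mem (y.fn b) x)ᶜ) n).elim ⊥
      (fun b => y.vl b ⊓ (mem (y.fn b) x)ᶜ)} ∪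
  Set.range (fun s : Bool => sqv (fun E : Finset ℕ =>
    mem (sbN (xg (iU x) s)) x ⊓ act (eE (iU x) E) (mem (sbN (xg (iU x) s)) x))) ∪
  Set.range (fun n : ℕ => fun m : ℕ => (agr y (iU x) (n + m))ᶜ) ∪
  Set.range (fun n : ℕ => fun m : ℕ => cE x y n ⊓ act (dl (iU x) (n + m)) (cE x y n)) ∪
  Set.range (fun n : ℕ => fun m : ℕ => mem (opN (nn n) (nn m)) x)

private theorem DD_countable {R : BSet B → BSet B → Set (ℕ → B)} {x y : BSet B}
    (hR : (R x y).Countable) : (DD R x y).Countable := by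
  refine ((((hR.union ?_).union ?_).union ?_).union ?_).union ?_
  · exact (Set.toFinite _).countable
  · exact Set.countable_range _
  · exact Set.countable_range _
  · exact Set.countable_range _
  · exact Set.countable_range _

private theorem m0 {φ : Fml} {l : List (BSet B)} {z : BSet B}
    (h : z ∈ ({omN, emN, wN φ l} : Set (BSet B))) : z ∈ ops φ l := Or.inl (Or.inl (Or.inl h))

private theorem m1 {φ : Fml} {l : List (BSet B)} {z : BSet B} (h : z ∈ op1 φ l) :
    z ∈ ops φ l := Or.inl (Or.inl (Or.inr h))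

private theorem m2 {φ : Fml} {l : List (BSet B)} {z : BSet B} (h : z ∈ op2 l) :
    z ∈ ops φ l := Or.inl (Or.inr h)

private theorem m3 {φ : Fml} {l : List (BSet B)} {z : BSet B} (h : z ∈ op3 l) :
    z ∈ ops φ l := Or.inr h

theorem exists_Mdl0 (N0 : Set (BSet B)) (h0 : N0.Countable) (hs : ∀ x ∈ N0, HS x)
    (R : BSet B → BSet B → Set (ℕ → B)) (hR : ∀ x y, (R x y).Countable) :
    ∃ (U : Ult B) (N : Set (BSet B)), N0 ⊆ N ∧ Mdl R U N := by
  obtain ⟨N, hN0, hNc, hNs, hN⟩ := exists_closed (X := BSet B) HS N0 h0 hs ops ops_countable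
    (fun φ l hl y hy => ops_HS φ l hl y hy)
  have hD : (⋃ x ∈ N, ⋃ y ∈ N, DD R x y).Countable :=
    hNc.biUnion fun x _ => hNc.biUnion fun y _ => DD_countable (hR x y)
  obtain ⟨U, -, hU0⟩ := exists_ult (FlipAlg.nontriv (B := B)) _ hD
  have hU : ∀ x ∈ N, ∀ y ∈ N, ∀ s ∈ DD R x y, (⨆ n, s n) ∈ U.s → ∃ n, s n ∈ U.s := by
    intro x hx y hy s hs
    exact hU0 s (Set.mem_iUnion₂.2 ⟨x, hx, Set.mem_iUnion₂.2 ⟨y, hy, hs⟩⟩)
  have l0 : ∀ z ∈ ([] : List (BSet B)), z ∈ N := fun z hz => absurd hz List.not_mem_nil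
  have lc : ∀ x ∈ N, ∀ l : List (BSet B), (∀ z ∈ l, z ∈ N) → ∀ z ∈ x :: l, z ∈ N := by
    intro x hx l hl z hz
    rcases List.mem_cons.1 hz with h | h
    · exact h ▸ hx
    · exact hl z h
  refine ⟨U, N, hN0, ?_⟩
  exact
    { cnt := hNc
      hs := hNs
      om := hN .bot [] l0 (m0 (Or.inl rfl))
      ch := fun x hx hc a => hN .bot [x] (lc x hx _ l0)
        (m1 (Or.inl (Or.inl (Or.inl ⟨hc, a, rfl⟩))))
      up := fun x hx y hy => hN .bot [x, y] (lc x hx _ (lc y hy _ l0))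
        (m2 (Or.inl (Or.inl (Or.inl (Or.inl rfl)))))
      un := fun x hx => hN .bot [x] (lc x hx _ l0) (m1 (Or.inl (Or.inl (Or.inr (Or.inl rfl)))))
      sp := fun φ l hl x hx => hN φ (x :: l) (lc x hx _ hl)
        (m1 (Or.inl (Or.inl (Or.inr (Or.inr (Or.inr (Or.inl rfl)))))))
      pw := fun x hx => hN .bot [x] (lc x hx _ l0)
        (m1 (Or.inl (Or.inl (Or.inr (Or.inr (Or.inl rfl))))))
      rs := fun x hx y hy => hN .bot [x, y] (lc x hx _ (lc y hy _ l0))
        (m2 (Or.inl (Or.inl (Or.inl (Or.inr rfl)))))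
      wit := fun φ l hl => hN φ l hl (m0 (Or.inr (Or.inr rfl)))
      co := fun φ l hl x hx => hN φ (x :: l) (lc x hx _ hl)
        (m1 (Or.inl (Or.inl (Or.inr (Or.inr (Or.inr (Or.inr (Or.inl rfl))))))))
      dcw := fun u hu x hx r hr => hN .bot [u, x, r] (lc u hu _ (lc x hx _ (lc r hr _ l0)))
        (m3 (Or.inl rfl))
      dcq := fun u hu x hx r hr => hN .bot [u, x, r] (lc u hu _ (lc x hx _ (lc r hr _ l0)))
        (m3 (Or.inr rfl))
      gmem := by
        intro x hx y hy h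
        obtain ⟨n, hn⟩ := hU x hx y hy _
          (Or.inl (Or.inl (Or.inl (Or.inl (Or.inr (Or.inl rfl)))))) (by rw [enu_iSup]; exact h)
        obtain ⟨b, hb, hbU⟩ := enu_mem _ U hn
        exact ⟨b, hN .bot [x, y] (lc x hx _ (lc y hy _ l0))
          (m2 (Or.inl (Or.inl (Or.inr ⟨b, ⟨n, hb⟩, rfl⟩)))), hbU⟩
      gneq := by
        intro x hx y hy h
        obtain ⟨n, hn⟩ := hU x hx y hy _
          (Or.inl (Or.inl (Or.inl (Or.inl (Or.inr (Or.inr rfl)))))) (by rw [enu_iSup]; exact h)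
        obtain ⟨b, hb, hbU⟩ := enu_mem _ U hn
        exact ⟨b, hN .bot [x, y] (lc x hx _ (lc y hy _ l0))
          (m2 (Or.inl (Or.inr ⟨b, ⟨n, hb⟩, rfl⟩))), hbU⟩
      uf1 := fun u hu s => hN .bot [u] (lc u hu _ l0) (m1 (Or.inl (Or.inr ⟨s, rfl⟩)))
      uf2 := fun u hu s E => hN .bot [u] (lc u hu _ l0) (m1 (Or.inr ⟨(s, E), rfl⟩))
      uf3 := by
        intro u hu s h
        obtain ⟨n, hn⟩ := hU u hu u hu _
          (Or.inl (Or.inl (Or.inl (Or.inr ⟨s, rfl⟩)))) (by rw [sqv_iSup, sup_eE]; exact h)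
        obtain ⟨E, hE⟩ := sqv_mem _ U hn
        exact ⟨E, U.up hE inf_le_right⟩
      eo1 := fun u hu => hN .bot [u] (lc u hu _ l0)
        (m1 (Or.inl (Or.inl (Or.inr (Or.inr (Or.inr (Or.inr (Or.inr (Or.inr rfl)))))))))
      eo2 := fun u hu t ht m => hN .bot [u, t] (lc u hu _ (lc t ht _ l0)) (m2 (Or.inr ⟨m, rfl⟩))
      eo3 := by
        intro u hu t ht n h
        by_contra hcon
        have h1 := (Ult_compl U).2 hcon
        rw [compl_iInf] at h1
        obtain ⟨m, hm⟩ := hU u hu t ht _ (Or.inl (Or.inl (Or.inr ⟨n, rfl⟩))) h1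
        exact (Ult_compl U).1 hm (h m)
      eo4 := by
        intro u hu t ht n h
        obtain ⟨m, hm⟩ := hU u hu t ht _ (Or.inl (Or.inr ⟨n, rfl⟩)) (by rw [sup_dl]; exact h)
        exact ⟨m, U.up hm inf_le_right⟩
      rl := fun x hx => hN .bot [x] (lc x hx _ l0)
        (m1 (Or.inl (Or.inl (Or.inr (Or.inr (Or.inr (Or.inr (Or.inr (Or.inl rfl)))))))))
      gre := fun x hx n h => hU x hx x hx _ (Or.inr ⟨n, rfl⟩) h
      bor := fun x hx y hy s hs h => hU x hx y hy s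
        (Or.inl (Or.inl (Or.inl (Or.inl (Or.inl hs))))) h }

end Rnd
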