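import Pool.Agent.Rnd.HPw
import Pool.Agent.Rnd.MDen

/-! # The operations (package M4)

(problem MP_564ab4_lc, project RND, architect helper69)

`ops φ l` is the (countable) set of all names which have to belong to the hull `N` if the names of the list `l` belong to `N`.

Black boxes: `HAct`, `HSb`, `HVal`, `HMix`, `HPw`, `HNn`, `MDen`.

* `countable_fml`: `Fml` is countable, e.g. by an injection into `ℕ` (code `mem i j ↦ pair 0 (pair i j)`, .., `all φ ↦ pair 4 (code φ)`, `Nat.pair`) or by `deriving`/`Encodable`.
* `ops_countable`: `ops φ l` is a finite union of countable sets. `gma x y`: the range of a function on `ℕ` (options): the set `{y.fn b | ∃ n, enu f n = some b}` is the image of the countable set `{b | ∃ n, enu f n = some b}`. `{z | Countable x.ty ∧ ∃ a, z = x.fn a}` is empty or the range of `x.fn` on a countable type.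
* `ops_HS`: `HS_omN`, `HS_emN`, `HS_mx` (for `wN`, `dcW`), `HS.fn`, `HS_unN`, `HS_pwH`, `HS_sepH`, `HS_coH` (with `HS_mx`), `HS_rlN`, `HS_sbN`, `HS.act`, `HS_upN`, `HS_rsN`, `HS_sqN` (all `dcS u x r n` are in `HS`: `n = 0`: `u`; `n + 1`: `HS_mx`). -/

namespace Rnd

open STP BSet

private def cd : Fml → ℕ
  | .mem i j => 5 * Nat.pair i j
  | .eq i j => 5 * Nat.pair i j + 1
  | .bot => 2
  | .imp φ ψ => 5 * Nat.pair (cd φ) (cd ψ) + 3
  | .all φ => 5 * cd φ + 4

private theorem cd_inj : ∀ φ ψ : Fml, cd φ = cd ψ → φ = ψ := by
  intro φ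
  induction φ with
  | mem i j =>
    intro ψ h
    cases ψ with
    | mem i' j' =>
      simp only [cd] at h
      obtain ⟨h1, h2⟩ := Nat.pair_eq_pair.1 (show Nat.pair i j = Nat.pair i' j' by omega)
      rw [h1, h2]
    | _ => simp only [cd] at h; omega
  | eq i j =>
    intro ψ h
    cases ψ with
    | eq i' j' =>
      simp only [cd] at h
      obtain ⟨h1, h2⟩ := Nat.pair_eq_pair.1 (show Nat.pair i j = Nat.pair i' j' by omega)
      rw [h1, h2]
    | _ => simp only [cd] at h; omega
  | bot =>
    intro ψ h
    cases ψ with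
    | bot => rfl
    | _ => simp only [cd] at h; omega
  | imp φ φ' h1 h2 =>
    intro ψ h
    cases ψ with
    | imp ψ ψ' =>
      simp only [cd] at h
      obtain ⟨h3, h4⟩ := Nat.pair_eq_pair.1
        (show Nat.pair (cd φ) (cd φ') = Nat.pair (cd ψ) (cd ψ') by omega)
      rw [h1 _ h3, h2 _ h4]
    | _ => simp only [cd] at h; omega
  | all φ h1 =>
    intro ψ h
    cases ψ with
    | all ψ =>
      simp only [cd] at h
      rw [h1 ψ (by omega)]
    | _ => simp only [cd] at h; omega

instance countable_fml : Countable Fml := by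
  exact Function.Injective.countable (f := cd) fun φ ψ => cd_inj φ ψ

variable {B : Type} [CompleteBooleanAlgebra B] [FlipAlg B]

/-- children of `y` which decide `x ∈ y` -/
noncomputable def gma (x y : BSet B) : Set (BSet B) :=
  {z | ∃ b, (∃ n, enu (fun b : y.ty => y.vl b ⊓ BSet.eq x (y.fn b)) n = some b) ∧ z = y.fn b}

/-- children of `y` which are not in `x` -/
noncomputable def gna (x y : BSet B) : Set (BSet B) :=
  {z | ∃ b, (∃ n, enu (fun b : y.ty => y.vl b ⊓ (mem (y.fn b) x)ᶜ) n = some b) ∧ z = y.fn b}

/-- operations with the arguments `x`, `l` (and the formula `φ`) -/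
noncomputable def op1 (φ : Fml) : List (BSet B) → Set (BSet B)
  | [] => ∅
  | x :: l => {z | Countable x.ty ∧ ∃ a, z = x.fn a} ∪
      {unN x, pwH x, sepN x (fun z => hval φ (cns z (asg l))),
        coH x (fun a => wN φ (x.fn a :: l)), rlN (pX x), rlN (gb (iU x))} ∪
      Set.range (fun s : Bool => sbN (xg (iU x) s)) ∪
      Set.range (fun s : Bool × Finset ℕ => actN (eE (iU x) s.2) (sbN (xg (iU x) s.1)))

/-- operations with two arguments -/
noncomputable def op2 : List (BSet B) → Set (BSet B)
  | x :: y :: _ => {upN x y, rsN x y} ∪ gma x y ∪ gna x y ∪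
      Set.range (fun m : ℕ => actN (dl (iU x) m) y)
  | _ => ∅

/-- operations with three arguments -/
noncomputable def op3 : List (BSet B) → Set (BSet B)
  | u :: x :: r :: _ => {dcW u x r, sqN (dcS u x r)}
  | _ => ∅

/-- all operations -/
noncomputable def ops (φ : Fml) (l : List (BSet B)) : Set (BSet B) :=
  {omN, emN, wN φ l} ∪ op1 φ l ∪ op2 l ∪ op3 l

private theorem enu_cnt (y : BSet B) (f : y.ty → B) :
    {z | ∃ b, (∃ n, enu f n = some b) ∧ z = y.fn b}.Countable := by
  refine (Set.countable_range fun n => (enu f n).elim emN y.fn).mono ?_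
  rintro z ⟨b, ⟨n, hn⟩, rfl⟩
  refine ⟨n, ?_⟩
  change (enu f n).elim emN y.fn = y.fn b
  rw [hn]
  rfl

omit [CompleteBooleanAlgebra B] [FlipAlg B] in
private theorem fn_cnt (x : BSet B) : {z | Countable x.ty ∧ ∃ a, z = x.fn a}.Countable := by
  by_cases h : Countable x.ty
  · refine (Set.countable_range x.fn).mono ?_
    rintro z ⟨-, a, rfl⟩
    exact ⟨a, rfl⟩
  · refine Set.countable_empty.mono ?_
    rintro z ⟨h1, -⟩
    exact absurd h1 h

theorem ops_countable (φ : Fml) (l : List (BSet B)) : (ops φ l).Countable := by
  unfold ops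
  refine (((Set.toFinite _).countable.union ?_).union ?_).union ?_
  · cases l with
    | nil => exact Set.countable_empty
    | cons x l =>
      exact (((fn_cnt x).union (Set.toFinite _).countable).union (Set.countable_range _)).union
        (Set.countable_range _)
  · match l with
    | [] => exact Set.countable_empty
    | [x] => exact Set.countable_empty
    | x :: y :: l =>
      exact (((Set.toFinite _).countable.union (enu_cnt y _)).union (enu_cnt y _)).union
        (Set.countable_range _)
  · match l with
    | [] => exact Set.countable_empty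
    | [x] => exact Set.countable_empty
    | [x, y] => exact Set.countable_empty
    | u :: x :: r :: l =>
      exact (Set.toFinite ({dcW u x r, sqN (dcS u x r)} : Set (BSet B))).countable

private theorem dcS_HS {u : BSet B} (hu : HS u) (x r : BSet B) (n : ℕ) : HS (dcS u x r n) := by
  cases n with
  | zero => exact hu
  | succ n => exact HS_mx _

theorem ops_HS (φ : Fml) (l : List (BSet B)) (hl : ∀ x ∈ l, HS x) : ∀ y ∈ ops φ l, HS y := by
  rintro w (((hw | hw) | hw) | hw)
  · rcases hw with rfl | rfl | rfl
    · exact HS_omN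
    · exact HS_emN
    · exact HS_mx _
  · match l, hl, hw with
    | [], _, hw => exact hw.elim
    | x :: l, hl, hw =>
      have hx : HS x := hl x List.mem_cons_self
      have hl' : ∀ z ∈ l, HS z := fun z hz => hl z (List.mem_cons_of_mem _ hz)
      rcases hw with ((hw | hw) | hw) | hw
      · obtain ⟨-, a, rfl⟩ := hw
        exact hx.fn a
      · rcases hw with rfl | rfl | rfl | rfl | rfl | rfl
        · exact HS_unN hx
        · exact HS_pwH hx
        · exact HS_sepH φ hl' hx
        · exact HS_coH x fun a => HS_mx _
        · exact HS_rlN _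
        · exact HS_rlN _
      · obtain ⟨s, rfl⟩ := hw
        exact HS_sbN _
      · obtain ⟨s, rfl⟩ := hw
        exact (HS_sbN _).act _
  · match l, hl, hw with
    | [], _, hw => exact hw.elim
    | [x], _, hw => exact hw.elim
    | x :: y :: l, hl, hw =>
      have hx : HS x := hl x List.mem_cons_self
      have hy : HS y := hl y (List.mem_cons_of_mem _ List.mem_cons_self)
      rcases hw with ((hw | hw) | hw) | hw
      · rcases hw with rfl | rfl
        · exact HS_upN hx hy
        · exact HS_rsN hx hy
      · obtain ⟨b, -, rfl⟩ := hw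
        exact hy.fn b
      · obtain ⟨b, -, rfl⟩ := hw
        exact hy.fn b
      · obtain ⟨m, rfl⟩ := hw
        exact hy.act _
  · match l, hl, hw with
    | [], _, hw => exact hw.elim
    | [x], _, hw => exact hw.elim
    | [x, y], _, hw => exact hw.elim
    | u :: x :: r :: l, hl, hw =>
      have hu : HS u := hl u List.mem_cons_self
      rcases hw with rfl | rfl
      · exact HS_mx _
      · exact HS_sqN fun n => dcS_HS hu x r n

end Rnd
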