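import Pool.Agent.Rnd.MTrF
import Pool.Agent.Rnd.MVal
import Pool.Agent.Rnd.HPw

/-! # Axioms: separation, power set (package M10)

(problem MP_564ab4_lc, project RND, architect helper69)

Black boxes: `MTr.lean`, `MTrF.lean` (`exists_names`, `truth_par`), `MVal.lean` (`mem_val_rsN`, `emN_mem`), `HPw.lean`.

* `M_sep`: let `φ, v, x` be given, `x = val x'`, `x' ∈ N`, `l` from `exists_names v (bd φ)`. `y := val (sepN x' (fun z => hval φ (cns z (asg l))))` (`Mdl.sp`). By `mem_val`: `z ∈ y` iff `z = val (x'.fn a)` with `x'.fn a ∈ N` and `x'.vl a ⊓ hval φ (cns (x'.fn a) (asg l)) ∈ U`, i.e. (`Ult_inf`, `truth_par`) `x'.vl a ∈ U` and `sat φ (cns (val (x'.fn a)) v)`. Conversely if `z ∈ x = val x'` then `z = val (x'.fn a)` for such an `a` (`mem_val`).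
* `M_power`: `x = val x'`, `y := val (pwH x')` (`Mdl.pw`). If `z ∈ y` then `z = val ((pwH x').fn c)` with `(pwH x').fn c ∈ N`, and the elements of `z` are `val (x'.fn a)` with `c a ⊓ x'.vl a ∈ U`, so they belong to `val x'` (`mem_val`). Conversely let `z = val z'`, `z' ∈ N`, `z ⊆ x` (all elements of `z` are in `M`: `Mod_trans`). By `mem_val_rsN`: `val (rsN x' z') = z` (`ZFSet.ext`), `rsN x' z' ∈ N` (`Mdl.rs`), and `rsN x' z'` is literally the child `(pwH x').fn ⟨fun a => mem (x'.fn a) z', _⟩` of `pwH x'` (the proof of the index condition is `HS (rsN x' z')`, i.e. `Mdl.hs`), with value `⊤` (`U.top`). -/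

namespace Rnd

open STP BSet

variable {B : Type} [CompleteBooleanAlgebra B] [FlipAlg B]
  {R : BSet B → BSet B → Set (ℕ → B)} {U : Ult B} {N : Set (BSet B)}

theorem M_sep (h : Mdl R U N) (φ : Fml) (v : ℕ → Mod U N) (x : Mod U N) :
    ∃ y, ∀ z, Em (Mod U N) z y ↔ Em (Mod U N) z x ∧ sat (Em (Mod U N)) φ (cns z v) := by
  obtain ⟨x0, x', hx', rfl⟩ := x
  obtain ⟨l, hl, hlv⟩ := exists_names (N := N) v (bd φ)
  have hN := emN_mem h
  have hS := h.sp φ l hl x' hx'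
  refine ⟨⟨val U N (sepN x' fun z => hval φ (cns z (asg l))), _, hS, rfl⟩, fun z => ?_⟩
  obtain ⟨z0, z', hz', rfl⟩ := z
  constructor
  · intro hz
    obtain ⟨a, ha1, ha2, ha3⟩ := (mem_val (U := U) (N := N)).1 hz
    have ha2' : x'.fn a ∈ N := ha2
    have ha1' : x'.vl a ⊓ hval φ (cns (x'.fn a) (asg l)) ∈ U.s := ha1
    have ha3' : val U N z' = val U N (x'.fn a) := ha3
    have h1 := (Ult_inf U).1 ha1'
    refine ⟨(mem_val (U := U) (N := N)).2 ⟨a, h1.1, ha2', ha3'⟩, ?_⟩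
    have h2 := (truth_par h hN φ v hl hlv ha2').2 h1.2
    have h3 : (⟨val U N z', z', hz', rfl⟩ : Mod U N) = ⟨val U N (x'.fn a), _, ha2', rfl⟩ :=
      Subtype.ext ha3'
    rw [h3]
    exact h2
  · rintro ⟨hz, hs⟩
    obtain ⟨a, ha1, ha2, ha3⟩ := (mem_val (U := U) (N := N)).1 hz
    have h3 : (⟨val U N z', z', hz', rfl⟩ : Mod U N) = ⟨val U N (x'.fn a), _, ha2, rfl⟩ :=
      Subtype.ext ha3
    rw [h3] at hs
    have h2 := (truth_par h hN φ v hl hlv ha2).1 hs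
    refine (mem_val (U := U) (N := N)).2 ⟨a, ?_, ha2, ha3⟩
    exact (Ult_inf U).2 ⟨ha1, h2⟩

theorem M_power (h : Mdl R U N) (x : Mod U N) :
    ∃ y, ∀ z, Em (Mod U N) z y ↔ ∀ w, Em (Mod U N) w z → Em (Mod U N) w x := by
  obtain ⟨x0, x', hx', rfl⟩ := x
  refine ⟨⟨val U N (pwH x'), _, h.pw x' hx', rfl⟩, fun z => ?_⟩
  obtain ⟨z0, z', hz', rfl⟩ := z
  constructor
  · intro hz w hw
    obtain ⟨c, hc1, hc2, hc3⟩ := (mem_val (U := U) (N := N)).1 hz
    have hc3' : val U N z' = val U N ((pwH x').fn c) := hc3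
    have hw' : w.1 ∈ val U N z' := hw
    rw [hc3'] at hw'
    obtain ⟨a, ha1, ha2, ha3⟩ := (mem_val (U := U) (N := N)).1 hw'
    have ha1' : c.1 a ⊓ x'.vl a ∈ U.s := ha1
    exact (mem_val (U := U) (N := N)).2 ⟨a, ((Ult_inf U).1 ha1').2, ha2, ha3⟩
  · intro hz
    have hr : rsN x' z' ∈ N := h.rs x' hx' z' hz'
    have hv : val U N (rsN x' z') = val U N z' := by
      refine ZFSet.ext fun t => ?_
      rw [mem_val_rsN h hx' hz']
      constructor
      · exact fun ht => ht.2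
      · intro ht
        have htM : t ∈ Mod U N := Mod_trans _ ⟨z', hz', rfl⟩ t ht
        exact ⟨hz ⟨t, htM⟩ ht, ht⟩
    refine (mem_val (U := U) (N := N)).2
      ⟨(⟨fun a => mem (x'.fn a) z', h.hs _ hr⟩ : {c : x'.ty → B //
        HS (⟨x'.ty, x'.fn, fun a => c a ⊓ x'.vl a⟩ : BSet B)}), U.top, hr, hv.symm⟩

end Rnd
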