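import Pool.Agent.Rnd.MTr
import Pool.Agent.Rnd.HVal
import Pool.Agent.Rnd.HMix

/-! # Truth lemma for formulas (package M8)

(problem MP_564ab4_lc, project RND, architect helper69)

Black boxes: `MTr.lean`, `HVal.lean`, `HMix.lean` (`mx_eq`). `Em M` is the membership relation of the transitive set `M`; `vM` is the assignment of the values of the names `v i`.

* `truth`: induction on `φ` for all `v`. `mem`, `eq`: `truth_mem`, `truth_eq` (`Subtype.ext_iff`). `bot`: `U.bot`. `imp`: `Ult_himp`.
  `all φ`: note that `cns ⟨val x, _⟩ (vM v) = vM (cns x v)` (`funext`, `cases`) for `x ∈ N`, and every element of `Mod U N` is `⟨val x, _⟩` with `x ∈ N`. (`←`) if `⨅ x, hval φ (cns x v) ∈ U` then for every `x ∈ N` (which is in `HS`: `Mdl.hs`) `hval φ (cns x v) ∈ U` (`U.up`, `iInf_le`). (`→`) suppose `⨅ x, hval φ (cns x v) ∉ U`, so its complement `⨆ x : {x // HS x}, hval φ.no (cns x v)` is in `U` (`compl_iInf`, `hval_no`). Let `k := bd φ`, `l := (List.range k).map v`, so `asg l i = v i` for `i < k` (`List.getD`,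 `List.getElem_map`, `List.getElem_range`), all elements of `l` are in `N`, and `w := wN φ.no l ∈ N` (`Mdl.wit`). By `hval_bd`: `hval φ.no (cns x (asg l)) = hval φ.no (cns x v)` for all `x` (`bd φ.no = bd φ`; `cns x (asg l) i = cns x v i` for `i < k`). By `mx_eq` (`hval_ext`): `hval φ.no (cns w v) = ⨆ x : {x // HS x}, hval φ.no (cns x v) ∈ U`, so `hval φ (cns w v) ∉ U`, and by the induction hypothesis `sat φ (cns (val w) (vM v))` fails.
* `asg_mem`, `cns_mem`: cases. `truth_par`: the assignment `cns ⟨val x, _⟩ v` agrees with `vM U (v := cns x (asg l))` for all `i < bd φ` (cases on `i`), so `sat_bd` (file `HVal.lean`) and `truth`. `truth_par2`: the same with two values.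
* `exists_names`: for every assignment `v : ℕ → Mod U N` and every `k` there is a list `l` of names in `N` with `val (asg l i) = v i` for `i < k`: choose names `u i ∈ N` for `v i` and put `l := (List.range k).map u`. -/

namespace Rnd

open STP BSet

/-- the membership relation of `M` -/
def Em (M : Set ZFSet.{0}) (x y : M) : Prop := x.1 ∈ y.1

variable {B : Type} [CompleteBooleanAlgebra B]

/-- the assignment of the values of the names `v i` -/
noncomputable def vM (U : Ult B) {N : Set (BSet B)} {v : ℕ → BSet B} (hv : ∀ i, v i ∈ N) :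
    ℕ → Mod U N := fun i => ⟨val U N (v i), v i, hv i, rfl⟩

private theorem asg_range (v : ℕ → BSet B) (k i : ℕ) (hi : i < k) :
    asg ((List.range k).map v) i = v i := by
  unfold asg
  rw [List.getD_eq_getElem _ _ (by simpa using hi)]
  simp

variable [FlipAlg B] {R : BSet B → BSet B → Set (ℕ → B)} {U : Ult B} {N : Set (BSet B)}

omit [FlipAlg B] in
private theorem cns_mem' {x : BSet B} {v : ℕ → BSet B} (hx : x ∈ N) (hv : ∀ i, v i ∈ N) (i : ℕ) :
    cns x v i ∈ N := by
  cases i with
  | zero => exact hx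
  | succ i => exact hv i

omit [FlipAlg B] in
private theorem vM_cns {x : BSet B} {v : ℕ → BSet B} (hx : x ∈ N) (hv : ∀ i, v i ∈ N) :
    cns (⟨val U N x, x, hx, rfl⟩ : Mod U N) (vM U hv) = vM U (cns_mem' hx hv) := by
  funext i
  cases i <;> rfl

theorem truth (h : Mdl R U N) (φ : Fml) {v : ℕ → BSet B} (hv : ∀ i, v i ∈ N) :
    sat (Em (Mod U N)) φ (vM U hv) ↔ hval φ v ∈ U.s := by
  induction φ generalizing v with
  | mem i j => exact truth_mem h (hv i) (hv j)
  | eq i j =>
    change vM U hv i = vM U hv j ↔ BSet.eq (v i) (v j) ∈ U.s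
    rw [← truth_eq h (hv i) (hv j), Subtype.ext_iff]
    exact Iff.rfl
  | bot => exact ⟨fun h => h.elim, fun h => U.bot h⟩
  | imp φ ψ h1 h2 =>
    change (sat (Em (Mod U N)) φ (vM U hv) → sat (Em (Mod U N)) ψ (vM U hv)) ↔
      (hval φ v ⇨ hval ψ v) ∈ U.s
    rw [h1, h2, Ult_himp]
  | all φ h1 =>
    change (∀ a, sat (Em (Mod U N)) φ (cns a (vM U hv))) ↔
      (⨅ x : {x : BSet B // HS x}, hval φ (cns x.1 v)) ∈ U.s
    constructor
    · intro hall
      by_contra hcon
      have h2 : (⨆ x : {x : BSet B // HS x}, hval φ.no (cns x.1 v)) ∈ U.s := by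
        have h3 := (Ult_compl U).2 hcon
        rw [compl_iInf] at h3
        refine U.up h3 (iSup_mono fun x => ?_)
        rw [hval_no]
      have hl : ∀ z ∈ (List.range (bd φ)).map v, z ∈ N := by
        intro z hz
        obtain ⟨i, -, rfl⟩ := List.mem_map.1 hz
        exact hv i
      have hw := h.wit φ.no _ hl
      have hag : ∀ x i, i < bd φ.no → cns x (asg ((List.range (bd φ)).map v)) i = cns x v i := by
        intro x i hi
        cases i with
        | zero => rfl
        | succ i =>
          refine asg_range v _ i ?_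
          have h5 : bd φ.no = bd φ := by
            change max (bd φ) 0 = bd φ
            omega
          omega
      have h4 : hval φ.no (cns (wN φ.no ((List.range (bd φ)).map v)) v) ∈ U.s := by
        rw [← hval_bd φ.no _ _ (hag _)]
        have h6 := mx_eq (hval_ext φ.no (asg ((List.range (bd φ)).map v)))
        change hval φ.no (cns (mx _) _) ∈ U.s
        rw [h6]
        refine U.up h2 (iSup_mono fun x => ?_)
        rw [hval_bd φ.no _ _ (hag x.1)]
      rw [hval_no, Ult_compl] at h4
      refine h4 ((h1 (cns_mem' hw hv)).1 ?_)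
      rw [← vM_cns hw hv]
      exact hall _
    · rintro hall ⟨_, x, hx, rfl⟩
      rw [vM_cns hx hv, h1]
      exact U.up hall (iInf_le (fun x : {x : BSet B // HS x} => hval φ (cns x.1 v)) ⟨x, h.hs x hx⟩)

omit [FlipAlg B] in
theorem asg_mem (hN : emN ∈ N) {l : List (BSet B)} (hl : ∀ z ∈ l, z ∈ N) (i : ℕ) :
    asg l i ∈ N := by
  induction l generalizing i with
  | nil => exact hN
  | cons z l ih =>
    rw [asg_cons]
    exact cns_mem' (hl z List.mem_cons_self)
      (fun i => ih (fun z' hz' => hl z' (List.mem_cons_of_mem _ hz')) i) i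

omit [FlipAlg B] in
theorem cns_mem {x : BSet B} {v : ℕ → BSet B} (hx : x ∈ N) (hv : ∀ i, v i ∈ N) (i : ℕ) :
    cns x v i ∈ N := cns_mem' hx hv i

omit [FlipAlg B] in
theorem exists_names (v : ℕ → Mod U N) (k : ℕ) :
    ∃ l : List (BSet B), (∀ z ∈ l, z ∈ N) ∧ ∀ i, i < k → val U N (asg l i) = (v i).1 := by
  choose u hu huv using fun i => (v i).2
  refine ⟨(List.range k).map u, fun z hz => ?_, fun i hi => ?_⟩
  · obtain ⟨i, -, rfl⟩ := List.mem_map.1 hz
    exact hu i
  · rw [asg_range u k i hi]
    exact huv i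

/-- satisfaction in the model with parameters given by a list of names -/
theorem truth_par (h : Mdl R U N) (hN : emN ∈ N) (φ : Fml) (v : ℕ → Mod U N)
    {l : List (BSet B)} (hl : ∀ z ∈ l, z ∈ N) (hv : ∀ i, i < bd φ → val U N (asg l i) = (v i).1)
    {x : BSet B} (hx : x ∈ N) :
    sat (Em (Mod U N)) φ (cns ⟨val U N x, x, hx, rfl⟩ v) ↔ hval φ (cns x (asg l)) ∈ U.s := by
  rw [← truth h φ (cns_mem hx (asg_mem hN hl))]
  refine sat_bd _ φ _ _ fun i hi => ?_
  cases i with
  | zero => rfl
  | succ i => exact Subtype.ext (hv i (by omega)).symm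

theorem truth_par2 (h : Mdl R U N) (hN : emN ∈ N) (φ : Fml) (v : ℕ → Mod U N)
    {l : List (BSet B)} (hl : ∀ z ∈ l, z ∈ N) (hv : ∀ i, i < bd φ → val U N (asg l i) = (v i).1)
    {x y : BSet B} (hx : x ∈ N) (hy : y ∈ N) :
    sat (Em (Mod U N)) φ (cns ⟨val U N y, y, hy, rfl⟩ (cns ⟨val U N x, x, hx, rfl⟩ v)) ↔
      hval φ (cns y (cns x (asg l))) ∈ U.s := by
  rw [← truth h φ (cns_mem hy (cns_mem hx (asg_mem hN hl)))]
  refine sat_bd _ φ _ _ fun i hi => ?_
  rcases i with - | - | i
  · rfl
  · rfl
  · exact Subtype.ext (hv i (by omega)).symm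

end Rnd
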