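import Pool.Agent.Rnd.Defs
import Pool.Agent.Rnd.FA
import Pool.Agent.STP.ZSep

/-! # Symmetric names, values, the countable hull (definitions)

(problem MP_564ab4_lc, project RND; no sorry in this file) -/

namespace Rnd

open STP BSet

variable {B : Type} [CompleteBooleanAlgebra B]

/-! ### Names -/

/-- the empty name -/
def emN : BSet B := ⟨Empty, Empty.elim, Empty.elim⟩

/-- the name of the numeral `n` -/
def nn : ℕ → BSet B
  | 0 => emN
  | n + 1 => ⟨Option (nn n).ty, fun o => o.elim (nn n) (nn n).fn, fun _ => ⊤⟩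

/-- the name of `ω` -/
def omN : BSet B := ⟨ℕ, nn, fun _ => ⊤⟩

/-- the ordered pair -/
def opN (x y : BSet B) : BSet B := upN (upN x x) (upN x y)

/-- the name of the sequence `s` -/
def sqN (s : ℕ → BSet B) : BSet B := ⟨ℕ, fun n => opN (nn n) (s n), fun _ => ⊤⟩

/-- the name of the subset `{n : p n}` of `ω` -/
def sbN (p : ℕ → B) : BSet B := ⟨ℕ, nn, p⟩

/-- the name of the relation `{(n, m) : p n m}` -/
def rlN (p : ℕ → ℕ → B) : BSet B := ⟨ℕ × ℕ, fun q => opN (nn q.1) (nn q.2), fun q => p q.1 q.2⟩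

/-- the elements of `x` which belong to `y` -/
def rsN (x y : BSet B) : BSet B := ⟨x.ty, x.fn, fun a => mem (x.fn a) y ⊓ x.vl a⟩

/-- the assignment given by a list (the empty set for the remaining variables) -/
def asg (l : List (BSet B)) : ℕ → BSet B := fun i => l.getD i emN

omit [CompleteBooleanAlgebra B] in
theorem asg_cons (x : BSet B) (l : List (BSet B)) : asg (x :: l) = cns x (asg l) := by
  funext i
  cases i <;> rfl

variable [FlipAlg B]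

/-- the action of a flip on the names -/
def actN (e : Fl) : BSet B → BSet B
  | ⟨α, A, φ⟩ => ⟨α, fun a => actN e (A a), fun a => act e (φ a)⟩

/-- symmetric names -/
def Sym (x : BSet B) : Prop :=
  ∃ S : Set J, S.Countable ∧ ∀ e, Fx S e → BSet.eq (actN e x) x = ⊤

/-- hereditarily symmetric names -/
def HS : BSet B → Prop
  | ⟨α, A, φ⟩ => Sym (⟨α, A, φ⟩ : BSet B) ∧ ∀ a, HS (A a)

theorem HS_iff (x : BSet B) : HS x ↔ Sym x ∧ ∀ a, HS (x.fn a) := by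
  cases x
  exact Iff.rfl

/-- the value of a formula in the symmetric model -/
def hval : Fml → (ℕ → BSet B) → B
  | .mem i j, v => mem (v i) (v j)
  | .eq i j, v => BSet.eq (v i) (v j)
  | .bot, _ => ⊥
  | .imp φ ψ, v => hval φ v ⇨ hval ψ v
  | .all φ, v => ⨅ x : {x : BSet B // HS x}, hval φ (cns x.1 v)

/-- a hereditarily symmetric name at which `Φ` is maximal -/
noncomputable def mx (Φ : BSet B → B) : BSet B :=
  open scoped Classical in
  if h : ∃ x, HS x ∧ ∀ y, HS y → Φ y ≤ Φ x then h.choose else emN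

/-- the witness for `∃ w, φ(w, l)` -/
noncomputable def wN (φ : Fml) (l : List (BSet B)) : BSet B := mx fun w => hval φ (cns w (asg l))

/-- the power set -/
def pwH (x : BSet B) : BSet B :=
  ⟨{c : x.ty → B // HS (⟨x.ty, x.fn, fun a => c a ⊓ x.vl a⟩ : BSet B)},
    fun c => ⟨x.ty, x.fn, fun a => c.1 a ⊓ x.vl a⟩, fun _ => ⊤⟩

/-- the collection name -/
def coH (x : BSet B) (W : x.ty → BSet B) : BSet B :=
  ⟨x.ty × Fl, fun r => actN r.2 (W r.1), fun _ => ⊤⟩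

/-- a successor of `u` in `x` for the relation `r` -/
noncomputable def dcW (u x r : BSet B) : BSet B := mx fun w => mem w x ⊓ mem (opN u w) r

/-- the sequence of the successors -/
noncomputable def dcS (u x r : BSet B) : ℕ → BSet B
  | 0 => u
  | n + 1 => dcW (dcS u x r n) x r

/-! ### Coordinates outside of the support -/

/-- `i` is outside of the support of `u` -/
def Free (u : BSet B) (i : ℕ → Bool) : Prop :=
  ∀ e : Fl, (∀ j : J, j.1 ≠ i → e j = false) → BSet.eq (actN e u) u = ⊤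

/-- an index outside of the support of `u` -/
noncomputable def iU (u : BSet B) : ℕ → Bool :=
  open scoped Classical in
  if h : ∃ i, Free u i then h.choose else fun _ => true

/-- the bits of the coordinate `i` (`s = true`) or their complements (`s = false`) -/
def xg (i : ℕ → Bool) (s : Bool) : ℕ → B :=
  fun n => if s then FlipAlg.gen (i, n) else (FlipAlg.gen (i, n))ᶜ

/-- the flip of all bits `(i, n)`, `n ∉ E` -/
noncomputable def eE (i : ℕ → Bool) (E : Finset ℕ) : Fl :=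
  open scoped Classical in fun j => decide (j.1 = i ∧ j.2 ∉ E)

/-- the flip of the bit `(i, m)` -/
noncomputable def dl (i : ℕ → Bool) (m : ℕ) : Fl :=
  open scoped Classical in fun j => decide (j = (i, m))

/-- the point of `2^ω` given by the bits of the coordinate `i` -/
def gb (i : ℕ → Bool) : ℕ → ℕ → B :=
  fun n m => if m = 0 then (FlipAlg.gen (i, n))ᶜ else if m = 1 then FlipAlg.gen (i, n) else ⊥

/-- the value of `t(m) = ` the bit `(i, m)` -/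
def agr (t : BSet B) (i : ℕ → Bool) (m : ℕ) : B :=
  (mem (opN (nn m) (nn 1)) t ⊓ FlipAlg.gen (i, m)) ⊔
    (mem (opN (nn m) (nn 0)) t ⊓ (FlipAlg.gen (i, m))ᶜ)

/-- the value of `t ∈ u` and `t(m) = ` the bit `(i, m)` for `i = iU u` and all `m ≥ n` -/
noncomputable def cE (u t : BSet B) (n : ℕ) : B := mem t u ⊓ ⨅ m, agr t (iU u) (n + m)

/-! ### Reals -/

omit [FlipAlg B] in
/-- the sequence of partitions of unity given by the name `x` -/
def pX (x : BSet B) : ℕ → ℕ → B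
  | n, 0 => mem (opN (nn n) (nn 0)) x ⊔ (⨆ m, mem (opN (nn n) (nn m)) x)ᶜ
  | n, m + 1 => mem (opN (nn n) (nn (m + 1))) x ⊓
      (⨆ k : Fin (m + 1), mem (opN (nn n) (nn k)) x)ᶜ

/-- partitions of unity -/
def IsPart (p : ℕ → ℕ → B) : Prop :=
  ∀ n, (∀ m m', m ≠ m' → p n m ⊓ p n m' = ⊥) ∧ ⨆ m, p n m = ⊤

/-! ### The model -/

/-- the value of a name (relative to the set `N` of names and the ultrafilter `U`) -/
noncomputable def val (U : Ult B) (N : Set (BSet B)) : BSet B → ZFSet.{0}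
  | ⟨α, A, φ⟩ => ZFSet.range (fun a : {a : α // φ a ∈ U.s ∧ A a ∈ N} => val U N (A a.1))

/-- the model -/
def Mod (U : Ult B) (N : Set (BSet B)) : Set ZFSet.{0} := val U N '' N

/-- the set `N` of names is closed under all operations which are used in the construction, the
ultrafilter `U` preserves all suprema which are used -/
structure Mdl (R : BSet B → BSet B → Set (ℕ → B)) (U : Ult B) (N : Set (BSet B)) : Prop where
  cnt : N.Countable
  hs : ∀ x ∈ N, HS x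
  om : omN ∈ N
  ch : ∀ x ∈ N, Countable x.ty → ∀ a, x.fn a ∈ N
  up : ∀ x ∈ N, ∀ y ∈ N, upN x y ∈ N
  un : ∀ x ∈ N, unN x ∈ N
  sp : ∀ φ l, (∀ z ∈ l, z ∈ N) → ∀ x ∈ N, sepN x (fun z => hval φ (cns z (asg l))) ∈ N
  pw : ∀ x ∈ N, pwH x ∈ N
  rs : ∀ x ∈ N, ∀ y ∈ N, rsN x y ∈ N
  wit : ∀ φ l, (∀ z ∈ l, z ∈ N) → wN φ l ∈ N
  co : ∀ φ l, (∀ z ∈ l, z ∈ N) → ∀ x ∈ N, coH x (fun a => wN φ (x.fn a :: l)) ∈ N
  dcw : ∀ u ∈ N, ∀ x ∈ N, ∀ r ∈ N, dcW u x r ∈ N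
  dcq : ∀ u ∈ N, ∀ x ∈ N, ∀ r ∈ N, sqN (dcS u x r) ∈ N
  gmem : ∀ x ∈ N, ∀ y ∈ N, mem x y ∈ U.s →
    ∃ b : y.ty, y.fn b ∈ N ∧ y.vl b ⊓ BSet.eq x (y.fn b) ∈ U.s
  gneq : ∀ x ∈ N, ∀ y ∈ N, (⨆ b : y.ty, y.vl b ⊓ (mem (y.fn b) x)ᶜ) ∈ U.s →
    ∃ b : y.ty, y.fn b ∈ N ∧ y.vl b ⊓ (mem (y.fn b) x)ᶜ ∈ U.s
  uf1 : ∀ u ∈ N, ∀ s, sbN (xg (iU u) s) ∈ N
  uf2 : ∀ u ∈ N, ∀ s E, actN (eE (iU u) E) (sbN (xg (iU u) s)) ∈ N
  uf3 : ∀ u ∈ N, ∀ s, mem (sbN (xg (iU u) s)) u ∈ U.s →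
    ∃ E : Finset ℕ, act (eE (iU u) E) (mem (sbN (xg (iU u) s)) u) ∈ U.s
  eo1 : ∀ u ∈ N, rlN (gb (iU u)) ∈ N
  eo2 : ∀ u ∈ N, ∀ t ∈ N, ∀ m, actN (dl (iU u) m) t ∈ N
  eo3 : ∀ u ∈ N, ∀ t ∈ N, ∀ n, (∀ m, agr t (iU u) (n + m) ∈ U.s) →
    (⨅ m, agr t (iU u) (n + m)) ∈ U.s
  eo4 : ∀ u ∈ N, ∀ t ∈ N, ∀ n, cE u t n ∈ U.s →
    ∃ m, act (dl (iU u) (n + m)) (cE u t n) ∈ U.s
  rl : ∀ x ∈ N, rlN (pX x) ∈ N
  gre : ∀ x ∈ N, ∀ n, (⨆ m, mem (opN (nn n) (nn m)) x) ∈ U.s →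
    ∃ m, mem (opN (nn n) (nn m)) x ∈ U.s
  bor : ∀ x ∈ N, ∀ y ∈ N, ∀ s ∈ R x y, (⨆ n, s n) ∈ U.s → ∃ n, s n ∈ U.s

end Rnd
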