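import Pool.Agent.Rnd.FA

/-! # The measure algebra of the fair coin measure (definition, Boolean algebra)

(problem MP_564ab4_lc, project RND; no sorry in this file) -/

namespace Rnd

open MeasureTheory ENNReal

/-- the fair coin -/
noncomputable def coin : Measure Bool :=
  (2 : ℝ≥0∞)⁻¹ • (Measure.dirac true + Measure.dirac false)

instance : IsProbabilityMeasure coin := by
  constructor
  unfold coin
  simp only [Measure.smul_apply, Measure.add_apply, measure_univ, smul_eq_mul]
  rw [one_add_one_eq_two]
  exact ENNReal.inv_mul_cancel (by norm_num) (by norm_num)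

/-- the product of the fair coins -/
noncomputable def mu : Measure (J → Bool) := Measure.infinitePi fun _ => coin

instance : IsProbabilityMeasure mu := by
  unfold mu
  infer_instance

/-- measurable sets up to null sets -/
def mset : Setoid {A : Set (J → Bool) // MeasurableSet A} where
  r A A' := A.1 =ᵐ[mu] A'.1
  iseqv := ⟨fun _ => Filter.EventuallyEq.rfl, fun h => h.symm, fun h h' => h.trans h'⟩

/-- the measure algebra -/
def MA : Type := Quotient mset

/-- the class of a measurable set -/
noncomputable def cl (A : Set (J → Bool)) : MA :=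
  open scoped Classical in
  if h : MeasurableSet A then Quotient.mk mset ⟨A, h⟩ else Quotient.mk mset ⟨∅, MeasurableSet.empty⟩

theorem cl_def {A : Set (J → Bool)} (h : MeasurableSet A) : cl A = Quotient.mk mset ⟨A, h⟩ :=
  dif_pos h

theorem exists_cl (b : MA) : ∃ A, MeasurableSet A ∧ cl A = b := by
  induction b using Quotient.inductionOn with
  | h A => exact ⟨A.1, A.2, cl_def A.2⟩

namespace MA

/-- the order of the measure algebra -/
protected def le : MA → MA → Prop :=
  Quotient.lift₂ (fun A A' => A.1 ≤ᵐ[mu] A'.1) (by
    intro A A' C C' h h'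
    have h : A.1 =ᵐ[mu] C.1 := h
    have h' : A'.1 =ᵐ[mu] C'.1 := h'
    exact propext ⟨fun h1 => h.symm.le.trans (h1.trans h'.le),
      fun h1 => h.le.trans (h1.trans h'.symm.le)⟩)

/-- union -/
protected def sup : MA → MA → MA :=
  Quotient.map₂ (fun A A' => ⟨A.1 ∪ A'.1, A.2.union A'.2⟩)
    (fun _ _ h _ _ h' => (ae_eq_set_union h h' : _))

/-- intersection -/
protected def inf : MA → MA → MA :=
  Quotient.map₂ (fun A A' => ⟨A.1 ∩ A'.1, A.2.inter A'.2⟩)
    (fun _ _ h _ _ h' => (ae_eq_set_inter h h' : _))

/-- complement -/
protected def compl : MA → MA :=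
  Quotient.map (fun A => ⟨A.1ᶜ, A.2.compl⟩) (fun _ _ h => (ae_eq_set_compl_compl.2 h : _))

instance : PartialOrder MA where
  le := MA.le
  le_refl a := by
    induction a using Quotient.inductionOn with
    | h A => exact Filter.EventuallyLE.refl _ _
  le_trans a b c := by
    induction a using Quotient.inductionOn with
    | h A =>
      induction b using Quotient.inductionOn with
      | h A' =>
        induction c using Quotient.inductionOn with
        | h A'' => exact fun h h' => Filter.EventuallyLE.trans h h'
  le_antisymm a b := by
    induction a using Quotient.inductionOn with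
    | h A =>
      induction b using Quotient.inductionOn with
      | h A' =>
        exact fun h h' => Quotient.sound (Filter.EventuallyLE.antisymm h h')

theorem le_mk {A A' : {A : Set (J → Bool) // MeasurableSet A}} :
    @LE.le MA _ (Quotient.mk mset A) (Quotient.mk mset A') ↔ A.1 ≤ᵐ[mu] A'.1 := Iff.rfl

instance : BooleanAlgebra MA where
  toPartialOrder := inferInstance
  sup := MA.sup
  inf := MA.inf
  compl := MA.compl
  top := Quotient.mk mset ⟨Set.univ, MeasurableSet.univ⟩
  bot := Quotient.mk mset ⟨∅, MeasurableSet.empty⟩
  le_sup_left a b := by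
    induction a, b using Quotient.inductionOn₂ with
    | h A A' => exact Filter.Eventually.of_forall fun ω h => Or.inl h
  le_sup_right a b := by
    induction a, b using Quotient.inductionOn₂ with
    | h A A' => exact Filter.Eventually.of_forall fun ω h => Or.inr h
  sup_le a b c := by
    induction a, b using Quotient.inductionOn₂ with
    | h A A' =>
      induction c using Quotient.inductionOn with
      | h A'' =>
        intro h1 h2
        have h1 : A.1 ≤ᵐ[mu] A''.1 := h1
        have h2 : A'.1 ≤ᵐ[mu] A''.1 := h2
        change (A.1 ∪ A'.1 : Set _) ≤ᵐ[mu] A''.1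
        filter_upwards [h1, h2] with ω h3 h4 h5
        exact h5.elim h3 h4
  inf_le_left a b := by
    induction a, b using Quotient.inductionOn₂ with
    | h A A' => exact Filter.Eventually.of_forall fun ω h => h.1
  inf_le_right a b := by
    induction a, b using Quotient.inductionOn₂ with
    | h A A' => exact Filter.Eventually.of_forall fun ω h => h.2
  le_inf a b c := by
    induction a, b using Quotient.inductionOn₂ with
    | h A A' =>
      induction c using Quotient.inductionOn with
      | h A'' =>
        intro h1 h2
        have h1 : A.1 ≤ᵐ[mu] A'.1 := h1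
        have h2 : A.1 ≤ᵐ[mu] A''.1 := h2
        change A.1 ≤ᵐ[mu] (A'.1 ∩ A''.1 : Set _)
        filter_upwards [h1, h2] with ω h3 h4 h5
        exact ⟨h3 h5, h4 h5⟩
  le_sup_inf a b c := by
    induction a, b using Quotient.inductionOn₂ with
    | h A A' =>
      induction c using Quotient.inductionOn with
      | h A'' =>
        refine Filter.Eventually.of_forall fun ω h => ?_
        rcases h.1 with h1 | h1
        · exact Or.inl h1
        · rcases h.2 with h2 | h2
          · exact Or.inl h2
          · exact Or.inr ⟨h1, h2⟩
  inf_compl_le_bot a := by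
    induction a using Quotient.inductionOn with
    | h A => exact Filter.Eventually.of_forall fun ω h => h.2 h.1
  top_le_sup_compl a := by
    induction a using Quotient.inductionOn with
    | h A => exact Filter.Eventually.of_forall fun ω _ => em _
  le_top a := by
    induction a using Quotient.inductionOn with
    | h A => exact Filter.Eventually.of_forall fun ω _ => trivial
  bot_le a := by
    induction a using Quotient.inductionOn with
    | h A => exact Filter.Eventually.of_forall fun ω h => h.elim

end MA

theorem cl_le {A A' : Set (J → Bool)} (h : MeasurableSet A) (h' : MeasurableSet A') :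
    cl A ≤ cl A' ↔ A ≤ᵐ[mu] A' := by
  rw [cl_def h, cl_def h']
  exact MA.le_mk

theorem cl_eq {A A' : Set (J → Bool)} (h : MeasurableSet A) (h' : MeasurableSet A') :
    cl A = cl A' ↔ A =ᵐ[mu] A' := by
  rw [le_antisymm_iff, cl_le h h', cl_le h' h]
  exact ⟨fun h => h.1.antisymm h.2, fun h => ⟨h.le, h.symm.le⟩⟩

theorem cl_union {A A' : Set (J → Bool)} (h : MeasurableSet A) (h' : MeasurableSet A') :
    cl (A ∪ A') = cl A ⊔ cl A' := by
  rw [cl_def h, cl_def h', cl_def (h.union h')]
  rfl

theorem cl_inter {A A' : Set (J → Bool)} (h : MeasurableSet A) (h' : MeasurableSet A') :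
    cl (A ∩ A') = cl A ⊓ cl A' := by
  rw [cl_def h, cl_def h', cl_def (h.inter h')]
  rfl

theorem cl_compl {A : Set (J → Bool)} (h : MeasurableSet A) : cl Aᶜ = (cl A)ᶜ := by
  rw [cl_def h, cl_def h.compl]
  rfl

theorem cl_empty : cl ∅ = ⊥ := cl_def MeasurableSet.empty

theorem cl_univ : cl Set.univ = ⊤ := cl_def MeasurableSet.univ

theorem cl_eq_bot {A : Set (J → Bool)} (h : MeasurableSet A) : cl A = ⊥ ↔ mu A = 0 := by
  rw [← cl_empty, cl_eq h MeasurableSet.empty, ae_eq_empty]

end Rnd
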