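import Pool.Agent.Rnd.RA

/-! # The measure algebra is complete

(problem MP_564ab4_lc, project RND; no sorry in this file) -/

namespace Rnd

open MeasureTheory ENNReal

theorem exists_seq_lub (S : Set MA) : ∃ A : ℕ → Set (J → Bool), (∀ n, MeasurableSet (A n)) ∧
    (∀ n, A n = ∅ ∨ cl (A n) ∈ S) ∧ IsLUB S (cl (⋃ n, A n)) := by
  classical
  let T : Set (ℕ → Set (J → Bool)) :=
    {A | (∀ n, MeasurableSet (A n)) ∧ ∀ n, A n = ∅ ∨ cl (A n) ∈ S}
  have hT0 : (fun _ => ∅) ∈ T := ⟨fun _ => MeasurableSet.empty, fun _ => Or.inl rfl⟩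
  let m : ℝ≥0∞ := sSup ((fun A : ℕ → Set (J → Bool) => mu (⋃ n, A n)) '' T)
  have hne : ((fun A : ℕ → Set (J → Bool) => mu (⋃ n, A n)) '' T).Nonempty := ⟨_, _, hT0, rfl⟩
  obtain ⟨u, -, hu, huT⟩ := exists_seq_tendsto_sSup hne (OrderTop.bddAbove _)
  choose v hv hvu using huT
  let A : ℕ → Set (J → Bool) := fun n => v (Nat.unpair n).1 (Nat.unpair n).2
  have hAT : A ∈ T := ⟨fun n => (hv _).1 _, fun n => (hv _).2 _⟩
  have hle : m ≤ mu (⋃ n, A n) := by
    refine le_of_tendsto hu (Filter.Eventually.of_forall fun k => ?_)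
    rw [← hvu k]
    refine measure_mono (Set.iUnion_subset fun n => ?_)
    refine Set.Subset.trans ?_ (Set.subset_iUnion _ (Nat.pair k n))
    change v k n ⊆ v (Nat.unpair (Nat.pair k n)).1 (Nat.unpair (Nat.pair k n)).2
    rw [Nat.unpair_pair]
  refine ⟨A, hAT.1, hAT.2, ?_, ?_⟩
  · intro a ha
    obtain ⟨C, hC, rfl⟩ := exists_cl a
    let A' : ℕ → Set (J → Bool) := fun n => Nat.casesOn n C A
    have hA' : A' ∈ T := by
      refine ⟨fun n => ?_, fun n => ?_⟩
      · cases n with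
        | zero => exact hC
        | succ n => exact hAT.1 n
      · cases n with
        | zero => exact Or.inr ha
        | succ n => exact hAT.2 n
    have h1 : mu (⋃ n, A' n) ≤ m := le_sSup ⟨A', hA', rfl⟩
    have h2 : (⋃ n, A n) ⊆ ⋃ n, A' n :=
      Set.iUnion_subset fun n => Set.subset_iUnion A' (n + 1)
    have h3 : C ⊆ ⋃ n, A' n := Set.subset_iUnion A' 0
    have h4 : (⋃ n, A n : Set _) =ᵐ[mu] (⋃ n, A' n : Set _) :=
      ae_eq_of_subset_of_measure_ge h2 (h1.trans hle)
        (MeasurableSet.iUnion hAT.1).nullMeasurableSet (measure_ne_top _ _)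
    rw [cl_le hC (MeasurableSet.iUnion hAT.1)]
    have h5 : C ≤ᵐ[mu] (⋃ n, A' n : Set _) := Filter.Eventually.of_forall h3
    exact Filter.EventuallyLE.trans h5 h4.symm.le
  · intro b hb
    obtain ⟨C, hC, rfl⟩ := exists_cl b
    rw [cl_le (MeasurableSet.iUnion hAT.1) hC]
    have h1 : ∀ n, A n ≤ᵐ[mu] C := by
      intro n
      rcases hAT.2 n with h | h
      · rw [h]
        exact Filter.Eventually.of_forall fun ω h => h.elim
      · exact (cl_le (hAT.1 n) hC).1 (hb h)
    have h2 := ae_all_iff.2 h1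
    filter_upwards [h2] with ω h3 h4
    obtain ⟨n, hn⟩ := Set.mem_iUnion.1 h4
    exact h3 n hn

noncomputable instance : CompleteBooleanAlgebra MA where
  sSup S := cl (⋃ n, (exists_seq_lub S).choose n)
  sInf S := (cl (⋃ n, (exists_seq_lub (compl '' S)).choose n))ᶜ
  isLUB_sSup S := (exists_seq_lub S).choose_spec.2.2
  isGLB_sInf S := by
    constructor
    · intro a ha
      have h1 := (exists_seq_lub (compl '' S)).choose_spec.2.2.1 ⟨a, ha, rfl⟩
      exact compl_le_of_compl_le h1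
    · intro a h
      have h1 : aᶜ ∈ upperBounds (compl '' S) := by
        rintro _ ⟨b, hb, rfl⟩
        exact compl_le_compl (h hb)
      have h2 := (exists_seq_lub (compl '' S)).choose_spec.2.2.2 h1
      exact le_compl_comm.1 h2

end Rnd
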