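import Pool.Agent.Rnd.RB

/-! # Countable suprema in the measure algebra, the action of the flips (definition)

(problem MP_564ab4_lc, project RND; no sorry in this file) -/

namespace Rnd

open MeasureTheory

theorem cl_iUnion {A : ℕ → Set (J → Bool)} (h : ∀ n, MeasurableSet (A n)) :
    cl (⋃ n, A n) = ⨆ n, cl (A n) := by
  refine le_antisymm ?_ (iSup_le fun n => ?_)
  · obtain ⟨C, hC, hCe⟩ := exists_cl (⨆ n, cl (A n))
    rw [← hCe, cl_le (MeasurableSet.iUnion h) hC]
    have h1 : ∀ n, A n ≤ᵐ[mu] C := by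
      intro n
      rw [← cl_le (h n) hC, hCe]
      exact le_iSup (fun n => cl (A n)) n
    have h2 := ae_all_iff.2 h1
    filter_upwards [h2] with ω h3 h4
    obtain ⟨n, hn⟩ := Set.mem_iUnion.1 h4
    exact h3 n hn
  · rw [cl_le (h n) (MeasurableSet.iUnion h)]
    exact Filter.Eventually.of_forall (Set.subset_iUnion A n)

theorem cl_iInter {A : ℕ → Set (J → Bool)} (h : ∀ n, MeasurableSet (A n)) :
    cl (⋂ n, A n) = ⨅ n, cl (A n) := by
  have h1 : (⋂ n, A n) = (⋃ n, (A n)ᶜ)ᶜ := by
    rw [Set.compl_iUnion]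
    simp only [compl_compl]
  rw [h1, cl_compl (MeasurableSet.iUnion fun n => (h n).compl), cl_iUnion fun n => (h n).compl,
    compl_iSup]
  refine iInf_congr fun n => ?_
  rw [cl_compl (h n), compl_compl]

theorem MA_ccc {ι : Type} (f : ι → MA) :
    ∃ s : ℕ → Option ι, (⨆ n, (s n).elim ⊥ f) = ⨆ i, f i := by
  classical
  obtain ⟨A, hA, hAS, hlub⟩ := exists_seq_lub (Set.range f)
  have h1 : ∀ n, ∃ o : Option ι, o.elim ⊥ f = cl (A n) := by
    intro n
    rcases hAS n with h | ⟨i, hi⟩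
    · refine ⟨none, ?_⟩
      rw [h, cl_empty]
      rfl
    · exact ⟨some i, hi⟩
  choose s hs using h1
  refine ⟨s, ?_⟩
  simp only [hs]
  rw [← cl_iUnion hA]
  exact hlub.unique isLUB_iSup

/-- the action of a flip on the measure algebra -/
noncomputable def actM (e : Fl) (b : MA) : MA := cl ((fun ω => xr e ω) ⁻¹' (exists_cl b).choose)

end Rnd
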