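import Pool.Agent.Rnd.RC

/-! # Flips preserve the measure (package RD)

(problem MP_564ab4_lc, project RND)

`mu` is `Measure.infinitePi fun _ => coin`, `xr e ω = fun j => xor (e j) (ω j)`.

* `mp_xr`: each coordinate map `b ↦ xor (e j) b` is measurable and maps `coin` to `coin`
  (`Measure.map_smul`, `Measure.map_add`, `Measure.map_dirac`; for `e j = true` the two Dirac masses are
  exchanged). `Measure.infinitePi_map_pi` (Mathlib, `Mathlib/Probability/ProductMeasure.lean`) gives
  `map (xr e) mu = infinitePi (fun j => map (xor (e j)) coin) = mu`.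
* `actM_cl`: let `C := (exists_cl (cl A)).choose`: `C` measurable with `cl C = cl A`, i.e. `C =ᵐ[mu] A`
  (`cl_eq`). Then `xr e ⁻¹' C =ᵐ[mu] xr e ⁻¹' A` because `xr e` is measure preserving
  (`MeasureTheory.MeasurePreserving.quasiMeasurePreserving`, `QuasiMeasurePreserving.preimage_ae_eq`), so the
  classes agree (`cl_eq`, measurability of the preimages).
* The remaining statements follow from `actM_cl` and `exists_cl`: `actM e (actM e' (cl A)) =
  cl (xr e ⁻¹' (xr e' ⁻¹' A))`, and `xr e' (xr e ω) = xr (xr e e') ω` (compare `xr_assoc`, `xr_comm`;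
  `Fl` and `J → Bool` are the same type). -/

namespace Rnd

open MeasureTheory

private theorem map_coin (b : Bool) : coin.map (fun x : Bool => xor b x) = coin := by
  have hm : Measurable (fun x : Bool => xor b x) := measurable_of_countable _
  unfold coin
  rw [Measure.map_smul, Measure.map_add _ _ hm, Measure.map_dirac' hm, Measure.map_dirac' hm]
  cases b
  · rfl
  · exact congrArg _ (add_comm _ _)

theorem mp_xr (e : Fl) : MeasurePreserving (fun ω : J → Bool => xr e ω) mu mu := by
  have hm : ∀ j, Measurable (fun x : Bool => xor (e j) x) := fun j => measurable_of_countable _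
  refine ⟨measurable_pi_lambda _ fun j => (hm j).comp (measurable_pi_apply j), ?_⟩
  have h1 := Measure.infinitePi_map_pi (fun _ : J => coin) hm
  have h2 : (fun j : J => coin.map (fun x : Bool => xor (e j) x)) = fun _ => coin := by
    funext j
    exact map_coin (e j)
  rw [h2] at h1
  exact h1

theorem actM_cl (e : Fl) {A : Set (J → Bool)} (h : MeasurableSet A) :
    actM e (cl A) = cl ((fun ω => xr e ω) ⁻¹' A) := by
  have hC := (exists_cl (cl A)).choose_spec
  unfold actM
  rw [cl_eq ((mp_xr e).measurable hC.1) ((mp_xr e).measurable h)]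
  exact (mp_xr e).quasiMeasurePreserving.preimage_ae_eq ((cl_eq hC.1 h).1 hC.2)

theorem actM_mono (e : Fl) (a b : MA) (h : a ≤ b) : actM e a ≤ actM e b := by
  obtain ⟨A, hA, rfl⟩ := exists_cl a
  obtain ⟨B, hB, rfl⟩ := exists_cl b
  rw [actM_cl e hA, actM_cl e hB, cl_le ((mp_xr e).measurable hA) ((mp_xr e).measurable hB)]
  rw [cl_le hA hB] at h
  exact (mp_xr e).quasiMeasurePreserving.tendsto_ae.eventually h

theorem actM_fl0 (b : MA) : actM fl0 b = b := by
  obtain ⟨A, hA, rfl⟩ := exists_cl b
  rw [actM_cl fl0 hA]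
  have h1 : (fun ω : J → Bool => xr fl0 ω) = fun ω => ω := by
    funext ω j
    unfold xr fl0
    exact Bool.false_xor (ω j)
  rw [h1]
  rfl

theorem actM_actM (e e' : Fl) (b : MA) : actM e (actM e' b) = actM (xr e e') b := by
  obtain ⟨A, hA, rfl⟩ := exists_cl b
  rw [actM_cl e' hA, actM_cl e ((mp_xr e').measurable hA), actM_cl (xr e e') hA]
  have h1 : ((fun ω : J → Bool => xr e ω) ⁻¹' ((fun ω : J → Bool => xr e' ω) ⁻¹' A)) =
      (fun ω : J → Bool => xr (xr e e') ω) ⁻¹' A := by
    ext ω
    change xr e' (xr e ω) ∈ A ↔ xr (xr e e') ω ∈ A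
    rw [← xr_assoc, xr_comm e' e]
  rw [h1]

theorem actM_gen (e : Fl) (j : J) : actM e (cl {ω | ω j = true}) =
    if e j then (cl {ω | ω j = true})ᶜ else cl {ω | ω j = true} := by
  have hA : MeasurableSet {ω : J → Bool | ω j = true} :=
    (measurable_pi_apply j : Measurable fun ω : J → Bool => ω j) (measurableSet_singleton true)
  rw [actM_cl e hA]
  by_cases h : e j = true
  · rw [if_pos h, ← cl_compl hA]
    congr 1
    ext ω
    change xor (e j) (ω j) = true ↔ ¬ ω j = true
    rw [h]
    cases ω j <;> decide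
  · rw [if_neg h]
    congr 1
    ext ω
    change xor (e j) (ω j) = true ↔ ω j = true
    rw [Bool.not_eq_true] at h
    rw [h]
    cases ω j <;> decide

end Rnd
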