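import Pool.Agent.Rnd.Iy
import Pool.Agent.Rnd.FA7
import Pool.Agent.Rnd.EE

/-! # Theorem A: existence of the model (assembly)

(problem MP_564ab4_lc, project RND; black boxes: `Ix.lean`, `Iy.lean`, `FA4`-`FA7`, `EU`, `EE`)

`N0 := {FN (Γ i) (k i) : i} ∪ {rlN (cst f) : f ∈ P}`, countable, all names HS (`HS_FN`, `HS_rlN`); `exists_Mdl` for the union
of the `RR (Γ i)` (`RR_cnt`). `GoodModel`: `trans_Mod`, `cnt_Mod`, `isZF_Mod`, `dc_Mod`, `no_uf`, `no_e0`.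
For `f ∈ P`: `val U N (rlN (cst f)) = code f` (`val_rlN`). -/

namespace Rnd

open STP BSet MeasureTheory

/-- the canonical name of the function `f` -/
noncomputable def cst (f : ℕ → ℕ) : ℕ → ℕ → MA := fun n m => if f n = m then ⊤ else ⊥

theorem Mdl.mono {B : Type} [CompleteBooleanAlgebra B] [FlipAlg B]
    {R R' : BSet B → BSet B → Set (ℕ → B)} {U : Ult B} {N : Set (BSet B)} (h : Mdl R U N)
    (hR : ∀ x y, R' x y ⊆ R x y) : Mdl R' U N :=
  { h with bor := fun x hx y hy s hs => h.bor x hx y hy s (hR x y hs) }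

theorem thmA (Γ : ℕ → (ℕ → ℕ) → (ℕ → ℕ) → Prop) (k : ℕ → ℕ)
    (hΓ : ∀ i, MeasurableSet {d : (ℕ → ℕ) × (ℕ → ℕ) | Γ i d.1 d.2})
    (hH : ∀ i, MeasCol (Γ i) (k i)) (P : Set (ℕ → ℕ)) (hP : P.Countable) :
    ∃ M, GoodModel M ∧ (∀ f ∈ P, code f ∈ M) ∧ ∀ i, HasCol M (Γ i) (k i) := by
  obtain ⟨U, N, hN, h⟩ := exists_Mdl (fun x y => ⋃ i, RR (Γ i) x y)
    (fun x y => Set.countable_iUnion fun i => RR_cnt (Γ i) x y)
    (Set.range (fun i => FN (Γ i) (k i)) ∪ (fun f => rlN (cst f)) '' P)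
    ((Set.countable_range _).union (hP.image _)) (by
      rintro x (⟨i, rfl⟩ | ⟨f, -, rfl⟩)
      · exact HS_FN
      · exact HS_rlN _)
  refine ⟨Mod U N, ⟨trans_Mod, cnt_Mod h, isZF_Mod h, dc_Mod h, no_uf h, no_e0 h⟩, ?_, ?_⟩
  · intro f hf
    refine ⟨rlN (cst f), hN (Or.inr ⟨f, hf, rfl⟩), val_rlN h _ f fun n m => ?_⟩
    unfold cst
    by_cases hnm : f n = m
    · rw [if_pos hnm]
      exact ⟨fun _ => hnm, fun _ => U.top⟩
    · rw [if_neg hnm]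
      exact ⟨fun h' => absurd h' U.bot, fun h' => absurd h' hnm⟩
  · intro i
    refine hasCol (h.mono fun x y => ?_) (hN (Or.inl ⟨i, rfl⟩)) (hΓ i) (hH i)
    exact Set.subset_iUnion (fun i => RR (Γ i) x y) i

end Rnd
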